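import Pool.Agent.NACert.RAM

/-!
# Ideals of right alternative Malcev-admissible algebras
-/

namespace Pool.Agent.NACert

open Fast

section ring

variable {A : Type*} [NonUnitalNonAssocRing A]

/-- `[c, x] = 0` -/
def czT : Tm := .cons true 1 (.m (.v 0) (.v 1)) (.cons false 1 (.m (.v 1) (.v 0)) .nil)

/-- `[c x, y] = 0` -/
def cz2T : Tm := .cons true 1 (.m (.m (.v 0) (.v 1)) (.v 2))
  (.cons false 1 (.m (.v 2) (.m (.v 0) (.v 1))) .nil)

/-- known identities for an element of `U` -/
def KU : Kn := .cons 0 3 raT (.cons 0 4 malT (.cons 1 1 czT (.cons 1 2 cz2T .nil)))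

/-- `[(c x) y, z]` -/
def uE : E := .cm (.mul (.mul (.v 0) (.v 1)) (.v 2)) (.v 3)

/-- certificate -/
def uC : List ℕ :=
  [1345516018, 50478867, 1075048960, 1073878000, 1611920114, 50540307, 1343373056, 1343434738,
    2685469232, 539172850, 540155890, 540094450, 1344532978, 806498544, 2418217200, 1611854834,
    271708914, 1342252016, 1343434496, 1342255856, 3222348082, 134422307, 1881272626,
    539049970, 1343373298, 1074983680, 3223393024, 33693491, 1073943280, 1342324496, 67187443,
    16843313, 201462771, 806495218, 134361587, 1342385936, 2149708338, 1882321186, 1073823520,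
    83963699, 1881211184, 1611793392, 1076953616, 1075905296, 1343357728, 2417099312,
    538124528, 1611858672, 538059520, 539030288, 50536947, 270660594, 151065139, 269558528,
    2953978162, 1610871312, 808514064, 806494770, 167846451, 1610806032, 201401123, 1611727648,
    1074865138, 84021555, 1344471536, 100802867, 1074864690, 1610871072, 184619811, 2417029920,
    1342305056, 2955023104, 807535376, 808513824, 1882259744, 2149712176, 1073819440,
    808583696, 2150760736, 539029808, 2148610338, 1880240418, 2150756898, 50336305, 1610805552,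
    2417029680, 1342304816]

/-- the elements `c` with `[c, A] = 0` and `[c A, A] = 0` -/
def InU (c : A) : Prop := (∀ x : A, c * x = x * c) ∧ ∀ x y : A, (c * x) * y = y * (c * x)

theorem RAM.u_check (h : RAM A) {c : A} (hc : InU c) (x y z : A) :
    ((c * x) * y) * z = z * ((c * x) * y) := by
  set ρ : ℕ → A := fun i => if i = 0 then c else if i = 1 then x else if i = 2 then y else z
    with hρ
  have hK : KU.Holds ρ := by
    refine ⟨fun ρ' _ => raT_holds h ρ', fun ρ' _ => malT_holds h ρ', fun ρ' h0 => ?_,
      fun ρ' h0 => ?_, trivial⟩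
    · have e : ρ' 0 = c := by rw [h0 0 (by norm_num)]; simp [hρ]
      simp [czT, Tm.ev, T.ev, bc_true, bc_false, e, hc.1 (ρ' 1)]
    · have e : ρ' 0 = c := by rw [h0 0 (by norm_num)]; simp [hρ]
      simp [cz2T, Tm.ev, T.ev, bc_true, bc_false, e, hc.2 (ρ' 1) (ρ' 2)]
  have h1 := ev_of_checkE h.tor KU hK 1 uE uC (by decide +kernel)
  rw [← sub_eq_zero]
  exact h1

theorem RAM.inU_mul_right (h : RAM A) {c : A} (hc : InU c) (x : A) : InU (c * x) :=
  ⟨fun y => hc.2 x y, fun y z => h.u_check hc x y z⟩

theorem RAM.inU_mul_left (h : RAM A) {c : A} (hc : InU c) (x : A) : InU (x * c) := by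
  rw [← hc.1 x]
  exact h.inU_mul_right hc x

/-- `A z = 0` is inherited by `z x` -/
theorem RAM.annl_mul (h : RAM A) {z : A} (hz : ∀ a : A, a * z = 0) (x a : A) :
    a * (z * x) = 0 := by
  have h1 := h.raE (fun i => if i = 0 then a else if i = 1 then z else x)
  have h2 : (a * z) * x - a * (z * x) + ((a * x) * z - a * (x * z)) = 0 := h1
  rw [hz a, hz (a * x), hz x, zero_mul, mul_zero] at h2
  simpa using h2

theorem alt_eq (x y z : A) : alt x y z = ass (x + y) (x + y) z - ass x x z - ass y y z := by
  simp only [alt, ass, add_mul, mul_add]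
  abel

end ring

section alg

variable {F A : Type*} [Field F] [NonUnitalNonAssocRing A] [Module F A] [IsScalarTower F A A]
  [SMulCommClass F A A]

/-- a two-sided ideal -/
def IsId (F : Type*) {A : Type*} [Field F] [NonUnitalNonAssocRing A] [Module F A]
    (I : Submodule F A) : Prop :=
  ∀ x ∈ I, ∀ a : A, a * x ∈ I ∧ x * a ∈ I

/-- simple algebras -/
def IsSimp (F : Type*) (A : Type*) [Field F] [NonUnitalNonAssocRing A] [Module F A] : Prop :=
  (∃ x y : A, x * y ≠ 0) ∧ ∀ I : Submodule F A, IsId F I → I = ⊥ ∨ I = ⊤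

/-- the span of the alternators -/
def altSpan (F A : Type*) [Field F] [NonUnitalNonAssocRing A] [Module F A] : Submodule F A :=
  Submodule.span F {a : A | ∃ x y : A, a = ass x x y}

omit [IsScalarTower F A A] [SMulCommClass F A A] in
theorem ass_mem (x y : A) : ass x x y ∈ altSpan F A := Submodule.subset_span ⟨x, y, rfl⟩

omit [IsScalarTower F A A] [SMulCommClass F A A] in
theorem alt_mem (x y z : A) : alt x y z ∈ altSpan F A := by
  rw [alt_eq]
  exact Submodule.sub_mem _ (Submodule.sub_mem _ (ass_mem _ _) (ass_mem _ _)) (ass_mem _ _)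

omit [IsScalarTower F A A] [SMulCommClass F A A] in
theorem zsmul_mem' {S : Submodule F A} (c : ℤ) {a : A} (ha : a ∈ S) : c • a ∈ S :=
  S.toAddSubgroup.zsmul_mem ha c

omit [IsScalarTower F A A] [SMulCommClass F A A] in
/-- division by an integer which is not zero in `F` -/
theorem mem_of_zsmul {S : Submodule F A} {c : ℤ} (hc : (c : F) ≠ 0) {a : A} (ha : c • a ∈ S) :
    a ∈ S := by
  have h1 : (c : F) • a ∈ S := by
    rw [Int.cast_smul_eq_zsmul]; exact ha
  have h2 := S.smul_mem (c : F)⁻¹ h1
  rwa [smul_smul, inv_mul_cancel₀ hc, one_smul] at h2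

theorem RAM.altSpan_ideal (h : RAM A) (h2 : (2 : F) ≠ 0) (h3 : (3 : F) ≠ 0) :
    IsId F (altSpan F A) := by
  have h24 : ((24 : ℤ) : F) ≠ 0 := by
    have : ((24 : ℤ) : F) = 2 * 2 * 2 * 3 := by norm_num
    rw [this]
    exact mul_ne_zero (mul_ne_zero (mul_ne_zero h2 h2) h2) h3
  have h6 : ((6 : ℤ) : F) ≠ 0 := by
    have : ((6 : ℤ) : F) = 2 * 3 := by norm_num
    rw [this]
    exact mul_ne_zero h2 h3
  have key1 : ∀ x y z : A, ass x x y * z ∈ altSpan F A := by
    intro x y z
    apply mem_of_zsmul h24
    rw [h.d1']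
    repeat' apply Submodule.add_mem
    all_goals first
      | exact zsmul_mem' _ (ass_mem _ _)
      | exact zsmul_mem' _ (alt_mem _ _ _)
  have key2 : ∀ x y z : A, z * ass x x y ∈ altSpan F A := by
    intro x y z
    apply mem_of_zsmul h6
    rw [h.d2']
    repeat' apply Submodule.add_mem
    all_goals first
      | exact zsmul_mem' _ (ass_mem _ _)
      | exact zsmul_mem' _ (alt_mem _ _ _)
  intro x hx a
  constructor
  · refine Submodule.span_induction (p := fun x _ => a * x ∈ altSpan F A) ?_ ?_ ?_ ?_ hx
    · rintro _ ⟨u, v, rfl⟩; exact key2 _ _ _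
    · simp
    · intro u v _ _ hu hv; rw [mul_add]; exact Submodule.add_mem _ hu hv
    · intro c u _ hu; rw [mul_smul_comm]; exact Submodule.smul_mem _ _ hu
  · refine Submodule.span_induction (p := fun x _ => x * a ∈ altSpan F A) ?_ ?_ ?_ ?_ hx
    · rintro _ ⟨u, v, rfl⟩; exact key1 _ _ _
    · simp
    · intro u v _ _ hu hv; rw [add_mul]; exact Submodule.add_mem _ hu hv
    · intro c u _ hu; rw [smul_mul_assoc]; exact Submodule.smul_mem _ _ hu

/-- the ideal `U` -/
def idU (F : Type*) {A : Type*} [Field F] [NonUnitalNonAssocRing A] [Module F A]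
    [IsScalarTower F A A] [SMulCommClass F A A] : Submodule F A where
  carrier := {c | InU c}
  zero_mem' := ⟨fun x => by simp, fun x y => by simp⟩
  add_mem' := by
    intro a b ha hb
    refine ⟨fun x => by rw [add_mul, mul_add, ha.1, hb.1], fun x y => ?_⟩
    rw [add_mul, add_mul, mul_add, ha.2, hb.2]
  smul_mem' := by
    intro c a ha
    refine ⟨fun x => by rw [smul_mul_assoc, mul_smul_comm, ha.1], fun x y => ?_⟩
    rw [smul_mul_assoc, smul_mul_assoc, mul_smul_comm, ha.2]

/-- the ideal of the elements with `A z = 0` -/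
def idN (F : Type*) {A : Type*} [Field F] [NonUnitalNonAssocRing A] [Module F A]
    [IsScalarTower F A A] [SMulCommClass F A A] : Submodule F A where
  carrier := {z | ∀ a : A, a * z = 0}
  zero_mem' := fun a => by simp
  add_mem' := by
    intro a b ha hb x
    rw [mul_add, ha, hb, add_zero]
  smul_mem' := by
    intro c a ha x
    rw [mul_smul_comm, ha, smul_zero]

/-- simple algebras of our class which are not left alternative -/
structure SR (F A : Type*) [Field F] [NonUnitalNonAssocRing A] [Module F A] : Prop where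
  ram : RAM A
  two : (2 : F) ≠ 0
  three : (3 : F) ≠ 0
  simp : IsSimp F A
  na : ∃ x y : A, ass x x y ≠ 0

/-- every element is a combination of alternators -/
theorem SR.altSpan_eq (h : SR F A) : altSpan F A = ⊤ := by
  rcases h.simp.2 _ (h.ram.altSpan_ideal h.two h.three) with h1 | h1
  · exfalso
    obtain ⟨x, y, hxy⟩ := h.na
    have := ass_mem (F := F) x y
    rw [h1, Submodule.mem_bot] at this
    exact hxy this
  · exact h1

/-- a linear property of alternators holds for all elements -/
theorem SR.induction (h : SR F A) {p : A → Prop} (h1 : ∀ x y : A, p (ass x x y))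
    (h2 : ∀ a b, p a → p b → p (a + b)) (h3 : ∀ (c : F) a, p a → p (c • a)) (a : A) : p a := by
  have ha : a ∈ altSpan F A := by rw [h.altSpan_eq]; trivial
  refine Submodule.span_induction (p := fun x _ => p x) ?_ ?_ (fun u v _ _ => h2 u v)
    (fun c u _ => h3 c u) ha
  · rintro _ ⟨u, v, rfl⟩; exact h1 u v
  · have := h1 0 0
    simpa [ass] using this

/-- `A z = 0` implies `z = 0` -/
theorem SR.annl (h : SR F A) {z : A} (hz : ∀ a : A, a * z = 0) : z = 0 := by
  have hid : IsId F (idN F (A := A)) := by
    intro x hx a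
    constructor
    · intro b
      show b * (a * x) = 0
      have h0 : ∀ a : A, a * x = 0 := hx
      rw [h0 a, mul_zero]
    · intro b
      exact h.ram.annl_mul hx a b
  rcases h.simp.2 _ hid with h1 | h1
  · have : z ∈ idN F (A := A) := hz
    rw [h1, Submodule.mem_bot] at this
    exact this
  · exfalso
    obtain ⟨x, y, hxy⟩ := h.simp.1
    have : y ∈ idN F (A := A) := by rw [h1]; trivial
    exact hxy (this x)

/-- elements of `U` vanish -/
theorem SR.inU (h : SR F A) {c : A} (hc : InU c) : c = 0 := by
  have hid : IsId F (idU F (A := A)) := by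
    intro x hx a
    exact ⟨h.ram.inU_mul_left hx a, h.ram.inU_mul_right hx a⟩
  rcases h.simp.2 _ hid with h1 | h1
  · have : c ∈ idU F (A := A) := hc
    rw [h1, Submodule.mem_bot] at this
    exact this
  · exfalso
    obtain ⟨x, y, hxy⟩ := h.na
    apply hxy
    have hx : InU x := by
      have : x ∈ idU F (A := A) := by rw [h1]; trivial
      exact this
    have hxx : InU (x * x) := h.ram.inU_mul_right hx x
    have e1 : (x * x) * y = y * (x * x) := hxx.1 y
    have e2 : x * (x * y) = (y * x) * x := by
      rw [hx.1 (x * y), hx.1 y]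
    unfold ass
    rw [e1, e2, ← h.ram.ra y x, sub_self]

/-- `z a = 0` for all `a` in a product: the left annihilator version -/
theorem SR.eq_zero_of_mul_alt (h : SR F A) {z : A} (hz : ∀ x y : A, ass x x y * z = 0) :
    z = 0 := by
  apply h.annl
  apply h.induction (p := fun a => a * z = 0) hz
  · intro a b ha hb; rw [add_mul, ha, hb, add_zero]
  · intro c a ha; rw [smul_mul_assoc, ha, smul_zero]

end alg

end Pool.Agent.NACert
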