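import Pool.Agent.NACert.Fast

/-!
# Right alternative Malcev-admissible rings without 6-torsion: first identities
-/

namespace Pool.Agent.NACert

open Fast

/-- linearised right alternative law -/
def raE : E := .add (.as (.v 0) (.v 1) (.v 2)) (.as (.v 0) (.v 2) (.v 1))

/-- linearised Malcev identity of the commutator algebra -/
def malE : E :=
  .sub (.add (.cm (.cm (.v 0) (.v 2)) (.cm (.v 1) (.v 3))) (.cm (.cm (.v 1) (.v 2)) (.cm (.v 0) (.v 3))))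
    (.add (.add (.add (.cm (.cm (.cm (.v 0) (.v 2)) (.v 3)) (.v 1))
        (.cm (.cm (.cm (.v 1) (.v 2)) (.v 3)) (.v 0)))
      (.add (.cm (.cm (.cm (.v 2) (.v 3)) (.v 0)) (.v 1))
        (.cm (.cm (.cm (.v 2) (.v 3)) (.v 1)) (.v 0))))
      (.add (.cm (.cm (.cm (.v 3) (.v 0)) (.v 1)) (.v 2))
        (.cm (.cm (.cm (.v 3) (.v 1)) (.v 0)) (.v 2))))

/-- the right alternative law -/
def raT : Tm :=
  (.cons true 1 (.m (.m (.v 0) (.v 1)) (.v 2))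
  (.cons false 1 (.m (.v 0) (.m (.v 1) (.v 2)))
  (.cons true 1 (.m (.m (.v 0) (.v 2)) (.v 1))
  (.cons false 1 (.m (.v 0) (.m (.v 2) (.v 1)))
  .nil))))

/-- the Malcev identity -/
def malT : Tm :=
  (.cons true 1 (.m (.m (.v 0) (.v 2)) (.m (.v 1) (.v 3)))
  (.cons false 1 (.m (.m (.v 0) (.v 2)) (.m (.v 3) (.v 1)))
  (.cons false 1 (.m (.m (.v 2) (.v 0)) (.m (.v 1) (.v 3)))
  (.cons true 1 (.m (.m (.v 2) (.v 0)) (.m (.v 3) (.v 1)))
  (.cons false 1 (.m (.m (.v 1) (.v 3)) (.m (.v 0) (.v 2)))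
  (.cons true 1 (.m (.m (.v 1) (.v 3)) (.m (.v 2) (.v 0)))
  (.cons true 1 (.m (.m (.v 3) (.v 1)) (.m (.v 0) (.v 2)))
  (.cons false 1 (.m (.m (.v 3) (.v 1)) (.m (.v 2) (.v 0)))
  (.cons true 1 (.m (.m (.v 1) (.v 2)) (.m (.v 0) (.v 3)))
  (.cons false 1 (.m (.m (.v 1) (.v 2)) (.m (.v 3) (.v 0)))
  (.cons false 1 (.m (.m (.v 2) (.v 1)) (.m (.v 0) (.v 3)))
  (.cons true 1 (.m (.m (.v 2) (.v 1)) (.m (.v 3) (.v 0)))
  (.cons false 1 (.m (.m (.v 0) (.v 3)) (.m (.v 1) (.v 2)))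
  (.cons true 1 (.m (.m (.v 0) (.v 3)) (.m (.v 2) (.v 1)))
  (.cons true 1 (.m (.m (.v 3) (.v 0)) (.m (.v 1) (.v 2)))
  (.cons false 1 (.m (.m (.v 3) (.v 0)) (.m (.v 2) (.v 1)))
  (.cons false 1 (.m (.m (.m (.v 0) (.v 2)) (.v 3)) (.v 1))
  (.cons true 1 (.m (.m (.m (.v 2) (.v 0)) (.v 3)) (.v 1))
  (.cons true 1 (.m (.m (.v 3) (.m (.v 0) (.v 2))) (.v 1))
  (.cons false 1 (.m (.m (.v 3) (.m (.v 2) (.v 0))) (.v 1))
  (.cons true 1 (.m (.v 1) (.m (.m (.v 0) (.v 2)) (.v 3)))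
  (.cons false 1 (.m (.v 1) (.m (.m (.v 2) (.v 0)) (.v 3)))
  (.cons false 1 (.m (.v 1) (.m (.v 3) (.m (.v 0) (.v 2))))
  (.cons true 1 (.m (.v 1) (.m (.v 3) (.m (.v 2) (.v 0))))
  (.cons false 1 (.m (.m (.m (.v 2) (.v 3)) (.v 0)) (.v 1))
  (.cons true 1 (.m (.m (.m (.v 3) (.v 2)) (.v 0)) (.v 1))
  (.cons true 1 (.m (.m (.v 0) (.m (.v 2) (.v 3))) (.v 1))
  (.cons false 1 (.m (.m (.v 0) (.m (.v 3) (.v 2))) (.v 1))
  (.cons true 1 (.m (.v 1) (.m (.m (.v 2) (.v 3)) (.v 0)))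
  (.cons false 1 (.m (.v 1) (.m (.m (.v 3) (.v 2)) (.v 0)))
  (.cons false 1 (.m (.v 1) (.m (.v 0) (.m (.v 2) (.v 3))))
  (.cons true 1 (.m (.v 1) (.m (.v 0) (.m (.v 3) (.v 2))))
  (.cons false 1 (.m (.m (.m (.v 3) (.v 0)) (.v 1)) (.v 2))
  (.cons true 1 (.m (.m (.m (.v 0) (.v 3)) (.v 1)) (.v 2))
  (.cons true 1 (.m (.m (.v 1) (.m (.v 3) (.v 0))) (.v 2))
  (.cons false 1 (.m (.m (.v 1) (.m (.v 0) (.v 3))) (.v 2))
  (.cons true 1 (.m (.v 2) (.m (.m (.v 3) (.v 0)) (.v 1)))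
  (.cons false 1 (.m (.v 2) (.m (.m (.v 0) (.v 3)) (.v 1)))
  (.cons false 1 (.m (.v 2) (.m (.v 1) (.m (.v 3) (.v 0))))
  (.cons true 1 (.m (.v 2) (.m (.v 1) (.m (.v 0) (.v 3))))
  (.cons false 1 (.m (.m (.m (.v 1) (.v 2)) (.v 3)) (.v 0))
  (.cons true 1 (.m (.m (.m (.v 2) (.v 1)) (.v 3)) (.v 0))
  (.cons true 1 (.m (.m (.v 3) (.m (.v 1) (.v 2))) (.v 0))
  (.cons false 1 (.m (.m (.v 3) (.m (.v 2) (.v 1))) (.v 0))
  (.cons true 1 (.m (.v 0) (.m (.m (.v 1) (.v 2)) (.v 3)))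
  (.cons false 1 (.m (.v 0) (.m (.m (.v 2) (.v 1)) (.v 3)))
  (.cons false 1 (.m (.v 0) (.m (.v 3) (.m (.v 1) (.v 2))))
  (.cons true 1 (.m (.v 0) (.m (.v 3) (.m (.v 2) (.v 1))))
  (.cons false 1 (.m (.m (.m (.v 2) (.v 3)) (.v 1)) (.v 0))
  (.cons true 1 (.m (.m (.m (.v 3) (.v 2)) (.v 1)) (.v 0))
  (.cons true 1 (.m (.m (.v 1) (.m (.v 2) (.v 3))) (.v 0))
  (.cons false 1 (.m (.m (.v 1) (.m (.v 3) (.v 2))) (.v 0))
  (.cons true 1 (.m (.v 0) (.m (.m (.v 2) (.v 3)) (.v 1)))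
  (.cons false 1 (.m (.v 0) (.m (.m (.v 3) (.v 2)) (.v 1)))
  (.cons false 1 (.m (.v 0) (.m (.v 1) (.m (.v 2) (.v 3))))
  (.cons true 1 (.m (.v 0) (.m (.v 1) (.m (.v 3) (.v 2))))
  (.cons false 1 (.m (.m (.m (.v 3) (.v 1)) (.v 0)) (.v 2))
  (.cons true 1 (.m (.m (.m (.v 1) (.v 3)) (.v 0)) (.v 2))
  (.cons true 1 (.m (.m (.v 0) (.m (.v 3) (.v 1))) (.v 2))
  (.cons false 1 (.m (.m (.v 0) (.m (.v 1) (.v 3))) (.v 2))
  (.cons true 1 (.m (.v 2) (.m (.m (.v 3) (.v 1)) (.v 0)))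
  (.cons false 1 (.m (.v 2) (.m (.m (.v 1) (.v 3)) (.v 0)))
  (.cons false 1 (.m (.v 2) (.m (.v 0) (.m (.v 3) (.v 1))))
  (.cons true 1 (.m (.v 2) (.m (.v 0) (.m (.v 1) (.v 3))))
  .nil))))))))))))))))))))))))))))))))))))))))))))))))))))))))))))))))

/-- the two defining identities -/
def K0 : Kn := .cons 0 3 raT (.cons 0 4 malT .nil)

variable {A : Type*} [NonUnitalNonAssocRing A]

/-- commutator -/
def cmm (x y : A) : A := x * y - y * x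

/-- right alternative Malcev-admissible rings without 6-torsion -/
structure RAM (A : Type*) [NonUnitalNonAssocRing A] : Prop where
  tor : NoTor A
  ra : ∀ x y : A, (x * y) * y = x * (y * y)
  mal : ∀ x y z : A, cmm (cmm x y) (cmm x z) =
    cmm (cmm (cmm x y) z) x + cmm (cmm (cmm y z) x) x + cmm (cmm (cmm z x) x) y

theorem RAM.raE (h : RAM A) (ρ : ℕ → A) : raE.ev ρ = 0 := by
  have h1 := h.ra (ρ 0) (ρ 1 + ρ 2)
  have h2 := h.ra (ρ 0) (ρ 1)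
  have h3 := h.ra (ρ 0) (ρ 2)
  simp only [NACert.raE, E.ev]
  simp only [mul_add, add_mul] at h1
  rw [h2, h3] at h1
  have h4 : ρ 0 * ρ 1 * ρ 2 + ρ 0 * ρ 2 * ρ 1 = ρ 0 * (ρ 1 * ρ 2) + ρ 0 * (ρ 2 * ρ 1) := by
    have h5 : (ρ 0 * (ρ 1 * ρ 1) + ρ 0 * ρ 2 * ρ 1 + (ρ 0 * ρ 1 * ρ 2 + ρ 0 * (ρ 2 * ρ 2)))
        - (ρ 0 * (ρ 1 * ρ 1) + ρ 0 * (ρ 2 * ρ 1) + (ρ 0 * (ρ 1 * ρ 2) + ρ 0 * (ρ 2 * ρ 2))) = 0 := by
      rw [h1]; exact sub_self _
    rw [← sub_eq_zero, ← h5]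
    abel
  rw [← sub_eq_zero] at h4
  rw [← h4]
  abel

theorem cmm_add_left (x y z : A) : cmm (x + y) z = cmm x z + cmm y z := by
  simp only [cmm, add_mul, mul_add]; abel
theorem cmm_add_right (x y z : A) : cmm x (y + z) = cmm x y + cmm x z := by
  simp only [cmm, add_mul, mul_add]; abel

theorem RAM.malE (h : RAM A) (ρ : ℕ → A) : malE.ev ρ = 0 := by
  have h1 := h.mal (ρ 0 + ρ 1) (ρ 2) (ρ 3)
  have h2 := h.mal (ρ 0) (ρ 2) (ρ 3)
  have h3 := h.mal (ρ 1) (ρ 2) (ρ 3)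
  show (cmm (cmm (ρ 0) (ρ 2)) (cmm (ρ 1) (ρ 3)) + cmm (cmm (ρ 1) (ρ 2)) (cmm (ρ 0) (ρ 3))) -
    (((cmm (cmm (cmm (ρ 0) (ρ 2)) (ρ 3)) (ρ 1) + cmm (cmm (cmm (ρ 1) (ρ 2)) (ρ 3)) (ρ 0)) +
      (cmm (cmm (cmm (ρ 2) (ρ 3)) (ρ 0)) (ρ 1) + cmm (cmm (cmm (ρ 2) (ρ 3)) (ρ 1)) (ρ 0))) +
      (cmm (cmm (cmm (ρ 3) (ρ 0)) (ρ 1)) (ρ 2) + cmm (cmm (cmm (ρ 3) (ρ 1)) (ρ 0)) (ρ 2))) = 0
  simp only [cmm_add_left, cmm_add_right] at h1
  rw [← sub_eq_zero] at h1 h2 h3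
  have h4 := congrArg₂ (· - ·) h1 (congrArg₂ (· + ·) h2 h3)
  simp only [add_zero, sub_zero] at h4
  rw [← h4]
  abel

theorem raT_holds (h : RAM A) (ρ : ℕ → A) : raT.ev ρ = 0 := by
  refine Fast.ev_of_check h.tor (.cons 0 3 (ofP NACert.raE.p) .nil) ⟨fun ρ' _ => ?_, trivial⟩ 0 raT
    [1057024] (by decide +kernel)
  rw [ev_ofP, evP_p]
  exact h.raE ρ'

theorem malT_holds (h : RAM A) (ρ : ℕ → A) : malT.ev ρ = 0 := by
  refine Fast.ev_of_check h.tor (.cons 0 4 (ofP NACert.malE.p) .nil) ⟨fun ρ' _ => ?_, trivial⟩ 0 malT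
    [16982272] (by decide +kernel)
  rw [ev_ofP, evP_p]
  exact h.malE ρ'

theorem RAM.k0 (h : RAM A) (ρ : ℕ → A) : K0.Holds ρ :=
  ⟨fun ρ' _ => raT_holds h ρ', fun ρ' _ => malT_holds h ρ', trivial⟩

/-- `(a, b, c) + (b, a, c)` -/
@[reducible] def E.al (a b c : E) : E := .add (.as a b c) (.as b a c)

/-- the expression of `24 (x,x,y)z` by alternators -/
def d1E : E :=
  let x : E := .v 0
  let y : E := .v 1
  let z : E := .v 2
  .sub (.sm 24 (.mul (.as x x y) z))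
    (.add (.add (.add (.add (.add (.add (.add (.add (.add (.sm 8 (.as x x (.mul y z))) (.sm 8 (.as x x (.mul z y))))
      (.sm 1 (.al (.mul x x) y z))) (.sm (-5) (.al (.mul x x) z y))) (.sm (-15) (.al x (.mul x y) z)))
      (.sm 5 (.al x (.mul y x) z))) (.sm (-4) (.al (.mul x y) z x))) (.sm 3 (.al x (.mul x z) y)))
      (.sm (-1) (.al x (.mul z x) y))) (.sm (-4) (.al (.mul x z) y x)))

/-- certificate -/
def d1C : List ℕ :=
  [231660978416, 135292584448, 28722729200, 3003121953, 9395307024, 86704726256, 48318447904,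
    96368467712, 3607105569, 154350518800, 38386340352, 19327430400, 193273664000, 77309542688,
    202939363584, 212334608640, 106300633344, 86705762816, 67377426944, 33822876144,
    52881789680, 38388428816, 24161353744, 48319562240, 57713815568, 33555611680, 67645796880,
    38387380256, 9397469440, 4564516896, 57982185504, 53152448528, 106032066848]

theorem RAM.d1 (h : RAM A) (ρ : ℕ → A) : d1E.ev ρ = 0 :=
  ev_of_checkE h.tor K0 (h.k0 ρ) 2 d1E d1C (by decide +kernel)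

/-- the expression of `6 z(x,x,y)` by alternators -/
def d2E : E :=
  let x : E := .v 0
  let y : E := .v 1
  let z : E := .v 2
  .sub (.sm 6 (.mul z (.as x x y)))
    (.add (.add (.add (.add (.add (.add (.add (.add (.add (.add (.sm (-4) (.as x x (.mul y z))) (.sm (-4) (.as x x (.mul z y))))
      (.sm 1 (.al (.mul x x) y z))) (.sm 1 (.al (.mul x x) z y))) (.sm 3 (.al x (.mul x y) z)))
      (.sm 5 (.al x (.mul y x) z))) (.sm 2 (.al (.mul x y) z x))) (.sm 6 (.al (.mul y x) z x)))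
      (.sm 3 (.al x (.mul x z) y))) (.sm 5 (.al x (.mul z x) y))) (.sm 2 (.al (.mul x z) y x)))

/-- certificate -/
def d2C : List ℕ :=
  [57983238384, 86973223152, 603980065, 115964248560, 86973161712, 57982124784, 38386409216,
    38386401808, 38386340352, 38386347776, 38386401568, 28993188096, 38388433152, 38387384832,
    38386405888, 48318574848, 28992139776, 48318509568, 19329511440, 4565565456, 9395307024,
    4831846896, 9396421120, 4564582432, 9663738384, 38387380256, 24160305184, 67379527936,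
    67377365280, 33822872304, 57982185504, 33556660240, 67645796640]

theorem RAM.d2 (h : RAM A) (ρ : ℕ → A) : d2E.ev ρ = 0 :=
  ev_of_checkE h.tor K0 (h.k0 ρ) 2 d2E d2C (by decide +kernel)

/-- associator -/
def ass (x y z : A) : A := (x * y) * z - x * (y * z)

/-- linearised alternator -/
def alt (x y z : A) : A := ass x y z + ass y x z

theorem RAM.d1' (h : RAM A) (x y z : A) : (24 : ℤ) • (ass x x y * z) =
    (8 : ℤ) • ass x x (y * z) + (8 : ℤ) • ass x x (z * y) + (1 : ℤ) • alt (x * x) y z +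
    (-5 : ℤ) • alt (x * x) z y + (-15 : ℤ) • alt x (x * y) z + (5 : ℤ) • alt x (y * x) z +
    (-4 : ℤ) • alt (x * y) z x + (3 : ℤ) • alt x (x * z) y + (-1 : ℤ) • alt x (z * x) y +
    (-4 : ℤ) • alt (x * z) y x := by
  have h1 := h.d1 (fun i => if i = 0 then x else if i = 1 then y else z)
  rw [← sub_eq_zero]
  exact h1

theorem RAM.d2' (h : RAM A) (x y z : A) : (6 : ℤ) • (z * ass x x y) =
    (-4 : ℤ) • ass x x (y * z) + (-4 : ℤ) • ass x x (z * y) + (1 : ℤ) • alt (x * x) y z +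
    (1 : ℤ) • alt (x * x) z y + (3 : ℤ) • alt x (x * y) z + (5 : ℤ) • alt x (y * x) z +
    (2 : ℤ) • alt (x * y) z x + (6 : ℤ) • alt (y * x) z x + (3 : ℤ) • alt x (x * z) y +
    (5 : ℤ) • alt x (z * x) y + (2 : ℤ) • alt (x * z) y x := by
  have h1 := h.d2 (fun i => if i = 0 then x else if i = 1 then y else z)
  rw [← sub_eq_zero]
  exact h1

end Pool.Agent.NACert
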