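import Pool.Agent.NACert.OmegaC

/-!
# Elements whose commutator map is a derivation: `[A, Ω] ⊆ Ω` in simple algebras

Let `T = (A, Ω, A)`, `M = [A, Ω]` and `V = T + M`.  In a simple algebra of our class `V` is an
abelian ideal of the commutator algebra, the associators with two entries in `V` vanish, and those
with one entry in `V` are in `V`.  The element `v = (w, w, [z, t])` satisfies `v A ⊆ V`, which
implies `v V = 0`, `v A = 0` and `v = 0`.
-/

namespace Pool.Agent.NACert

section ring

variable {A : Type*} [NonUnitalNonAssocRing A]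

/-- the Lie nucleus -/
def LN (n : A) : Prop := ∀ a b : A, jc n a b = 0

theorem LN.add {m n : A} (hm : LN m) (hn : LN n) : LN (m + n) := fun a b => by
  have e : jc (m + n) a b = jc m a b + jc n a b := by
    simp only [jc, cmm_add_left, cmm_add_right]; abel
  rw [e, hm, hn, add_zero]

/-- an identity of right alternative algebras -/
theorem RAL.t4 (h : RAL A) (x y z w : A) :
    ass (x * y) z w + ass x y (cmm z w) = x * ass y z w + ass x z w * y := by
  have t1 := teich x y z w
  have m1 := h.moufang x (y + w) z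
  have m2 := h.moufang x y z
  have m3 := h.moufang x w z
  simp only [ass_add_mid, ass_add_right, add_mul, mul_add] at m1
  have e1 := h.sk x (y * z) w
  have e2 : ass x y (cmm z w) = ass x y (z * w) - ass x y (w * z) := by
    rw [cmm, ass_sub_right]
  have e3 := h.sk x w z
  rw [e1] at t1
  rw [m2, m3] at m1
  rw [e2]
  rw [e3] at m1
  simp only [neg_mul] at m1
  linear_combination (norm := module) t1 - m1

theorem cmm_zsmul_left (c : ℤ) (x y : A) : cmm (c • x) y = c • cmm x y := by
  simp only [cmm, smul_mul_assoc, mul_smul_comm, smul_sub]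

theorem ass_zsmul_right (c : ℤ) (x y z : A) : ass x y (c • z) = c • ass x y z := by
  simp only [ass, mul_smul_comm, smul_sub]

end ring

section alg

variable {F A : Type*} [Field F] [NonUnitalNonAssocRing A] [Module F A] [IsScalarTower F A A]
  [SMulCommClass F A A]

/-- `[[A, Ω], N] = 0` for the Lie nucleus `N` -/
theorem SR.mn (h : SR F A) {t n : A} (ht : Om t) (hn : LN n) (a : A) : cmm (cmm a t) n = 0 := by
  apply h.induction (p := fun a => cmm (cmm a t) n = 0)
  · intro x z
    have h1 := h.ram.oc4 ht x z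
    have h2 := h.ram.nj hn (t * x + x * t) x z
    have h3 : (12 : ℤ) • cmm (cmm (ass x t z) x) n = 0 := by
      rw [← cmm_zsmul_left]
      have e : (12 : ℤ) • cmm (ass x t z) x = - jc (t * x + x * t) x z :=
        (neg_eq_of_add_eq_zero_right h1).symm
      rw [e]
      have e2 : cmm (- jc (t * x + x * t) x z) n = - cmm (jc (t * x + x * t) x z) n := by
        simp only [cmm, neg_mul, mul_neg]; abel
      rw [e2, h2, neg_zero]
    have h4 : cmm (cmm (ass x t z) x) n = 0 := by
      apply h.ram.tor.three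
      apply h.ram.tor.two
      apply h.ram.tor.two
      rw [smul_smul, smul_smul]
      exact h3
    rw [h.ram.om4 ht, cmm_zsmul_left, h4, smul_zero]
  · intro a b ha hb
    rw [cmm_add_left, cmm_add_left, ha, hb, add_zero]
  · intro c a ha
    have e : cmm (cmm (c • a) t) n = c • cmm (cmm a t) n := by
      simp only [cmm, smul_mul_assoc, mul_smul_comm, smul_sub, mul_sub, sub_mul]
    rw [e, ha, smul_zero]

/-- `[(A, Ω, A), Ω] = 0` -/
theorem SR.e0 (h : SR F A) {t u : A} (ht : Om t) (hu : Om u) (a b : A) :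
    cmm (ass a t b) u = 0 := by
  have hr := h.ram.ral
  have hth := ht.th hr a b
  have n2 : ∀ x y : A, ass x (cmm (ass a t b) u) y = 0 := fun x y => hth.n2 hu hr x y
  have hOm : Om (cmm (ass a t b) u) := hth.cmm hu hr
  have hc : ∀ x : A, cmm x (cmm (ass a t b) u) = 0 := by
    apply h.induction (p := fun x => cmm x (cmm (ass a t b) u) = 0)
    · intro x z
      rw [h.ram.om4 hOm, n2]
      simp [cmm]
    · intro x y hx hy
      rw [cmm_add_left, hx, hy, add_zero]
    · intro c x hx
      have e : cmm (c • x) (cmm (ass a t b) u) = c • cmm x (cmm (ass a t b) u) := by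
        simp only [cmm, smul_mul_assoc, mul_smul_comm, smul_sub]
      rw [e, hx, smul_zero]
  exact h.zc_sq_zero ⟨fun x => (sub_eq_zero.mp (hc x)).symm, fun x y => hth.n1 hu hr x y, n2,
    fun x y => hth.n3 hu hr x y⟩ (ht.esq hu hr a b)

theorem SR.thm (h : SR F A) {t u : A} (ht : Om t) (hu : Om u) (a b : A) :
    ass (cmm a t) u b = 0 := by
  apply h.ram.tor.two
  rw [← ht.eth hu h.ram.ral, h.e0 ht hu]

variable (F A) in
/-- the space `V` -/
def VS : Submodule F A := Submodule.span F {x : A | ∃ t : A, Om t ∧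
  ((∃ a b : A, x = ass a t b) ∨ ∃ a : A, x = cmm a t)}

omit [IsScalarTower F A A] [SMulCommClass F A A] in
theorem th_mem_VS {t : A} (ht : Om t) (a b : A) : ass a t b ∈ VS F A :=
  Submodule.subset_span ⟨t, ht, .inl ⟨a, b, rfl⟩⟩

omit [IsScalarTower F A A] [SMulCommClass F A A] in
theorem cm_mem_VS {t : A} (ht : Om t) (a : A) : cmm a t ∈ VS F A :=
  Submodule.subset_span ⟨t, ht, .inr ⟨a, rfl⟩⟩

omit [IsScalarTower F A A] [SMulCommClass F A A] in
theorem VS_ind {p : A → Prop} (h1 : ∀ t a b : A, Om t → p (ass a t b))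
    (h2 : ∀ t a : A, Om t → p (cmm a t)) (h3 : ∀ a b, p a → p b → p (a + b))
    (h4 : ∀ (c : F) a, p a → p (c • a)) {v : A} (hv : v ∈ VS F A) : p v := by
  refine Submodule.span_induction (p := fun x _ => p x) ?_ ?_ (fun a b _ _ => h3 a b)
    (fun c a _ => h4 c a) hv
  · rintro _ ⟨t, ht, ⟨a, b, rfl⟩ | ⟨a, rfl⟩⟩
    · exact h1 t a b ht
    · exact h2 t a ht
  · have := h1 0 0 0 Om.zero
    simpa [ass] using this

/-- `(V, Ω, A) = 0` -/
theorem SR.v1 (h : SR F A) {v u : A} (hv : v ∈ VS F A) (hu : Om u) (b : A) : ass v u b = 0 := by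
  refine VS_ind (F := F) (p := fun v => ass v u b = 0) ?_ ?_ ?_ ?_ hv
  · intro t a c ht
    exact (ht.th h.ram.ral a c).z1 hu h.ram.ral b
  · intro t a ht
    exact h.thm ht hu a b
  · intro x y hx hy
    rw [ass_add_left, hx, hy, add_zero]
  · intro c x hx
    have e : ass (c • x) u b = c • ass x u b := by
      simp only [ass, smul_mul_assoc, smul_sub]
    rw [e, hx, smul_zero]

theorem SR.v1' (h : SR F A) {v u : A} (hv : v ∈ VS F A) (hu : Om u) (b : A) : ass b u v = 0 := by
  rw [hu.skew h.ram.ral, h.v1 hv hu, neg_zero]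

/-- `[V, Ω] = 0` -/
theorem SR.v2 (h : SR F A) {v u : A} (hv : v ∈ VS F A) (hu : Om u) : cmm v u = 0 := by
  refine VS_ind (F := F) (p := fun v => cmm v u = 0) ?_ ?_ ?_ ?_ hv
  · intro t a c ht
    exact h.e0 ht hu a c
  · intro t a ht
    exact h.mn ht (fun b c => om_jc hu b c) a
  · intro x y hx hy
    rw [cmm_add_left, hx, hy, add_zero]
  · intro c x hx
    have e : cmm (c • x) u = c • cmm x u := by
      simp only [cmm, smul_mul_assoc, mul_smul_comm, smul_sub]
    rw [e, hx, smul_zero]

/-- `V` is in the Lie nucleus -/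
theorem SR.v3 (h : SR F A) {v : A} (hv : v ∈ VS F A) : LN v := by
  refine VS_ind (F := F) (p := fun v => LN v) ?_ ?_ ?_ ?_ hv
  · intro t a c ht
    exact fun x y => om_jc (ht.th h.ram.ral a c) x y
  · intro t a ht
    exact fun x y => h.ram.ojcm ht a x y
  · intro x y hx hy
    exact hx.add hy
  · intro c x hx a b
    have e : jc (c • x) a b = c • jc x a b := by
      simp only [jc, cmm, smul_mul_assoc, mul_smul_comm, smul_sub, smul_add, mul_sub, sub_mul]
    rw [e, hx, smul_zero]

/-- `[V, V] = 0` -/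
theorem SR.v4 (h : SR F A) {v w : A} (hv : v ∈ VS F A) (hw : w ∈ VS F A) : cmm v w = 0 := by
  refine VS_ind (F := F) (p := fun v => cmm v w = 0) ?_ ?_ ?_ ?_ hv
  · intro t a c ht
    rw [cmm_skew, h.v2 hw (ht.th h.ram.ral a c), neg_zero]
  · intro t a ht
    exact h.mn ht (h.v3 hw) a
  · intro x y hx hy
    rw [cmm_add_left, hx, hy, add_zero]
  · intro c x hx
    have e : cmm (c • x) w = c • cmm x w := by
      simp only [cmm, smul_mul_assoc, mul_smul_comm, smul_sub]
    rw [e, hx, smul_zero]

omit [IsScalarTower F A A] [SMulCommClass F A A] in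
theorem RAM.kap_mem (h : RAM A) {t : A} (ht : Om t) (a b c : A) :
    cmm (ass a t b) c ∈ VS F A := by
  rw [cmm_skew]
  exact Submodule.neg_mem _ (cm_mem_VS (ht.th h.ral a b) c)

omit [IsScalarTower F A A] [SMulCommClass F A A] in
theorem RAM.q3_mem (h : RAM A) {t : A} (ht : Om t) (w z x : A) : q3R t w z x ∈ VS F A := by
  have k := fun a b c => h.kap_mem (F := F) ht a b c
  have s := fun a b => th_mem_VS (F := F) ht a b
  have j : cmm w t * jc x w z + jc x w z * cmm w t ∈ VS F A := by
    have e0 : cmm (jc x w z) t = 0 := h.nj (fun b c => om_jc ht b c) x w z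
    have e1 := ht w (jc x w z)
    have e2 := ht (jc x w z) w
    rw [e0, mul_zero, zero_add] at e1
    rw [e0, zero_mul, add_zero] at e2
    rw [← e1, ← e2]
    exact Submodule.add_mem _ (cm_mem_VS ht _) (cm_mem_VS ht _)
  unfold q3R th3
  exact Submodule.sub_mem _ (Submodule.add_mem _ (Submodule.add_mem _ (Submodule.sub_mem _
    (Submodule.add_mem _ (Submodule.add_mem _ (Submodule.sub_mem _ (Submodule.add_mem _
    (zsmul_mem' _ (k _ _ _)) (zsmul_mem' _ (k _ _ _))) (zsmul_mem' _ (k _ _ _)))
    (zsmul_mem' _ (k _ _ _))) (zsmul_mem' _ (k _ _ _))) (zsmul_mem' _ (k _ _ _)))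
    (zsmul_mem' _ (Submodule.add_mem _ (Submodule.add_mem _ (s _ _) (s _ _)) (s _ _)))) j)
    (zsmul_mem' _ (s _ _))

/-- `[V, A] ⊆ V` -/
theorem SR.v5 (h : SR F A) {v : A} (hv : v ∈ VS F A) (c : A) : cmm v c ∈ VS F A := by
  have h2' : ((2 : ℤ) : F) ≠ 0 := by simpa using h.two
  refine VS_ind (F := F) (p := fun v => cmm v c ∈ VS F A) ?_ ?_ ?_ ?_ hv
  · intro t a b ht
    exact h.ram.kap_mem ht a b c
  · intro t a ht
    apply h.induction (p := fun a => cmm (cmm a t) c ∈ VS F A)
    · intro x z
      rw [h.ram.om4 ht, cmm_zsmul_left]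
      apply zsmul_mem'
      apply mem_of_zsmul h2'
      apply mem_of_zsmul h2'
      rw [smul_smul]
      have := h.ram.q3_mem (F := F) ht x z c
      rw [← h.ram.oq3 ht] at this
      exact this
    · intro a b ha hb
      rw [cmm_add_left, cmm_add_left]
      exact Submodule.add_mem _ ha hb
    · intro r a ha
      have e : cmm (cmm (r • a) t) c = r • cmm (cmm a t) c := by
        simp only [cmm, smul_mul_assoc, mul_smul_comm, smul_sub, mul_sub, sub_mul]
      rw [e]
      exact Submodule.smul_mem _ _ ha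
  · intro x y hx hy
    rw [cmm_add_left]
    exact Submodule.add_mem _ hx hy
  · intro r x hx
    have e : cmm (r • x) c = r • cmm x c := by
      simp only [cmm, smul_mul_assoc, mul_smul_comm, smul_sub]
    rw [e]
    exact Submodule.smul_mem _ _ hx

theorem SR.v5' (h : SR F A) {v : A} (hv : v ∈ VS F A) (c : A) : cmm c v ∈ VS F A := by
  rw [cmm_skew]
  exact Submodule.neg_mem _ (h.v5 hv c)

/-- `θ(v b, c) = v θ(b, c)` -/
theorem SR.v6 (h : SR F A) {v t : A} (hv : v ∈ VS F A) (ht : Om t) (b c : A) :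
    ass (v * b) t c = v * ass b t c := by
  have hr := h.ram.ral
  have m1 := ht.mid hr (v + c) b
  have m2 := ht.mid hr v b
  have m3 := ht.mid hr c b
  simp only [add_mul, mul_add, ass_add_left, ass_add_right] at m1
  simp only [h.v1 hv ht, zero_mul] at m1 m2
  rw [m3] at m1
  rw [ht.skew hr c b, ht.skew hr c (v * b)] at m1
  have e := h.v2 hv (ht.th hr b c)
  have e' : v * ass b t c = ass b t c * v := sub_eq_zero.mp e
  rw [e']
  have m4 : ass v t (c * b) = 0 := h.v1 hv ht _
  have m5 : ass v t (v * b) = 0 := h.v1 hv ht _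
  rw [neg_mul] at m1
  linear_combination (norm := module) m1

/-- `(V, M, A) = 0` -/
theorem SR.v7 (h : SR F A) {v t : A} (hv : v ∈ VS F A) (ht : Om t) (c b : A) :
    ass v (cmm c t) b = 0 := by
  have h1 := ht.der h.ram.ral v b c
  rw [h.v6 hv ht, h.v1 hv ht, zero_mul, add_zero] at h1
  have h2 : ass v (cmm t c) b = 0 := by
    linear_combination (norm := module) - h1
  have e : ass v (cmm c t) b = - ass v (cmm t c) b := by
    simp only [ass, cmm, mul_sub, sub_mul]; abel
  rw [e, h2, neg_zero]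

/-- `(V, V, A) = 0` -/
theorem SR.v8 (h : SR F A) {v w : A} (hv : v ∈ VS F A) (hw : w ∈ VS F A) (a : A) :
    ass v w a = 0 := by
  refine VS_ind (F := F) (p := fun w => ass v w a = 0) ?_ ?_ ?_ ?_ hw
  · intro t b c ht
    exact h.v1 hv (ht.th h.ram.ral b c) a
  · intro t c ht
    exact h.v7 hv ht c a
  · intro x y hx hy
    rw [ass_add_mid, hx, hy, add_zero]
  · intro r x hx
    have e : ass v (r • x) a = r • ass v x a := by
      simp only [ass, smul_mul_assoc, mul_smul_comm, smul_sub]
    rw [e, hx, smul_zero]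

/-- `(A, V, A) ⊆ V` -/
theorem SR.v9 (h : SR F A) {v : A} (hv : v ∈ VS F A) (a b : A) : ass a v b ∈ VS F A := by
  have h2' : ((2 : ℤ) : F) ≠ 0 := by simpa using h.two
  refine VS_ind (F := F) (p := fun v => ass a v b ∈ VS F A) ?_ ?_ ?_ ?_ hv
  · intro t c d ht
    exact th_mem_VS (ht.th h.ram.ral c d) a b
  · intro t c ht
    apply mem_of_zsmul h2'
    rw [h.ram.oc6 ht]
    exact Submodule.sub_mem _ (Submodule.sub_mem _ (Submodule.add_mem _
      (zsmul_mem' _ (h.ram.kap_mem ht _ _ _)) (th_mem_VS ht _ _)) (th_mem_VS ht _ _))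
      (th_mem_VS ht _ _)
  · intro x y hx hy
    rw [ass_add_mid]
    exact Submodule.add_mem _ hx hy
  · intro r x hx
    have e : ass a (r • x) b = r • ass a x b := by
      simp only [ass, smul_mul_assoc, mul_smul_comm, smul_sub]
    rw [e]
    exact Submodule.smul_mem _ _ hx

omit [SMulCommClass F A A] in
/-- `(V, A, A) ⊆ V` -/
theorem SR.v10 (h : SR F A) {v : A} (hv : v ∈ VS F A) (a b : A) : ass v a b ∈ VS F A := by
  refine VS_ind (F := F) (p := fun v => ass v a b ∈ VS F A) ?_ ?_ ?_ ?_ hv
  · intro t c d ht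
    rw [(ht.th h.ram.ral c d).as1 h.ram.ral]
    exact zsmul_mem' _ (th_mem_VS (ht.th h.ram.ral c d) a b)
  · intro t c ht
    rw [h.ram.oc5 ht]
    exact Submodule.add_mem _ (Submodule.sub_mem _ (th_mem_VS ht _ _)
      (h.ram.kap_mem ht _ _ _)) (h.ram.kap_mem ht _ _ _)
  · intro x y hx hy
    rw [ass_add_left]
    exact Submodule.add_mem _ hx hy
  · intro r x hx
    have e : ass (r • x) a b = r • ass x a b := by
      simp only [ass, smul_mul_assoc, smul_sub]
    rw [e]
    exact Submodule.smul_mem _ _ hx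

theorem SR.v11 (h : SR F A) {v : A} (hv : v ∈ VS F A) (a b : A) : ass a b v ∈ VS F A := by
  rw [h.ram.ral.sk]
  exact Submodule.neg_mem _ (h.v9 hv a b)

/-- `V + V A` is an ideal -/
theorem SR.VS_isId (h : SR F A) : IsId F (idI (VS F A)) := by
  have key1 : ∀ b : A, idI (VS F A) ≤ (idI (VS F A)).comap (LinearMap.mulRight F b) := by
    intro b
    apply idI_le
    · intro t ht
      exact mul_mem_idI ht b
    · intro t ht a
      have e : (t * a) * b = t * (a * b) + ass t a b := by simp only [ass]; abel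
      show (t * a) * b ∈ idI (VS F A)
      rw [e]
      exact Submodule.add_mem _ (mul_mem_idI ht _) (mem_idI (h.v10 ht _ _))
  have key2 : ∀ b : A, idI (VS F A) ≤ (idI (VS F A)).comap (LinearMap.mulLeft F b) := by
    intro b
    apply idI_le
    · intro t ht
      show b * t ∈ idI (VS F A)
      have e : b * t = t * b - cmm t b := by simp only [cmm]; abel
      rw [e]
      exact Submodule.sub_mem _ (mul_mem_idI ht b) (mem_idI (h.v5 ht b))
    · intro t ht a
      show b * (t * a) ∈ idI (VS F A)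
      have e : b * (t * a) = t * (b * a) + ass t b a - ass b t a - cmm t b * a := by
        simp only [cmm, ass, sub_mul]; abel
      rw [e]
      exact Submodule.sub_mem _ (Submodule.sub_mem _ (Submodule.add_mem _
        (mul_mem_idI ht _) (mem_idI (h.v10 ht _ _))) (mem_idI (h.v9 ht _ _)))
        (mul_mem_idI (h.v5 ht b) a)
  intro x hx a
  exact ⟨key2 a hx, key1 a hx⟩

/-- elements of `V` with `v A ⊆ V` -/
theorem SR.v12 (h : SR F A) {v : A} (hv : v ∈ VS F A) (hA : ∀ y : A, v * y ∈ VS F A) (y : A) :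
    v * y = 0 := by
  -- `v V = 0`
  have s1 : ∀ w ∈ VS F A, v * w = 0 := by
    intro w hw
    refine VS_ind (F := F) (p := fun w => v * w = 0) ?_ ?_ ?_ ?_ hw
    · intro t a b ht
      rw [← h.v6 hv ht, h.v1 (hA a) ht]
    · intro t a ht
      have e := ht v a
      rw [h.v2 (hA a) ht, h.v2 hv ht, zero_mul, add_zero] at e
      exact e.symm
    · intro a b ha hb
      rw [mul_add, ha, hb, add_zero]
    · intro r a ha
      rw [mul_smul_comm, ha, smul_zero]
  rcases h.simp.2 _ h.VS_isId with h1 | h1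
  · have : v ∈ idI (VS F A) := mem_idI hv
    rw [h1, Submodule.mem_bot] at this
    rw [this, zero_mul]
  · have hle : idI (VS F A) ≤ (LinearMap.mulLeft F v).ker := by
      apply idI_le
      · intro w hw
        exact s1 w hw
      · intro w hw a
        show v * (w * a) = 0
        have e : v * (w * a) = (v * w) * a - ass v w a := by simp only [ass]; abel
        rw [e, s1 w hw, zero_mul, h.v8 hv hw, sub_zero]
    have : y ∈ idI (VS F A) := by rw [h1]; trivial
    exact hle this

variable (F A) in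
/-- the space of the elements of `V` with `v A ⊆ V` -/
def VA : Submodule F A where
  carrier := {v | v ∈ VS F A ∧ ∀ y : A, v * y ∈ VS F A}
  zero_mem' := ⟨Submodule.zero_mem _, fun y => by rw [zero_mul]; exact Submodule.zero_mem _⟩
  add_mem' := by
    rintro a b ⟨h1, h2⟩ ⟨h3, h4⟩
    exact ⟨Submodule.add_mem _ h1 h3, fun y => by
      rw [add_mul]; exact Submodule.add_mem _ (h2 y) (h4 y)⟩
  smul_mem' := by
    rintro c a ⟨h1, h2⟩
    exact ⟨Submodule.smul_mem _ _ h1, fun y => by
      rw [smul_mul_assoc]; exact Submodule.smul_mem _ _ (h2 y)⟩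

/-- there are no such elements -/
theorem SR.v13 (h : SR F A) {v : A} (hv : v ∈ VS F A) (hA : ∀ y : A, v * y ∈ VS F A) : v = 0 := by
  have hid : IsId F (VA F A) := by
    rintro x ⟨hx, hx2⟩ a
    have z := fun y => h.v12 hx hx2 y
    have e : a * x = - cmm x a := by
      have := z a
      simp only [cmm, this]; abel
    refine ⟨⟨?_, fun y => ?_⟩, ?_⟩
    · rw [e]
      exact Submodule.neg_mem _ (h.v5 hx a)
    · have e2 : (a * x) * y = a * (x * y) + ass a x y := by simp only [ass]; abel
      rw [e2, z, mul_zero, zero_add]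
      exact h.v9 hx a y
    · rw [z a]
      exact Submodule.zero_mem _
  rcases h.simp.2 _ hid with h1 | h1
  · have : v ∈ VA F A := ⟨hv, hA⟩
    rw [h1, Submodule.mem_bot] at this
    exact this
  · exfalso
    obtain ⟨x, y, hxy⟩ := h.simp.1
    have hx : x ∈ VA F A := by rw [h1]; trivial
    exact hxy (h.v12 hx.1 hx.2 y)

/-- `(a, n, d) a ∈ V` for `n` in `V` -/
theorem SR.v14 (h : SR F A) {n : A} (hn : n ∈ VS F A) (a d : A) : ass a n d * a ∈ VS F A := by
  have h2' : ((2 : ℤ) : F) ≠ 0 := by simpa using h.two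
  have e := h.ram.ral.t4 a a n d
  have e2 : (2 : ℤ) • (ass a n d * a) = ass (a * a) n d + ass a a (cmm n d)
      + cmm (ass a n d) a := by
    rw [e]
    simp only [cmm]
    module
  apply mem_of_zsmul h2'
  rw [e2]
  exact Submodule.add_mem _ (Submodule.add_mem _ (h.v9 hn _ _) (h.v11 (h.v5 hn d) _ _))
    (h.v5 (h.v9 hn _ _) a)

theorem SR.v14' (h : SR F A) {n : A} (hn : n ∈ VS F A) (a b d : A) :
    ass a n d * b + ass b n d * a ∈ VS F A := by
  have h1 := h.v14 hn (a + b) d
  have h2 := h.v14 hn a d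
  have h3 := h.v14 hn b d
  rw [ass_add_left] at h1
  have e : ass a n d * b + ass b n d * a = (ass a n d + ass b n d) * (a + b) - ass a n d * a
      - ass b n d * b := by
    simp only [add_mul, mul_add]; abel
  rw [e]
  exact Submodule.sub_mem _ (Submodule.sub_mem _ h1 h2) h3

/-- `[τ, w] w ∈ V` for `τ` in `T` -/
theorem SR.v15 (h : SR F A) {u : A} (hu : Om u) (w : A) : cmm u w * w ∈ VS F A := by
  have h2' : ((2 : ℤ) : F) ≠ 0 := by simpa using h.two
  have e := hu w w
  have e1 : cmm u w = - cmm w u := cmm_skew u w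
  have e2 : (2 : ℤ) • (cmm u w * w) = - cmm (w * w) u - cmm (cmm w u) w := by
    rw [e, e1]
    simp only [cmm, mul_sub, sub_mul, neg_mul]
    module
  apply mem_of_zsmul h2'
  rw [e2]
  exact Submodule.sub_mem _ (Submodule.neg_mem _ (cm_mem_VS hu _)) (h.v5 (cm_mem_VS hu w) w)

/-- `θ(w, z) [w, y] + κ(w, z, y) w ∈ V` -/
theorem SR.v16 (h : SR F A) {t : A} (ht : Om t) (w z y : A) :
    ass w t z * cmm w y + cmm (ass w t z) y * w ∈ VS F A := by
  have hr := h.ram.ral
  have hV : ass w t z ∈ VS F A := th_mem_VS ht w z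
  have e := FF (ass w t z) w y
  have hm : ass w t z * w ∈ VS F A := by
    rw [ht.mid hr]
    exact th_mem_VS ht _ _
  have e2 : ass w t z * cmm w y + cmm (ass w t z) y * w = cmm (ass w t z * w) y
      - (ass (ass w t z) w y - ass (ass w t z) y w + ass y (ass w t z) w) := by
    rw [← e]; abel
  rw [e2]
  exact Submodule.sub_mem _ (h.v5 hm y) (Submodule.add_mem _ (Submodule.sub_mem _
    (h.v10 hV _ _) (h.v10 hV _ _)) (h.v9 hV _ _))

/-- `(n, y, w) w ∈ V` for `n = [z, t]` -/
theorem SR.v17 (h : SR F A) {t : A} (ht : Om t) (z y w : A) :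
    ass (cmm z t) y w * w ∈ VS F A := by
  have hr := h.ram.ral
  rw [h.ram.oc5 ht]
  have a1 : cmm (ass z t y) w * w ∈ VS F A := h.v15 (ht.th hr z y) w
  have a2 := h.v16 ht w z y
  -- `θ(w, z) [y, w] + θ([y, w], z) w ∈ V`
  have a3 : ass w t z * cmm y w + ass (cmm y w) t z * w ∈ VS F A := by
    have m1 := ht.mid hr (w + cmm y w) z
    have m2 := ht.mid hr w z
    have m3 := ht.mid hr (cmm y w) z
    simp only [add_mul, mul_add, ass_add_left, ass_add_right] at m1
    have e : ass w t z * cmm y w + ass (cmm y w) t z * w =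
        ass w t (cmm y w * z) + ass (cmm y w) t (w * z) := by
      rw [m2, m3] at m1
      linear_combination (norm := module) m1
    rw [e]
    exact Submodule.add_mem _ (th_mem_VS ht _ _) (th_mem_VS ht _ _)
  have e : (ass z t (cmm y w) - cmm (ass z t y) w + cmm (ass z t w) y) * w =
      - (cmm (ass z t y) w * w) - (ass w t z * cmm y w + ass (cmm y w) t z * w)
      - (ass w t z * cmm w y + cmm (ass w t z) y * w) := by
    rw [ht.skew hr z (cmm y w), ht.skew hr z w]
    have e1 : cmm w y = - cmm y w := cmm_skew w y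
    have e2 : cmm (- ass w t z) y = - cmm (ass w t z) y := by
      simp only [cmm, neg_mul, mul_neg]; abel
    rw [e1, e2]
    simp only [add_mul, sub_mul, neg_mul, mul_neg]
    abel
  rw [e]
  exact Submodule.sub_mem _ (Submodule.sub_mem _ (Submodule.neg_mem _ a1) a3) a2

/-- `(w, w, [z, t]) = 0` -/
theorem SR.v18 (h : SR F A) {t : A} (ht : Om t) (w z : A) : ass w w (cmm z t) = 0 := by
  have hr := h.ram.ral
  have hn : cmm z t ∈ VS F A := cm_mem_VS ht z
  apply h.v13 (h.v11 hn w w)
  intro y
  have b1 := h.v14' hn w y w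
  have b2 := h.v17 ht z y w
  have b3 := h.v14 hn w y
  have m := h.ram.om3 ht z y w
  -- `(n,y,w) + (y,w,n) + (w,n,y) = 0`
  have e1 : ass w w (cmm z t) = - ass w (cmm z t) w := hr.sk _ _ _
  have e2 : ass y w (cmm z t) = - ass y (cmm z t) w := hr.sk _ _ _
  rw [e2] at m
  have e3 : ass w w (cmm z t) * y = - (ass w (cmm z t) w * y + ass y (cmm z t) w * w)
      + (ass (cmm z t) y w * w + ass w (cmm z t) y * w) := by
    have m' : ass y (cmm z t) w = ass (cmm z t) y w + ass w (cmm z t) y := by
      linear_combination (norm := module) - m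
    rw [e1, m']
    simp only [add_mul, neg_mul]
    abel
  rw [e3]
  exact Submodule.add_mem _ (Submodule.neg_mem _ b1) (Submodule.add_mem _ b2 b3)

/-- the three facts on `Ω` -/
theorem SR.omH (h : SR F A) : OmH A :=
  ⟨fun _ ht x c y => h.v18 ht y (ass x x c), fun _ ht x a b => h.ram.om3 ht x a b,
    fun _ ht x c => h.ram.om4 ht x c⟩

end alg

end Pool.Agent.NACert
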