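import Pool.Agent.NACert.OmegaS

/-!
# The centre of a simple algebra

The centre `ZC` has no zero divisors, and the second term of the upper central series of the
commutator algebra is the centre.
-/

namespace Pool.Agent.NACert

open Fast

section ring

variable {A : Type*} [NonUnitalNonAssocRing A]

theorem ZC.cmm {z : A} (hz : ZC z) (a : A) : NACert.cmm z a = 0 := hz.cm.cmm a

theorem ZC.zero : ZC (0 : A) :=
  ⟨Cm.zero, fun a b => by simp [ass], fun a b => by simp [ass], fun a b => by simp [ass]⟩

theorem ZC.add {z w : A} (hz : ZC z) (hw : ZC w) : ZC (z + w) :=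
  ⟨hz.cm.add hw.cm, fun a b => by rw [ass_add_left, hz.n1, hw.n1, add_zero],
    fun a b => by rw [ass_add_mid, hz.n2, hw.n2, add_zero],
    fun a b => by rw [ass_add_right, hz.n3, hw.n3, add_zero]⟩

theorem ZC.neg {z : A} (hz : ZC z) : ZC (-z) :=
  ⟨hz.cm.neg, fun a b => by
      have : ass (-z) a b = - ass z a b := by simp only [ass, neg_mul]; abel
      rw [this, hz.n1, neg_zero],
    fun a b => by
      have : ass a (-z) b = - ass a z b := by simp only [ass, neg_mul, mul_neg]; abel
      rw [this, hz.n2, neg_zero],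
    fun a b => by
      have : ass a b (-z) = - ass a b z := by simp only [ass, mul_neg]; abel
      rw [this, hz.n3, neg_zero]⟩

theorem ZC.sub {z w : A} (hz : ZC z) (hw : ZC w) : ZC (z - w) := by
  rw [sub_eq_add_neg]; exact hz.add hw.neg

theorem ZC.zsmul {z : A} (hz : ZC z) (c : ℤ) : ZC (c • z) :=
  ⟨hz.cm.zsmul c, fun a b => by
      have : ass (c • z) a b = c • ass z a b := by
        simp only [ass, smul_mul_assoc, smul_sub]
      rw [this, hz.n1, smul_zero],
    fun a b => by
      have : ass a (c • z) b = c • ass a z b := by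
        simp only [ass, smul_mul_assoc, mul_smul_comm, smul_sub]
      rw [this, hz.n2, smul_zero],
    fun a b => by
      have : ass a b (c • z) = c • ass a b z := by
        simp only [ass, mul_smul_comm, smul_sub]
      rw [this, hz.n3, smul_zero]⟩

/-- known identities if `[t, a]` is central for every `a` -/
def zcK : Kn :=
  let t : E := .v 0
  let a : E := .v 1
  let b : E := .v 2
  let c : E := .v 3
  .cons 0 3 raT (.cons 1 2 (ofP (E.cm (.cm t a) b).p) (.cons 1 3 (ofP (E.as (.cm t a) b c).p)
    (.cons 1 3 (ofP (E.as b (.cm t a) c).p) (.cons 1 3 (ofP (E.as b c (.cm t a)).p) .nil))))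

/-- certificate -/
def zcC : List ℕ :=
  [451936530, 226496530, 3607171313, 57714741248, 3607171089, 57983234048, 57713750032,
  57982120208, 57983242240, 57714733312, 57714672112, 43218243840, 43486613760, 1811943921,
  28991033840, 1811947793, 28992143600, 28722663440, 28991164432, 28723773456, 1811943697,
  28992143376]

/-- if `[t, a]` is central for every `a` then `[t, a]² = 0` -/
theorem RAL.zc_sq (h : RAL A) {t : A} (ht : ∀ a : A, ZC (NACert.cmm t a)) (a : A) :
    NACert.cmm t a * NACert.cmm t a = 0 := by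
  have hK : zcK.Holds (fun i => if i = 0 then t else a) := by
    refine ⟨fun ρ' _ => h.raT ρ', fun ρ' h0 => ?_, fun ρ' h0 => ?_, fun ρ' h0 => ?_,
      fun ρ' h0 => ?_, trivial⟩ <;>
    · have h1 : ρ' 0 = t := h0 0 (by norm_num)
      rw [ev_ofP, evP_p]
      subst h1
      first
      | exact (ht (ρ' 1)).cmm (ρ' 2)
      | exact (ht (ρ' 1)).n1 (ρ' 2) (ρ' 3)
      | exact (ht (ρ' 1)).n2 (ρ' 2) (ρ' 3)
      | exact (ht (ρ' 1)).n3 (ρ' 2) (ρ' 3)
  exact ev_of_checkE h.tor zcK hK 3 (.mul (.cm (.v 0) (.v 1)) (.cm (.v 0) (.v 1))) zcC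
    (by decide +kernel)

end ring

section alg

variable {F A : Type*} [Field F] [NonUnitalNonAssocRing A] [Module F A] [IsScalarTower F A A]
  [SMulCommClass F A A]

/-- the annihilator of an element of the centre -/
def annZ (F : Type*) {A : Type*} [Field F] [NonUnitalNonAssocRing A] [Module F A]
    [IsScalarTower F A A] [SMulCommClass F A A] (z : A) : Submodule F A where
  carrier := {a | z * a = 0}
  zero_mem' := mul_zero z
  add_mem' := by
    intro a b ha hb
    show z * (a + b) = 0
    have ha' : z * a = 0 := ha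
    have hb' : z * b = 0 := hb
    rw [mul_add, ha', hb', add_zero]
  smul_mem' := by
    intro c a ha
    show z * (c • a) = 0
    have ha' : z * a = 0 := ha
    rw [mul_smul_comm, ha', smul_zero]

/-- the centre has no zero divisors -/
theorem SR.zc_mul (h : SR F A) {z : A} (hz : ZC z) {a : A} (ha : z * a = 0) : z = 0 ∨ a = 0 := by
  have hid : IsId F (annZ F z) := by
    intro x hx b
    have hx' : z * x = 0 := hx
    constructor
    · show z * (b * x) = 0
      have e1 : z * (b * x) = (z * b) * x := (sub_eq_zero.mp (hz.n1 b x)).symm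
      have e2 : (b * z) * x = b * (z * x) := sub_eq_zero.mp (hz.n2 b x)
      rw [e1, hz.cm b, e2, hx', mul_zero]
    · show z * (x * b) = 0
      have e1 : z * (x * b) = (z * x) * b := (sub_eq_zero.mp (hz.n1 x b)).symm
      rw [e1, hx', zero_mul]
  rcases h.simp.2 _ hid with h1 | h1
  · right
    have : a ∈ annZ F z := ha
    rwa [h1, Submodule.mem_bot] at this
  · left
    apply h.annl
    intro b
    rw [← hz.cm b]
    have : b ∈ annZ F z := by rw [h1]; trivial
    exact this

theorem SR.zc_sq_zero (h : SR F A) {z : A} (hz : ZC z) (h0 : z * z = 0) : z = 0 := by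
  rcases h.zc_mul hz h0 with h1 | h1 <;> exact h1

/-- if `[u, a]` is central for every `a` then `u` is central -/
theorem SR.cm_of_zc (h : SR F A) {u : A} (hu : ∀ a : A, ZC (cmm u a)) : Cm u :=
  cm_of_cmm fun a => h.zc_sq_zero (hu a) (h.ram.ral.zc_sq hu a)

/-- if `[[u, a], b] = 0` for all `a` and `b` then `u` is central -/
theorem SR.hyper (h : SR F A) (hM : OmH A) {u : A} (hu : ∀ a b : A, cmm (cmm u a) b = 0) :
    ZC u :=
  h.cm_zc hM (h.cm_of_zc fun a => h.cm_zc hM (cm_of_cmm (hu a)))

/-- if `z` and `z x` are central then `z = 0` or `x` is central -/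
theorem SR.rtrick (h : SR F A) (hM : OmH A) {z x : A} (hz : ZC z) (hzx : ZC (z * x)) :
    z = 0 ∨ ZC x := by
  by_cases h0 : z = 0
  · exact Or.inl h0
  right
  apply h.cm_zc hM
  apply cm_of_cmm
  intro c
  have e1 : z * cmm x c = 0 := by
    have e2 := hzx.cmm c
    have e3 : (z * x) * c = z * (x * c) := sub_eq_zero.mp (hz.n1 x c)
    have e4 : (z * c) * x = z * (c * x) := sub_eq_zero.mp (hz.n1 c x)
    have e5 : (c * z) * x = c * (z * x) := sub_eq_zero.mp (hz.n2 c x)
    unfold cmm at e2 ⊢
    rw [mul_sub, ← e3, ← e4, hz.cm c, e5, e2]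
  rcases h.zc_mul hz e1 with h1 | h1
  · exact absurd h1 h0
  · exact h1

end alg

end Pool.Agent.NACert
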