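import Pool.Agent.NACert.B14
import Pool.Agent.NACert.Zc
import Pool.Agent.NACert.OmegaM

/-!
# Block 13: `g(m, x; a x) = g(m, x; a) x` for `m = [[y, x], x]`

for `g(m, x; a) = 3 (a m) x - (a x) m - 2 (x a) m`; consequence: `g = 0`.
-/

namespace Pool.Agent.NACert

open Fast B14

section ring

variable {A : Type*} [NonUnitalNonAssocRing A]

/-- known identities -/
def b13K : Kn := .cons 0 3 raT (.cons 0 4 g31T (.cons 0 5 B14.a1T (.cons 0 5 B14.a2T
  (.cons 0 5 B14.a3T (.cons 0 5 B14.a4T .nil)))))

/-- certificate -/
def b13C : List ℕ :=
  [205177738597822496, 205195262584483872, 205177674173255456, 205195258557894432,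
    205195330783809312, 205177670398381856, 205195266359357472, 205177666371907616,
    105429970996753136, 105447563434455792, 105447563152323312, 105429970982007536,
    99730111023087648, 99747767633641504, 99747695407726624, 99730107248214048, 91197905087623168,
    91180305116950528, 45581366674395136, 45598951075811328, 45581366674460672, 45598951075876864,
    22781893577666560, 22799485747855600, 22799477962182896, 22781893560824064, 22799477962240256,
    22799477979082752, 22781885777182960, 22781893560766704, 74217084223491, 66727182401538,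
    59373646839811, 11399749206872064, 11382157005094912, 11382149236199424, 11399737095688176,
    11382144925372400, 11382144907739120, 11399737094766576, 11399749190090768, 11399741406511104,
    11382149219353072, 11382149219418128, 11399749190025712, 11382148933222432, 11399737092735008,
    11399809318649888, 11382152708096032, 11399749206937600, 11382149236264960, 33398236184581,
    33329516707844, 474989812842497, 29618143821826, 29686832889858, 473889814675457,
    5699873144832240, 5699880928415984, 5682288743416048, 5682280957743344, 5682280957800704,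
    5699880928473344, 18485558181893, 2832354603237392, 2849939004588528, 2849939004653584,
    11133108940805, 2832354603172336, 2849946790330368, 2832346819657728, 117648534863873,
    118747559952385, 7422258118661, 7353522913285, 3642181615621]

/-- `g(m, x; a x) = g(m, x; a) x` -/
theorem RAM.b13 (h : RAM A) (hg : ∀ x y : A, g31 x x x y = 0)
    (h1 : ∀ x y a : A, rel1 x x x y a = 0) (h2 : ∀ x y a : A, rel2 x x x y a = 0)
    (h3 : ∀ x y a : A, rel3 x x x y a = 0) (h4 : ∀ x y a : A, rel4 x x x y a = 0) (x y a : A) :
    relg x x x y (a * x) - relg x x x y a * x = 0 :=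
  ev_of_checkE h.tor b13K (ρ := fun i => if i = 0 then x else if i = 1 then y else a)
    ⟨fun ρ' _ => raT_holds h ρ', fun ρ' _ => g31T_holds h.tor hg ρ',
      fun ρ' _ => B14.a1T_holds h.tor h1 ρ', fun ρ' _ => B14.a2T_holds h.tor h2 ρ',
      fun ρ' _ => B14.a3T_holds h.tor h3 ρ', fun ρ' _ => B14.a4T_holds h.tor h4 ρ', trivial⟩ 4
    (.sub (relgE (.v 0) (.v 0) (.v 0) (.v 1) (.mul (.v 2) (.v 0)))
      (.mul (relgE (.v 0) (.v 0) (.v 0) (.v 1) (.v 2)) (.v 0))) b13C (by decide +kernel)

end ring

section ring2

variable {A : Type*} [NonUnitalNonAssocRing A]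

theorem mm_zero_of_zc {x : A} (h0 : ZC x) (y : A) : mm x x y = 0 := by
  have e : cmm y x = 0 := by
    have := h0.cmm y
    have e2 : cmm y x = - cmm x y := by simp only [cmm]; abel
    rw [e2, this, neg_zero]
  simp only [mm, e]
  simp [cmm]

end ring2

section alg

variable {F A : Type*} [Field F] [NonUnitalNonAssocRing A] [Module F A] [IsScalarTower F A A]
  [SMulCommClass F A A]

/-- `g(m, x; a) = 0` for `m = [[y, x], x]` -/
theorem SR.g_zero (h : SR F A) (hg : ∀ x y : A, g31 x x x y = 0)
    (h1 : ∀ x y a : A, rel1 x x x y a = 0) (h2 : ∀ x y a : A, rel2 x x x y a = 0)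
    (h3 : ∀ x y a : A, rel3 x x x y a = 0) (h4 : ∀ x y a : A, rel4 x x x y a = 0)
    (hc : ∀ x y a u v : A, cmm (cmm (relg x x x y a) u) v = 0) (x y a : A) :
    relg x x x y a = 0 := by
  have hz : ∀ a, ZC (relg x x x y a) := fun a => h.hyper h.omH (hc x y a)
  have hx : ZC (relg x x x y a * x) := by
    have e := h.ram.b13 hg h1 h2 h3 h4 x y a
    rw [sub_eq_zero] at e
    rw [← e]
    exact hz _
  rcases h.rtrick h.omH (hz a) hx with h0 | h0
  · exact h0
  · have hm : mm x x y = 0 := mm_zero_of_zc h0 y
    simp only [relg, hm]
    simp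

end alg

end Pool.Agent.NACert
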