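import Pool.Agent.NACert.Step5

/-!
# Block 14: `[(m x) z - (m z) x, u] = 0` for `m = [[y, x], x]`

Certificate of degree 6 (548 items) in the class with `g31`, `LA`, `LB`, the four relations
`rel1`, ..., `rel4` of the pair `(m, x)` and the relation `relg`.
-/

namespace Pool.Agent.NACert

open Fast

namespace B14

section ring

variable {A : Type*} [NonUnitalNonAssocRing A]

/-- `m = [[y, p], q]` -/
def mm (p q y : A) : A := cmm (cmm y p) q

/-- the same expression -/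
@[reducible] def mmE (p q y : E) : E := .cm (.cm y p) q

/-- `2 (x m) a - 2 (m a) x - 2 (x a) m + (a m) x + (a x) m` -/
def rel1 (p q x y a : A) : A :=
  (2 : ℤ) • ((x * mm p q y) * a) - (2 : ℤ) • ((mm p q y * a) * x) - (2 : ℤ) • ((x * a) * mm p q y)
    + (a * mm p q y) * x + (a * x) * mm p q y

/-- the same expression -/
@[reducible] def rel1E (p q x y a : E) : E :=
  .add (.add (.sub (.sub (.sm 2 (.mul (.mul x (mmE p q y)) a)) (.sm 2 (.mul (.mul (mmE p q y) a) x)))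
    (.sm 2 (.mul (.mul x a) (mmE p q y)))) (.mul (.mul a (mmE p q y)) x))
    (.mul (.mul a x) (mmE p q y))

/-- `2 a (x m) - (a m) x - (a x) m` -/
def rel2 (p q x y a : A) : A :=
  (2 : ℤ) • (a * (x * mm p q y)) - (a * mm p q y) * x - (a * x) * mm p q y

/-- the same expression -/
@[reducible] def rel2E (p q x y a : E) : E :=
  .sub (.sub (.sm 2 (.mul a (.mul x (mmE p q y)))) (.mul (.mul a (mmE p q y)) x))
    (.mul (.mul a x) (mmE p q y))

/-- `4 x (a m) - 4 (x a) m - (a m) x + (a x) m` -/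
def rel3 (p q x y a : A) : A :=
  (4 : ℤ) • (x * (a * mm p q y)) - (4 : ℤ) • ((x * a) * mm p q y) - (a * mm p q y) * x
    + (a * x) * mm p q y

/-- the same expression -/
@[reducible] def rel3E (p q x y a : E) : E :=
  .add (.sub (.sub (.sm 4 (.mul x (.mul a (mmE p q y)))) (.sm 4 (.mul (.mul x a) (mmE p q y))))
    (.mul (.mul a (mmE p q y)) x)) (.mul (.mul a x) (mmE p q y))

/-- `4 m (a x) - 4 (m a) x + (a m) x - (a x) m` -/
def rel4 (p q x y a : A) : A :=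
  (4 : ℤ) • (mm p q y * (a * x)) - (4 : ℤ) • ((mm p q y * a) * x) + (a * mm p q y) * x
    - (a * x) * mm p q y

/-- the same expression -/
@[reducible] def rel4E (p q x y a : E) : E :=
  .sub (.add (.sub (.sm 4 (.mul (mmE p q y) (.mul a x))) (.sm 4 (.mul (.mul (mmE p q y) a) x)))
    (.mul (.mul a (mmE p q y)) x)) (.mul (.mul a x) (mmE p q y))

/-- `3 (a m) x - (a x) m - 2 (x a) m` -/
def relg (p q x y a : A) : A :=
  (3 : ℤ) • ((a * mm p q y) * x) - (a * x) * mm p q y - (2 : ℤ) • ((x * a) * mm p q y)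

/-- the same expression -/
@[reducible] def relgE (p q x y a : E) : E :=
  .sub (.sub (.sm 3 (.mul (.mul a (mmE p q y)) x)) (.mul (.mul a x) (mmE p q y)))
    (.sm 2 (.mul (.mul x a) (mmE p q y)))

/-- linearisation of `[[[y, z], x], x]` -/
def LAT : Tm :=
  (.cons true 1 (.m (.m (.m (.v 2) (.v 3)) (.v 0)) (.v 1))
  (.cons true 1 (.m (.m (.m (.v 2) (.v 3)) (.v 1)) (.v 0))
  (.cons false 1 (.m (.m (.m (.v 3) (.v 2)) (.v 0)) (.v 1))
  (.cons false 1 (.m (.m (.m (.v 3) (.v 2)) (.v 1)) (.v 0))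
  (.cons false 1 (.m (.m (.v 0) (.m (.v 2) (.v 3))) (.v 1))
  (.cons false 1 (.m (.m (.v 1) (.m (.v 2) (.v 3))) (.v 0))
  (.cons true 1 (.m (.m (.v 0) (.m (.v 3) (.v 2))) (.v 1))
  (.cons true 1 (.m (.m (.v 1) (.m (.v 3) (.v 2))) (.v 0))
  (.cons false 1 (.m (.v 0) (.m (.m (.v 2) (.v 3)) (.v 1)))
  (.cons false 1 (.m (.v 1) (.m (.m (.v 2) (.v 3)) (.v 0)))
  (.cons true 1 (.m (.v 0) (.m (.m (.v 3) (.v 2)) (.v 1)))
  (.cons true 1 (.m (.v 1) (.m (.m (.v 3) (.v 2)) (.v 0)))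
  (.cons true 1 (.m (.v 0) (.m (.v 1) (.m (.v 2) (.v 3))))
  (.cons true 1 (.m (.v 1) (.m (.v 0) (.m (.v 2) (.v 3))))
  (.cons false 1 (.m (.v 0) (.m (.v 1) (.m (.v 3) (.v 2))))
  (.cons false 1 (.m (.v 1) (.m (.v 0) (.m (.v 3) (.v 2))))
  .nil))))))))))))))))

/-- `[[a, b], [c, d]]` -/
def LBT : Tm :=
  (.cons true 1 (.m (.m (.v 0) (.v 1)) (.m (.v 2) (.v 3)))
  (.cons false 1 (.m (.m (.v 0) (.v 1)) (.m (.v 3) (.v 2)))
  (.cons false 1 (.m (.m (.v 1) (.v 0)) (.m (.v 2) (.v 3)))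
  (.cons true 1 (.m (.m (.v 1) (.v 0)) (.m (.v 3) (.v 2)))
  (.cons false 1 (.m (.m (.v 2) (.v 3)) (.m (.v 0) (.v 1)))
  (.cons true 1 (.m (.m (.v 2) (.v 3)) (.m (.v 1) (.v 0)))
  (.cons true 1 (.m (.m (.v 3) (.v 2)) (.m (.v 0) (.v 1)))
  (.cons false 1 (.m (.m (.v 3) (.v 2)) (.m (.v 1) (.v 0)))
  .nil))))))))

set_option maxRecDepth 20000 in
/-- linearisation of `rel1` -/
def a1T : Tm :=
  (.cons false 2 (.m (.m (.m (.m (.v 3) (.v 0)) (.v 1)) (.v 4)) (.v 2))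
  (.cons false 2 (.m (.m (.m (.m (.v 3) (.v 0)) (.v 2)) (.v 4)) (.v 1))
  (.cons false 2 (.m (.m (.m (.m (.v 3) (.v 1)) (.v 0)) (.v 4)) (.v 2))
  (.cons false 2 (.m (.m (.m (.m (.v 3) (.v 1)) (.v 2)) (.v 4)) (.v 0))
  (.cons false 2 (.m (.m (.m (.m (.v 3) (.v 2)) (.v 0)) (.v 4)) (.v 1))
  (.cons false 2 (.m (.m (.m (.m (.v 3) (.v 2)) (.v 1)) (.v 4)) (.v 0))
  (.cons true 2 (.m (.m (.m (.m (.v 0) (.v 3)) (.v 1)) (.v 4)) (.v 2))
  (.cons true 2 (.m (.m (.m (.m (.v 0) (.v 3)) (.v 2)) (.v 4)) (.v 1))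
  (.cons true 2 (.m (.m (.m (.m (.v 1) (.v 3)) (.v 0)) (.v 4)) (.v 2))
  (.cons true 2 (.m (.m (.m (.m (.v 1) (.v 3)) (.v 2)) (.v 4)) (.v 0))
  (.cons true 2 (.m (.m (.m (.m (.v 2) (.v 3)) (.v 0)) (.v 4)) (.v 1))
  (.cons true 2 (.m (.m (.m (.m (.v 2) (.v 3)) (.v 1)) (.v 4)) (.v 0))
  (.cons true 2 (.m (.m (.m (.v 0) (.m (.v 3) (.v 1))) (.v 4)) (.v 2))
  (.cons true 2 (.m (.m (.m (.v 0) (.m (.v 3) (.v 2))) (.v 4)) (.v 1))
  (.cons true 2 (.m (.m (.m (.v 1) (.m (.v 3) (.v 0))) (.v 4)) (.v 2))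
  (.cons true 2 (.m (.m (.m (.v 1) (.m (.v 3) (.v 2))) (.v 4)) (.v 0))
  (.cons true 2 (.m (.m (.m (.v 2) (.m (.v 3) (.v 0))) (.v 4)) (.v 1))
  (.cons true 2 (.m (.m (.m (.v 2) (.m (.v 3) (.v 1))) (.v 4)) (.v 0))
  (.cons false 2 (.m (.m (.m (.v 0) (.m (.v 1) (.v 3))) (.v 4)) (.v 2))
  (.cons false 2 (.m (.m (.m (.v 0) (.m (.v 2) (.v 3))) (.v 4)) (.v 1))
  (.cons false 2 (.m (.m (.m (.v 1) (.m (.v 0) (.v 3))) (.v 4)) (.v 2))
  (.cons false 2 (.m (.m (.m (.v 1) (.m (.v 2) (.v 3))) (.v 4)) (.v 0))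
  (.cons false 2 (.m (.m (.m (.v 2) (.m (.v 0) (.v 3))) (.v 4)) (.v 1))
  (.cons false 2 (.m (.m (.m (.v 2) (.m (.v 1) (.v 3))) (.v 4)) (.v 0))
  (.cons true 2 (.m (.m (.v 0) (.m (.m (.v 3) (.v 1)) (.v 2))) (.v 4))
  (.cons true 2 (.m (.m (.v 0) (.m (.m (.v 3) (.v 2)) (.v 1))) (.v 4))
  (.cons true 2 (.m (.m (.v 1) (.m (.m (.v 3) (.v 0)) (.v 2))) (.v 4))
  (.cons true 2 (.m (.m (.v 1) (.m (.m (.v 3) (.v 2)) (.v 0))) (.v 4))
  (.cons true 2 (.m (.m (.v 2) (.m (.m (.v 3) (.v 0)) (.v 1))) (.v 4))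
  (.cons true 2 (.m (.m (.v 2) (.m (.m (.v 3) (.v 1)) (.v 0))) (.v 4))
  (.cons false 2 (.m (.m (.v 0) (.m (.m (.v 1) (.v 3)) (.v 2))) (.v 4))
  (.cons false 2 (.m (.m (.v 0) (.m (.m (.v 2) (.v 3)) (.v 1))) (.v 4))
  (.cons false 2 (.m (.m (.v 1) (.m (.m (.v 0) (.v 3)) (.v 2))) (.v 4))
  (.cons false 2 (.m (.m (.v 1) (.m (.m (.v 2) (.v 3)) (.v 0))) (.v 4))
  (.cons false 2 (.m (.m (.v 2) (.m (.m (.v 0) (.v 3)) (.v 1))) (.v 4))
  (.cons false 2 (.m (.m (.v 2) (.m (.m (.v 1) (.v 3)) (.v 0))) (.v 4))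
  (.cons false 2 (.m (.m (.v 0) (.m (.v 1) (.m (.v 3) (.v 2)))) (.v 4))
  (.cons false 2 (.m (.m (.v 0) (.m (.v 2) (.m (.v 3) (.v 1)))) (.v 4))
  (.cons false 2 (.m (.m (.v 1) (.m (.v 0) (.m (.v 3) (.v 2)))) (.v 4))
  (.cons false 2 (.m (.m (.v 1) (.m (.v 2) (.m (.v 3) (.v 0)))) (.v 4))
  (.cons false 2 (.m (.m (.v 2) (.m (.v 0) (.m (.v 3) (.v 1)))) (.v 4))
  (.cons false 2 (.m (.m (.v 2) (.m (.v 1) (.m (.v 3) (.v 0)))) (.v 4))
  (.cons true 2 (.m (.m (.v 0) (.m (.v 1) (.m (.v 2) (.v 3)))) (.v 4))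
  (.cons true 2 (.m (.m (.v 0) (.m (.v 2) (.m (.v 1) (.v 3)))) (.v 4))
  (.cons true 2 (.m (.m (.v 1) (.m (.v 0) (.m (.v 2) (.v 3)))) (.v 4))
  (.cons true 2 (.m (.m (.v 1) (.m (.v 2) (.m (.v 0) (.v 3)))) (.v 4))
  (.cons true 2 (.m (.m (.v 2) (.m (.v 0) (.m (.v 1) (.v 3)))) (.v 4))
  (.cons true 2 (.m (.m (.v 2) (.m (.v 1) (.m (.v 0) (.v 3)))) (.v 4))
  (.cons false 2 (.m (.m (.v 0) (.v 4)) (.m (.m (.v 3) (.v 1)) (.v 2)))
  (.cons false 2 (.m (.m (.v 0) (.v 4)) (.m (.m (.v 3) (.v 2)) (.v 1)))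
  (.cons false 2 (.m (.m (.v 1) (.v 4)) (.m (.m (.v 3) (.v 0)) (.v 2)))
  (.cons false 2 (.m (.m (.v 1) (.v 4)) (.m (.m (.v 3) (.v 2)) (.v 0)))
  (.cons false 2 (.m (.m (.v 2) (.v 4)) (.m (.m (.v 3) (.v 0)) (.v 1)))
  (.cons false 2 (.m (.m (.v 2) (.v 4)) (.m (.m (.v 3) (.v 1)) (.v 0)))
  (.cons true 2 (.m (.m (.v 0) (.v 4)) (.m (.m (.v 1) (.v 3)) (.v 2)))
  (.cons true 2 (.m (.m (.v 0) (.v 4)) (.m (.m (.v 2) (.v 3)) (.v 1)))
  (.cons true 2 (.m (.m (.v 1) (.v 4)) (.m (.m (.v 0) (.v 3)) (.v 2)))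
  (.cons true 2 (.m (.m (.v 1) (.v 4)) (.m (.m (.v 2) (.v 3)) (.v 0)))
  (.cons true 2 (.m (.m (.v 2) (.v 4)) (.m (.m (.v 0) (.v 3)) (.v 1)))
  (.cons true 2 (.m (.m (.v 2) (.v 4)) (.m (.m (.v 1) (.v 3)) (.v 0)))
  (.cons true 2 (.m (.m (.v 0) (.v 4)) (.m (.v 1) (.m (.v 3) (.v 2))))
  (.cons true 2 (.m (.m (.v 0) (.v 4)) (.m (.v 2) (.m (.v 3) (.v 1))))
  (.cons true 2 (.m (.m (.v 1) (.v 4)) (.m (.v 0) (.m (.v 3) (.v 2))))
  (.cons true 2 (.m (.m (.v 1) (.v 4)) (.m (.v 2) (.m (.v 3) (.v 0))))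
  (.cons true 2 (.m (.m (.v 2) (.v 4)) (.m (.v 0) (.m (.v 3) (.v 1))))
  (.cons true 2 (.m (.m (.v 2) (.v 4)) (.m (.v 1) (.m (.v 3) (.v 0))))
  (.cons false 2 (.m (.m (.v 0) (.v 4)) (.m (.v 1) (.m (.v 2) (.v 3))))
  (.cons false 2 (.m (.m (.v 0) (.v 4)) (.m (.v 2) (.m (.v 1) (.v 3))))
  (.cons false 2 (.m (.m (.v 1) (.v 4)) (.m (.v 0) (.m (.v 2) (.v 3))))
  (.cons false 2 (.m (.m (.v 1) (.v 4)) (.m (.v 2) (.m (.v 0) (.v 3))))
  (.cons false 2 (.m (.m (.v 2) (.v 4)) (.m (.v 0) (.m (.v 1) (.v 3))))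
  (.cons false 2 (.m (.m (.v 2) (.v 4)) (.m (.v 1) (.m (.v 0) (.v 3))))
  (.cons true 1 (.m (.m (.v 4) (.m (.m (.v 3) (.v 0)) (.v 1))) (.v 2))
  (.cons true 1 (.m (.m (.v 4) (.m (.m (.v 3) (.v 0)) (.v 2))) (.v 1))
  (.cons true 1 (.m (.m (.v 4) (.m (.m (.v 3) (.v 1)) (.v 0))) (.v 2))
  (.cons true 1 (.m (.m (.v 4) (.m (.m (.v 3) (.v 1)) (.v 2))) (.v 0))
  (.cons true 1 (.m (.m (.v 4) (.m (.m (.v 3) (.v 2)) (.v 0))) (.v 1))
  (.cons true 1 (.m (.m (.v 4) (.m (.m (.v 3) (.v 2)) (.v 1))) (.v 0))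
  (.cons false 1 (.m (.m (.v 4) (.m (.m (.v 0) (.v 3)) (.v 1))) (.v 2))
  (.cons false 1 (.m (.m (.v 4) (.m (.m (.v 0) (.v 3)) (.v 2))) (.v 1))
  (.cons false 1 (.m (.m (.v 4) (.m (.m (.v 1) (.v 3)) (.v 0))) (.v 2))
  (.cons false 1 (.m (.m (.v 4) (.m (.m (.v 1) (.v 3)) (.v 2))) (.v 0))
  (.cons false 1 (.m (.m (.v 4) (.m (.m (.v 2) (.v 3)) (.v 0))) (.v 1))
  (.cons false 1 (.m (.m (.v 4) (.m (.m (.v 2) (.v 3)) (.v 1))) (.v 0))
  (.cons false 1 (.m (.m (.v 4) (.m (.v 0) (.m (.v 3) (.v 1)))) (.v 2))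
  (.cons false 1 (.m (.m (.v 4) (.m (.v 0) (.m (.v 3) (.v 2)))) (.v 1))
  (.cons false 1 (.m (.m (.v 4) (.m (.v 1) (.m (.v 3) (.v 0)))) (.v 2))
  (.cons false 1 (.m (.m (.v 4) (.m (.v 1) (.m (.v 3) (.v 2)))) (.v 0))
  (.cons false 1 (.m (.m (.v 4) (.m (.v 2) (.m (.v 3) (.v 0)))) (.v 1))
  (.cons false 1 (.m (.m (.v 4) (.m (.v 2) (.m (.v 3) (.v 1)))) (.v 0))
  (.cons true 1 (.m (.m (.v 4) (.m (.v 0) (.m (.v 1) (.v 3)))) (.v 2))
  (.cons true 1 (.m (.m (.v 4) (.m (.v 0) (.m (.v 2) (.v 3)))) (.v 1))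
  (.cons true 1 (.m (.m (.v 4) (.m (.v 1) (.m (.v 0) (.v 3)))) (.v 2))
  (.cons true 1 (.m (.m (.v 4) (.m (.v 1) (.m (.v 2) (.v 3)))) (.v 0))
  (.cons true 1 (.m (.m (.v 4) (.m (.v 2) (.m (.v 0) (.v 3)))) (.v 1))
  (.cons true 1 (.m (.m (.v 4) (.m (.v 2) (.m (.v 1) (.v 3)))) (.v 0))
  (.cons true 1 (.m (.m (.v 4) (.v 0)) (.m (.m (.v 3) (.v 1)) (.v 2)))
  (.cons true 1 (.m (.m (.v 4) (.v 0)) (.m (.m (.v 3) (.v 2)) (.v 1)))
  (.cons true 1 (.m (.m (.v 4) (.v 1)) (.m (.m (.v 3) (.v 0)) (.v 2)))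
  (.cons true 1 (.m (.m (.v 4) (.v 1)) (.m (.m (.v 3) (.v 2)) (.v 0)))
  (.cons true 1 (.m (.m (.v 4) (.v 2)) (.m (.m (.v 3) (.v 0)) (.v 1)))
  (.cons true 1 (.m (.m (.v 4) (.v 2)) (.m (.m (.v 3) (.v 1)) (.v 0)))
  (.cons false 1 (.m (.m (.v 4) (.v 0)) (.m (.m (.v 1) (.v 3)) (.v 2)))
  (.cons false 1 (.m (.m (.v 4) (.v 0)) (.m (.m (.v 2) (.v 3)) (.v 1)))
  (.cons false 1 (.m (.m (.v 4) (.v 1)) (.m (.m (.v 0) (.v 3)) (.v 2)))
  (.cons false 1 (.m (.m (.v 4) (.v 1)) (.m (.m (.v 2) (.v 3)) (.v 0)))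
  (.cons false 1 (.m (.m (.v 4) (.v 2)) (.m (.m (.v 0) (.v 3)) (.v 1)))
  (.cons false 1 (.m (.m (.v 4) (.v 2)) (.m (.m (.v 1) (.v 3)) (.v 0)))
  (.cons false 1 (.m (.m (.v 4) (.v 0)) (.m (.v 1) (.m (.v 3) (.v 2))))
  (.cons false 1 (.m (.m (.v 4) (.v 0)) (.m (.v 2) (.m (.v 3) (.v 1))))
  (.cons false 1 (.m (.m (.v 4) (.v 1)) (.m (.v 0) (.m (.v 3) (.v 2))))
  (.cons false 1 (.m (.m (.v 4) (.v 1)) (.m (.v 2) (.m (.v 3) (.v 0))))
  (.cons false 1 (.m (.m (.v 4) (.v 2)) (.m (.v 0) (.m (.v 3) (.v 1))))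
  (.cons false 1 (.m (.m (.v 4) (.v 2)) (.m (.v 1) (.m (.v 3) (.v 0))))
  (.cons true 1 (.m (.m (.v 4) (.v 0)) (.m (.v 1) (.m (.v 2) (.v 3))))
  (.cons true 1 (.m (.m (.v 4) (.v 0)) (.m (.v 2) (.m (.v 1) (.v 3))))
  (.cons true 1 (.m (.m (.v 4) (.v 1)) (.m (.v 0) (.m (.v 2) (.v 3))))
  (.cons true 1 (.m (.m (.v 4) (.v 1)) (.m (.v 2) (.m (.v 0) (.v 3))))
  (.cons true 1 (.m (.m (.v 4) (.v 2)) (.m (.v 0) (.m (.v 1) (.v 3))))
  (.cons true 1 (.m (.m (.v 4) (.v 2)) (.m (.v 1) (.m (.v 0) (.v 3))))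
  .nil))))))))))))))))))))))))))))))))))))))))))))))))))))))))))))))))))))))))))))))))))))))))))))))))))))))))))))))))))))))))

set_option maxRecDepth 20000 in
/-- linearisation of `rel2` -/
def a2T : Tm :=
  (.cons false 1 (.m (.m (.v 4) (.m (.m (.v 3) (.v 0)) (.v 1))) (.v 2))
  (.cons false 1 (.m (.m (.v 4) (.m (.m (.v 3) (.v 0)) (.v 2))) (.v 1))
  (.cons false 1 (.m (.m (.v 4) (.m (.m (.v 3) (.v 1)) (.v 0))) (.v 2))
  (.cons false 1 (.m (.m (.v 4) (.m (.m (.v 3) (.v 1)) (.v 2))) (.v 0))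
  (.cons false 1 (.m (.m (.v 4) (.m (.m (.v 3) (.v 2)) (.v 0))) (.v 1))
  (.cons false 1 (.m (.m (.v 4) (.m (.m (.v 3) (.v 2)) (.v 1))) (.v 0))
  (.cons true 1 (.m (.m (.v 4) (.m (.m (.v 0) (.v 3)) (.v 1))) (.v 2))
  (.cons true 1 (.m (.m (.v 4) (.m (.m (.v 0) (.v 3)) (.v 2))) (.v 1))
  (.cons true 1 (.m (.m (.v 4) (.m (.m (.v 1) (.v 3)) (.v 0))) (.v 2))
  (.cons true 1 (.m (.m (.v 4) (.m (.m (.v 1) (.v 3)) (.v 2))) (.v 0))
  (.cons true 1 (.m (.m (.v 4) (.m (.m (.v 2) (.v 3)) (.v 0))) (.v 1))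
  (.cons true 1 (.m (.m (.v 4) (.m (.m (.v 2) (.v 3)) (.v 1))) (.v 0))
  (.cons true 1 (.m (.m (.v 4) (.m (.v 0) (.m (.v 3) (.v 1)))) (.v 2))
  (.cons true 1 (.m (.m (.v 4) (.m (.v 0) (.m (.v 3) (.v 2)))) (.v 1))
  (.cons true 1 (.m (.m (.v 4) (.m (.v 1) (.m (.v 3) (.v 0)))) (.v 2))
  (.cons true 1 (.m (.m (.v 4) (.m (.v 1) (.m (.v 3) (.v 2)))) (.v 0))
  (.cons true 1 (.m (.m (.v 4) (.m (.v 2) (.m (.v 3) (.v 0)))) (.v 1))
  (.cons true 1 (.m (.m (.v 4) (.m (.v 2) (.m (.v 3) (.v 1)))) (.v 0))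
  (.cons false 1 (.m (.m (.v 4) (.m (.v 0) (.m (.v 1) (.v 3)))) (.v 2))
  (.cons false 1 (.m (.m (.v 4) (.m (.v 0) (.m (.v 2) (.v 3)))) (.v 1))
  (.cons false 1 (.m (.m (.v 4) (.m (.v 1) (.m (.v 0) (.v 3)))) (.v 2))
  (.cons false 1 (.m (.m (.v 4) (.m (.v 1) (.m (.v 2) (.v 3)))) (.v 0))
  (.cons false 1 (.m (.m (.v 4) (.m (.v 2) (.m (.v 0) (.v 3)))) (.v 1))
  (.cons false 1 (.m (.m (.v 4) (.m (.v 2) (.m (.v 1) (.v 3)))) (.v 0))
  (.cons false 1 (.m (.m (.v 4) (.v 0)) (.m (.m (.v 3) (.v 1)) (.v 2)))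
  (.cons false 1 (.m (.m (.v 4) (.v 0)) (.m (.m (.v 3) (.v 2)) (.v 1)))
  (.cons false 1 (.m (.m (.v 4) (.v 1)) (.m (.m (.v 3) (.v 0)) (.v 2)))
  (.cons false 1 (.m (.m (.v 4) (.v 1)) (.m (.m (.v 3) (.v 2)) (.v 0)))
  (.cons false 1 (.m (.m (.v 4) (.v 2)) (.m (.m (.v 3) (.v 0)) (.v 1)))
  (.cons false 1 (.m (.m (.v 4) (.v 2)) (.m (.m (.v 3) (.v 1)) (.v 0)))
  (.cons true 1 (.m (.m (.v 4) (.v 0)) (.m (.m (.v 1) (.v 3)) (.v 2)))
  (.cons true 1 (.m (.m (.v 4) (.v 0)) (.m (.m (.v 2) (.v 3)) (.v 1)))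
  (.cons true 1 (.m (.m (.v 4) (.v 1)) (.m (.m (.v 0) (.v 3)) (.v 2)))
  (.cons true 1 (.m (.m (.v 4) (.v 1)) (.m (.m (.v 2) (.v 3)) (.v 0)))
  (.cons true 1 (.m (.m (.v 4) (.v 2)) (.m (.m (.v 0) (.v 3)) (.v 1)))
  (.cons true 1 (.m (.m (.v 4) (.v 2)) (.m (.m (.v 1) (.v 3)) (.v 0)))
  (.cons true 1 (.m (.m (.v 4) (.v 0)) (.m (.v 1) (.m (.v 3) (.v 2))))
  (.cons true 1 (.m (.m (.v 4) (.v 0)) (.m (.v 2) (.m (.v 3) (.v 1))))
  (.cons true 1 (.m (.m (.v 4) (.v 1)) (.m (.v 0) (.m (.v 3) (.v 2))))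
  (.cons true 1 (.m (.m (.v 4) (.v 1)) (.m (.v 2) (.m (.v 3) (.v 0))))
  (.cons true 1 (.m (.m (.v 4) (.v 2)) (.m (.v 0) (.m (.v 3) (.v 1))))
  (.cons true 1 (.m (.m (.v 4) (.v 2)) (.m (.v 1) (.m (.v 3) (.v 0))))
  (.cons false 1 (.m (.m (.v 4) (.v 0)) (.m (.v 1) (.m (.v 2) (.v 3))))
  (.cons false 1 (.m (.m (.v 4) (.v 0)) (.m (.v 2) (.m (.v 1) (.v 3))))
  (.cons false 1 (.m (.m (.v 4) (.v 1)) (.m (.v 0) (.m (.v 2) (.v 3))))
  (.cons false 1 (.m (.m (.v 4) (.v 1)) (.m (.v 2) (.m (.v 0) (.v 3))))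
  (.cons false 1 (.m (.m (.v 4) (.v 2)) (.m (.v 0) (.m (.v 1) (.v 3))))
  (.cons false 1 (.m (.m (.v 4) (.v 2)) (.m (.v 1) (.m (.v 0) (.v 3))))
  (.cons true 2 (.m (.v 4) (.m (.v 0) (.m (.m (.v 3) (.v 1)) (.v 2))))
  (.cons true 2 (.m (.v 4) (.m (.v 0) (.m (.m (.v 3) (.v 2)) (.v 1))))
  (.cons true 2 (.m (.v 4) (.m (.v 1) (.m (.m (.v 3) (.v 0)) (.v 2))))
  (.cons true 2 (.m (.v 4) (.m (.v 1) (.m (.m (.v 3) (.v 2)) (.v 0))))
  (.cons true 2 (.m (.v 4) (.m (.v 2) (.m (.m (.v 3) (.v 0)) (.v 1))))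
  (.cons true 2 (.m (.v 4) (.m (.v 2) (.m (.m (.v 3) (.v 1)) (.v 0))))
  (.cons false 2 (.m (.v 4) (.m (.v 0) (.m (.m (.v 1) (.v 3)) (.v 2))))
  (.cons false 2 (.m (.v 4) (.m (.v 0) (.m (.m (.v 2) (.v 3)) (.v 1))))
  (.cons false 2 (.m (.v 4) (.m (.v 1) (.m (.m (.v 0) (.v 3)) (.v 2))))
  (.cons false 2 (.m (.v 4) (.m (.v 1) (.m (.m (.v 2) (.v 3)) (.v 0))))
  (.cons false 2 (.m (.v 4) (.m (.v 2) (.m (.m (.v 0) (.v 3)) (.v 1))))
  (.cons false 2 (.m (.v 4) (.m (.v 2) (.m (.m (.v 1) (.v 3)) (.v 0))))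
  (.cons false 2 (.m (.v 4) (.m (.v 0) (.m (.v 1) (.m (.v 3) (.v 2)))))
  (.cons false 2 (.m (.v 4) (.m (.v 0) (.m (.v 2) (.m (.v 3) (.v 1)))))
  (.cons false 2 (.m (.v 4) (.m (.v 1) (.m (.v 0) (.m (.v 3) (.v 2)))))
  (.cons false 2 (.m (.v 4) (.m (.v 1) (.m (.v 2) (.m (.v 3) (.v 0)))))
  (.cons false 2 (.m (.v 4) (.m (.v 2) (.m (.v 0) (.m (.v 3) (.v 1)))))
  (.cons false 2 (.m (.v 4) (.m (.v 2) (.m (.v 1) (.m (.v 3) (.v 0)))))
  (.cons true 2 (.m (.v 4) (.m (.v 0) (.m (.v 1) (.m (.v 2) (.v 3)))))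
  (.cons true 2 (.m (.v 4) (.m (.v 0) (.m (.v 2) (.m (.v 1) (.v 3)))))
  (.cons true 2 (.m (.v 4) (.m (.v 1) (.m (.v 0) (.m (.v 2) (.v 3)))))
  (.cons true 2 (.m (.v 4) (.m (.v 1) (.m (.v 2) (.m (.v 0) (.v 3)))))
  (.cons true 2 (.m (.v 4) (.m (.v 2) (.m (.v 0) (.m (.v 1) (.v 3)))))
  (.cons true 2 (.m (.v 4) (.m (.v 2) (.m (.v 1) (.m (.v 0) (.v 3)))))
  .nil))))))))))))))))))))))))))))))))))))))))))))))))))))))))))))))))))))))))

set_option maxRecDepth 20000 in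
/-- linearisation of `rel3` -/
def a3T : Tm :=
  (.cons false 4 (.m (.m (.v 0) (.v 4)) (.m (.m (.v 3) (.v 1)) (.v 2)))
  (.cons false 4 (.m (.m (.v 0) (.v 4)) (.m (.m (.v 3) (.v 2)) (.v 1)))
  (.cons false 4 (.m (.m (.v 1) (.v 4)) (.m (.m (.v 3) (.v 0)) (.v 2)))
  (.cons false 4 (.m (.m (.v 1) (.v 4)) (.m (.m (.v 3) (.v 2)) (.v 0)))
  (.cons false 4 (.m (.m (.v 2) (.v 4)) (.m (.m (.v 3) (.v 0)) (.v 1)))
  (.cons false 4 (.m (.m (.v 2) (.v 4)) (.m (.m (.v 3) (.v 1)) (.v 0)))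
  (.cons true 4 (.m (.m (.v 0) (.v 4)) (.m (.m (.v 1) (.v 3)) (.v 2)))
  (.cons true 4 (.m (.m (.v 0) (.v 4)) (.m (.m (.v 2) (.v 3)) (.v 1)))
  (.cons true 4 (.m (.m (.v 1) (.v 4)) (.m (.m (.v 0) (.v 3)) (.v 2)))
  (.cons true 4 (.m (.m (.v 1) (.v 4)) (.m (.m (.v 2) (.v 3)) (.v 0)))
  (.cons true 4 (.m (.m (.v 2) (.v 4)) (.m (.m (.v 0) (.v 3)) (.v 1)))
  (.cons true 4 (.m (.m (.v 2) (.v 4)) (.m (.m (.v 1) (.v 3)) (.v 0)))
  (.cons true 4 (.m (.m (.v 0) (.v 4)) (.m (.v 1) (.m (.v 3) (.v 2))))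
  (.cons true 4 (.m (.m (.v 0) (.v 4)) (.m (.v 2) (.m (.v 3) (.v 1))))
  (.cons true 4 (.m (.m (.v 1) (.v 4)) (.m (.v 0) (.m (.v 3) (.v 2))))
  (.cons true 4 (.m (.m (.v 1) (.v 4)) (.m (.v 2) (.m (.v 3) (.v 0))))
  (.cons true 4 (.m (.m (.v 2) (.v 4)) (.m (.v 0) (.m (.v 3) (.v 1))))
  (.cons true 4 (.m (.m (.v 2) (.v 4)) (.m (.v 1) (.m (.v 3) (.v 0))))
  (.cons false 4 (.m (.m (.v 0) (.v 4)) (.m (.v 1) (.m (.v 2) (.v 3))))
  (.cons false 4 (.m (.m (.v 0) (.v 4)) (.m (.v 2) (.m (.v 1) (.v 3))))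
  (.cons false 4 (.m (.m (.v 1) (.v 4)) (.m (.v 0) (.m (.v 2) (.v 3))))
  (.cons false 4 (.m (.m (.v 1) (.v 4)) (.m (.v 2) (.m (.v 0) (.v 3))))
  (.cons false 4 (.m (.m (.v 2) (.v 4)) (.m (.v 0) (.m (.v 1) (.v 3))))
  (.cons false 4 (.m (.m (.v 2) (.v 4)) (.m (.v 1) (.m (.v 0) (.v 3))))
  (.cons true 4 (.m (.v 0) (.m (.v 4) (.m (.m (.v 3) (.v 1)) (.v 2))))
  (.cons true 4 (.m (.v 0) (.m (.v 4) (.m (.m (.v 3) (.v 2)) (.v 1))))
  (.cons true 4 (.m (.v 1) (.m (.v 4) (.m (.m (.v 3) (.v 0)) (.v 2))))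
  (.cons true 4 (.m (.v 1) (.m (.v 4) (.m (.m (.v 3) (.v 2)) (.v 0))))
  (.cons true 4 (.m (.v 2) (.m (.v 4) (.m (.m (.v 3) (.v 0)) (.v 1))))
  (.cons true 4 (.m (.v 2) (.m (.v 4) (.m (.m (.v 3) (.v 1)) (.v 0))))
  (.cons false 4 (.m (.v 0) (.m (.v 4) (.m (.m (.v 1) (.v 3)) (.v 2))))
  (.cons false 4 (.m (.v 0) (.m (.v 4) (.m (.m (.v 2) (.v 3)) (.v 1))))
  (.cons false 4 (.m (.v 1) (.m (.v 4) (.m (.m (.v 0) (.v 3)) (.v 2))))
  (.cons false 4 (.m (.v 1) (.m (.v 4) (.m (.m (.v 2) (.v 3)) (.v 0))))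
  (.cons false 4 (.m (.v 2) (.m (.v 4) (.m (.m (.v 0) (.v 3)) (.v 1))))
  (.cons false 4 (.m (.v 2) (.m (.v 4) (.m (.m (.v 1) (.v 3)) (.v 0))))
  (.cons false 4 (.m (.v 0) (.m (.v 4) (.m (.v 1) (.m (.v 3) (.v 2)))))
  (.cons false 4 (.m (.v 0) (.m (.v 4) (.m (.v 2) (.m (.v 3) (.v 1)))))
  (.cons false 4 (.m (.v 1) (.m (.v 4) (.m (.v 0) (.m (.v 3) (.v 2)))))
  (.cons false 4 (.m (.v 1) (.m (.v 4) (.m (.v 2) (.m (.v 3) (.v 0)))))
  (.cons false 4 (.m (.v 2) (.m (.v 4) (.m (.v 0) (.m (.v 3) (.v 1)))))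
  (.cons false 4 (.m (.v 2) (.m (.v 4) (.m (.v 1) (.m (.v 3) (.v 0)))))
  (.cons true 4 (.m (.v 0) (.m (.v 4) (.m (.v 1) (.m (.v 2) (.v 3)))))
  (.cons true 4 (.m (.v 0) (.m (.v 4) (.m (.v 2) (.m (.v 1) (.v 3)))))
  (.cons true 4 (.m (.v 1) (.m (.v 4) (.m (.v 0) (.m (.v 2) (.v 3)))))
  (.cons true 4 (.m (.v 1) (.m (.v 4) (.m (.v 2) (.m (.v 0) (.v 3)))))
  (.cons true 4 (.m (.v 2) (.m (.v 4) (.m (.v 0) (.m (.v 1) (.v 3)))))
  (.cons true 4 (.m (.v 2) (.m (.v 4) (.m (.v 1) (.m (.v 0) (.v 3)))))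
  (.cons false 1 (.m (.m (.v 4) (.m (.m (.v 3) (.v 0)) (.v 1))) (.v 2))
  (.cons false 1 (.m (.m (.v 4) (.m (.m (.v 3) (.v 0)) (.v 2))) (.v 1))
  (.cons false 1 (.m (.m (.v 4) (.m (.m (.v 3) (.v 1)) (.v 0))) (.v 2))
  (.cons false 1 (.m (.m (.v 4) (.m (.m (.v 3) (.v 1)) (.v 2))) (.v 0))
  (.cons false 1 (.m (.m (.v 4) (.m (.m (.v 3) (.v 2)) (.v 0))) (.v 1))
  (.cons false 1 (.m (.m (.v 4) (.m (.m (.v 3) (.v 2)) (.v 1))) (.v 0))
  (.cons true 1 (.m (.m (.v 4) (.m (.m (.v 0) (.v 3)) (.v 1))) (.v 2))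
  (.cons true 1 (.m (.m (.v 4) (.m (.m (.v 0) (.v 3)) (.v 2))) (.v 1))
  (.cons true 1 (.m (.m (.v 4) (.m (.m (.v 1) (.v 3)) (.v 0))) (.v 2))
  (.cons true 1 (.m (.m (.v 4) (.m (.m (.v 1) (.v 3)) (.v 2))) (.v 0))
  (.cons true 1 (.m (.m (.v 4) (.m (.m (.v 2) (.v 3)) (.v 0))) (.v 1))
  (.cons true 1 (.m (.m (.v 4) (.m (.m (.v 2) (.v 3)) (.v 1))) (.v 0))
  (.cons true 1 (.m (.m (.v 4) (.m (.v 0) (.m (.v 3) (.v 1)))) (.v 2))
  (.cons true 1 (.m (.m (.v 4) (.m (.v 0) (.m (.v 3) (.v 2)))) (.v 1))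
  (.cons true 1 (.m (.m (.v 4) (.m (.v 1) (.m (.v 3) (.v 0)))) (.v 2))
  (.cons true 1 (.m (.m (.v 4) (.m (.v 1) (.m (.v 3) (.v 2)))) (.v 0))
  (.cons true 1 (.m (.m (.v 4) (.m (.v 2) (.m (.v 3) (.v 0)))) (.v 1))
  (.cons true 1 (.m (.m (.v 4) (.m (.v 2) (.m (.v 3) (.v 1)))) (.v 0))
  (.cons false 1 (.m (.m (.v 4) (.m (.v 0) (.m (.v 1) (.v 3)))) (.v 2))
  (.cons false 1 (.m (.m (.v 4) (.m (.v 0) (.m (.v 2) (.v 3)))) (.v 1))
  (.cons false 1 (.m (.m (.v 4) (.m (.v 1) (.m (.v 0) (.v 3)))) (.v 2))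
  (.cons false 1 (.m (.m (.v 4) (.m (.v 1) (.m (.v 2) (.v 3)))) (.v 0))
  (.cons false 1 (.m (.m (.v 4) (.m (.v 2) (.m (.v 0) (.v 3)))) (.v 1))
  (.cons false 1 (.m (.m (.v 4) (.m (.v 2) (.m (.v 1) (.v 3)))) (.v 0))
  (.cons true 1 (.m (.m (.v 4) (.v 0)) (.m (.m (.v 3) (.v 1)) (.v 2)))
  (.cons true 1 (.m (.m (.v 4) (.v 0)) (.m (.m (.v 3) (.v 2)) (.v 1)))
  (.cons true 1 (.m (.m (.v 4) (.v 1)) (.m (.m (.v 3) (.v 0)) (.v 2)))
  (.cons true 1 (.m (.m (.v 4) (.v 1)) (.m (.m (.v 3) (.v 2)) (.v 0)))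
  (.cons true 1 (.m (.m (.v 4) (.v 2)) (.m (.m (.v 3) (.v 0)) (.v 1)))
  (.cons true 1 (.m (.m (.v 4) (.v 2)) (.m (.m (.v 3) (.v 1)) (.v 0)))
  (.cons false 1 (.m (.m (.v 4) (.v 0)) (.m (.m (.v 1) (.v 3)) (.v 2)))
  (.cons false 1 (.m (.m (.v 4) (.v 0)) (.m (.m (.v 2) (.v 3)) (.v 1)))
  (.cons false 1 (.m (.m (.v 4) (.v 1)) (.m (.m (.v 0) (.v 3)) (.v 2)))
  (.cons false 1 (.m (.m (.v 4) (.v 1)) (.m (.m (.v 2) (.v 3)) (.v 0)))
  (.cons false 1 (.m (.m (.v 4) (.v 2)) (.m (.m (.v 0) (.v 3)) (.v 1)))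
  (.cons false 1 (.m (.m (.v 4) (.v 2)) (.m (.m (.v 1) (.v 3)) (.v 0)))
  (.cons false 1 (.m (.m (.v 4) (.v 0)) (.m (.v 1) (.m (.v 3) (.v 2))))
  (.cons false 1 (.m (.m (.v 4) (.v 0)) (.m (.v 2) (.m (.v 3) (.v 1))))
  (.cons false 1 (.m (.m (.v 4) (.v 1)) (.m (.v 0) (.m (.v 3) (.v 2))))
  (.cons false 1 (.m (.m (.v 4) (.v 1)) (.m (.v 2) (.m (.v 3) (.v 0))))
  (.cons false 1 (.m (.m (.v 4) (.v 2)) (.m (.v 0) (.m (.v 3) (.v 1))))
  (.cons false 1 (.m (.m (.v 4) (.v 2)) (.m (.v 1) (.m (.v 3) (.v 0))))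
  (.cons true 1 (.m (.m (.v 4) (.v 0)) (.m (.v 1) (.m (.v 2) (.v 3))))
  (.cons true 1 (.m (.m (.v 4) (.v 0)) (.m (.v 2) (.m (.v 1) (.v 3))))
  (.cons true 1 (.m (.m (.v 4) (.v 1)) (.m (.v 0) (.m (.v 2) (.v 3))))
  (.cons true 1 (.m (.m (.v 4) (.v 1)) (.m (.v 2) (.m (.v 0) (.v 3))))
  (.cons true 1 (.m (.m (.v 4) (.v 2)) (.m (.v 0) (.m (.v 1) (.v 3))))
  (.cons true 1 (.m (.m (.v 4) (.v 2)) (.m (.v 1) (.m (.v 0) (.v 3))))
  .nil))))))))))))))))))))))))))))))))))))))))))))))))))))))))))))))))))))))))))))))))))))))))))))))))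

set_option maxRecDepth 20000 in
/-- linearisation of `rel4` -/
def a4T : Tm :=
  (.cons false 4 (.m (.m (.m (.m (.v 3) (.v 0)) (.v 1)) (.v 4)) (.v 2))
  (.cons false 4 (.m (.m (.m (.m (.v 3) (.v 0)) (.v 2)) (.v 4)) (.v 1))
  (.cons false 4 (.m (.m (.m (.m (.v 3) (.v 1)) (.v 0)) (.v 4)) (.v 2))
  (.cons false 4 (.m (.m (.m (.m (.v 3) (.v 1)) (.v 2)) (.v 4)) (.v 0))
  (.cons false 4 (.m (.m (.m (.m (.v 3) (.v 2)) (.v 0)) (.v 4)) (.v 1))
  (.cons false 4 (.m (.m (.m (.m (.v 3) (.v 2)) (.v 1)) (.v 4)) (.v 0))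
  (.cons true 4 (.m (.m (.m (.m (.v 0) (.v 3)) (.v 1)) (.v 4)) (.v 2))
  (.cons true 4 (.m (.m (.m (.m (.v 0) (.v 3)) (.v 2)) (.v 4)) (.v 1))
  (.cons true 4 (.m (.m (.m (.m (.v 1) (.v 3)) (.v 0)) (.v 4)) (.v 2))
  (.cons true 4 (.m (.m (.m (.m (.v 1) (.v 3)) (.v 2)) (.v 4)) (.v 0))
  (.cons true 4 (.m (.m (.m (.m (.v 2) (.v 3)) (.v 0)) (.v 4)) (.v 1))
  (.cons true 4 (.m (.m (.m (.m (.v 2) (.v 3)) (.v 1)) (.v 4)) (.v 0))
  (.cons true 4 (.m (.m (.m (.v 0) (.m (.v 3) (.v 1))) (.v 4)) (.v 2))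
  (.cons true 4 (.m (.m (.m (.v 0) (.m (.v 3) (.v 2))) (.v 4)) (.v 1))
  (.cons true 4 (.m (.m (.m (.v 1) (.m (.v 3) (.v 0))) (.v 4)) (.v 2))
  (.cons true 4 (.m (.m (.m (.v 1) (.m (.v 3) (.v 2))) (.v 4)) (.v 0))
  (.cons true 4 (.m (.m (.m (.v 2) (.m (.v 3) (.v 0))) (.v 4)) (.v 1))
  (.cons true 4 (.m (.m (.m (.v 2) (.m (.v 3) (.v 1))) (.v 4)) (.v 0))
  (.cons false 4 (.m (.m (.m (.v 0) (.m (.v 1) (.v 3))) (.v 4)) (.v 2))
  (.cons false 4 (.m (.m (.m (.v 0) (.m (.v 2) (.v 3))) (.v 4)) (.v 1))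
  (.cons false 4 (.m (.m (.m (.v 1) (.m (.v 0) (.v 3))) (.v 4)) (.v 2))
  (.cons false 4 (.m (.m (.m (.v 1) (.m (.v 2) (.v 3))) (.v 4)) (.v 0))
  (.cons false 4 (.m (.m (.m (.v 2) (.m (.v 0) (.v 3))) (.v 4)) (.v 1))
  (.cons false 4 (.m (.m (.m (.v 2) (.m (.v 1) (.v 3))) (.v 4)) (.v 0))
  (.cons true 4 (.m (.m (.m (.v 3) (.v 0)) (.v 1)) (.m (.v 4) (.v 2)))
  (.cons true 4 (.m (.m (.m (.v 3) (.v 0)) (.v 2)) (.m (.v 4) (.v 1)))
  (.cons true 4 (.m (.m (.m (.v 3) (.v 1)) (.v 0)) (.m (.v 4) (.v 2)))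
  (.cons true 4 (.m (.m (.m (.v 3) (.v 1)) (.v 2)) (.m (.v 4) (.v 0)))
  (.cons true 4 (.m (.m (.m (.v 3) (.v 2)) (.v 0)) (.m (.v 4) (.v 1)))
  (.cons true 4 (.m (.m (.m (.v 3) (.v 2)) (.v 1)) (.m (.v 4) (.v 0)))
  (.cons false 4 (.m (.m (.m (.v 0) (.v 3)) (.v 1)) (.m (.v 4) (.v 2)))
  (.cons false 4 (.m (.m (.m (.v 0) (.v 3)) (.v 2)) (.m (.v 4) (.v 1)))
  (.cons false 4 (.m (.m (.m (.v 1) (.v 3)) (.v 0)) (.m (.v 4) (.v 2)))
  (.cons false 4 (.m (.m (.m (.v 1) (.v 3)) (.v 2)) (.m (.v 4) (.v 0)))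
  (.cons false 4 (.m (.m (.m (.v 2) (.v 3)) (.v 0)) (.m (.v 4) (.v 1)))
  (.cons false 4 (.m (.m (.m (.v 2) (.v 3)) (.v 1)) (.m (.v 4) (.v 0)))
  (.cons false 4 (.m (.m (.v 0) (.m (.v 3) (.v 1))) (.m (.v 4) (.v 2)))
  (.cons false 4 (.m (.m (.v 0) (.m (.v 3) (.v 2))) (.m (.v 4) (.v 1)))
  (.cons false 4 (.m (.m (.v 1) (.m (.v 3) (.v 0))) (.m (.v 4) (.v 2)))
  (.cons false 4 (.m (.m (.v 1) (.m (.v 3) (.v 2))) (.m (.v 4) (.v 0)))
  (.cons false 4 (.m (.m (.v 2) (.m (.v 3) (.v 0))) (.m (.v 4) (.v 1)))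
  (.cons false 4 (.m (.m (.v 2) (.m (.v 3) (.v 1))) (.m (.v 4) (.v 0)))
  (.cons true 4 (.m (.m (.v 0) (.m (.v 1) (.v 3))) (.m (.v 4) (.v 2)))
  (.cons true 4 (.m (.m (.v 0) (.m (.v 2) (.v 3))) (.m (.v 4) (.v 1)))
  (.cons true 4 (.m (.m (.v 1) (.m (.v 0) (.v 3))) (.m (.v 4) (.v 2)))
  (.cons true 4 (.m (.m (.v 1) (.m (.v 2) (.v 3))) (.m (.v 4) (.v 0)))
  (.cons true 4 (.m (.m (.v 2) (.m (.v 0) (.v 3))) (.m (.v 4) (.v 1)))
  (.cons true 4 (.m (.m (.v 2) (.m (.v 1) (.v 3))) (.m (.v 4) (.v 0)))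
  (.cons true 1 (.m (.m (.v 4) (.m (.m (.v 3) (.v 0)) (.v 1))) (.v 2))
  (.cons true 1 (.m (.m (.v 4) (.m (.m (.v 3) (.v 0)) (.v 2))) (.v 1))
  (.cons true 1 (.m (.m (.v 4) (.m (.m (.v 3) (.v 1)) (.v 0))) (.v 2))
  (.cons true 1 (.m (.m (.v 4) (.m (.m (.v 3) (.v 1)) (.v 2))) (.v 0))
  (.cons true 1 (.m (.m (.v 4) (.m (.m (.v 3) (.v 2)) (.v 0))) (.v 1))
  (.cons true 1 (.m (.m (.v 4) (.m (.m (.v 3) (.v 2)) (.v 1))) (.v 0))
  (.cons false 1 (.m (.m (.v 4) (.m (.m (.v 0) (.v 3)) (.v 1))) (.v 2))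
  (.cons false 1 (.m (.m (.v 4) (.m (.m (.v 0) (.v 3)) (.v 2))) (.v 1))
  (.cons false 1 (.m (.m (.v 4) (.m (.m (.v 1) (.v 3)) (.v 0))) (.v 2))
  (.cons false 1 (.m (.m (.v 4) (.m (.m (.v 1) (.v 3)) (.v 2))) (.v 0))
  (.cons false 1 (.m (.m (.v 4) (.m (.m (.v 2) (.v 3)) (.v 0))) (.v 1))
  (.cons false 1 (.m (.m (.v 4) (.m (.m (.v 2) (.v 3)) (.v 1))) (.v 0))
  (.cons false 1 (.m (.m (.v 4) (.m (.v 0) (.m (.v 3) (.v 1)))) (.v 2))
  (.cons false 1 (.m (.m (.v 4) (.m (.v 0) (.m (.v 3) (.v 2)))) (.v 1))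
  (.cons false 1 (.m (.m (.v 4) (.m (.v 1) (.m (.v 3) (.v 0)))) (.v 2))
  (.cons false 1 (.m (.m (.v 4) (.m (.v 1) (.m (.v 3) (.v 2)))) (.v 0))
  (.cons false 1 (.m (.m (.v 4) (.m (.v 2) (.m (.v 3) (.v 0)))) (.v 1))
  (.cons false 1 (.m (.m (.v 4) (.m (.v 2) (.m (.v 3) (.v 1)))) (.v 0))
  (.cons true 1 (.m (.m (.v 4) (.m (.v 0) (.m (.v 1) (.v 3)))) (.v 2))
  (.cons true 1 (.m (.m (.v 4) (.m (.v 0) (.m (.v 2) (.v 3)))) (.v 1))
  (.cons true 1 (.m (.m (.v 4) (.m (.v 1) (.m (.v 0) (.v 3)))) (.v 2))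
  (.cons true 1 (.m (.m (.v 4) (.m (.v 1) (.m (.v 2) (.v 3)))) (.v 0))
  (.cons true 1 (.m (.m (.v 4) (.m (.v 2) (.m (.v 0) (.v 3)))) (.v 1))
  (.cons true 1 (.m (.m (.v 4) (.m (.v 2) (.m (.v 1) (.v 3)))) (.v 0))
  (.cons false 1 (.m (.m (.v 4) (.v 0)) (.m (.m (.v 3) (.v 1)) (.v 2)))
  (.cons false 1 (.m (.m (.v 4) (.v 0)) (.m (.m (.v 3) (.v 2)) (.v 1)))
  (.cons false 1 (.m (.m (.v 4) (.v 1)) (.m (.m (.v 3) (.v 0)) (.v 2)))
  (.cons false 1 (.m (.m (.v 4) (.v 1)) (.m (.m (.v 3) (.v 2)) (.v 0)))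
  (.cons false 1 (.m (.m (.v 4) (.v 2)) (.m (.m (.v 3) (.v 0)) (.v 1)))
  (.cons false 1 (.m (.m (.v 4) (.v 2)) (.m (.m (.v 3) (.v 1)) (.v 0)))
  (.cons true 1 (.m (.m (.v 4) (.v 0)) (.m (.m (.v 1) (.v 3)) (.v 2)))
  (.cons true 1 (.m (.m (.v 4) (.v 0)) (.m (.m (.v 2) (.v 3)) (.v 1)))
  (.cons true 1 (.m (.m (.v 4) (.v 1)) (.m (.m (.v 0) (.v 3)) (.v 2)))
  (.cons true 1 (.m (.m (.v 4) (.v 1)) (.m (.m (.v 2) (.v 3)) (.v 0)))
  (.cons true 1 (.m (.m (.v 4) (.v 2)) (.m (.m (.v 0) (.v 3)) (.v 1)))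
  (.cons true 1 (.m (.m (.v 4) (.v 2)) (.m (.m (.v 1) (.v 3)) (.v 0)))
  (.cons true 1 (.m (.m (.v 4) (.v 0)) (.m (.v 1) (.m (.v 3) (.v 2))))
  (.cons true 1 (.m (.m (.v 4) (.v 0)) (.m (.v 2) (.m (.v 3) (.v 1))))
  (.cons true 1 (.m (.m (.v 4) (.v 1)) (.m (.v 0) (.m (.v 3) (.v 2))))
  (.cons true 1 (.m (.m (.v 4) (.v 1)) (.m (.v 2) (.m (.v 3) (.v 0))))
  (.cons true 1 (.m (.m (.v 4) (.v 2)) (.m (.v 0) (.m (.v 3) (.v 1))))
  (.cons true 1 (.m (.m (.v 4) (.v 2)) (.m (.v 1) (.m (.v 3) (.v 0))))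
  (.cons false 1 (.m (.m (.v 4) (.v 0)) (.m (.v 1) (.m (.v 2) (.v 3))))
  (.cons false 1 (.m (.m (.v 4) (.v 0)) (.m (.v 2) (.m (.v 1) (.v 3))))
  (.cons false 1 (.m (.m (.v 4) (.v 1)) (.m (.v 0) (.m (.v 2) (.v 3))))
  (.cons false 1 (.m (.m (.v 4) (.v 1)) (.m (.v 2) (.m (.v 0) (.v 3))))
  (.cons false 1 (.m (.m (.v 4) (.v 2)) (.m (.v 0) (.m (.v 1) (.v 3))))
  (.cons false 1 (.m (.m (.v 4) (.v 2)) (.m (.v 1) (.m (.v 0) (.v 3))))
  .nil))))))))))))))))))))))))))))))))))))))))))))))))))))))))))))))))))))))))))))))))))))))))))))))))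

set_option maxRecDepth 20000 in
/-- linearisation of `relg` -/
def gKT : Tm :=
  (.cons false 2 (.m (.m (.v 0) (.v 4)) (.m (.m (.v 3) (.v 1)) (.v 2)))
  (.cons false 2 (.m (.m (.v 0) (.v 4)) (.m (.m (.v 3) (.v 2)) (.v 1)))
  (.cons false 2 (.m (.m (.v 1) (.v 4)) (.m (.m (.v 3) (.v 0)) (.v 2)))
  (.cons false 2 (.m (.m (.v 1) (.v 4)) (.m (.m (.v 3) (.v 2)) (.v 0)))
  (.cons false 2 (.m (.m (.v 2) (.v 4)) (.m (.m (.v 3) (.v 0)) (.v 1)))
  (.cons false 2 (.m (.m (.v 2) (.v 4)) (.m (.m (.v 3) (.v 1)) (.v 0)))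
  (.cons true 2 (.m (.m (.v 0) (.v 4)) (.m (.m (.v 1) (.v 3)) (.v 2)))
  (.cons true 2 (.m (.m (.v 0) (.v 4)) (.m (.m (.v 2) (.v 3)) (.v 1)))
  (.cons true 2 (.m (.m (.v 1) (.v 4)) (.m (.m (.v 0) (.v 3)) (.v 2)))
  (.cons true 2 (.m (.m (.v 1) (.v 4)) (.m (.m (.v 2) (.v 3)) (.v 0)))
  (.cons true 2 (.m (.m (.v 2) (.v 4)) (.m (.m (.v 0) (.v 3)) (.v 1)))
  (.cons true 2 (.m (.m (.v 2) (.v 4)) (.m (.m (.v 1) (.v 3)) (.v 0)))
  (.cons true 2 (.m (.m (.v 0) (.v 4)) (.m (.v 1) (.m (.v 3) (.v 2))))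
  (.cons true 2 (.m (.m (.v 0) (.v 4)) (.m (.v 2) (.m (.v 3) (.v 1))))
  (.cons true 2 (.m (.m (.v 1) (.v 4)) (.m (.v 0) (.m (.v 3) (.v 2))))
  (.cons true 2 (.m (.m (.v 1) (.v 4)) (.m (.v 2) (.m (.v 3) (.v 0))))
  (.cons true 2 (.m (.m (.v 2) (.v 4)) (.m (.v 0) (.m (.v 3) (.v 1))))
  (.cons true 2 (.m (.m (.v 2) (.v 4)) (.m (.v 1) (.m (.v 3) (.v 0))))
  (.cons false 2 (.m (.m (.v 0) (.v 4)) (.m (.v 1) (.m (.v 2) (.v 3))))
  (.cons false 2 (.m (.m (.v 0) (.v 4)) (.m (.v 2) (.m (.v 1) (.v 3))))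
  (.cons false 2 (.m (.m (.v 1) (.v 4)) (.m (.v 0) (.m (.v 2) (.v 3))))
  (.cons false 2 (.m (.m (.v 1) (.v 4)) (.m (.v 2) (.m (.v 0) (.v 3))))
  (.cons false 2 (.m (.m (.v 2) (.v 4)) (.m (.v 0) (.m (.v 1) (.v 3))))
  (.cons false 2 (.m (.m (.v 2) (.v 4)) (.m (.v 1) (.m (.v 0) (.v 3))))
  (.cons true 3 (.m (.m (.v 4) (.m (.m (.v 3) (.v 0)) (.v 1))) (.v 2))
  (.cons true 3 (.m (.m (.v 4) (.m (.m (.v 3) (.v 0)) (.v 2))) (.v 1))
  (.cons true 3 (.m (.m (.v 4) (.m (.m (.v 3) (.v 1)) (.v 0))) (.v 2))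
  (.cons true 3 (.m (.m (.v 4) (.m (.m (.v 3) (.v 1)) (.v 2))) (.v 0))
  (.cons true 3 (.m (.m (.v 4) (.m (.m (.v 3) (.v 2)) (.v 0))) (.v 1))
  (.cons true 3 (.m (.m (.v 4) (.m (.m (.v 3) (.v 2)) (.v 1))) (.v 0))
  (.cons false 3 (.m (.m (.v 4) (.m (.m (.v 0) (.v 3)) (.v 1))) (.v 2))
  (.cons false 3 (.m (.m (.v 4) (.m (.m (.v 0) (.v 3)) (.v 2))) (.v 1))
  (.cons false 3 (.m (.m (.v 4) (.m (.m (.v 1) (.v 3)) (.v 0))) (.v 2))
  (.cons false 3 (.m (.m (.v 4) (.m (.m (.v 1) (.v 3)) (.v 2))) (.v 0))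
  (.cons false 3 (.m (.m (.v 4) (.m (.m (.v 2) (.v 3)) (.v 0))) (.v 1))
  (.cons false 3 (.m (.m (.v 4) (.m (.m (.v 2) (.v 3)) (.v 1))) (.v 0))
  (.cons false 3 (.m (.m (.v 4) (.m (.v 0) (.m (.v 3) (.v 1)))) (.v 2))
  (.cons false 3 (.m (.m (.v 4) (.m (.v 0) (.m (.v 3) (.v 2)))) (.v 1))
  (.cons false 3 (.m (.m (.v 4) (.m (.v 1) (.m (.v 3) (.v 0)))) (.v 2))
  (.cons false 3 (.m (.m (.v 4) (.m (.v 1) (.m (.v 3) (.v 2)))) (.v 0))
  (.cons false 3 (.m (.m (.v 4) (.m (.v 2) (.m (.v 3) (.v 0)))) (.v 1))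
  (.cons false 3 (.m (.m (.v 4) (.m (.v 2) (.m (.v 3) (.v 1)))) (.v 0))
  (.cons true 3 (.m (.m (.v 4) (.m (.v 0) (.m (.v 1) (.v 3)))) (.v 2))
  (.cons true 3 (.m (.m (.v 4) (.m (.v 0) (.m (.v 2) (.v 3)))) (.v 1))
  (.cons true 3 (.m (.m (.v 4) (.m (.v 1) (.m (.v 0) (.v 3)))) (.v 2))
  (.cons true 3 (.m (.m (.v 4) (.m (.v 1) (.m (.v 2) (.v 3)))) (.v 0))
  (.cons true 3 (.m (.m (.v 4) (.m (.v 2) (.m (.v 0) (.v 3)))) (.v 1))
  (.cons true 3 (.m (.m (.v 4) (.m (.v 2) (.m (.v 1) (.v 3)))) (.v 0))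
  (.cons false 1 (.m (.m (.v 4) (.v 0)) (.m (.m (.v 3) (.v 1)) (.v 2)))
  (.cons false 1 (.m (.m (.v 4) (.v 0)) (.m (.m (.v 3) (.v 2)) (.v 1)))
  (.cons false 1 (.m (.m (.v 4) (.v 1)) (.m (.m (.v 3) (.v 0)) (.v 2)))
  (.cons false 1 (.m (.m (.v 4) (.v 1)) (.m (.m (.v 3) (.v 2)) (.v 0)))
  (.cons false 1 (.m (.m (.v 4) (.v 2)) (.m (.m (.v 3) (.v 0)) (.v 1)))
  (.cons false 1 (.m (.m (.v 4) (.v 2)) (.m (.m (.v 3) (.v 1)) (.v 0)))
  (.cons true 1 (.m (.m (.v 4) (.v 0)) (.m (.m (.v 1) (.v 3)) (.v 2)))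
  (.cons true 1 (.m (.m (.v 4) (.v 0)) (.m (.m (.v 2) (.v 3)) (.v 1)))
  (.cons true 1 (.m (.m (.v 4) (.v 1)) (.m (.m (.v 0) (.v 3)) (.v 2)))
  (.cons true 1 (.m (.m (.v 4) (.v 1)) (.m (.m (.v 2) (.v 3)) (.v 0)))
  (.cons true 1 (.m (.m (.v 4) (.v 2)) (.m (.m (.v 0) (.v 3)) (.v 1)))
  (.cons true 1 (.m (.m (.v 4) (.v 2)) (.m (.m (.v 1) (.v 3)) (.v 0)))
  (.cons true 1 (.m (.m (.v 4) (.v 0)) (.m (.v 1) (.m (.v 3) (.v 2))))
  (.cons true 1 (.m (.m (.v 4) (.v 0)) (.m (.v 2) (.m (.v 3) (.v 1))))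
  (.cons true 1 (.m (.m (.v 4) (.v 1)) (.m (.v 0) (.m (.v 3) (.v 2))))
  (.cons true 1 (.m (.m (.v 4) (.v 1)) (.m (.v 2) (.m (.v 3) (.v 0))))
  (.cons true 1 (.m (.m (.v 4) (.v 2)) (.m (.v 0) (.m (.v 3) (.v 1))))
  (.cons true 1 (.m (.m (.v 4) (.v 2)) (.m (.v 1) (.m (.v 3) (.v 0))))
  (.cons false 1 (.m (.m (.v 4) (.v 0)) (.m (.v 1) (.m (.v 2) (.v 3))))
  (.cons false 1 (.m (.m (.v 4) (.v 0)) (.m (.v 2) (.m (.v 1) (.v 3))))
  (.cons false 1 (.m (.m (.v 4) (.v 1)) (.m (.v 0) (.m (.v 2) (.v 3))))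
  (.cons false 1 (.m (.m (.v 4) (.v 1)) (.m (.v 2) (.m (.v 0) (.v 3))))
  (.cons false 1 (.m (.m (.v 4) (.v 2)) (.m (.v 0) (.m (.v 1) (.v 3))))
  (.cons false 1 (.m (.m (.v 4) (.v 2)) (.m (.v 1) (.m (.v 0) (.v 3))))
  .nil))))))))))))))))))))))))))))))))))))))))))))))))))))))))))))))))))))))))

theorem LAT_holds (tor : NoTor A) (hp : ∀ x y z : A, cmm (cmm (cmm y z) x) x = 0) (ρ : ℕ → A) :
    LAT.ev ρ = 0 := by
  have e := hp (ρ 0 + ρ 1) (ρ 2) (ρ 3)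
  have e0 := hp (ρ 0) (ρ 2) (ρ 3)
  have e1 := hp (ρ 1) (ρ 2) (ρ 3)
  have e2 : cmm (cmm (cmm (ρ 2) (ρ 3)) (ρ 0)) (ρ 1) + cmm (cmm (cmm (ρ 2) (ρ 3)) (ρ 1)) (ρ 0)
      = 0 := by
    rw [cmm_add_right, cmm_add_right, cmm_add_left, cmm_add_left, e0, e1, zero_add, add_zero] at e
    rw [add_comm]; exact e
  refine Fast.ev_of_check tor (.cons 4 0 (ofP (E.add
    (.cm (.cm (.cm (.v 2) (.v 3)) (.v 0)) (.v 1)) (.cm (.cm (.cm (.v 2) (.v 3)) (.v 1)) (.v 0))).p)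
    .nil) ⟨fun ρ' hρ => ?_, trivial⟩ 0 LAT [256] (by decide +kernel)
  rw [ev_ofP, evP_p]
  simp only [E.ev, hρ 0 (by norm_num), hρ 1 (by norm_num), hρ 2 (by norm_num),
    hρ 3 (by norm_num)]
  exact e2

theorem LBT_holds (tor : NoTor A) (hp : ∀ a b c d : A, cmm (cmm a b) (cmm c d) = 0) (ρ : ℕ → A) :
    LBT.ev ρ = 0 := by
  refine Fast.ev_of_check tor (.cons 0 4 (ofP (E.cm (.cm (.v 0) (.v 1)) (.cm (.v 2) (.v 3))).p)
    .nil) ⟨fun ρ' _ => ?_, trivial⟩ 0 LBT [16982272] (by decide +kernel)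
  rw [ev_ofP, evP_p]
  exact hp _ _ _ _

theorem a1T_holds (tor : NoTor A) (hp : ∀ x y a : A, rel1 x x x y a = 0) (ρ : ℕ → A) :
    a1T.ev ρ = 0 := by
  refine Fast.ev_of_check tor (.cons 0 5 (ofP (E.sym3 (fun a b c => rel1E a b c (.v 3) (.v 4))
    (.v 0) (.v 1) (.v 2)).p) .nil) ⟨fun ρ' _ => ?_, trivial⟩ 0 a1T
    [272834816] (by decide +kernel)
  rw [ev_ofP, evP_p]
  refine polar3 (fun a b c => rel1 a b c (ρ' 3) (ρ' 4)) ?_ ?_ ?_ (fun a => hp a _ _) (ρ' 0)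
    (ρ' 1) (ρ' 2) <;>
  · intro a b c d
    simp only [rel1, mm, cmm, mul_add, add_mul, mul_sub, sub_mul, smul_add, smul_sub]
    abel

theorem a2T_holds (tor : NoTor A) (hp : ∀ x y a : A, rel2 x x x y a = 0) (ρ : ℕ → A) :
    a2T.ev ρ = 0 := by
  refine Fast.ev_of_check tor (.cons 0 5 (ofP (E.sym3 (fun a b c => rel2E a b c (.v 3) (.v 4))
    (.v 0) (.v 1) (.v 2)).p) .nil) ⟨fun ρ' _ => ?_, trivial⟩ 0 a2T
    [272834816] (by decide +kernel)
  rw [ev_ofP, evP_p]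
  refine polar3 (fun a b c => rel2 a b c (ρ' 3) (ρ' 4)) ?_ ?_ ?_ (fun a => hp a _ _) (ρ' 0)
    (ρ' 1) (ρ' 2) <;>
  · intro a b c d
    simp only [rel2, mm, cmm, mul_add, add_mul, mul_sub, sub_mul, smul_add, smul_sub]
    abel

theorem a3T_holds (tor : NoTor A) (hp : ∀ x y a : A, rel3 x x x y a = 0) (ρ : ℕ → A) :
    a3T.ev ρ = 0 := by
  refine Fast.ev_of_check tor (.cons 0 5 (ofP (E.sym3 (fun a b c => rel3E a b c (.v 3) (.v 4))
    (.v 0) (.v 1) (.v 2)).p) .nil) ⟨fun ρ' _ => ?_, trivial⟩ 0 a3T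
    [272834816] (by decide +kernel)
  rw [ev_ofP, evP_p]
  refine polar3 (fun a b c => rel3 a b c (ρ' 3) (ρ' 4)) ?_ ?_ ?_ (fun a => hp a _ _) (ρ' 0)
    (ρ' 1) (ρ' 2) <;>
  · intro a b c d
    simp only [rel3, mm, cmm, mul_add, add_mul, mul_sub, sub_mul, smul_add, smul_sub]
    abel

theorem a4T_holds (tor : NoTor A) (hp : ∀ x y a : A, rel4 x x x y a = 0) (ρ : ℕ → A) :
    a4T.ev ρ = 0 := by
  refine Fast.ev_of_check tor (.cons 0 5 (ofP (E.sym3 (fun a b c => rel4E a b c (.v 3) (.v 4))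
    (.v 0) (.v 1) (.v 2)).p) .nil) ⟨fun ρ' _ => ?_, trivial⟩ 0 a4T
    [272834816] (by decide +kernel)
  rw [ev_ofP, evP_p]
  refine polar3 (fun a b c => rel4 a b c (ρ' 3) (ρ' 4)) ?_ ?_ ?_ (fun a => hp a _ _) (ρ' 0)
    (ρ' 1) (ρ' 2) <;>
  · intro a b c d
    simp only [rel4, mm, cmm, mul_add, add_mul, mul_sub, sub_mul, smul_add, smul_sub]
    abel

theorem gKT_holds (tor : NoTor A) (hp : ∀ x y a : A, relg x x x y a = 0) (ρ : ℕ → A) :
    gKT.ev ρ = 0 := by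
  refine Fast.ev_of_check tor (.cons 0 5 (ofP (E.sym3 (fun a b c => relgE a b c (.v 3) (.v 4))
    (.v 0) (.v 1) (.v 2)).p) .nil) ⟨fun ρ' _ => ?_, trivial⟩ 0 gKT
    [272834816] (by decide +kernel)
  rw [ev_ofP, evP_p]
  refine polar3 (fun a b c => relg a b c (ρ' 3) (ρ' 4)) ?_ ?_ ?_ (fun a => hp a _ _) (ρ' 0)
    (ρ' 1) (ρ' 2) <;>
  · intro a b c d
    simp only [relg, mm, cmm, mul_add, add_mul, mul_sub, sub_mul, smul_add, smul_sub]
    abel

/-- known identities -/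
def KB : Kn := .cons 0 3 raT (.cons 0 4 malT (.cons 0 4 g31T (.cons 0 4 LAT (.cons 0 4 LBT
  (.cons 0 5 a1T (.cons 0 5 a2T (.cons 0 5 a3T (.cons 0 5 a4T (.cons 0 5 gKT .nil)))))))))

/-- `[(m x) z - (m z) x, u]` -/
def tE : E :=
  let m : E := mmE (.v 0) (.v 0) (.v 1)
  .cm (.sub (.mul (.mul m (.v 0)) (.v 2)) (.mul (.mul m (.v 2)) (.v 0))) (.v 3)

/-- certificate -/
def tC : List ℕ :=
    [8139412112029118496, 5394446536776274276384, 9866454608178704416, 42749020950433540,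
    203599277526698029088, 547169843892334592, 547187436095156224, 34198110412608260,
    34198115242217267, 34199209941013252, 547169908333621248, 547187500502888448,
    34199218780376883, 34199209939964675, 34198110412608259, 5958231890336797552640,
    68398630347862016, 2254229488306795712512, 500162355105169411, 13611268067098161440,
    2223632612981131571200, 21246259021158088707, 11696112325574586624, 5019623181197110210848,
    7106458955281559777536, 1127479527034503360800, 3710596867516592416, 410390597397114880,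
    25648316649897732, 410390661838401536, 410373069635579904, 410373005227847680,
    665926993323531366416, 3486130619578852634656, 21665199537187319808, 16107827965218320896,
    6292654789846233088, 15013453255753666560, 2002888096702889198320, 14962136849075667696,
    9193933114613677756416, 2930598675285976150016, 7468058598862654337536,
    6777234563521942974976, 1792904966919162040320, 17133786663145836544, 35344865812585443856,
    7181834241779503104, 1547582618625554649088, 17338999513335132176, 18416274617951842336,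
    412305672000440955408, 10436367620055868968960, 11525116277457744384, 14261070643540922368,
    6959521786735226880, 5708942468905283219456, 2432338972269950865408, 1359401202682560528,
    15526423808653201408, 695611924909578649616, 9370583660697284608, 9370583660163624960,
    3710596867518763008, 412305672000442081280, 6836148419639325683728, 12243317272470548496,
    6019061112986726656, 6805642934887776272, 3197608722462547968, 12209116766239993603,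
    16221807738584306416, 6499217788375439306752, 273593678169309168, 273576085196633072,
    273576086001881072, 273593677680538608, 273576085984247792, 273593678203654128,
    17098505611849731, 273576085746152432, 273593677398406128, 17099605139206147,
    9210987352663654416, 966230253438828024560, 1953960427401199620096, 4094602975625814863872,
    2184326321333331824880, 6429451629048762368, 4799243474081409069312, 61567127222462054660,
    7776763464820819292416, 7492134860062766206976, 3248907536985821184, 15116033292593459456,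
    3727696472351842320, 12072321224638730480, 4938229062181672120576, 18672751098309120752,
    7831208624208194113536, 5804631839970202489584, 1126749961487308025888,
    10738552047495344384, 137435224143323865104, 5369258536530472960, 17031189034114937088,
    16056528953649725955, 17672441807621980192, 8840495910256382192, 206152818515418152992,
    14936487441807188464, 7250215068413067504, 5264945529491755692288, 1383289615368714191344,
    575675296595677553136, 29228924746368942320, 484078395769753702640, 17373198723037790704,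
    104239173697822322704, 10789833269813776384, 1855289742901444640, 681521850525393486320,
    14910855626773032976, 42749025242259716, 9909221213006205168, 2307306679307339821088,
    5095682451336982768, 596707792950754607136, 3967090940061942512, 9216669624709476384,
    8464303307321450756, 1689988145284535951376, 2518703394016297349360, 128247036479111434480,
    340760925370616644080, 324891405511098883, 17236384292124225552, 9370583660161540112,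
    34609582804672053744, 1681233130016993320960, 1627608769253641089552, 14568845938387845616,
    5878296955192580501504, 827210466128875815664, 6822724947536834816, 7506709141211049984,
    111146345103953667, 16962808206977007648, 2812885206123479072, 19527731340052001280,
    273046472630627074080, 4035506952093036544, 4805308151521818509552, 81394119230203364080,
    5758736500593121034480, 393154114585333264384, 1299296356418301456400,
    14662911159615688451, 17578376388873818352, 24349819903854964736, 80892530822240858368,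
    6638613766991230595328, 5125093543820468949232, 15526441400839241968, 18356424704470749187,
    11399189369641608749056, 78350388268703424260, 1094009900503808536576, 2325546468322189312,
    2462343306718355440, 17373198723004375296, 10738534455310287088, 2770118602135769088,
    2442302342020844355616, 8548703160824340, 136796984458621168, 136779327848067312,
    136779392289353968, 136796920037245168, 136796984478531824, 136779392289403648,
    136779327848116992, 136779327867977968, 136796920050888944, 136796984458670848,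
    136779392275710192, 136796920050938624, 19339635686879850528, 3752838856061299454464,
    6429451629048688896, 3280274404667371504, 7558007955698876448, 541772462483606417392,
    39864861357350514688, 1444916621758963460, 4240702209609757200, 17672424215436918800,
    327525831227639734256, 617614909796158341152, 4038858246270964736496,
    6586357374614926008560, 7656838253835127550208, 2080132729204333604864,
    7062137007663743728, 292927613185905848320, 13337691982172188672, 3351505166246355184,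
    5912815357486764720368, 2305573919350724751392, 24572131062086373139, 3214708327329169424,
    15936814324666925296, 206152836107605180432, 196645468791377683, 136779457233027312,
    13115379526862381296, 8854494558898415071232, 2701720182258147824, 1658644287314784272,
    12106520433787940608, 6172939964033142768, 5265036727383690899488, 9473181289157755376,
    4155186593216327712, 446573280090158923792, 13388973204223102752, 4034138772928610889968,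
    52073979213956391168, 5802466117856456944, 80892513230055801072, 2735936984634687504,
    28855596313812994, 477694543297953009424, 6273138212981046382576, 1641544682445992448,
    3182874845287788060912, 364700372139320152304, 4734128196461257568000, 1915138360091931136,
    7117402702376055349488, 589731171770474438896, 356241819955209, 356173099495433,
    683163394997387002352, 6224256370488832000, 19151557625863348480, 67258445900043911408,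
    4702373948241748208, 1709960694005301280, 7388123663718690254848, 1915155952025341696,
    15526441400824557600, 10379460345955680272, 1627608786846331433216, 7814519620679827696,
    16278806421387088112, 9319284845639299328, 4599776319500251136, 7328685437311612169984,
    13175245538955632387, 6812528165493656330480, 21135094194825785344, 6878008252275829567504,
    872307841539958113008, 6292637197626642672, 10900998095846187011, 46801617347793842178,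
    53624343385948090880, 5979253004546983588096, 4232134814973620976, 19276954530940526594,
    98174513849566294768, 238847262960802398224, 6612622385234203250432,
    1299296374010518958096, 40697042130307186720, 2188732037186265344, 47022826940473347,
    10584638011273637904, 5984844311149150448, 23734251721688428288, 7934199262339928304,
    38405712670266363664, 744037988210883691248, 393154114585031274992, 40446265518780907520,
    13846405028703768577, 5327416068230496710656, 68398565121130496, 68380908510576640,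
    68380972951863296, 68380972932005936, 68398500693540912, 68398565134827568,
    68398500713398272, 68380908524273712, 4223602604742152176, 11862611442555708047600,
    1207642492094531112960, 9712575756847096048, 20827318899711221760, 5506072967663193856,
    5545515828034808062192, 7915749070512766193408, 4642747890630163361792,
    1162755747361063664, 6139624516019971756064, 14568845937867886624, 358020126517062860832,
    11285721809515900928, 26743782172980736000, 9789523978622140448, 4651075133736296448,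
    1152786942191113138176, 872695414990971207696, 2599504726731317641216, 427472739163566592,
    13276893189921374210, 2701720182259183872, 99924729398431745, 5095317431934108299776,
    10328161531181674240, 3176718987546841976816, 4195741420765377130496, 3095011093468160240,
    273576295665828080, 1915155952280010992, 37049156997545986, 222295073595912224,
    16073611163631484960, 32147257300879471104, 2120351210050486288, 5403475338401488912,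
    572038763042148712688, 655712846960857845792, 13406090401512824832, 5633613009737789468672,
    7744935400353765007600, 11183141772926710000, 1573163855289446896, 5369276129252278272,
    3103578488608718848, 3413309102454135128080, 2849939223937026, 2849943251517442,
    2848843738841090, 2848839713357826, 178052733796358, 178121201614854,
    491670620317121774064, 181392590714105295360, 393154096993149186048, 4240684617928012032,
    2294630154664294883328, 3522501214582338048, 6116779443960166805760, 820781242845818880,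
    44885376352972802, 3967090940062015488, 712484357017609, 13474488820585074720,
    175601524543241391904, 154306816655459745824, 308613668280241025536, 308613668280241037312,
    7164717044491939840, 6386953182764239745024, 11285721809496973328, 84830002983534597,
    9336384253427060738, 14449166296191922208, 9558661721699123696, 2411044492230586880,
    98904096989769695248, 569969446424150256, 6878008234683895181312, 6429861791163963412720,
    15822834354270306306, 7748259265183749, 4856270392009031696, 679606677191687995632,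
    547460948617675735056, 12031555538327227601136, 230593871285596458992,
    26812163004399943680, 1812010907796141769200, 2307215481414918152192,
    393154114585583682032, 11826633891574706151680, 178053004263433, 2735919392196984864,
    1829657927833686048, 415616218562569, 1461998831959802608, 111147642167296032,
    9644177337506471680, 816950720819975299072, 59848630094397443, 6446533641411502320,
    3419921177521492000, 17304782711463878640, 3026612674645459440, 4616893516218380272,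
    6443951883140049465584, 275731141122650370, 6590404801658888, 24076243822704718336,
    2735936984635801600, 91197905643307010, 4377481456342011888, 219177748233519112,
    741712441953014124576, 84540428927670231056, 6703022278537328460016, 5745466138562593028,
    290465270089372540944, 1125792366024099700992, 5513254591171033964288, 222295073343152368,
    5001201224513519481344, 298490702217519046640, 957560489324380160, 783754687966611644672,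
    16029793175867394, 18672768493431091714, 65547398862209026, 49785498391515627780,
    46190307574465695491, 4121003679203521026, 1094921897020520148752, 49930828741282439184,
    278974335640138740224, 14626335905303953410, 17595493585861481200, 129197027483385858,
    154306834247647821824, 217028167190855025392, 307791800675922434, 2683543584627374424816,
    8686581874852757504, 3103578488607670288, 6442583914753233711344, 625663141397701595120,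
    30870486810530738208, 5899362582063611907, 192370567566794755, 294968196579065859,
    59305477996553, 59373945815049, 13564260449428570115, 9644159745873936624,
    18176878853716123651, 9644159745323495440, 32328227921420288002, 512988127678285541392,
    6429434036308013088, 6207977336414684589824, 8943093539801198608, 7079236612233687296,
    136797049170428400, 5471873757724287472, 683966811676413936, 361941648832393218,
    3146309907971710976, 663647063604344255216, 6812528165493910008320, 10601755208564408320,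
    43995859113869319, 146682479847276549, 1335907451011077, 22143988472018444304,
    8548716060479491, 5027266440092319776, 45597859886792706, 2137382709166087,
    78506711612194823, 15423843771781018096, 9447531881886249712, 21203492614185156848,
    3556717819155578882, 4822088774541443072, 1714235398183518211, 2719179143511954030624,
    2789595333815664967680, 308613650688057016560, 2735936984650481664, 389004592886177607664,
    478787849061076995, 3556718016201826304, 461688244227080195, 38525408607555686403,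
    6839842144556020224, 17509977970038534144, 18741149517649944832, 311349587461951000576,
    1573146263104270320, 5019463584885851029744, 8549802628308201712, 102596542672601091,
    1385066905291849988, 8793118377276704026624, 3282918933309852614688,
    2686416300648017490160, 7250215068918411504, 12790486828598817536, 5369258537065250832,
    10747100552835825667, 2271648303358261923824, 107406906043199489, 278016757769366999072,
    3664342718763490148352, 40446247926593880080, 11297121546355671040, 222295073311682848,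
    222295073326428448, 5471873758262259728, 18895063553334583072, 6395252217767657504,
    6395252217784434720, 5677051424099332096, 12290354129739777, 785533046869468389152,
    521537960660631811, 875134958613586637312, 10943747304979493392, 199584382305046535,
    250614997041745921, 12790504417513304832, 2735919392199147520, 376190220017533443,
    6395234826388111392, 222277481695080464, 36909497050143334402, 45006160137164026096,
    13744023981479643058160, 10157165482562687008, 745168717796679686, 6839842144807624704,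
    34198123314282755, 1427817016924766468, 36533305743786438657, 5471856165824557088,
    8193560663626293250, 230844678445932545, 308613668280241102848, 50379709659537809409,
    393154114585050017808, 32147239708929290256]

/-- `[(m x) z - (m z) x, u] = 0` for `m = [[y, x], x]` -/
theorem main (h : RAM A) (hg : ∀ x y : A, g31 x x x y = 0)
    (hA : ∀ x y z : A, cmm (cmm (cmm y z) x) x = 0)
    (hB : ∀ a b c d : A, cmm (cmm a b) (cmm c d) = 0)
    (h1 : ∀ x y a : A, rel1 x x x y a = 0) (h2 : ∀ x y a : A, rel2 x x x y a = 0)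
    (h3 : ∀ x y a : A, rel3 x x x y a = 0) (h4 : ∀ x y a : A, rel4 x x x y a = 0)
    (h5 : ∀ x y a : A, relg x x x y a = 0) (x y z u : A) :
    cmm ((cmm (cmm y x) x * x) * z - (cmm (cmm y x) x * z) * x) u = 0 :=
  ev_of_checkE h.tor KB (ρ := fun i => if i = 0 then x else if i = 1 then y else if i = 2 then z
      else u) ⟨fun ρ' _ => raT_holds h ρ', fun ρ' _ => malT_holds h ρ',
      fun ρ' _ => g31T_holds h.tor hg ρ', fun ρ' _ => LAT_holds h.tor hA ρ',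
      fun ρ' _ => LBT_holds h.tor hB ρ', fun ρ' _ => a1T_holds h.tor h1 ρ',
      fun ρ' _ => a2T_holds h.tor h2 ρ', fun ρ' _ => a3T_holds h.tor h3 ρ',
      fun ρ' _ => a4T_holds h.tor h4 ρ', fun ρ' _ => gKT_holds h.tor h5 ρ', trivial⟩
    6 tE tC (by decide +kernel)

end ring

end B14

end Pool.Agent.NACert
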