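import Pool.Agent.NACert.B13

/-!
# Block 14r: `n(m, x; a x) = n(m, x; a) x` for `n(m, x; a) = (m x) a - (m a) x`

for a pair `m`, `x` satisfying the relations of the blocks 10 and 13; consequence: `n = 0` for
`m = [[y, x], x]`.
-/

namespace Pool.Agent.NACert

open Fast B14

section ring

variable {A : Type*} [NonUnitalNonAssocRing A]

/-- known identities for a pair `m`, `x` -/
def b14rK : Kn :=
  .cons 0 3 raT (.cons 2 1 (ofP (E.add (.add (.sub (.sub (.sm 2 (.mul (.mul (.v 1) (.v 0)) (.v 2))) (.sm 2 (.mul (.mul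
      (.v 0) (.v 2)) (.v 1)))) (.sm 2 (.mul (.mul (.v 1) (.v 2)) (.v 0)))) (.mul (.mul (.v 2) (.v
      0)) (.v 1))) (.mul (.mul (.v 2) (.v 1)) (.v 0))).p)
    (.cons 2 1 (ofP (E.sub (.sub (.sm 2 (.mul (.v 2) (.mul (.v 1) (.v 0)))) (.mul (.mul (.v 2) (.v 0)) (.v
      1))) (.mul (.mul (.v 2) (.v 1)) (.v 0))).p)
    (.cons 2 1 (ofP (E.sub (.add (.sub (.sm 4 (.mul (.v 0) (.mul (.v 2) (.v 1)))) (.sm 4 (.mul (.mul (.v 0)
      (.v 2)) (.v 1)))) (.mul (.mul (.v 2) (.v 0)) (.v 1))) (.mul (.mul (.v 2) (.v 1)) (.v 0))).p)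
    (.cons 2 2 (ofP (E.cm (.cm (.v 2) (.v 3)) (.v 0)).p)
    (.cons 2 1 (ofP (E.sub (.sub (.sm 3 (.mul (.mul (.v 2) (.v 0)) (.v 1))) (.mul (.mul (.v 2) (.v 1)) (.v
      0))) (.sm 2 (.mul (.mul (.v 1) (.v 2)) (.v 0)))).p) .nil)))))

/-- certificate -/
def b14rC : List ℕ :=
  [6174142752, 6443626528, 12587298, 12587762, 3221295392, 201404180, 11543057, 184619540,
    3222340336, 2954031360, 3222348032, 6296309, 5247731, 5247269, 6295843, 11543058, 2955022592]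

/-- `n(m, x; a x) = n(m, x; a) x` -/
theorem RAM.b14r (h : RAM A) {m x : A}
    (h1 : ∀ a : A, (((((2 : ℤ) • ((x * m) * a)) - ((2 : ℤ) • ((m * a) * x))) - ((2 : ℤ) • ((x * a) * m))) + ((a * m) * x)) + ((a * x) * m) = 0)
    (h2 : ∀ a : A, (((2 : ℤ) • (a * (x * m))) - ((a * m) * x)) - ((a * x) * m) = 0)
    (h4 : ∀ a : A, ((((4 : ℤ) • (m * (a * x))) - ((4 : ℤ) • ((m * a) * x))) + ((a * m) * x)) - ((a * x) * m) = 0)
    (h6 : ∀ a b : A, cmm (cmm a b) m = 0)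
    (h5 : ∀ a : A, (((3 : ℤ) • ((a * m) * x)) - ((a * x) * m)) - ((2 : ℤ) • ((x * a) * m)) = 0) (a : A) :
    ((m * x) * (a * x) - (m * (a * x)) * x) - ((m * x) * a - (m * a) * x) * x = 0 := by
  have hK : b14rK.Holds (fun i => if i = 0 then m else if i = 1 then x else a) := by
    refine ⟨fun ρ' _ => raT_holds h ρ', fun ρ' h0 => ?_, fun ρ' h0 => ?_, fun ρ' h0 => ?_,
      fun ρ' h0 => ?_, fun ρ' h0 => ?_, trivial⟩ <;>
    · have e0 : ρ' 0 = m := h0 0 (by norm_num)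
      have e1 : ρ' 1 = x := h0 1 (by norm_num)
      rw [ev_ofP, evP_p]
      subst e0
      subst e1
      first
      | exact h1 (ρ' 2)
      | exact h2 (ρ' 2)
      | exact h4 (ρ' 2)
      | exact h5 (ρ' 2)
      | exact h6 (ρ' 2) (ρ' 3)
  exact ev_of_checkE h.tor b14rK hK 1 (.sub (.sub (.mul (.mul (.v 0) (.v 1)) (.mul (.v 2) (.v 1))) (.mul (.mul (.v 0) (.mul (.v 2)
      (.v 1))) (.v 1))) (.mul (.sub (.mul (.mul (.v 0) (.v 1)) (.v 2)) (.mul (.mul (.v 0) (.v 2))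
      (.v 1))) (.v 1))) b14rC (by decide +kernel)

end ring

section alg

variable {F A : Type*} [Field F] [NonUnitalNonAssocRing A] [Module F A] [IsScalarTower F A A]
  [SMulCommClass F A A]

/-- `(m x) a = (m a) x` for `m = [[y, x], x]` -/
theorem SR.n_zero (h : SR F A) (hg : ∀ x y : A, g31 x x x y = 0)
    (hA : ∀ x y z : A, cmm (cmm (cmm y z) x) x = 0)
    (hB : ∀ a b c d : A, cmm (cmm a b) (cmm c d) = 0)
    (h1 : ∀ x y a : A, rel1 x x x y a = 0) (h2 : ∀ x y a : A, rel2 x x x y a = 0)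
    (h3 : ∀ x y a : A, rel3 x x x y a = 0) (h4 : ∀ x y a : A, rel4 x x x y a = 0)
    (h5 : ∀ x y a : A, relg x x x y a = 0) (x y a : A) :
    (mm x x y * x) * a - (mm x x y * a) * x = 0 := by
  have hz : ∀ a, ZC ((mm x x y * x) * a - (mm x x y * a) * x) := fun a =>
    h.cm_zc h.omH (cm_of_cmm fun u => B14.main h.ram hg hA hB h1 h2 h3 h4 h5 x y a u)
  have hx : ZC (((mm x x y * x) * a - (mm x x y * a) * x) * x) := by
    have e := h.ram.b14r (m := mm x x y) (x := x) (fun a => h1 x y a) (fun a => h2 x y a)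
      (fun a => h4 x y a) (fun a b => hB a b (cmm y x) x) (fun a => h5 x y a) a
    rw [sub_eq_zero] at e
    rw [← e]
    exact hz _
  rcases h.rtrick h.omH (hz a) hx with h0 | h0
  · exact h0
  · have hm : mm x x y = 0 := mm_zero_of_zc h0 y
    simp only [hm]
    simp

end alg

end Pool.Agent.NACert
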