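import Pool.Agent.NACert.B14

/-!
# Block 15: `[t, a] = 0` for `t = [(x, x, y), x]`
-/

namespace Pool.Agent.NACert

open Fast

namespace B15

open B14

section ring

variable {A : Type*} [NonUnitalNonAssocRing A]

/-- `(m x) a - (m a) x` -/
def reln (p q x y a : A) : A := (mm p q y * x) * a - (mm p q y * a) * x

/-- the same expression -/
@[reducible] def relnE (p q x y a : E) : E :=
  .sub (.mul (.mul (mmE p q y) x) a) (.mul (.mul (mmE p q y) a) x)

set_option maxRecDepth 20000 in
/-- linearisation of `reln` -/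
def nKT : Tm :=
  (.cons true 1 (.m (.m (.m (.m (.v 3) (.v 0)) (.v 1)) (.v 2)) (.v 4))
  (.cons true 1 (.m (.m (.m (.m (.v 3) (.v 0)) (.v 2)) (.v 1)) (.v 4))
  (.cons true 1 (.m (.m (.m (.m (.v 3) (.v 1)) (.v 0)) (.v 2)) (.v 4))
  (.cons true 1 (.m (.m (.m (.m (.v 3) (.v 1)) (.v 2)) (.v 0)) (.v 4))
  (.cons true 1 (.m (.m (.m (.m (.v 3) (.v 2)) (.v 0)) (.v 1)) (.v 4))
  (.cons true 1 (.m (.m (.m (.m (.v 3) (.v 2)) (.v 1)) (.v 0)) (.v 4))
  (.cons false 1 (.m (.m (.m (.m (.v 0) (.v 3)) (.v 1)) (.v 2)) (.v 4))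
  (.cons false 1 (.m (.m (.m (.m (.v 0) (.v 3)) (.v 2)) (.v 1)) (.v 4))
  (.cons false 1 (.m (.m (.m (.m (.v 1) (.v 3)) (.v 0)) (.v 2)) (.v 4))
  (.cons false 1 (.m (.m (.m (.m (.v 1) (.v 3)) (.v 2)) (.v 0)) (.v 4))
  (.cons false 1 (.m (.m (.m (.m (.v 2) (.v 3)) (.v 0)) (.v 1)) (.v 4))
  (.cons false 1 (.m (.m (.m (.m (.v 2) (.v 3)) (.v 1)) (.v 0)) (.v 4))
  (.cons false 1 (.m (.m (.m (.v 0) (.m (.v 3) (.v 1))) (.v 2)) (.v 4))
  (.cons false 1 (.m (.m (.m (.v 0) (.m (.v 3) (.v 2))) (.v 1)) (.v 4))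
  (.cons false 1 (.m (.m (.m (.v 1) (.m (.v 3) (.v 0))) (.v 2)) (.v 4))
  (.cons false 1 (.m (.m (.m (.v 1) (.m (.v 3) (.v 2))) (.v 0)) (.v 4))
  (.cons false 1 (.m (.m (.m (.v 2) (.m (.v 3) (.v 0))) (.v 1)) (.v 4))
  (.cons false 1 (.m (.m (.m (.v 2) (.m (.v 3) (.v 1))) (.v 0)) (.v 4))
  (.cons true 1 (.m (.m (.m (.v 0) (.m (.v 1) (.v 3))) (.v 2)) (.v 4))
  (.cons true 1 (.m (.m (.m (.v 0) (.m (.v 2) (.v 3))) (.v 1)) (.v 4))
  (.cons true 1 (.m (.m (.m (.v 1) (.m (.v 0) (.v 3))) (.v 2)) (.v 4))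
  (.cons true 1 (.m (.m (.m (.v 1) (.m (.v 2) (.v 3))) (.v 0)) (.v 4))
  (.cons true 1 (.m (.m (.m (.v 2) (.m (.v 0) (.v 3))) (.v 1)) (.v 4))
  (.cons true 1 (.m (.m (.m (.v 2) (.m (.v 1) (.v 3))) (.v 0)) (.v 4))
  (.cons false 1 (.m (.m (.m (.m (.v 3) (.v 0)) (.v 1)) (.v 4)) (.v 2))
  (.cons false 1 (.m (.m (.m (.m (.v 3) (.v 0)) (.v 2)) (.v 4)) (.v 1))
  (.cons false 1 (.m (.m (.m (.m (.v 3) (.v 1)) (.v 0)) (.v 4)) (.v 2))
  (.cons false 1 (.m (.m (.m (.m (.v 3) (.v 1)) (.v 2)) (.v 4)) (.v 0))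
  (.cons false 1 (.m (.m (.m (.m (.v 3) (.v 2)) (.v 0)) (.v 4)) (.v 1))
  (.cons false 1 (.m (.m (.m (.m (.v 3) (.v 2)) (.v 1)) (.v 4)) (.v 0))
  (.cons true 1 (.m (.m (.m (.m (.v 0) (.v 3)) (.v 1)) (.v 4)) (.v 2))
  (.cons true 1 (.m (.m (.m (.m (.v 0) (.v 3)) (.v 2)) (.v 4)) (.v 1))
  (.cons true 1 (.m (.m (.m (.m (.v 1) (.v 3)) (.v 0)) (.v 4)) (.v 2))
  (.cons true 1 (.m (.m (.m (.m (.v 1) (.v 3)) (.v 2)) (.v 4)) (.v 0))
  (.cons true 1 (.m (.m (.m (.m (.v 2) (.v 3)) (.v 0)) (.v 4)) (.v 1))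
  (.cons true 1 (.m (.m (.m (.m (.v 2) (.v 3)) (.v 1)) (.v 4)) (.v 0))
  (.cons true 1 (.m (.m (.m (.v 0) (.m (.v 3) (.v 1))) (.v 4)) (.v 2))
  (.cons true 1 (.m (.m (.m (.v 0) (.m (.v 3) (.v 2))) (.v 4)) (.v 1))
  (.cons true 1 (.m (.m (.m (.v 1) (.m (.v 3) (.v 0))) (.v 4)) (.v 2))
  (.cons true 1 (.m (.m (.m (.v 1) (.m (.v 3) (.v 2))) (.v 4)) (.v 0))
  (.cons true 1 (.m (.m (.m (.v 2) (.m (.v 3) (.v 0))) (.v 4)) (.v 1))
  (.cons true 1 (.m (.m (.m (.v 2) (.m (.v 3) (.v 1))) (.v 4)) (.v 0))
  (.cons false 1 (.m (.m (.m (.v 0) (.m (.v 1) (.v 3))) (.v 4)) (.v 2))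
  (.cons false 1 (.m (.m (.m (.v 0) (.m (.v 2) (.v 3))) (.v 4)) (.v 1))
  (.cons false 1 (.m (.m (.m (.v 1) (.m (.v 0) (.v 3))) (.v 4)) (.v 2))
  (.cons false 1 (.m (.m (.m (.v 1) (.m (.v 2) (.v 3))) (.v 4)) (.v 0))
  (.cons false 1 (.m (.m (.m (.v 2) (.m (.v 0) (.v 3))) (.v 4)) (.v 1))
  (.cons false 1 (.m (.m (.m (.v 2) (.m (.v 1) (.v 3))) (.v 4)) (.v 0))
  .nil))))))))))))))))))))))))))))))))))))))))))))))))

theorem nKT_holds (tor : NoTor A) (hp : ∀ x y a : A, reln x x x y a = 0) (ρ : ℕ → A) :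
    nKT.ev ρ = 0 := by
  refine Fast.ev_of_check tor (.cons 0 5 (ofP (E.sym3 (fun a b c => relnE a b c (.v 3) (.v 4))
    (.v 0) (.v 1) (.v 2)).p) .nil) ⟨fun ρ' _ => ?_, trivial⟩ 0 nKT
    [272834816] (by decide +kernel)
  rw [ev_ofP, evP_p]
  refine polar3 (fun a b c => reln a b c (ρ' 3) (ρ' 4)) ?_ ?_ ?_ (fun a => hp a _ _) (ρ' 0)
    (ρ' 1) (ρ' 2) <;>
  · intro a b c d
    simp only [reln, mm, cmm, mul_add, add_mul, mul_sub, sub_mul]
    abel

/-- known identities -/
def KB : Kn := .cons 0 3 raT (.cons 0 4 malT (.cons 0 4 g31T (.cons 0 4 LAT (.cons 0 4 LBT (.cons 0 5 a1T (.cons 0 5 a3T (.cons 0 5 gKT (.cons 0 5 nKT .nil))))))))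

/-- certificate -/
def tC : List ℕ :=
    [88992276090880, 59373930082304, 445302494654464, 14843977469952, 267181342519312,
    14775259033600, 14775258058752, 118747289546768, 11132588793603, 148434371813376,
    237426077409280, 163208775213056, 103835162964496, 14843961733120, 192964307513872,
    74217084219408, 148434086653984, 29618128089376, 311711581073424, 371017007558672,
    118747289481248, 14843977527296, 578824155688976, 111256851841040, 207807714488608,
    103835164090368, 118678568890880, 923451526931, 29687099301888, 59373930029056,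
    96413443817504, 118747288498176, 8809012592643, 267112625016832, 274603314258160,
    927729717027, 7422273913328, 59373663682576, 74148331254272, 29686847513072,
    59305212510448, 118678570004992, 8349417472529, 267181627547888, 133521992708096,
    233783676641776, 9277130539268, 103835683123200, 927713923587, 3642149049072,
    7422257201168, 267181344550912, 29687367598576, 7352985121520, 14843676455424,
    178052181135392, 59373929951744, 74217069608992, 7421738156064, 170630478626848,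
    29687099224576, 44530256577008, 7353554440432, 14843456319744, 22196424545008,
    7353554501648, 281956028850432, 7422274043920, 1851147693827, 231661961224, 37040083174128,
    385929134084096, 4638565671172, 296868156404224, 118678538428400, 44461517369600,
    29687098245360, 163277492592656, 7421703615216, 178052180025584, 14843409134064,
    118678838313712, 222582937809152, 37039799021552, 202669948936, 6030168690435,
    148365351456752, 44462055227408, 311711580221696, 37040083304480, 385859879772160,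
    14774703362080, 244916216328432, 140943648952304, 111325568118528, 70506500915200,
    133521962237968, 207807732445184, 89061011357696, 122458676985856, 129811091693552,
    923436974082, 222651139228400, 133590712123408, 311642843844640, 267181361262608,
    927730892802, 252337918767600, 296799435825168, 267112638587120, 15302987481091,
    74217587540208, 356241785417728, 14843675545584, 44530505101056, 415615413133552,
    44530758848496, 3710852927490, 140943964504304, 178120901587456, 22265394757664,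
    43219288071, 48172353269744, 6489696706561, 311642861596928, 118747288436976,
    148434340286448, 22196426702864, 103903881404416, 37040083238944, 14843441586416,
    103904401489936, 89060729221120, 311643098574848, 281956297346816, 259690918452992,
    88991754879728, 163278029393920, 74217050735088, 163208776257536, 14774723211520,
    22265159876624, 773129699330, 44530236793088, 14843710009344, 2783139795460, 3706573746178,
    29687118102528, 178052181139712, 178052733661184, 2005769584642, 207739248767216,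
    44530239803632, 7353553387760, 74217587605520, 3710852866050, 267112890245360,
    14774703362288, 178052716826864, 74217067446304, 43487723526, 38388432903, 14843943915504,
    59305447387136, 86975250437, 237425841406448, 178120901586976, 5561984880643,
    44530505162752, 178052197916688, 44461534088960, 89060491137264, 1851149840386,
    14775242260480, 29618648183024, 148434087576304, 178052179960304, 74148348035104,
    29687368646896, 311711565410560, 163208806596848, 460076912611088, 192964843401216,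
    504675856085008, 133521992716288, 59374180499952, 460145633194240, 22265112686832,
    11128262422786, 29687118098432, 88991738168048, 371085223727104, 103835162976272,
    222651120365328, 74148583895792, 7421704544514, 5561985732610, 192895603715840,
    927732793347, 16698832981777, 59305445421296, 29618396594208, 8349417538051, 3710886281476,
    415546695741440, 3706559000578, 12055974379779, 18549963763473, 22260849057540,
    59373912203264, 3706591314179, 5098144137219]

/-- `[t, a] = 0` for `t = [(x, x, y), x]` -/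
theorem main (h : RAM A) (hg : ∀ x y : A, g31 x x x y = 0) (hA : ∀ x y z : A, cmm (cmm (cmm y z) x) x = 0) (hB : ∀ a b c d : A, cmm (cmm a b) (cmm c d) = 0) (h1 : ∀ x y a : A, rel1 x x x y a = 0) (h3 : ∀ x y a : A, rel3 x x x y a = 0) (h5 : ∀ x y a : A, relg x x x y a = 0) (h6 : ∀ x y a : A, reln x x x y a = 0) (x y a : A) :
    cmm (tt x x x y) a = 0 :=
  ev_of_checkE h.tor KB (ρ := fun i => if i = 0 then x else if i = 1 then y else a)
    ⟨fun ρ' _ => raT_holds h ρ', fun ρ' _ => malT_holds h ρ', fun ρ' _ => g31T_holds h.tor hg ρ', fun ρ' _ => LAT_holds h.tor hA ρ', fun ρ' _ => LBT_holds h.tor hB ρ', fun ρ' _ => a1T_holds h.tor h1 ρ', fun ρ' _ => a3T_holds h.tor h3 ρ', fun ρ' _ => gKT_holds h.tor h5 ρ', fun ρ' _ => nKT_holds h.tor h6 ρ', trivial⟩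
    3 (.cm (ttE (.v 0) (.v 0) (.v 0) (.v 1)) (.v 2)) tC (by decide +kernel)

end ring

end B15

end Pool.Agent.NACert
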