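import Pool.Agent.NACert.B14

/-!
# Block 3: `[k1(m, x; z), u] = 0` for `m = [[y, x], x]`

In the class with `eps` and `R1`: first `C4 = 0` and `P5 = 0`, then
`[2 [[m, z], x] + 2 (m, x, z) + (z, m, x), u] = 0` (degree 6, 533 items).
-/

namespace Pool.Agent.NACert

open Fast

namespace B3

open B14

/-- polarisation of a quartic map -/
theorem polar4 {A B : Type*} [AddCommGroup A] [AddCommGroup B] (f : A → A → A → A → B)
    (h1 : ∀ a a' b c d, f (a + a') b c d = f a b c d + f a' b c d)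
    (h2 : ∀ a b b' c d, f a (b + b') c d = f a b c d + f a b' c d)
    (h3 : ∀ a b c c' d, f a b (c + c') d = f a b c d + f a b c' d)
    (h4 : ∀ a b c d d', f a b c (d + d') = f a b c d + f a b c d')
    (h : ∀ a, f a a a a = 0) (x y z w : A) :
    (f x y z w + f x y w z + f x z y w + f x z w y + f x w y z + f x w z y) +
    (f y x z w + f y x w z + f y z x w + f y z w x + f y w x z + f y w z x) +
    (f z y x w + f z y w x + f z x y w + f z x w y + f z w y x + f z w x y) +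
    (f w y z x + f w y x z + f w z y x + f w z x y + f w x y z + f w x z y) = 0 := by
  have e := h (x + y + z + w)
  have a1 := h (x + y + z)
  have a2 := h (x + y + w)
  have a3 := h (x + z + w)
  have a4 := h (y + z + w)
  have b1 := h (x + y)
  have b2 := h (x + z)
  have b3 := h (x + w)
  have b4 := h (y + z)
  have b5 := h (y + w)
  have b6 := h (z + w)
  have c1 := h x
  have c2 := h y
  have c3 := h z
  have c4 := h w
  simp only [h1, h2, h3, h4] at e a1 a2 a3 a4 b1 b2 b3 b4 b5 b6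
  linear_combination (norm := module) e - a1 - a2 - a3 - a4 + b1 + b2 + b3 + b4 + b5 + b6
    - c1 - c2 - c3 - c4

/-- full linearisation of a quartic expression -/
@[reducible] def sym4 (f : E → E → E → E → E) (a b c d : E) : E :=
    (.add (.add (.add (.add (.add (.add (.add (.add (f a b c d) (f a b d c)) (f a c b d)) (f a c
    d b)) (f a d b c)) (f a d c b)) (.add (.add (.add (.add (.add (f b a c d) (f b a d c)) (f b
    c a d)) (f b c d a)) (f b d a c)) (f b d c a))) (.add (.add (.add (.add (.add (f c b a d) (f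
    c b d a)) (f c a b d)) (f c a d b)) (f c d b a)) (f c d a b))) (.add (.add (.add (.add (.add
    (f d b c a) (f d b a c)) (f d c b a)) (f d c a b)) (f d a b c)) (f d a c b)))

section ring

variable {A : Type*} [NonUnitalNonAssocRing A]

/-- `(m x) a - 2 (m a) x + (x m) a - 2 (x a) m + (a m) x + (a x) m` -/
def eps (p q x y a : A) : A :=
  (mm p q y * x) * a - (2 : ℤ) • ((mm p q y * a) * x) + (x * mm p q y) * a
    - (2 : ℤ) • ((x * a) * mm p q y) + (a * mm p q y) * x + (a * x) * mm p q y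

/-- the same expression -/
@[reducible] def epsE (p q x y a : E) : E :=
  .add (.add (.sub (.add (.sub (.mul (.mul (mmE p q y) x) a)
    (.sm 2 (.mul (.mul (mmE p q y) a) x))) (.mul (.mul x (mmE p q y)) a))
    (.sm 2 (.mul (.mul x a) (mmE p q y)))) (.mul (.mul a (mmE p q y)) x))
    (.mul (.mul a x) (mmE p q y))

/-- `(m, a, x) + (x, a, m)` -/
def r1 (p q x y a : A) : A := ass (mm p q y) a x + ass x a (mm p q y)

/-- the same expression -/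
@[reducible] def r1E (p q x y a : E) : E := .add (.as (mmE p q y) a x) (.as x a (mmE p q y))

/-- `[[[[y, p], q], r], s]` -/
def c4 (p q r s y : A) : A := cmm (cmm (cmm (cmm y p) q) r) s

/-- the same expression -/
@[reducible] def c4E (p q r s y : E) : E := .cm (.cm (.cm (.cm y p) q) r) s

/-- `[[[z, p], [y, q]], r] - [[[[z, y], p], q], r]` -/
def p5 (p q r y z : A) : A :=
  cmm (cmm (cmm z p) (cmm y q)) r - cmm (cmm (cmm (cmm z y) p) q) r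

/-- the same expression -/
@[reducible] def p5E (p q r y z : E) : E :=
  .sub (.cm (.cm (.cm z p) (.cm y q)) r) (.cm (.cm (.cm (.cm z y) p) q) r)

/-- `2 (m z) x - 2 (x m) z + 2 x (z m) - 2 (z m) x - (z x) m + z (x m)` -/
def k1 (p q x y z : A) : A :=
  (2 : ℤ) • ((mm p q y * z) * x) - (2 : ℤ) • ((x * mm p q y) * z)
    + (2 : ℤ) • (x * (z * mm p q y)) - (2 : ℤ) • ((z * mm p q y) * x) - (z * x) * mm p q y
    + z * (x * mm p q y)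

/-- the same expression -/
@[reducible] def k1E (p q x y z : E) : E :=
  .add (.sub (.sub (.add (.sub (.sm 2 (.mul (.mul (mmE p q y) z) x))
    (.sm 2 (.mul (.mul x (mmE p q y)) z))) (.sm 2 (.mul x (.mul z (mmE p q y)))))
    (.sm 2 (.mul (.mul z (mmE p q y)) x))) (.mul (.mul z x) (mmE p q y)))
    (.mul z (.mul x (mmE p q y)))

/-- the expression `k1` in another form -/
theorem k1_eq (h : RAM A) {x y : A} (hr : ∀ a : A, r1 x x x y a = 0) (z : A) :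
    k1 x x x y z = (2 : ℤ) • cmm (cmm (mm x x y) z) x + (2 : ℤ) • ass (mm x x y) x z
      + ass z (mm x x y) x := by
  have e0 := hr z
  have e1 := h.raE (fun i => if i = 0 then mm x x y else if i = 1 then x else z)
  have e2 := h.raE (fun i => if i = 0 then x else if i = 1 then mm x x y else z)
  have e3 := h.raE (fun i => if i = 0 then z else if i = 1 then mm x x y else x)
  simp only [NACert.raE, E.ev, r1, ass, if_true, one_ne_zero, if_false, OfNat.ofNat_ne_zero,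
    OfNat.ofNat_ne_one] at e0 e1 e2 e3
  simp only [k1, cmm, ass, mul_sub, sub_mul]
  generalize mm x x y = m at e0 e1 e2 e3 ⊢
  linear_combination (norm := module) (2 : ℤ) • e0 - (2 : ℤ) • e1 - (2 : ℤ) • e2 - e3

set_option maxRecDepth 20000 in
/-- linearisation of `eps` -/
def epsT : Tm :=
  (.cons true 1 (.m (.m (.m (.m (.v 3) (.v 0)) (.v 1)) (.v 2)) (.v 4))
  (.cons true 1 (.m (.m (.m (.m (.v 3) (.v 0)) (.v 2)) (.v 1)) (.v 4))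
  (.cons true 1 (.m (.m (.m (.m (.v 3) (.v 1)) (.v 0)) (.v 2)) (.v 4))
  (.cons true 1 (.m (.m (.m (.m (.v 3) (.v 1)) (.v 2)) (.v 0)) (.v 4))
  (.cons true 1 (.m (.m (.m (.m (.v 3) (.v 2)) (.v 0)) (.v 1)) (.v 4))
  (.cons true 1 (.m (.m (.m (.m (.v 3) (.v 2)) (.v 1)) (.v 0)) (.v 4))
  (.cons false 1 (.m (.m (.m (.m (.v 0) (.v 3)) (.v 1)) (.v 2)) (.v 4))
  (.cons false 1 (.m (.m (.m (.m (.v 0) (.v 3)) (.v 2)) (.v 1)) (.v 4))
  (.cons false 1 (.m (.m (.m (.m (.v 1) (.v 3)) (.v 0)) (.v 2)) (.v 4))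
  (.cons false 1 (.m (.m (.m (.m (.v 1) (.v 3)) (.v 2)) (.v 0)) (.v 4))
  (.cons false 1 (.m (.m (.m (.m (.v 2) (.v 3)) (.v 0)) (.v 1)) (.v 4))
  (.cons false 1 (.m (.m (.m (.m (.v 2) (.v 3)) (.v 1)) (.v 0)) (.v 4))
  (.cons false 1 (.m (.m (.m (.v 0) (.m (.v 3) (.v 1))) (.v 2)) (.v 4))
  (.cons false 1 (.m (.m (.m (.v 0) (.m (.v 3) (.v 2))) (.v 1)) (.v 4))
  (.cons false 1 (.m (.m (.m (.v 1) (.m (.v 3) (.v 0))) (.v 2)) (.v 4))
  (.cons false 1 (.m (.m (.m (.v 1) (.m (.v 3) (.v 2))) (.v 0)) (.v 4))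
  (.cons false 1 (.m (.m (.m (.v 2) (.m (.v 3) (.v 0))) (.v 1)) (.v 4))
  (.cons false 1 (.m (.m (.m (.v 2) (.m (.v 3) (.v 1))) (.v 0)) (.v 4))
  (.cons true 1 (.m (.m (.m (.v 0) (.m (.v 1) (.v 3))) (.v 2)) (.v 4))
  (.cons true 1 (.m (.m (.m (.v 0) (.m (.v 2) (.v 3))) (.v 1)) (.v 4))
  (.cons true 1 (.m (.m (.m (.v 1) (.m (.v 0) (.v 3))) (.v 2)) (.v 4))
  (.cons true 1 (.m (.m (.m (.v 1) (.m (.v 2) (.v 3))) (.v 0)) (.v 4))
  (.cons true 1 (.m (.m (.m (.v 2) (.m (.v 0) (.v 3))) (.v 1)) (.v 4))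
  (.cons true 1 (.m (.m (.m (.v 2) (.m (.v 1) (.v 3))) (.v 0)) (.v 4))
  (.cons false 2 (.m (.m (.m (.m (.v 3) (.v 0)) (.v 1)) (.v 4)) (.v 2))
  (.cons false 2 (.m (.m (.m (.m (.v 3) (.v 0)) (.v 2)) (.v 4)) (.v 1))
  (.cons false 2 (.m (.m (.m (.m (.v 3) (.v 1)) (.v 0)) (.v 4)) (.v 2))
  (.cons false 2 (.m (.m (.m (.m (.v 3) (.v 1)) (.v 2)) (.v 4)) (.v 0))
  (.cons false 2 (.m (.m (.m (.m (.v 3) (.v 2)) (.v 0)) (.v 4)) (.v 1))
  (.cons false 2 (.m (.m (.m (.m (.v 3) (.v 2)) (.v 1)) (.v 4)) (.v 0))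
  (.cons true 2 (.m (.m (.m (.m (.v 0) (.v 3)) (.v 1)) (.v 4)) (.v 2))
  (.cons true 2 (.m (.m (.m (.m (.v 0) (.v 3)) (.v 2)) (.v 4)) (.v 1))
  (.cons true 2 (.m (.m (.m (.m (.v 1) (.v 3)) (.v 0)) (.v 4)) (.v 2))
  (.cons true 2 (.m (.m (.m (.m (.v 1) (.v 3)) (.v 2)) (.v 4)) (.v 0))
  (.cons true 2 (.m (.m (.m (.m (.v 2) (.v 3)) (.v 0)) (.v 4)) (.v 1))
  (.cons true 2 (.m (.m (.m (.m (.v 2) (.v 3)) (.v 1)) (.v 4)) (.v 0))
  (.cons true 2 (.m (.m (.m (.v 0) (.m (.v 3) (.v 1))) (.v 4)) (.v 2))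
  (.cons true 2 (.m (.m (.m (.v 0) (.m (.v 3) (.v 2))) (.v 4)) (.v 1))
  (.cons true 2 (.m (.m (.m (.v 1) (.m (.v 3) (.v 0))) (.v 4)) (.v 2))
  (.cons true 2 (.m (.m (.m (.v 1) (.m (.v 3) (.v 2))) (.v 4)) (.v 0))
  (.cons true 2 (.m (.m (.m (.v 2) (.m (.v 3) (.v 0))) (.v 4)) (.v 1))
  (.cons true 2 (.m (.m (.m (.v 2) (.m (.v 3) (.v 1))) (.v 4)) (.v 0))
  (.cons false 2 (.m (.m (.m (.v 0) (.m (.v 1) (.v 3))) (.v 4)) (.v 2))
  (.cons false 2 (.m (.m (.m (.v 0) (.m (.v 2) (.v 3))) (.v 4)) (.v 1))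
  (.cons false 2 (.m (.m (.m (.v 1) (.m (.v 0) (.v 3))) (.v 4)) (.v 2))
  (.cons false 2 (.m (.m (.m (.v 1) (.m (.v 2) (.v 3))) (.v 4)) (.v 0))
  (.cons false 2 (.m (.m (.m (.v 2) (.m (.v 0) (.v 3))) (.v 4)) (.v 1))
  (.cons false 2 (.m (.m (.m (.v 2) (.m (.v 1) (.v 3))) (.v 4)) (.v 0))
  (.cons true 1 (.m (.m (.v 0) (.m (.m (.v 3) (.v 1)) (.v 2))) (.v 4))
  (.cons true 1 (.m (.m (.v 0) (.m (.m (.v 3) (.v 2)) (.v 1))) (.v 4))
  (.cons true 1 (.m (.m (.v 1) (.m (.m (.v 3) (.v 0)) (.v 2))) (.v 4))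
  (.cons true 1 (.m (.m (.v 1) (.m (.m (.v 3) (.v 2)) (.v 0))) (.v 4))
  (.cons true 1 (.m (.m (.v 2) (.m (.m (.v 3) (.v 0)) (.v 1))) (.v 4))
  (.cons true 1 (.m (.m (.v 2) (.m (.m (.v 3) (.v 1)) (.v 0))) (.v 4))
  (.cons false 1 (.m (.m (.v 0) (.m (.m (.v 1) (.v 3)) (.v 2))) (.v 4))
  (.cons false 1 (.m (.m (.v 0) (.m (.m (.v 2) (.v 3)) (.v 1))) (.v 4))
  (.cons false 1 (.m (.m (.v 1) (.m (.m (.v 0) (.v 3)) (.v 2))) (.v 4))
  (.cons false 1 (.m (.m (.v 1) (.m (.m (.v 2) (.v 3)) (.v 0))) (.v 4))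
  (.cons false 1 (.m (.m (.v 2) (.m (.m (.v 0) (.v 3)) (.v 1))) (.v 4))
  (.cons false 1 (.m (.m (.v 2) (.m (.m (.v 1) (.v 3)) (.v 0))) (.v 4))
  (.cons false 1 (.m (.m (.v 0) (.m (.v 1) (.m (.v 3) (.v 2)))) (.v 4))
  (.cons false 1 (.m (.m (.v 0) (.m (.v 2) (.m (.v 3) (.v 1)))) (.v 4))
  (.cons false 1 (.m (.m (.v 1) (.m (.v 0) (.m (.v 3) (.v 2)))) (.v 4))
  (.cons false 1 (.m (.m (.v 1) (.m (.v 2) (.m (.v 3) (.v 0)))) (.v 4))
  (.cons false 1 (.m (.m (.v 2) (.m (.v 0) (.m (.v 3) (.v 1)))) (.v 4))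
  (.cons false 1 (.m (.m (.v 2) (.m (.v 1) (.m (.v 3) (.v 0)))) (.v 4))
  (.cons true 1 (.m (.m (.v 0) (.m (.v 1) (.m (.v 2) (.v 3)))) (.v 4))
  (.cons true 1 (.m (.m (.v 0) (.m (.v 2) (.m (.v 1) (.v 3)))) (.v 4))
  (.cons true 1 (.m (.m (.v 1) (.m (.v 0) (.m (.v 2) (.v 3)))) (.v 4))
  (.cons true 1 (.m (.m (.v 1) (.m (.v 2) (.m (.v 0) (.v 3)))) (.v 4))
  (.cons true 1 (.m (.m (.v 2) (.m (.v 0) (.m (.v 1) (.v 3)))) (.v 4))
  (.cons true 1 (.m (.m (.v 2) (.m (.v 1) (.m (.v 0) (.v 3)))) (.v 4))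
  (.cons false 2 (.m (.m (.v 0) (.v 4)) (.m (.m (.v 3) (.v 1)) (.v 2)))
  (.cons false 2 (.m (.m (.v 0) (.v 4)) (.m (.m (.v 3) (.v 2)) (.v 1)))
  (.cons false 2 (.m (.m (.v 1) (.v 4)) (.m (.m (.v 3) (.v 0)) (.v 2)))
  (.cons false 2 (.m (.m (.v 1) (.v 4)) (.m (.m (.v 3) (.v 2)) (.v 0)))
  (.cons false 2 (.m (.m (.v 2) (.v 4)) (.m (.m (.v 3) (.v 0)) (.v 1)))
  (.cons false 2 (.m (.m (.v 2) (.v 4)) (.m (.m (.v 3) (.v 1)) (.v 0)))
  (.cons true 2 (.m (.m (.v 0) (.v 4)) (.m (.m (.v 1) (.v 3)) (.v 2)))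
  (.cons true 2 (.m (.m (.v 0) (.v 4)) (.m (.m (.v 2) (.v 3)) (.v 1)))
  (.cons true 2 (.m (.m (.v 1) (.v 4)) (.m (.m (.v 0) (.v 3)) (.v 2)))
  (.cons true 2 (.m (.m (.v 1) (.v 4)) (.m (.m (.v 2) (.v 3)) (.v 0)))
  (.cons true 2 (.m (.m (.v 2) (.v 4)) (.m (.m (.v 0) (.v 3)) (.v 1)))
  (.cons true 2 (.m (.m (.v 2) (.v 4)) (.m (.m (.v 1) (.v 3)) (.v 0)))
  (.cons true 2 (.m (.m (.v 0) (.v 4)) (.m (.v 1) (.m (.v 3) (.v 2))))
  (.cons true 2 (.m (.m (.v 0) (.v 4)) (.m (.v 2) (.m (.v 3) (.v 1))))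
  (.cons true 2 (.m (.m (.v 1) (.v 4)) (.m (.v 0) (.m (.v 3) (.v 2))))
  (.cons true 2 (.m (.m (.v 1) (.v 4)) (.m (.v 2) (.m (.v 3) (.v 0))))
  (.cons true 2 (.m (.m (.v 2) (.v 4)) (.m (.v 0) (.m (.v 3) (.v 1))))
  (.cons true 2 (.m (.m (.v 2) (.v 4)) (.m (.v 1) (.m (.v 3) (.v 0))))
  (.cons false 2 (.m (.m (.v 0) (.v 4)) (.m (.v 1) (.m (.v 2) (.v 3))))
  (.cons false 2 (.m (.m (.v 0) (.v 4)) (.m (.v 2) (.m (.v 1) (.v 3))))
  (.cons false 2 (.m (.m (.v 1) (.v 4)) (.m (.v 0) (.m (.v 2) (.v 3))))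
  (.cons false 2 (.m (.m (.v 1) (.v 4)) (.m (.v 2) (.m (.v 0) (.v 3))))
  (.cons false 2 (.m (.m (.v 2) (.v 4)) (.m (.v 0) (.m (.v 1) (.v 3))))
  (.cons false 2 (.m (.m (.v 2) (.v 4)) (.m (.v 1) (.m (.v 0) (.v 3))))
  (.cons true 1 (.m (.m (.v 4) (.m (.m (.v 3) (.v 0)) (.v 1))) (.v 2))
  (.cons true 1 (.m (.m (.v 4) (.m (.m (.v 3) (.v 0)) (.v 2))) (.v 1))
  (.cons true 1 (.m (.m (.v 4) (.m (.m (.v 3) (.v 1)) (.v 0))) (.v 2))
  (.cons true 1 (.m (.m (.v 4) (.m (.m (.v 3) (.v 1)) (.v 2))) (.v 0))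
  (.cons true 1 (.m (.m (.v 4) (.m (.m (.v 3) (.v 2)) (.v 0))) (.v 1))
  (.cons true 1 (.m (.m (.v 4) (.m (.m (.v 3) (.v 2)) (.v 1))) (.v 0))
  (.cons false 1 (.m (.m (.v 4) (.m (.m (.v 0) (.v 3)) (.v 1))) (.v 2))
  (.cons false 1 (.m (.m (.v 4) (.m (.m (.v 0) (.v 3)) (.v 2))) (.v 1))
  (.cons false 1 (.m (.m (.v 4) (.m (.m (.v 1) (.v 3)) (.v 0))) (.v 2))
  (.cons false 1 (.m (.m (.v 4) (.m (.m (.v 1) (.v 3)) (.v 2))) (.v 0))
  (.cons false 1 (.m (.m (.v 4) (.m (.m (.v 2) (.v 3)) (.v 0))) (.v 1))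
  (.cons false 1 (.m (.m (.v 4) (.m (.m (.v 2) (.v 3)) (.v 1))) (.v 0))
  (.cons false 1 (.m (.m (.v 4) (.m (.v 0) (.m (.v 3) (.v 1)))) (.v 2))
  (.cons false 1 (.m (.m (.v 4) (.m (.v 0) (.m (.v 3) (.v 2)))) (.v 1))
  (.cons false 1 (.m (.m (.v 4) (.m (.v 1) (.m (.v 3) (.v 0)))) (.v 2))
  (.cons false 1 (.m (.m (.v 4) (.m (.v 1) (.m (.v 3) (.v 2)))) (.v 0))
  (.cons false 1 (.m (.m (.v 4) (.m (.v 2) (.m (.v 3) (.v 0)))) (.v 1))
  (.cons false 1 (.m (.m (.v 4) (.m (.v 2) (.m (.v 3) (.v 1)))) (.v 0))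
  (.cons true 1 (.m (.m (.v 4) (.m (.v 0) (.m (.v 1) (.v 3)))) (.v 2))
  (.cons true 1 (.m (.m (.v 4) (.m (.v 0) (.m (.v 2) (.v 3)))) (.v 1))
  (.cons true 1 (.m (.m (.v 4) (.m (.v 1) (.m (.v 0) (.v 3)))) (.v 2))
  (.cons true 1 (.m (.m (.v 4) (.m (.v 1) (.m (.v 2) (.v 3)))) (.v 0))
  (.cons true 1 (.m (.m (.v 4) (.m (.v 2) (.m (.v 0) (.v 3)))) (.v 1))
  (.cons true 1 (.m (.m (.v 4) (.m (.v 2) (.m (.v 1) (.v 3)))) (.v 0))
  (.cons true 1 (.m (.m (.v 4) (.v 0)) (.m (.m (.v 3) (.v 1)) (.v 2)))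
  (.cons true 1 (.m (.m (.v 4) (.v 0)) (.m (.m (.v 3) (.v 2)) (.v 1)))
  (.cons true 1 (.m (.m (.v 4) (.v 1)) (.m (.m (.v 3) (.v 0)) (.v 2)))
  (.cons true 1 (.m (.m (.v 4) (.v 1)) (.m (.m (.v 3) (.v 2)) (.v 0)))
  (.cons true 1 (.m (.m (.v 4) (.v 2)) (.m (.m (.v 3) (.v 0)) (.v 1)))
  (.cons true 1 (.m (.m (.v 4) (.v 2)) (.m (.m (.v 3) (.v 1)) (.v 0)))
  (.cons false 1 (.m (.m (.v 4) (.v 0)) (.m (.m (.v 1) (.v 3)) (.v 2)))
  (.cons false 1 (.m (.m (.v 4) (.v 0)) (.m (.m (.v 2) (.v 3)) (.v 1)))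
  (.cons false 1 (.m (.m (.v 4) (.v 1)) (.m (.m (.v 0) (.v 3)) (.v 2)))
  (.cons false 1 (.m (.m (.v 4) (.v 1)) (.m (.m (.v 2) (.v 3)) (.v 0)))
  (.cons false 1 (.m (.m (.v 4) (.v 2)) (.m (.m (.v 0) (.v 3)) (.v 1)))
  (.cons false 1 (.m (.m (.v 4) (.v 2)) (.m (.m (.v 1) (.v 3)) (.v 0)))
  (.cons false 1 (.m (.m (.v 4) (.v 0)) (.m (.v 1) (.m (.v 3) (.v 2))))
  (.cons false 1 (.m (.m (.v 4) (.v 0)) (.m (.v 2) (.m (.v 3) (.v 1))))
  (.cons false 1 (.m (.m (.v 4) (.v 1)) (.m (.v 0) (.m (.v 3) (.v 2))))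
  (.cons false 1 (.m (.m (.v 4) (.v 1)) (.m (.v 2) (.m (.v 3) (.v 0))))
  (.cons false 1 (.m (.m (.v 4) (.v 2)) (.m (.v 0) (.m (.v 3) (.v 1))))
  (.cons false 1 (.m (.m (.v 4) (.v 2)) (.m (.v 1) (.m (.v 3) (.v 0))))
  (.cons true 1 (.m (.m (.v 4) (.v 0)) (.m (.v 1) (.m (.v 2) (.v 3))))
  (.cons true 1 (.m (.m (.v 4) (.v 0)) (.m (.v 2) (.m (.v 1) (.v 3))))
  (.cons true 1 (.m (.m (.v 4) (.v 1)) (.m (.v 0) (.m (.v 2) (.v 3))))
  (.cons true 1 (.m (.m (.v 4) (.v 1)) (.m (.v 2) (.m (.v 0) (.v 3))))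
  (.cons true 1 (.m (.m (.v 4) (.v 2)) (.m (.v 0) (.m (.v 1) (.v 3))))
  (.cons true 1 (.m (.m (.v 4) (.v 2)) (.m (.v 1) (.m (.v 0) (.v 3))))
  .nil))))))))))))))))))))))))))))))))))))))))))))))))))))))))))))))))))))))))))))))))))))))))))))))))))))))))))))))))))))))))))))))))))))))))))))))))

set_option maxRecDepth 20000 in
/-- linearisation of `r1` -/
def R1T : Tm :=
  (.cons true 1 (.m (.m (.m (.m (.v 3) (.v 0)) (.v 1)) (.v 4)) (.v 2))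
  (.cons true 1 (.m (.m (.m (.m (.v 3) (.v 0)) (.v 2)) (.v 4)) (.v 1))
  (.cons true 1 (.m (.m (.m (.m (.v 3) (.v 1)) (.v 0)) (.v 4)) (.v 2))
  (.cons true 1 (.m (.m (.m (.m (.v 3) (.v 1)) (.v 2)) (.v 4)) (.v 0))
  (.cons true 1 (.m (.m (.m (.m (.v 3) (.v 2)) (.v 0)) (.v 4)) (.v 1))
  (.cons true 1 (.m (.m (.m (.m (.v 3) (.v 2)) (.v 1)) (.v 4)) (.v 0))
  (.cons false 1 (.m (.m (.m (.m (.v 0) (.v 3)) (.v 1)) (.v 4)) (.v 2))
  (.cons false 1 (.m (.m (.m (.m (.v 0) (.v 3)) (.v 2)) (.v 4)) (.v 1))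
  (.cons false 1 (.m (.m (.m (.m (.v 1) (.v 3)) (.v 0)) (.v 4)) (.v 2))
  (.cons false 1 (.m (.m (.m (.m (.v 1) (.v 3)) (.v 2)) (.v 4)) (.v 0))
  (.cons false 1 (.m (.m (.m (.m (.v 2) (.v 3)) (.v 0)) (.v 4)) (.v 1))
  (.cons false 1 (.m (.m (.m (.m (.v 2) (.v 3)) (.v 1)) (.v 4)) (.v 0))
  (.cons false 1 (.m (.m (.m (.v 0) (.m (.v 3) (.v 1))) (.v 4)) (.v 2))
  (.cons false 1 (.m (.m (.m (.v 0) (.m (.v 3) (.v 2))) (.v 4)) (.v 1))
  (.cons false 1 (.m (.m (.m (.v 1) (.m (.v 3) (.v 0))) (.v 4)) (.v 2))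
  (.cons false 1 (.m (.m (.m (.v 1) (.m (.v 3) (.v 2))) (.v 4)) (.v 0))
  (.cons false 1 (.m (.m (.m (.v 2) (.m (.v 3) (.v 0))) (.v 4)) (.v 1))
  (.cons false 1 (.m (.m (.m (.v 2) (.m (.v 3) (.v 1))) (.v 4)) (.v 0))
  (.cons true 1 (.m (.m (.m (.v 0) (.m (.v 1) (.v 3))) (.v 4)) (.v 2))
  (.cons true 1 (.m (.m (.m (.v 0) (.m (.v 2) (.v 3))) (.v 4)) (.v 1))
  (.cons true 1 (.m (.m (.m (.v 1) (.m (.v 0) (.v 3))) (.v 4)) (.v 2))
  (.cons true 1 (.m (.m (.m (.v 1) (.m (.v 2) (.v 3))) (.v 4)) (.v 0))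
  (.cons true 1 (.m (.m (.m (.v 2) (.m (.v 0) (.v 3))) (.v 4)) (.v 1))
  (.cons true 1 (.m (.m (.m (.v 2) (.m (.v 1) (.v 3))) (.v 4)) (.v 0))
  (.cons false 1 (.m (.m (.m (.v 3) (.v 0)) (.v 1)) (.m (.v 4) (.v 2)))
  (.cons false 1 (.m (.m (.m (.v 3) (.v 0)) (.v 2)) (.m (.v 4) (.v 1)))
  (.cons false 1 (.m (.m (.m (.v 3) (.v 1)) (.v 0)) (.m (.v 4) (.v 2)))
  (.cons false 1 (.m (.m (.m (.v 3) (.v 1)) (.v 2)) (.m (.v 4) (.v 0)))
  (.cons false 1 (.m (.m (.m (.v 3) (.v 2)) (.v 0)) (.m (.v 4) (.v 1)))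
  (.cons false 1 (.m (.m (.m (.v 3) (.v 2)) (.v 1)) (.m (.v 4) (.v 0)))
  (.cons true 1 (.m (.m (.m (.v 0) (.v 3)) (.v 1)) (.m (.v 4) (.v 2)))
  (.cons true 1 (.m (.m (.m (.v 0) (.v 3)) (.v 2)) (.m (.v 4) (.v 1)))
  (.cons true 1 (.m (.m (.m (.v 1) (.v 3)) (.v 0)) (.m (.v 4) (.v 2)))
  (.cons true 1 (.m (.m (.m (.v 1) (.v 3)) (.v 2)) (.m (.v 4) (.v 0)))
  (.cons true 1 (.m (.m (.m (.v 2) (.v 3)) (.v 0)) (.m (.v 4) (.v 1)))
  (.cons true 1 (.m (.m (.m (.v 2) (.v 3)) (.v 1)) (.m (.v 4) (.v 0)))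
  (.cons true 1 (.m (.m (.v 0) (.m (.v 3) (.v 1))) (.m (.v 4) (.v 2)))
  (.cons true 1 (.m (.m (.v 0) (.m (.v 3) (.v 2))) (.m (.v 4) (.v 1)))
  (.cons true 1 (.m (.m (.v 1) (.m (.v 3) (.v 0))) (.m (.v 4) (.v 2)))
  (.cons true 1 (.m (.m (.v 1) (.m (.v 3) (.v 2))) (.m (.v 4) (.v 0)))
  (.cons true 1 (.m (.m (.v 2) (.m (.v 3) (.v 0))) (.m (.v 4) (.v 1)))
  (.cons true 1 (.m (.m (.v 2) (.m (.v 3) (.v 1))) (.m (.v 4) (.v 0)))
  (.cons false 1 (.m (.m (.v 0) (.m (.v 1) (.v 3))) (.m (.v 4) (.v 2)))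
  (.cons false 1 (.m (.m (.v 0) (.m (.v 2) (.v 3))) (.m (.v 4) (.v 1)))
  (.cons false 1 (.m (.m (.v 1) (.m (.v 0) (.v 3))) (.m (.v 4) (.v 2)))
  (.cons false 1 (.m (.m (.v 1) (.m (.v 2) (.v 3))) (.m (.v 4) (.v 0)))
  (.cons false 1 (.m (.m (.v 2) (.m (.v 0) (.v 3))) (.m (.v 4) (.v 1)))
  (.cons false 1 (.m (.m (.v 2) (.m (.v 1) (.v 3))) (.m (.v 4) (.v 0)))
  (.cons true 1 (.m (.m (.v 0) (.v 4)) (.m (.m (.v 3) (.v 1)) (.v 2)))
  (.cons true 1 (.m (.m (.v 0) (.v 4)) (.m (.m (.v 3) (.v 2)) (.v 1)))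
  (.cons true 1 (.m (.m (.v 1) (.v 4)) (.m (.m (.v 3) (.v 0)) (.v 2)))
  (.cons true 1 (.m (.m (.v 1) (.v 4)) (.m (.m (.v 3) (.v 2)) (.v 0)))
  (.cons true 1 (.m (.m (.v 2) (.v 4)) (.m (.m (.v 3) (.v 0)) (.v 1)))
  (.cons true 1 (.m (.m (.v 2) (.v 4)) (.m (.m (.v 3) (.v 1)) (.v 0)))
  (.cons false 1 (.m (.m (.v 0) (.v 4)) (.m (.m (.v 1) (.v 3)) (.v 2)))
  (.cons false 1 (.m (.m (.v 0) (.v 4)) (.m (.m (.v 2) (.v 3)) (.v 1)))
  (.cons false 1 (.m (.m (.v 1) (.v 4)) (.m (.m (.v 0) (.v 3)) (.v 2)))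
  (.cons false 1 (.m (.m (.v 1) (.v 4)) (.m (.m (.v 2) (.v 3)) (.v 0)))
  (.cons false 1 (.m (.m (.v 2) (.v 4)) (.m (.m (.v 0) (.v 3)) (.v 1)))
  (.cons false 1 (.m (.m (.v 2) (.v 4)) (.m (.m (.v 1) (.v 3)) (.v 0)))
  (.cons false 1 (.m (.m (.v 0) (.v 4)) (.m (.v 1) (.m (.v 3) (.v 2))))
  (.cons false 1 (.m (.m (.v 0) (.v 4)) (.m (.v 2) (.m (.v 3) (.v 1))))
  (.cons false 1 (.m (.m (.v 1) (.v 4)) (.m (.v 0) (.m (.v 3) (.v 2))))
  (.cons false 1 (.m (.m (.v 1) (.v 4)) (.m (.v 2) (.m (.v 3) (.v 0))))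
  (.cons false 1 (.m (.m (.v 2) (.v 4)) (.m (.v 0) (.m (.v 3) (.v 1))))
  (.cons false 1 (.m (.m (.v 2) (.v 4)) (.m (.v 1) (.m (.v 3) (.v 0))))
  (.cons true 1 (.m (.m (.v 0) (.v 4)) (.m (.v 1) (.m (.v 2) (.v 3))))
  (.cons true 1 (.m (.m (.v 0) (.v 4)) (.m (.v 2) (.m (.v 1) (.v 3))))
  (.cons true 1 (.m (.m (.v 1) (.v 4)) (.m (.v 0) (.m (.v 2) (.v 3))))
  (.cons true 1 (.m (.m (.v 1) (.v 4)) (.m (.v 2) (.m (.v 0) (.v 3))))
  (.cons true 1 (.m (.m (.v 2) (.v 4)) (.m (.v 0) (.m (.v 1) (.v 3))))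
  (.cons true 1 (.m (.m (.v 2) (.v 4)) (.m (.v 1) (.m (.v 0) (.v 3))))
  (.cons false 1 (.m (.v 0) (.m (.v 4) (.m (.m (.v 3) (.v 1)) (.v 2))))
  (.cons false 1 (.m (.v 0) (.m (.v 4) (.m (.m (.v 3) (.v 2)) (.v 1))))
  (.cons false 1 (.m (.v 1) (.m (.v 4) (.m (.m (.v 3) (.v 0)) (.v 2))))
  (.cons false 1 (.m (.v 1) (.m (.v 4) (.m (.m (.v 3) (.v 2)) (.v 0))))
  (.cons false 1 (.m (.v 2) (.m (.v 4) (.m (.m (.v 3) (.v 0)) (.v 1))))
  (.cons false 1 (.m (.v 2) (.m (.v 4) (.m (.m (.v 3) (.v 1)) (.v 0))))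
  (.cons true 1 (.m (.v 0) (.m (.v 4) (.m (.m (.v 1) (.v 3)) (.v 2))))
  (.cons true 1 (.m (.v 0) (.m (.v 4) (.m (.m (.v 2) (.v 3)) (.v 1))))
  (.cons true 1 (.m (.v 1) (.m (.v 4) (.m (.m (.v 0) (.v 3)) (.v 2))))
  (.cons true 1 (.m (.v 1) (.m (.v 4) (.m (.m (.v 2) (.v 3)) (.v 0))))
  (.cons true 1 (.m (.v 2) (.m (.v 4) (.m (.m (.v 0) (.v 3)) (.v 1))))
  (.cons true 1 (.m (.v 2) (.m (.v 4) (.m (.m (.v 1) (.v 3)) (.v 0))))
  (.cons true 1 (.m (.v 0) (.m (.v 4) (.m (.v 1) (.m (.v 3) (.v 2)))))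
  (.cons true 1 (.m (.v 0) (.m (.v 4) (.m (.v 2) (.m (.v 3) (.v 1)))))
  (.cons true 1 (.m (.v 1) (.m (.v 4) (.m (.v 0) (.m (.v 3) (.v 2)))))
  (.cons true 1 (.m (.v 1) (.m (.v 4) (.m (.v 2) (.m (.v 3) (.v 0)))))
  (.cons true 1 (.m (.v 2) (.m (.v 4) (.m (.v 0) (.m (.v 3) (.v 1)))))
  (.cons true 1 (.m (.v 2) (.m (.v 4) (.m (.v 1) (.m (.v 3) (.v 0)))))
  (.cons false 1 (.m (.v 0) (.m (.v 4) (.m (.v 1) (.m (.v 2) (.v 3)))))
  (.cons false 1 (.m (.v 0) (.m (.v 4) (.m (.v 2) (.m (.v 1) (.v 3)))))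
  (.cons false 1 (.m (.v 1) (.m (.v 4) (.m (.v 0) (.m (.v 2) (.v 3)))))
  (.cons false 1 (.m (.v 1) (.m (.v 4) (.m (.v 2) (.m (.v 0) (.v 3)))))
  (.cons false 1 (.m (.v 2) (.m (.v 4) (.m (.v 0) (.m (.v 1) (.v 3)))))
  (.cons false 1 (.m (.v 2) (.m (.v 4) (.m (.v 1) (.m (.v 0) (.v 3)))))
  .nil))))))))))))))))))))))))))))))))))))))))))))))))))))))))))))))))))))))))))))))))))))))))))))))))

set_option maxRecDepth 20000 in
/-- linearisation of `c4` -/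
def C4T : Tm :=
  (.cons true 1 (.m (.m (.m (.m (.v 4) (.v 0)) (.v 1)) (.v 2)) (.v 3))
  (.cons true 1 (.m (.m (.m (.m (.v 4) (.v 0)) (.v 1)) (.v 3)) (.v 2))
  (.cons true 1 (.m (.m (.m (.m (.v 4) (.v 0)) (.v 2)) (.v 1)) (.v 3))
  (.cons true 1 (.m (.m (.m (.m (.v 4) (.v 0)) (.v 2)) (.v 3)) (.v 1))
  (.cons true 1 (.m (.m (.m (.m (.v 4) (.v 0)) (.v 3)) (.v 1)) (.v 2))
  (.cons true 1 (.m (.m (.m (.m (.v 4) (.v 0)) (.v 3)) (.v 2)) (.v 1))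
  (.cons true 1 (.m (.m (.m (.m (.v 4) (.v 1)) (.v 0)) (.v 2)) (.v 3))
  (.cons true 1 (.m (.m (.m (.m (.v 4) (.v 1)) (.v 0)) (.v 3)) (.v 2))
  (.cons true 1 (.m (.m (.m (.m (.v 4) (.v 1)) (.v 2)) (.v 0)) (.v 3))
  (.cons true 1 (.m (.m (.m (.m (.v 4) (.v 1)) (.v 2)) (.v 3)) (.v 0))
  (.cons true 1 (.m (.m (.m (.m (.v 4) (.v 1)) (.v 3)) (.v 0)) (.v 2))
  (.cons true 1 (.m (.m (.m (.m (.v 4) (.v 1)) (.v 3)) (.v 2)) (.v 0))
  (.cons true 1 (.m (.m (.m (.m (.v 4) (.v 2)) (.v 0)) (.v 1)) (.v 3))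
  (.cons true 1 (.m (.m (.m (.m (.v 4) (.v 2)) (.v 0)) (.v 3)) (.v 1))
  (.cons true 1 (.m (.m (.m (.m (.v 4) (.v 2)) (.v 1)) (.v 0)) (.v 3))
  (.cons true 1 (.m (.m (.m (.m (.v 4) (.v 2)) (.v 1)) (.v 3)) (.v 0))
  (.cons true 1 (.m (.m (.m (.m (.v 4) (.v 2)) (.v 3)) (.v 0)) (.v 1))
  (.cons true 1 (.m (.m (.m (.m (.v 4) (.v 2)) (.v 3)) (.v 1)) (.v 0))
  (.cons true 1 (.m (.m (.m (.m (.v 4) (.v 3)) (.v 0)) (.v 1)) (.v 2))
  (.cons true 1 (.m (.m (.m (.m (.v 4) (.v 3)) (.v 0)) (.v 2)) (.v 1))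
  (.cons true 1 (.m (.m (.m (.m (.v 4) (.v 3)) (.v 1)) (.v 0)) (.v 2))
  (.cons true 1 (.m (.m (.m (.m (.v 4) (.v 3)) (.v 1)) (.v 2)) (.v 0))
  (.cons true 1 (.m (.m (.m (.m (.v 4) (.v 3)) (.v 2)) (.v 0)) (.v 1))
  (.cons true 1 (.m (.m (.m (.m (.v 4) (.v 3)) (.v 2)) (.v 1)) (.v 0))
  (.cons false 1 (.m (.m (.m (.m (.v 0) (.v 4)) (.v 1)) (.v 2)) (.v 3))
  (.cons false 1 (.m (.m (.m (.m (.v 0) (.v 4)) (.v 1)) (.v 3)) (.v 2))
  (.cons false 1 (.m (.m (.m (.m (.v 0) (.v 4)) (.v 2)) (.v 1)) (.v 3))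
  (.cons false 1 (.m (.m (.m (.m (.v 0) (.v 4)) (.v 2)) (.v 3)) (.v 1))
  (.cons false 1 (.m (.m (.m (.m (.v 0) (.v 4)) (.v 3)) (.v 1)) (.v 2))
  (.cons false 1 (.m (.m (.m (.m (.v 0) (.v 4)) (.v 3)) (.v 2)) (.v 1))
  (.cons false 1 (.m (.m (.m (.m (.v 1) (.v 4)) (.v 0)) (.v 2)) (.v 3))
  (.cons false 1 (.m (.m (.m (.m (.v 1) (.v 4)) (.v 0)) (.v 3)) (.v 2))
  (.cons false 1 (.m (.m (.m (.m (.v 1) (.v 4)) (.v 2)) (.v 0)) (.v 3))
  (.cons false 1 (.m (.m (.m (.m (.v 1) (.v 4)) (.v 2)) (.v 3)) (.v 0))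
  (.cons false 1 (.m (.m (.m (.m (.v 1) (.v 4)) (.v 3)) (.v 0)) (.v 2))
  (.cons false 1 (.m (.m (.m (.m (.v 1) (.v 4)) (.v 3)) (.v 2)) (.v 0))
  (.cons false 1 (.m (.m (.m (.m (.v 2) (.v 4)) (.v 0)) (.v 1)) (.v 3))
  (.cons false 1 (.m (.m (.m (.m (.v 2) (.v 4)) (.v 0)) (.v 3)) (.v 1))
  (.cons false 1 (.m (.m (.m (.m (.v 2) (.v 4)) (.v 1)) (.v 0)) (.v 3))
  (.cons false 1 (.m (.m (.m (.m (.v 2) (.v 4)) (.v 1)) (.v 3)) (.v 0))
  (.cons false 1 (.m (.m (.m (.m (.v 2) (.v 4)) (.v 3)) (.v 0)) (.v 1))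
  (.cons false 1 (.m (.m (.m (.m (.v 2) (.v 4)) (.v 3)) (.v 1)) (.v 0))
  (.cons false 1 (.m (.m (.m (.m (.v 3) (.v 4)) (.v 0)) (.v 1)) (.v 2))
  (.cons false 1 (.m (.m (.m (.m (.v 3) (.v 4)) (.v 0)) (.v 2)) (.v 1))
  (.cons false 1 (.m (.m (.m (.m (.v 3) (.v 4)) (.v 1)) (.v 0)) (.v 2))
  (.cons false 1 (.m (.m (.m (.m (.v 3) (.v 4)) (.v 1)) (.v 2)) (.v 0))
  (.cons false 1 (.m (.m (.m (.m (.v 3) (.v 4)) (.v 2)) (.v 0)) (.v 1))
  (.cons false 1 (.m (.m (.m (.m (.v 3) (.v 4)) (.v 2)) (.v 1)) (.v 0))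
  (.cons false 1 (.m (.m (.m (.v 0) (.m (.v 4) (.v 1))) (.v 2)) (.v 3))
  (.cons false 1 (.m (.m (.m (.v 0) (.m (.v 4) (.v 1))) (.v 3)) (.v 2))
  (.cons false 1 (.m (.m (.m (.v 0) (.m (.v 4) (.v 2))) (.v 1)) (.v 3))
  (.cons false 1 (.m (.m (.m (.v 0) (.m (.v 4) (.v 2))) (.v 3)) (.v 1))
  (.cons false 1 (.m (.m (.m (.v 0) (.m (.v 4) (.v 3))) (.v 1)) (.v 2))
  (.cons false 1 (.m (.m (.m (.v 0) (.m (.v 4) (.v 3))) (.v 2)) (.v 1))
  (.cons false 1 (.m (.m (.m (.v 1) (.m (.v 4) (.v 0))) (.v 2)) (.v 3))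
  (.cons false 1 (.m (.m (.m (.v 1) (.m (.v 4) (.v 0))) (.v 3)) (.v 2))
  (.cons false 1 (.m (.m (.m (.v 1) (.m (.v 4) (.v 2))) (.v 0)) (.v 3))
  (.cons false 1 (.m (.m (.m (.v 1) (.m (.v 4) (.v 2))) (.v 3)) (.v 0))
  (.cons false 1 (.m (.m (.m (.v 1) (.m (.v 4) (.v 3))) (.v 0)) (.v 2))
  (.cons false 1 (.m (.m (.m (.v 1) (.m (.v 4) (.v 3))) (.v 2)) (.v 0))
  (.cons false 1 (.m (.m (.m (.v 2) (.m (.v 4) (.v 0))) (.v 1)) (.v 3))
  (.cons false 1 (.m (.m (.m (.v 2) (.m (.v 4) (.v 0))) (.v 3)) (.v 1))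
  (.cons false 1 (.m (.m (.m (.v 2) (.m (.v 4) (.v 1))) (.v 0)) (.v 3))
  (.cons false 1 (.m (.m (.m (.v 2) (.m (.v 4) (.v 1))) (.v 3)) (.v 0))
  (.cons false 1 (.m (.m (.m (.v 2) (.m (.v 4) (.v 3))) (.v 0)) (.v 1))
  (.cons false 1 (.m (.m (.m (.v 2) (.m (.v 4) (.v 3))) (.v 1)) (.v 0))
  (.cons false 1 (.m (.m (.m (.v 3) (.m (.v 4) (.v 0))) (.v 1)) (.v 2))
  (.cons false 1 (.m (.m (.m (.v 3) (.m (.v 4) (.v 0))) (.v 2)) (.v 1))
  (.cons false 1 (.m (.m (.m (.v 3) (.m (.v 4) (.v 1))) (.v 0)) (.v 2))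
  (.cons false 1 (.m (.m (.m (.v 3) (.m (.v 4) (.v 1))) (.v 2)) (.v 0))
  (.cons false 1 (.m (.m (.m (.v 3) (.m (.v 4) (.v 2))) (.v 0)) (.v 1))
  (.cons false 1 (.m (.m (.m (.v 3) (.m (.v 4) (.v 2))) (.v 1)) (.v 0))
  (.cons true 1 (.m (.m (.m (.v 0) (.m (.v 1) (.v 4))) (.v 2)) (.v 3))
  (.cons true 1 (.m (.m (.m (.v 0) (.m (.v 1) (.v 4))) (.v 3)) (.v 2))
  (.cons true 1 (.m (.m (.m (.v 0) (.m (.v 2) (.v 4))) (.v 1)) (.v 3))
  (.cons true 1 (.m (.m (.m (.v 0) (.m (.v 2) (.v 4))) (.v 3)) (.v 1))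
  (.cons true 1 (.m (.m (.m (.v 0) (.m (.v 3) (.v 4))) (.v 1)) (.v 2))
  (.cons true 1 (.m (.m (.m (.v 0) (.m (.v 3) (.v 4))) (.v 2)) (.v 1))
  (.cons true 1 (.m (.m (.m (.v 1) (.m (.v 0) (.v 4))) (.v 2)) (.v 3))
  (.cons true 1 (.m (.m (.m (.v 1) (.m (.v 0) (.v 4))) (.v 3)) (.v 2))
  (.cons true 1 (.m (.m (.m (.v 1) (.m (.v 2) (.v 4))) (.v 0)) (.v 3))
  (.cons true 1 (.m (.m (.m (.v 1) (.m (.v 2) (.v 4))) (.v 3)) (.v 0))
  (.cons true 1 (.m (.m (.m (.v 1) (.m (.v 3) (.v 4))) (.v 0)) (.v 2))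
  (.cons true 1 (.m (.m (.m (.v 1) (.m (.v 3) (.v 4))) (.v 2)) (.v 0))
  (.cons true 1 (.m (.m (.m (.v 2) (.m (.v 0) (.v 4))) (.v 1)) (.v 3))
  (.cons true 1 (.m (.m (.m (.v 2) (.m (.v 0) (.v 4))) (.v 3)) (.v 1))
  (.cons true 1 (.m (.m (.m (.v 2) (.m (.v 1) (.v 4))) (.v 0)) (.v 3))
  (.cons true 1 (.m (.m (.m (.v 2) (.m (.v 1) (.v 4))) (.v 3)) (.v 0))
  (.cons true 1 (.m (.m (.m (.v 2) (.m (.v 3) (.v 4))) (.v 0)) (.v 1))
  (.cons true 1 (.m (.m (.m (.v 2) (.m (.v 3) (.v 4))) (.v 1)) (.v 0))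
  (.cons true 1 (.m (.m (.m (.v 3) (.m (.v 0) (.v 4))) (.v 1)) (.v 2))
  (.cons true 1 (.m (.m (.m (.v 3) (.m (.v 0) (.v 4))) (.v 2)) (.v 1))
  (.cons true 1 (.m (.m (.m (.v 3) (.m (.v 1) (.v 4))) (.v 0)) (.v 2))
  (.cons true 1 (.m (.m (.m (.v 3) (.m (.v 1) (.v 4))) (.v 2)) (.v 0))
  (.cons true 1 (.m (.m (.m (.v 3) (.m (.v 2) (.v 4))) (.v 0)) (.v 1))
  (.cons true 1 (.m (.m (.m (.v 3) (.m (.v 2) (.v 4))) (.v 1)) (.v 0))
  (.cons false 1 (.m (.m (.v 0) (.m (.m (.v 4) (.v 1)) (.v 2))) (.v 3))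
  (.cons false 1 (.m (.m (.v 0) (.m (.m (.v 4) (.v 1)) (.v 3))) (.v 2))
  (.cons false 1 (.m (.m (.v 0) (.m (.m (.v 4) (.v 2)) (.v 1))) (.v 3))
  (.cons false 1 (.m (.m (.v 0) (.m (.m (.v 4) (.v 2)) (.v 3))) (.v 1))
  (.cons false 1 (.m (.m (.v 0) (.m (.m (.v 4) (.v 3)) (.v 1))) (.v 2))
  (.cons false 1 (.m (.m (.v 0) (.m (.m (.v 4) (.v 3)) (.v 2))) (.v 1))
  (.cons false 1 (.m (.m (.v 1) (.m (.m (.v 4) (.v 0)) (.v 2))) (.v 3))
  (.cons false 1 (.m (.m (.v 1) (.m (.m (.v 4) (.v 0)) (.v 3))) (.v 2))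
  (.cons false 1 (.m (.m (.v 1) (.m (.m (.v 4) (.v 2)) (.v 0))) (.v 3))
  (.cons false 1 (.m (.m (.v 1) (.m (.m (.v 4) (.v 2)) (.v 3))) (.v 0))
  (.cons false 1 (.m (.m (.v 1) (.m (.m (.v 4) (.v 3)) (.v 0))) (.v 2))
  (.cons false 1 (.m (.m (.v 1) (.m (.m (.v 4) (.v 3)) (.v 2))) (.v 0))
  (.cons false 1 (.m (.m (.v 2) (.m (.m (.v 4) (.v 0)) (.v 1))) (.v 3))
  (.cons false 1 (.m (.m (.v 2) (.m (.m (.v 4) (.v 0)) (.v 3))) (.v 1))
  (.cons false 1 (.m (.m (.v 2) (.m (.m (.v 4) (.v 1)) (.v 0))) (.v 3))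
  (.cons false 1 (.m (.m (.v 2) (.m (.m (.v 4) (.v 1)) (.v 3))) (.v 0))
  (.cons false 1 (.m (.m (.v 2) (.m (.m (.v 4) (.v 3)) (.v 0))) (.v 1))
  (.cons false 1 (.m (.m (.v 2) (.m (.m (.v 4) (.v 3)) (.v 1))) (.v 0))
  (.cons false 1 (.m (.m (.v 3) (.m (.m (.v 4) (.v 0)) (.v 1))) (.v 2))
  (.cons false 1 (.m (.m (.v 3) (.m (.m (.v 4) (.v 0)) (.v 2))) (.v 1))
  (.cons false 1 (.m (.m (.v 3) (.m (.m (.v 4) (.v 1)) (.v 0))) (.v 2))
  (.cons false 1 (.m (.m (.v 3) (.m (.m (.v 4) (.v 1)) (.v 2))) (.v 0))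
  (.cons false 1 (.m (.m (.v 3) (.m (.m (.v 4) (.v 2)) (.v 0))) (.v 1))
  (.cons false 1 (.m (.m (.v 3) (.m (.m (.v 4) (.v 2)) (.v 1))) (.v 0))
  (.cons true 1 (.m (.m (.v 0) (.m (.m (.v 1) (.v 4)) (.v 2))) (.v 3))
  (.cons true 1 (.m (.m (.v 0) (.m (.m (.v 1) (.v 4)) (.v 3))) (.v 2))
  (.cons true 1 (.m (.m (.v 0) (.m (.m (.v 2) (.v 4)) (.v 1))) (.v 3))
  (.cons true 1 (.m (.m (.v 0) (.m (.m (.v 2) (.v 4)) (.v 3))) (.v 1))
  (.cons true 1 (.m (.m (.v 0) (.m (.m (.v 3) (.v 4)) (.v 1))) (.v 2))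
  (.cons true 1 (.m (.m (.v 0) (.m (.m (.v 3) (.v 4)) (.v 2))) (.v 1))
  (.cons true 1 (.m (.m (.v 1) (.m (.m (.v 0) (.v 4)) (.v 2))) (.v 3))
  (.cons true 1 (.m (.m (.v 1) (.m (.m (.v 0) (.v 4)) (.v 3))) (.v 2))
  (.cons true 1 (.m (.m (.v 1) (.m (.m (.v 2) (.v 4)) (.v 0))) (.v 3))
  (.cons true 1 (.m (.m (.v 1) (.m (.m (.v 2) (.v 4)) (.v 3))) (.v 0))
  (.cons true 1 (.m (.m (.v 1) (.m (.m (.v 3) (.v 4)) (.v 0))) (.v 2))
  (.cons true 1 (.m (.m (.v 1) (.m (.m (.v 3) (.v 4)) (.v 2))) (.v 0))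
  (.cons true 1 (.m (.m (.v 2) (.m (.m (.v 0) (.v 4)) (.v 1))) (.v 3))
  (.cons true 1 (.m (.m (.v 2) (.m (.m (.v 0) (.v 4)) (.v 3))) (.v 1))
  (.cons true 1 (.m (.m (.v 2) (.m (.m (.v 1) (.v 4)) (.v 0))) (.v 3))
  (.cons true 1 (.m (.m (.v 2) (.m (.m (.v 1) (.v 4)) (.v 3))) (.v 0))
  (.cons true 1 (.m (.m (.v 2) (.m (.m (.v 3) (.v 4)) (.v 0))) (.v 1))
  (.cons true 1 (.m (.m (.v 2) (.m (.m (.v 3) (.v 4)) (.v 1))) (.v 0))
  (.cons true 1 (.m (.m (.v 3) (.m (.m (.v 0) (.v 4)) (.v 1))) (.v 2))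
  (.cons true 1 (.m (.m (.v 3) (.m (.m (.v 0) (.v 4)) (.v 2))) (.v 1))
  (.cons true 1 (.m (.m (.v 3) (.m (.m (.v 1) (.v 4)) (.v 0))) (.v 2))
  (.cons true 1 (.m (.m (.v 3) (.m (.m (.v 1) (.v 4)) (.v 2))) (.v 0))
  (.cons true 1 (.m (.m (.v 3) (.m (.m (.v 2) (.v 4)) (.v 0))) (.v 1))
  (.cons true 1 (.m (.m (.v 3) (.m (.m (.v 2) (.v 4)) (.v 1))) (.v 0))
  (.cons true 1 (.m (.m (.v 0) (.m (.v 1) (.m (.v 4) (.v 2)))) (.v 3))
  (.cons true 1 (.m (.m (.v 0) (.m (.v 1) (.m (.v 4) (.v 3)))) (.v 2))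
  (.cons true 1 (.m (.m (.v 0) (.m (.v 2) (.m (.v 4) (.v 1)))) (.v 3))
  (.cons true 1 (.m (.m (.v 0) (.m (.v 2) (.m (.v 4) (.v 3)))) (.v 1))
  (.cons true 1 (.m (.m (.v 0) (.m (.v 3) (.m (.v 4) (.v 1)))) (.v 2))
  (.cons true 1 (.m (.m (.v 0) (.m (.v 3) (.m (.v 4) (.v 2)))) (.v 1))
  (.cons true 1 (.m (.m (.v 1) (.m (.v 0) (.m (.v 4) (.v 2)))) (.v 3))
  (.cons true 1 (.m (.m (.v 1) (.m (.v 0) (.m (.v 4) (.v 3)))) (.v 2))
  (.cons true 1 (.m (.m (.v 1) (.m (.v 2) (.m (.v 4) (.v 0)))) (.v 3))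
  (.cons true 1 (.m (.m (.v 1) (.m (.v 2) (.m (.v 4) (.v 3)))) (.v 0))
  (.cons true 1 (.m (.m (.v 1) (.m (.v 3) (.m (.v 4) (.v 0)))) (.v 2))
  (.cons true 1 (.m (.m (.v 1) (.m (.v 3) (.m (.v 4) (.v 2)))) (.v 0))
  (.cons true 1 (.m (.m (.v 2) (.m (.v 0) (.m (.v 4) (.v 1)))) (.v 3))
  (.cons true 1 (.m (.m (.v 2) (.m (.v 0) (.m (.v 4) (.v 3)))) (.v 1))
  (.cons true 1 (.m (.m (.v 2) (.m (.v 1) (.m (.v 4) (.v 0)))) (.v 3))
  (.cons true 1 (.m (.m (.v 2) (.m (.v 1) (.m (.v 4) (.v 3)))) (.v 0))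
  (.cons true 1 (.m (.m (.v 2) (.m (.v 3) (.m (.v 4) (.v 0)))) (.v 1))
  (.cons true 1 (.m (.m (.v 2) (.m (.v 3) (.m (.v 4) (.v 1)))) (.v 0))
  (.cons true 1 (.m (.m (.v 3) (.m (.v 0) (.m (.v 4) (.v 1)))) (.v 2))
  (.cons true 1 (.m (.m (.v 3) (.m (.v 0) (.m (.v 4) (.v 2)))) (.v 1))
  (.cons true 1 (.m (.m (.v 3) (.m (.v 1) (.m (.v 4) (.v 0)))) (.v 2))
  (.cons true 1 (.m (.m (.v 3) (.m (.v 1) (.m (.v 4) (.v 2)))) (.v 0))
  (.cons true 1 (.m (.m (.v 3) (.m (.v 2) (.m (.v 4) (.v 0)))) (.v 1))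
  (.cons true 1 (.m (.m (.v 3) (.m (.v 2) (.m (.v 4) (.v 1)))) (.v 0))
  (.cons false 1 (.m (.m (.v 0) (.m (.v 1) (.m (.v 2) (.v 4)))) (.v 3))
  (.cons false 1 (.m (.m (.v 0) (.m (.v 1) (.m (.v 3) (.v 4)))) (.v 2))
  (.cons false 1 (.m (.m (.v 0) (.m (.v 2) (.m (.v 1) (.v 4)))) (.v 3))
  (.cons false 1 (.m (.m (.v 0) (.m (.v 2) (.m (.v 3) (.v 4)))) (.v 1))
  (.cons false 1 (.m (.m (.v 0) (.m (.v 3) (.m (.v 1) (.v 4)))) (.v 2))
  (.cons false 1 (.m (.m (.v 0) (.m (.v 3) (.m (.v 2) (.v 4)))) (.v 1))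
  (.cons false 1 (.m (.m (.v 1) (.m (.v 0) (.m (.v 2) (.v 4)))) (.v 3))
  (.cons false 1 (.m (.m (.v 1) (.m (.v 0) (.m (.v 3) (.v 4)))) (.v 2))
  (.cons false 1 (.m (.m (.v 1) (.m (.v 2) (.m (.v 0) (.v 4)))) (.v 3))
  (.cons false 1 (.m (.m (.v 1) (.m (.v 2) (.m (.v 3) (.v 4)))) (.v 0))
  (.cons false 1 (.m (.m (.v 1) (.m (.v 3) (.m (.v 0) (.v 4)))) (.v 2))
  (.cons false 1 (.m (.m (.v 1) (.m (.v 3) (.m (.v 2) (.v 4)))) (.v 0))
  (.cons false 1 (.m (.m (.v 2) (.m (.v 0) (.m (.v 1) (.v 4)))) (.v 3))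
  (.cons false 1 (.m (.m (.v 2) (.m (.v 0) (.m (.v 3) (.v 4)))) (.v 1))
  (.cons false 1 (.m (.m (.v 2) (.m (.v 1) (.m (.v 0) (.v 4)))) (.v 3))
  (.cons false 1 (.m (.m (.v 2) (.m (.v 1) (.m (.v 3) (.v 4)))) (.v 0))
  (.cons false 1 (.m (.m (.v 2) (.m (.v 3) (.m (.v 0) (.v 4)))) (.v 1))
  (.cons false 1 (.m (.m (.v 2) (.m (.v 3) (.m (.v 1) (.v 4)))) (.v 0))
  (.cons false 1 (.m (.m (.v 3) (.m (.v 0) (.m (.v 1) (.v 4)))) (.v 2))
  (.cons false 1 (.m (.m (.v 3) (.m (.v 0) (.m (.v 2) (.v 4)))) (.v 1))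
  (.cons false 1 (.m (.m (.v 3) (.m (.v 1) (.m (.v 0) (.v 4)))) (.v 2))
  (.cons false 1 (.m (.m (.v 3) (.m (.v 1) (.m (.v 2) (.v 4)))) (.v 0))
  (.cons false 1 (.m (.m (.v 3) (.m (.v 2) (.m (.v 0) (.v 4)))) (.v 1))
  (.cons false 1 (.m (.m (.v 3) (.m (.v 2) (.m (.v 1) (.v 4)))) (.v 0))
  (.cons false 1 (.m (.v 0) (.m (.m (.m (.v 4) (.v 1)) (.v 2)) (.v 3)))
  (.cons false 1 (.m (.v 0) (.m (.m (.m (.v 4) (.v 1)) (.v 3)) (.v 2)))
  (.cons false 1 (.m (.v 0) (.m (.m (.m (.v 4) (.v 2)) (.v 1)) (.v 3)))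
  (.cons false 1 (.m (.v 0) (.m (.m (.m (.v 4) (.v 2)) (.v 3)) (.v 1)))
  (.cons false 1 (.m (.v 0) (.m (.m (.m (.v 4) (.v 3)) (.v 1)) (.v 2)))
  (.cons false 1 (.m (.v 0) (.m (.m (.m (.v 4) (.v 3)) (.v 2)) (.v 1)))
  (.cons false 1 (.m (.v 1) (.m (.m (.m (.v 4) (.v 0)) (.v 2)) (.v 3)))
  (.cons false 1 (.m (.v 1) (.m (.m (.m (.v 4) (.v 0)) (.v 3)) (.v 2)))
  (.cons false 1 (.m (.v 1) (.m (.m (.m (.v 4) (.v 2)) (.v 0)) (.v 3)))
  (.cons false 1 (.m (.v 1) (.m (.m (.m (.v 4) (.v 2)) (.v 3)) (.v 0)))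
  (.cons false 1 (.m (.v 1) (.m (.m (.m (.v 4) (.v 3)) (.v 0)) (.v 2)))
  (.cons false 1 (.m (.v 1) (.m (.m (.m (.v 4) (.v 3)) (.v 2)) (.v 0)))
  (.cons false 1 (.m (.v 2) (.m (.m (.m (.v 4) (.v 0)) (.v 1)) (.v 3)))
  (.cons false 1 (.m (.v 2) (.m (.m (.m (.v 4) (.v 0)) (.v 3)) (.v 1)))
  (.cons false 1 (.m (.v 2) (.m (.m (.m (.v 4) (.v 1)) (.v 0)) (.v 3)))
  (.cons false 1 (.m (.v 2) (.m (.m (.m (.v 4) (.v 1)) (.v 3)) (.v 0)))
  (.cons false 1 (.m (.v 2) (.m (.m (.m (.v 4) (.v 3)) (.v 0)) (.v 1)))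
  (.cons false 1 (.m (.v 2) (.m (.m (.m (.v 4) (.v 3)) (.v 1)) (.v 0)))
  (.cons false 1 (.m (.v 3) (.m (.m (.m (.v 4) (.v 0)) (.v 1)) (.v 2)))
  (.cons false 1 (.m (.v 3) (.m (.m (.m (.v 4) (.v 0)) (.v 2)) (.v 1)))
  (.cons false 1 (.m (.v 3) (.m (.m (.m (.v 4) (.v 1)) (.v 0)) (.v 2)))
  (.cons false 1 (.m (.v 3) (.m (.m (.m (.v 4) (.v 1)) (.v 2)) (.v 0)))
  (.cons false 1 (.m (.v 3) (.m (.m (.m (.v 4) (.v 2)) (.v 0)) (.v 1)))
  (.cons false 1 (.m (.v 3) (.m (.m (.m (.v 4) (.v 2)) (.v 1)) (.v 0)))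
  (.cons true 1 (.m (.v 0) (.m (.m (.m (.v 1) (.v 4)) (.v 2)) (.v 3)))
  (.cons true 1 (.m (.v 0) (.m (.m (.m (.v 1) (.v 4)) (.v 3)) (.v 2)))
  (.cons true 1 (.m (.v 0) (.m (.m (.m (.v 2) (.v 4)) (.v 1)) (.v 3)))
  (.cons true 1 (.m (.v 0) (.m (.m (.m (.v 2) (.v 4)) (.v 3)) (.v 1)))
  (.cons true 1 (.m (.v 0) (.m (.m (.m (.v 3) (.v 4)) (.v 1)) (.v 2)))
  (.cons true 1 (.m (.v 0) (.m (.m (.m (.v 3) (.v 4)) (.v 2)) (.v 1)))
  (.cons true 1 (.m (.v 1) (.m (.m (.m (.v 0) (.v 4)) (.v 2)) (.v 3)))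
  (.cons true 1 (.m (.v 1) (.m (.m (.m (.v 0) (.v 4)) (.v 3)) (.v 2)))
  (.cons true 1 (.m (.v 1) (.m (.m (.m (.v 2) (.v 4)) (.v 0)) (.v 3)))
  (.cons true 1 (.m (.v 1) (.m (.m (.m (.v 2) (.v 4)) (.v 3)) (.v 0)))
  (.cons true 1 (.m (.v 1) (.m (.m (.m (.v 3) (.v 4)) (.v 0)) (.v 2)))
  (.cons true 1 (.m (.v 1) (.m (.m (.m (.v 3) (.v 4)) (.v 2)) (.v 0)))
  (.cons true 1 (.m (.v 2) (.m (.m (.m (.v 0) (.v 4)) (.v 1)) (.v 3)))
  (.cons true 1 (.m (.v 2) (.m (.m (.m (.v 0) (.v 4)) (.v 3)) (.v 1)))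
  (.cons true 1 (.m (.v 2) (.m (.m (.m (.v 1) (.v 4)) (.v 0)) (.v 3)))
  (.cons true 1 (.m (.v 2) (.m (.m (.m (.v 1) (.v 4)) (.v 3)) (.v 0)))
  (.cons true 1 (.m (.v 2) (.m (.m (.m (.v 3) (.v 4)) (.v 0)) (.v 1)))
  (.cons true 1 (.m (.v 2) (.m (.m (.m (.v 3) (.v 4)) (.v 1)) (.v 0)))
  (.cons true 1 (.m (.v 3) (.m (.m (.m (.v 0) (.v 4)) (.v 1)) (.v 2)))
  (.cons true 1 (.m (.v 3) (.m (.m (.m (.v 0) (.v 4)) (.v 2)) (.v 1)))
  (.cons true 1 (.m (.v 3) (.m (.m (.m (.v 1) (.v 4)) (.v 0)) (.v 2)))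
  (.cons true 1 (.m (.v 3) (.m (.m (.m (.v 1) (.v 4)) (.v 2)) (.v 0)))
  (.cons true 1 (.m (.v 3) (.m (.m (.m (.v 2) (.v 4)) (.v 0)) (.v 1)))
  (.cons true 1 (.m (.v 3) (.m (.m (.m (.v 2) (.v 4)) (.v 1)) (.v 0)))
  (.cons true 1 (.m (.v 0) (.m (.m (.v 1) (.m (.v 4) (.v 2))) (.v 3)))
  (.cons true 1 (.m (.v 0) (.m (.m (.v 1) (.m (.v 4) (.v 3))) (.v 2)))
  (.cons true 1 (.m (.v 0) (.m (.m (.v 2) (.m (.v 4) (.v 1))) (.v 3)))
  (.cons true 1 (.m (.v 0) (.m (.m (.v 2) (.m (.v 4) (.v 3))) (.v 1)))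
  (.cons true 1 (.m (.v 0) (.m (.m (.v 3) (.m (.v 4) (.v 1))) (.v 2)))
  (.cons true 1 (.m (.v 0) (.m (.m (.v 3) (.m (.v 4) (.v 2))) (.v 1)))
  (.cons true 1 (.m (.v 1) (.m (.m (.v 0) (.m (.v 4) (.v 2))) (.v 3)))
  (.cons true 1 (.m (.v 1) (.m (.m (.v 0) (.m (.v 4) (.v 3))) (.v 2)))
  (.cons true 1 (.m (.v 1) (.m (.m (.v 2) (.m (.v 4) (.v 0))) (.v 3)))
  (.cons true 1 (.m (.v 1) (.m (.m (.v 2) (.m (.v 4) (.v 3))) (.v 0)))
  (.cons true 1 (.m (.v 1) (.m (.m (.v 3) (.m (.v 4) (.v 0))) (.v 2)))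
  (.cons true 1 (.m (.v 1) (.m (.m (.v 3) (.m (.v 4) (.v 2))) (.v 0)))
  (.cons true 1 (.m (.v 2) (.m (.m (.v 0) (.m (.v 4) (.v 1))) (.v 3)))
  (.cons true 1 (.m (.v 2) (.m (.m (.v 0) (.m (.v 4) (.v 3))) (.v 1)))
  (.cons true 1 (.m (.v 2) (.m (.m (.v 1) (.m (.v 4) (.v 0))) (.v 3)))
  (.cons true 1 (.m (.v 2) (.m (.m (.v 1) (.m (.v 4) (.v 3))) (.v 0)))
  (.cons true 1 (.m (.v 2) (.m (.m (.v 3) (.m (.v 4) (.v 0))) (.v 1)))
  (.cons true 1 (.m (.v 2) (.m (.m (.v 3) (.m (.v 4) (.v 1))) (.v 0)))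
  (.cons true 1 (.m (.v 3) (.m (.m (.v 0) (.m (.v 4) (.v 1))) (.v 2)))
  (.cons true 1 (.m (.v 3) (.m (.m (.v 0) (.m (.v 4) (.v 2))) (.v 1)))
  (.cons true 1 (.m (.v 3) (.m (.m (.v 1) (.m (.v 4) (.v 0))) (.v 2)))
  (.cons true 1 (.m (.v 3) (.m (.m (.v 1) (.m (.v 4) (.v 2))) (.v 0)))
  (.cons true 1 (.m (.v 3) (.m (.m (.v 2) (.m (.v 4) (.v 0))) (.v 1)))
  (.cons true 1 (.m (.v 3) (.m (.m (.v 2) (.m (.v 4) (.v 1))) (.v 0)))
  (.cons false 1 (.m (.v 0) (.m (.m (.v 1) (.m (.v 2) (.v 4))) (.v 3)))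
  (.cons false 1 (.m (.v 0) (.m (.m (.v 1) (.m (.v 3) (.v 4))) (.v 2)))
  (.cons false 1 (.m (.v 0) (.m (.m (.v 2) (.m (.v 1) (.v 4))) (.v 3)))
  (.cons false 1 (.m (.v 0) (.m (.m (.v 2) (.m (.v 3) (.v 4))) (.v 1)))
  (.cons false 1 (.m (.v 0) (.m (.m (.v 3) (.m (.v 1) (.v 4))) (.v 2)))
  (.cons false 1 (.m (.v 0) (.m (.m (.v 3) (.m (.v 2) (.v 4))) (.v 1)))
  (.cons false 1 (.m (.v 1) (.m (.m (.v 0) (.m (.v 2) (.v 4))) (.v 3)))
  (.cons false 1 (.m (.v 1) (.m (.m (.v 0) (.m (.v 3) (.v 4))) (.v 2)))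
  (.cons false 1 (.m (.v 1) (.m (.m (.v 2) (.m (.v 0) (.v 4))) (.v 3)))
  (.cons false 1 (.m (.v 1) (.m (.m (.v 2) (.m (.v 3) (.v 4))) (.v 0)))
  (.cons false 1 (.m (.v 1) (.m (.m (.v 3) (.m (.v 0) (.v 4))) (.v 2)))
  (.cons false 1 (.m (.v 1) (.m (.m (.v 3) (.m (.v 2) (.v 4))) (.v 0)))
  (.cons false 1 (.m (.v 2) (.m (.m (.v 0) (.m (.v 1) (.v 4))) (.v 3)))
  (.cons false 1 (.m (.v 2) (.m (.m (.v 0) (.m (.v 3) (.v 4))) (.v 1)))
  (.cons false 1 (.m (.v 2) (.m (.m (.v 1) (.m (.v 0) (.v 4))) (.v 3)))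
  (.cons false 1 (.m (.v 2) (.m (.m (.v 1) (.m (.v 3) (.v 4))) (.v 0)))
  (.cons false 1 (.m (.v 2) (.m (.m (.v 3) (.m (.v 0) (.v 4))) (.v 1)))
  (.cons false 1 (.m (.v 2) (.m (.m (.v 3) (.m (.v 1) (.v 4))) (.v 0)))
  (.cons false 1 (.m (.v 3) (.m (.m (.v 0) (.m (.v 1) (.v 4))) (.v 2)))
  (.cons false 1 (.m (.v 3) (.m (.m (.v 0) (.m (.v 2) (.v 4))) (.v 1)))
  (.cons false 1 (.m (.v 3) (.m (.m (.v 1) (.m (.v 0) (.v 4))) (.v 2)))
  (.cons false 1 (.m (.v 3) (.m (.m (.v 1) (.m (.v 2) (.v 4))) (.v 0)))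
  (.cons false 1 (.m (.v 3) (.m (.m (.v 2) (.m (.v 0) (.v 4))) (.v 1)))
  (.cons false 1 (.m (.v 3) (.m (.m (.v 2) (.m (.v 1) (.v 4))) (.v 0)))
  (.cons true 1 (.m (.v 0) (.m (.v 1) (.m (.m (.v 4) (.v 2)) (.v 3))))
  (.cons true 1 (.m (.v 0) (.m (.v 1) (.m (.m (.v 4) (.v 3)) (.v 2))))
  (.cons true 1 (.m (.v 0) (.m (.v 2) (.m (.m (.v 4) (.v 1)) (.v 3))))
  (.cons true 1 (.m (.v 0) (.m (.v 2) (.m (.m (.v 4) (.v 3)) (.v 1))))
  (.cons true 1 (.m (.v 0) (.m (.v 3) (.m (.m (.v 4) (.v 1)) (.v 2))))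
  (.cons true 1 (.m (.v 0) (.m (.v 3) (.m (.m (.v 4) (.v 2)) (.v 1))))
  (.cons true 1 (.m (.v 1) (.m (.v 0) (.m (.m (.v 4) (.v 2)) (.v 3))))
  (.cons true 1 (.m (.v 1) (.m (.v 0) (.m (.m (.v 4) (.v 3)) (.v 2))))
  (.cons true 1 (.m (.v 1) (.m (.v 2) (.m (.m (.v 4) (.v 0)) (.v 3))))
  (.cons true 1 (.m (.v 1) (.m (.v 2) (.m (.m (.v 4) (.v 3)) (.v 0))))
  (.cons true 1 (.m (.v 1) (.m (.v 3) (.m (.m (.v 4) (.v 0)) (.v 2))))
  (.cons true 1 (.m (.v 1) (.m (.v 3) (.m (.m (.v 4) (.v 2)) (.v 0))))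
  (.cons true 1 (.m (.v 2) (.m (.v 0) (.m (.m (.v 4) (.v 1)) (.v 3))))
  (.cons true 1 (.m (.v 2) (.m (.v 0) (.m (.m (.v 4) (.v 3)) (.v 1))))
  (.cons true 1 (.m (.v 2) (.m (.v 1) (.m (.m (.v 4) (.v 0)) (.v 3))))
  (.cons true 1 (.m (.v 2) (.m (.v 1) (.m (.m (.v 4) (.v 3)) (.v 0))))
  (.cons true 1 (.m (.v 2) (.m (.v 3) (.m (.m (.v 4) (.v 0)) (.v 1))))
  (.cons true 1 (.m (.v 2) (.m (.v 3) (.m (.m (.v 4) (.v 1)) (.v 0))))
  (.cons true 1 (.m (.v 3) (.m (.v 0) (.m (.m (.v 4) (.v 1)) (.v 2))))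
  (.cons true 1 (.m (.v 3) (.m (.v 0) (.m (.m (.v 4) (.v 2)) (.v 1))))
  (.cons true 1 (.m (.v 3) (.m (.v 1) (.m (.m (.v 4) (.v 0)) (.v 2))))
  (.cons true 1 (.m (.v 3) (.m (.v 1) (.m (.m (.v 4) (.v 2)) (.v 0))))
  (.cons true 1 (.m (.v 3) (.m (.v 2) (.m (.m (.v 4) (.v 0)) (.v 1))))
  (.cons true 1 (.m (.v 3) (.m (.v 2) (.m (.m (.v 4) (.v 1)) (.v 0))))
  (.cons false 1 (.m (.v 0) (.m (.v 1) (.m (.m (.v 2) (.v 4)) (.v 3))))
  (.cons false 1 (.m (.v 0) (.m (.v 1) (.m (.m (.v 3) (.v 4)) (.v 2))))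
  (.cons false 1 (.m (.v 0) (.m (.v 2) (.m (.m (.v 1) (.v 4)) (.v 3))))
  (.cons false 1 (.m (.v 0) (.m (.v 2) (.m (.m (.v 3) (.v 4)) (.v 1))))
  (.cons false 1 (.m (.v 0) (.m (.v 3) (.m (.m (.v 1) (.v 4)) (.v 2))))
  (.cons false 1 (.m (.v 0) (.m (.v 3) (.m (.m (.v 2) (.v 4)) (.v 1))))
  (.cons false 1 (.m (.v 1) (.m (.v 0) (.m (.m (.v 2) (.v 4)) (.v 3))))
  (.cons false 1 (.m (.v 1) (.m (.v 0) (.m (.m (.v 3) (.v 4)) (.v 2))))
  (.cons false 1 (.m (.v 1) (.m (.v 2) (.m (.m (.v 0) (.v 4)) (.v 3))))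
  (.cons false 1 (.m (.v 1) (.m (.v 2) (.m (.m (.v 3) (.v 4)) (.v 0))))
  (.cons false 1 (.m (.v 1) (.m (.v 3) (.m (.m (.v 0) (.v 4)) (.v 2))))
  (.cons false 1 (.m (.v 1) (.m (.v 3) (.m (.m (.v 2) (.v 4)) (.v 0))))
  (.cons false 1 (.m (.v 2) (.m (.v 0) (.m (.m (.v 1) (.v 4)) (.v 3))))
  (.cons false 1 (.m (.v 2) (.m (.v 0) (.m (.m (.v 3) (.v 4)) (.v 1))))
  (.cons false 1 (.m (.v 2) (.m (.v 1) (.m (.m (.v 0) (.v 4)) (.v 3))))
  (.cons false 1 (.m (.v 2) (.m (.v 1) (.m (.m (.v 3) (.v 4)) (.v 0))))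
  (.cons false 1 (.m (.v 2) (.m (.v 3) (.m (.m (.v 0) (.v 4)) (.v 1))))
  (.cons false 1 (.m (.v 2) (.m (.v 3) (.m (.m (.v 1) (.v 4)) (.v 0))))
  (.cons false 1 (.m (.v 3) (.m (.v 0) (.m (.m (.v 1) (.v 4)) (.v 2))))
  (.cons false 1 (.m (.v 3) (.m (.v 0) (.m (.m (.v 2) (.v 4)) (.v 1))))
  (.cons false 1 (.m (.v 3) (.m (.v 1) (.m (.m (.v 0) (.v 4)) (.v 2))))
  (.cons false 1 (.m (.v 3) (.m (.v 1) (.m (.m (.v 2) (.v 4)) (.v 0))))
  (.cons false 1 (.m (.v 3) (.m (.v 2) (.m (.m (.v 0) (.v 4)) (.v 1))))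
  (.cons false 1 (.m (.v 3) (.m (.v 2) (.m (.m (.v 1) (.v 4)) (.v 0))))
  (.cons false 1 (.m (.v 0) (.m (.v 1) (.m (.v 2) (.m (.v 4) (.v 3)))))
  (.cons false 1 (.m (.v 0) (.m (.v 1) (.m (.v 3) (.m (.v 4) (.v 2)))))
  (.cons false 1 (.m (.v 0) (.m (.v 2) (.m (.v 1) (.m (.v 4) (.v 3)))))
  (.cons false 1 (.m (.v 0) (.m (.v 2) (.m (.v 3) (.m (.v 4) (.v 1)))))
  (.cons false 1 (.m (.v 0) (.m (.v 3) (.m (.v 1) (.m (.v 4) (.v 2)))))
  (.cons false 1 (.m (.v 0) (.m (.v 3) (.m (.v 2) (.m (.v 4) (.v 1)))))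
  (.cons false 1 (.m (.v 1) (.m (.v 0) (.m (.v 2) (.m (.v 4) (.v 3)))))
  (.cons false 1 (.m (.v 1) (.m (.v 0) (.m (.v 3) (.m (.v 4) (.v 2)))))
  (.cons false 1 (.m (.v 1) (.m (.v 2) (.m (.v 0) (.m (.v 4) (.v 3)))))
  (.cons false 1 (.m (.v 1) (.m (.v 2) (.m (.v 3) (.m (.v 4) (.v 0)))))
  (.cons false 1 (.m (.v 1) (.m (.v 3) (.m (.v 0) (.m (.v 4) (.v 2)))))
  (.cons false 1 (.m (.v 1) (.m (.v 3) (.m (.v 2) (.m (.v 4) (.v 0)))))
  (.cons false 1 (.m (.v 2) (.m (.v 0) (.m (.v 1) (.m (.v 4) (.v 3)))))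
  (.cons false 1 (.m (.v 2) (.m (.v 0) (.m (.v 3) (.m (.v 4) (.v 1)))))
  (.cons false 1 (.m (.v 2) (.m (.v 1) (.m (.v 0) (.m (.v 4) (.v 3)))))
  (.cons false 1 (.m (.v 2) (.m (.v 1) (.m (.v 3) (.m (.v 4) (.v 0)))))
  (.cons false 1 (.m (.v 2) (.m (.v 3) (.m (.v 0) (.m (.v 4) (.v 1)))))
  (.cons false 1 (.m (.v 2) (.m (.v 3) (.m (.v 1) (.m (.v 4) (.v 0)))))
  (.cons false 1 (.m (.v 3) (.m (.v 0) (.m (.v 1) (.m (.v 4) (.v 2)))))
  (.cons false 1 (.m (.v 3) (.m (.v 0) (.m (.v 2) (.m (.v 4) (.v 1)))))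
  (.cons false 1 (.m (.v 3) (.m (.v 1) (.m (.v 0) (.m (.v 4) (.v 2)))))
  (.cons false 1 (.m (.v 3) (.m (.v 1) (.m (.v 2) (.m (.v 4) (.v 0)))))
  (.cons false 1 (.m (.v 3) (.m (.v 2) (.m (.v 0) (.m (.v 4) (.v 1)))))
  (.cons false 1 (.m (.v 3) (.m (.v 2) (.m (.v 1) (.m (.v 4) (.v 0)))))
  (.cons true 1 (.m (.v 0) (.m (.v 1) (.m (.v 2) (.m (.v 3) (.v 4)))))
  (.cons true 1 (.m (.v 0) (.m (.v 1) (.m (.v 3) (.m (.v 2) (.v 4)))))
  (.cons true 1 (.m (.v 0) (.m (.v 2) (.m (.v 1) (.m (.v 3) (.v 4)))))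
  (.cons true 1 (.m (.v 0) (.m (.v 2) (.m (.v 3) (.m (.v 1) (.v 4)))))
  (.cons true 1 (.m (.v 0) (.m (.v 3) (.m (.v 1) (.m (.v 2) (.v 4)))))
  (.cons true 1 (.m (.v 0) (.m (.v 3) (.m (.v 2) (.m (.v 1) (.v 4)))))
  (.cons true 1 (.m (.v 1) (.m (.v 0) (.m (.v 2) (.m (.v 3) (.v 4)))))
  (.cons true 1 (.m (.v 1) (.m (.v 0) (.m (.v 3) (.m (.v 2) (.v 4)))))
  (.cons true 1 (.m (.v 1) (.m (.v 2) (.m (.v 0) (.m (.v 3) (.v 4)))))
  (.cons true 1 (.m (.v 1) (.m (.v 2) (.m (.v 3) (.m (.v 0) (.v 4)))))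
  (.cons true 1 (.m (.v 1) (.m (.v 3) (.m (.v 0) (.m (.v 2) (.v 4)))))
  (.cons true 1 (.m (.v 1) (.m (.v 3) (.m (.v 2) (.m (.v 0) (.v 4)))))
  (.cons true 1 (.m (.v 2) (.m (.v 0) (.m (.v 1) (.m (.v 3) (.v 4)))))
  (.cons true 1 (.m (.v 2) (.m (.v 0) (.m (.v 3) (.m (.v 1) (.v 4)))))
  (.cons true 1 (.m (.v 2) (.m (.v 1) (.m (.v 0) (.m (.v 3) (.v 4)))))
  (.cons true 1 (.m (.v 2) (.m (.v 1) (.m (.v 3) (.m (.v 0) (.v 4)))))
  (.cons true 1 (.m (.v 2) (.m (.v 3) (.m (.v 0) (.m (.v 1) (.v 4)))))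
  (.cons true 1 (.m (.v 2) (.m (.v 3) (.m (.v 1) (.m (.v 0) (.v 4)))))
  (.cons true 1 (.m (.v 3) (.m (.v 0) (.m (.v 1) (.m (.v 2) (.v 4)))))
  (.cons true 1 (.m (.v 3) (.m (.v 0) (.m (.v 2) (.m (.v 1) (.v 4)))))
  (.cons true 1 (.m (.v 3) (.m (.v 1) (.m (.v 0) (.m (.v 2) (.v 4)))))
  (.cons true 1 (.m (.v 3) (.m (.v 1) (.m (.v 2) (.m (.v 0) (.v 4)))))
  (.cons true 1 (.m (.v 3) (.m (.v 2) (.m (.v 0) (.m (.v 1) (.v 4)))))
  (.cons true 1 (.m (.v 3) (.m (.v 2) (.m (.v 1) (.m (.v 0) (.v 4)))))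
  .nil))))))))))))))))))))))))))))))))))))))))))))))))))))))))))))))))))))))))))))))))))))))))))))))))))))))))))))))))))))))))))))))))))))))))))))))))))))))))))))))))))))))))))))))))))))))))))))))))))))))))))))))))))))))))))))))))))))))))))))))))))))))))))))))))))))))))))))))))))))))))))))))))))))))))))))))))))))))))))))))))))))))))))))))))))))))))))))))))))))))))))))))))))))))))))))))))

set_option maxRecDepth 20000 in
/-- linearisation of `p5` -/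
def P5T : Tm :=
  (.cons true 1 (.m (.m (.m (.v 4) (.v 0)) (.m (.v 3) (.v 1))) (.v 2))
  (.cons true 1 (.m (.m (.m (.v 4) (.v 0)) (.m (.v 3) (.v 2))) (.v 1))
  (.cons true 1 (.m (.m (.m (.v 4) (.v 1)) (.m (.v 3) (.v 0))) (.v 2))
  (.cons true 1 (.m (.m (.m (.v 4) (.v 1)) (.m (.v 3) (.v 2))) (.v 0))
  (.cons true 1 (.m (.m (.m (.v 4) (.v 2)) (.m (.v 3) (.v 0))) (.v 1))
  (.cons true 1 (.m (.m (.m (.v 4) (.v 2)) (.m (.v 3) (.v 1))) (.v 0))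
  (.cons false 1 (.m (.m (.m (.v 4) (.v 0)) (.m (.v 1) (.v 3))) (.v 2))
  (.cons false 1 (.m (.m (.m (.v 4) (.v 0)) (.m (.v 2) (.v 3))) (.v 1))
  (.cons false 1 (.m (.m (.m (.v 4) (.v 1)) (.m (.v 0) (.v 3))) (.v 2))
  (.cons false 1 (.m (.m (.m (.v 4) (.v 1)) (.m (.v 2) (.v 3))) (.v 0))
  (.cons false 1 (.m (.m (.m (.v 4) (.v 2)) (.m (.v 0) (.v 3))) (.v 1))
  (.cons false 1 (.m (.m (.m (.v 4) (.v 2)) (.m (.v 1) (.v 3))) (.v 0))
  (.cons false 1 (.m (.m (.m (.v 0) (.v 4)) (.m (.v 3) (.v 1))) (.v 2))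
  (.cons false 1 (.m (.m (.m (.v 0) (.v 4)) (.m (.v 3) (.v 2))) (.v 1))
  (.cons false 1 (.m (.m (.m (.v 1) (.v 4)) (.m (.v 3) (.v 0))) (.v 2))
  (.cons false 1 (.m (.m (.m (.v 1) (.v 4)) (.m (.v 3) (.v 2))) (.v 0))
  (.cons false 1 (.m (.m (.m (.v 2) (.v 4)) (.m (.v 3) (.v 0))) (.v 1))
  (.cons false 1 (.m (.m (.m (.v 2) (.v 4)) (.m (.v 3) (.v 1))) (.v 0))
  (.cons true 1 (.m (.m (.m (.v 0) (.v 4)) (.m (.v 1) (.v 3))) (.v 2))
  (.cons true 1 (.m (.m (.m (.v 0) (.v 4)) (.m (.v 2) (.v 3))) (.v 1))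
  (.cons true 1 (.m (.m (.m (.v 1) (.v 4)) (.m (.v 0) (.v 3))) (.v 2))
  (.cons true 1 (.m (.m (.m (.v 1) (.v 4)) (.m (.v 2) (.v 3))) (.v 0))
  (.cons true 1 (.m (.m (.m (.v 2) (.v 4)) (.m (.v 0) (.v 3))) (.v 1))
  (.cons true 1 (.m (.m (.m (.v 2) (.v 4)) (.m (.v 1) (.v 3))) (.v 0))
  (.cons false 1 (.m (.m (.m (.v 3) (.v 0)) (.m (.v 4) (.v 1))) (.v 2))
  (.cons false 1 (.m (.m (.m (.v 3) (.v 0)) (.m (.v 4) (.v 2))) (.v 1))
  (.cons false 1 (.m (.m (.m (.v 3) (.v 1)) (.m (.v 4) (.v 0))) (.v 2))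
  (.cons false 1 (.m (.m (.m (.v 3) (.v 1)) (.m (.v 4) (.v 2))) (.v 0))
  (.cons false 1 (.m (.m (.m (.v 3) (.v 2)) (.m (.v 4) (.v 0))) (.v 1))
  (.cons false 1 (.m (.m (.m (.v 3) (.v 2)) (.m (.v 4) (.v 1))) (.v 0))
  (.cons true 1 (.m (.m (.m (.v 3) (.v 0)) (.m (.v 1) (.v 4))) (.v 2))
  (.cons true 1 (.m (.m (.m (.v 3) (.v 0)) (.m (.v 2) (.v 4))) (.v 1))
  (.cons true 1 (.m (.m (.m (.v 3) (.v 1)) (.m (.v 0) (.v 4))) (.v 2))
  (.cons true 1 (.m (.m (.m (.v 3) (.v 1)) (.m (.v 2) (.v 4))) (.v 0))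
  (.cons true 1 (.m (.m (.m (.v 3) (.v 2)) (.m (.v 0) (.v 4))) (.v 1))
  (.cons true 1 (.m (.m (.m (.v 3) (.v 2)) (.m (.v 1) (.v 4))) (.v 0))
  (.cons true 1 (.m (.m (.m (.v 0) (.v 3)) (.m (.v 4) (.v 1))) (.v 2))
  (.cons true 1 (.m (.m (.m (.v 0) (.v 3)) (.m (.v 4) (.v 2))) (.v 1))
  (.cons true 1 (.m (.m (.m (.v 1) (.v 3)) (.m (.v 4) (.v 0))) (.v 2))
  (.cons true 1 (.m (.m (.m (.v 1) (.v 3)) (.m (.v 4) (.v 2))) (.v 0))
  (.cons true 1 (.m (.m (.m (.v 2) (.v 3)) (.m (.v 4) (.v 0))) (.v 1))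
  (.cons true 1 (.m (.m (.m (.v 2) (.v 3)) (.m (.v 4) (.v 1))) (.v 0))
  (.cons false 1 (.m (.m (.m (.v 0) (.v 3)) (.m (.v 1) (.v 4))) (.v 2))
  (.cons false 1 (.m (.m (.m (.v 0) (.v 3)) (.m (.v 2) (.v 4))) (.v 1))
  (.cons false 1 (.m (.m (.m (.v 1) (.v 3)) (.m (.v 0) (.v 4))) (.v 2))
  (.cons false 1 (.m (.m (.m (.v 1) (.v 3)) (.m (.v 2) (.v 4))) (.v 0))
  (.cons false 1 (.m (.m (.m (.v 2) (.v 3)) (.m (.v 0) (.v 4))) (.v 1))
  (.cons false 1 (.m (.m (.m (.v 2) (.v 3)) (.m (.v 1) (.v 4))) (.v 0))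
  (.cons false 1 (.m (.v 0) (.m (.m (.v 4) (.v 1)) (.m (.v 3) (.v 2))))
  (.cons false 1 (.m (.v 0) (.m (.m (.v 4) (.v 2)) (.m (.v 3) (.v 1))))
  (.cons false 1 (.m (.v 1) (.m (.m (.v 4) (.v 0)) (.m (.v 3) (.v 2))))
  (.cons false 1 (.m (.v 1) (.m (.m (.v 4) (.v 2)) (.m (.v 3) (.v 0))))
  (.cons false 1 (.m (.v 2) (.m (.m (.v 4) (.v 0)) (.m (.v 3) (.v 1))))
  (.cons false 1 (.m (.v 2) (.m (.m (.v 4) (.v 1)) (.m (.v 3) (.v 0))))
  (.cons true 1 (.m (.v 0) (.m (.m (.v 4) (.v 1)) (.m (.v 2) (.v 3))))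
  (.cons true 1 (.m (.v 0) (.m (.m (.v 4) (.v 2)) (.m (.v 1) (.v 3))))
  (.cons true 1 (.m (.v 1) (.m (.m (.v 4) (.v 0)) (.m (.v 2) (.v 3))))
  (.cons true 1 (.m (.v 1) (.m (.m (.v 4) (.v 2)) (.m (.v 0) (.v 3))))
  (.cons true 1 (.m (.v 2) (.m (.m (.v 4) (.v 0)) (.m (.v 1) (.v 3))))
  (.cons true 1 (.m (.v 2) (.m (.m (.v 4) (.v 1)) (.m (.v 0) (.v 3))))
  (.cons true 1 (.m (.v 0) (.m (.m (.v 1) (.v 4)) (.m (.v 3) (.v 2))))
  (.cons true 1 (.m (.v 0) (.m (.m (.v 2) (.v 4)) (.m (.v 3) (.v 1))))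
  (.cons true 1 (.m (.v 1) (.m (.m (.v 0) (.v 4)) (.m (.v 3) (.v 2))))
  (.cons true 1 (.m (.v 1) (.m (.m (.v 2) (.v 4)) (.m (.v 3) (.v 0))))
  (.cons true 1 (.m (.v 2) (.m (.m (.v 0) (.v 4)) (.m (.v 3) (.v 1))))
  (.cons true 1 (.m (.v 2) (.m (.m (.v 1) (.v 4)) (.m (.v 3) (.v 0))))
  (.cons false 1 (.m (.v 0) (.m (.m (.v 1) (.v 4)) (.m (.v 2) (.v 3))))
  (.cons false 1 (.m (.v 0) (.m (.m (.v 2) (.v 4)) (.m (.v 1) (.v 3))))
  (.cons false 1 (.m (.v 1) (.m (.m (.v 0) (.v 4)) (.m (.v 2) (.v 3))))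
  (.cons false 1 (.m (.v 1) (.m (.m (.v 2) (.v 4)) (.m (.v 0) (.v 3))))
  (.cons false 1 (.m (.v 2) (.m (.m (.v 0) (.v 4)) (.m (.v 1) (.v 3))))
  (.cons false 1 (.m (.v 2) (.m (.m (.v 1) (.v 4)) (.m (.v 0) (.v 3))))
  (.cons true 1 (.m (.v 0) (.m (.m (.v 3) (.v 1)) (.m (.v 4) (.v 2))))
  (.cons true 1 (.m (.v 0) (.m (.m (.v 3) (.v 2)) (.m (.v 4) (.v 1))))
  (.cons true 1 (.m (.v 1) (.m (.m (.v 3) (.v 0)) (.m (.v 4) (.v 2))))
  (.cons true 1 (.m (.v 1) (.m (.m (.v 3) (.v 2)) (.m (.v 4) (.v 0))))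
  (.cons true 1 (.m (.v 2) (.m (.m (.v 3) (.v 0)) (.m (.v 4) (.v 1))))
  (.cons true 1 (.m (.v 2) (.m (.m (.v 3) (.v 1)) (.m (.v 4) (.v 0))))
  (.cons false 1 (.m (.v 0) (.m (.m (.v 3) (.v 1)) (.m (.v 2) (.v 4))))
  (.cons false 1 (.m (.v 0) (.m (.m (.v 3) (.v 2)) (.m (.v 1) (.v 4))))
  (.cons false 1 (.m (.v 1) (.m (.m (.v 3) (.v 0)) (.m (.v 2) (.v 4))))
  (.cons false 1 (.m (.v 1) (.m (.m (.v 3) (.v 2)) (.m (.v 0) (.v 4))))
  (.cons false 1 (.m (.v 2) (.m (.m (.v 3) (.v 0)) (.m (.v 1) (.v 4))))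
  (.cons false 1 (.m (.v 2) (.m (.m (.v 3) (.v 1)) (.m (.v 0) (.v 4))))
  (.cons false 1 (.m (.v 0) (.m (.m (.v 1) (.v 3)) (.m (.v 4) (.v 2))))
  (.cons false 1 (.m (.v 0) (.m (.m (.v 2) (.v 3)) (.m (.v 4) (.v 1))))
  (.cons false 1 (.m (.v 1) (.m (.m (.v 0) (.v 3)) (.m (.v 4) (.v 2))))
  (.cons false 1 (.m (.v 1) (.m (.m (.v 2) (.v 3)) (.m (.v 4) (.v 0))))
  (.cons false 1 (.m (.v 2) (.m (.m (.v 0) (.v 3)) (.m (.v 4) (.v 1))))
  (.cons false 1 (.m (.v 2) (.m (.m (.v 1) (.v 3)) (.m (.v 4) (.v 0))))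
  (.cons true 1 (.m (.v 0) (.m (.m (.v 1) (.v 3)) (.m (.v 2) (.v 4))))
  (.cons true 1 (.m (.v 0) (.m (.m (.v 2) (.v 3)) (.m (.v 1) (.v 4))))
  (.cons true 1 (.m (.v 1) (.m (.m (.v 0) (.v 3)) (.m (.v 2) (.v 4))))
  (.cons true 1 (.m (.v 1) (.m (.m (.v 2) (.v 3)) (.m (.v 0) (.v 4))))
  (.cons true 1 (.m (.v 2) (.m (.m (.v 0) (.v 3)) (.m (.v 1) (.v 4))))
  (.cons true 1 (.m (.v 2) (.m (.m (.v 1) (.v 3)) (.m (.v 0) (.v 4))))
  (.cons false 1 (.m (.m (.m (.m (.v 4) (.v 3)) (.v 0)) (.v 1)) (.v 2))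
  (.cons false 1 (.m (.m (.m (.m (.v 4) (.v 3)) (.v 0)) (.v 2)) (.v 1))
  (.cons false 1 (.m (.m (.m (.m (.v 4) (.v 3)) (.v 1)) (.v 0)) (.v 2))
  (.cons false 1 (.m (.m (.m (.m (.v 4) (.v 3)) (.v 1)) (.v 2)) (.v 0))
  (.cons false 1 (.m (.m (.m (.m (.v 4) (.v 3)) (.v 2)) (.v 0)) (.v 1))
  (.cons false 1 (.m (.m (.m (.m (.v 4) (.v 3)) (.v 2)) (.v 1)) (.v 0))
  (.cons true 1 (.m (.m (.m (.m (.v 3) (.v 4)) (.v 0)) (.v 1)) (.v 2))
  (.cons true 1 (.m (.m (.m (.m (.v 3) (.v 4)) (.v 0)) (.v 2)) (.v 1))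
  (.cons true 1 (.m (.m (.m (.m (.v 3) (.v 4)) (.v 1)) (.v 0)) (.v 2))
  (.cons true 1 (.m (.m (.m (.m (.v 3) (.v 4)) (.v 1)) (.v 2)) (.v 0))
  (.cons true 1 (.m (.m (.m (.m (.v 3) (.v 4)) (.v 2)) (.v 0)) (.v 1))
  (.cons true 1 (.m (.m (.m (.m (.v 3) (.v 4)) (.v 2)) (.v 1)) (.v 0))
  (.cons true 1 (.m (.m (.m (.v 0) (.m (.v 4) (.v 3))) (.v 1)) (.v 2))
  (.cons true 1 (.m (.m (.m (.v 0) (.m (.v 4) (.v 3))) (.v 2)) (.v 1))
  (.cons true 1 (.m (.m (.m (.v 1) (.m (.v 4) (.v 3))) (.v 0)) (.v 2))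
  (.cons true 1 (.m (.m (.m (.v 1) (.m (.v 4) (.v 3))) (.v 2)) (.v 0))
  (.cons true 1 (.m (.m (.m (.v 2) (.m (.v 4) (.v 3))) (.v 0)) (.v 1))
  (.cons true 1 (.m (.m (.m (.v 2) (.m (.v 4) (.v 3))) (.v 1)) (.v 0))
  (.cons false 1 (.m (.m (.m (.v 0) (.m (.v 3) (.v 4))) (.v 1)) (.v 2))
  (.cons false 1 (.m (.m (.m (.v 0) (.m (.v 3) (.v 4))) (.v 2)) (.v 1))
  (.cons false 1 (.m (.m (.m (.v 1) (.m (.v 3) (.v 4))) (.v 0)) (.v 2))
  (.cons false 1 (.m (.m (.m (.v 1) (.m (.v 3) (.v 4))) (.v 2)) (.v 0))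
  (.cons false 1 (.m (.m (.m (.v 2) (.m (.v 3) (.v 4))) (.v 0)) (.v 1))
  (.cons false 1 (.m (.m (.m (.v 2) (.m (.v 3) (.v 4))) (.v 1)) (.v 0))
  (.cons true 1 (.m (.m (.v 0) (.m (.m (.v 4) (.v 3)) (.v 1))) (.v 2))
  (.cons true 1 (.m (.m (.v 0) (.m (.m (.v 4) (.v 3)) (.v 2))) (.v 1))
  (.cons true 1 (.m (.m (.v 1) (.m (.m (.v 4) (.v 3)) (.v 0))) (.v 2))
  (.cons true 1 (.m (.m (.v 1) (.m (.m (.v 4) (.v 3)) (.v 2))) (.v 0))
  (.cons true 1 (.m (.m (.v 2) (.m (.m (.v 4) (.v 3)) (.v 0))) (.v 1))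
  (.cons true 1 (.m (.m (.v 2) (.m (.m (.v 4) (.v 3)) (.v 1))) (.v 0))
  (.cons false 1 (.m (.m (.v 0) (.m (.m (.v 3) (.v 4)) (.v 1))) (.v 2))
  (.cons false 1 (.m (.m (.v 0) (.m (.m (.v 3) (.v 4)) (.v 2))) (.v 1))
  (.cons false 1 (.m (.m (.v 1) (.m (.m (.v 3) (.v 4)) (.v 0))) (.v 2))
  (.cons false 1 (.m (.m (.v 1) (.m (.m (.v 3) (.v 4)) (.v 2))) (.v 0))
  (.cons false 1 (.m (.m (.v 2) (.m (.m (.v 3) (.v 4)) (.v 0))) (.v 1))
  (.cons false 1 (.m (.m (.v 2) (.m (.m (.v 3) (.v 4)) (.v 1))) (.v 0))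
  (.cons false 1 (.m (.m (.v 0) (.m (.v 1) (.m (.v 4) (.v 3)))) (.v 2))
  (.cons false 1 (.m (.m (.v 0) (.m (.v 2) (.m (.v 4) (.v 3)))) (.v 1))
  (.cons false 1 (.m (.m (.v 1) (.m (.v 0) (.m (.v 4) (.v 3)))) (.v 2))
  (.cons false 1 (.m (.m (.v 1) (.m (.v 2) (.m (.v 4) (.v 3)))) (.v 0))
  (.cons false 1 (.m (.m (.v 2) (.m (.v 0) (.m (.v 4) (.v 3)))) (.v 1))
  (.cons false 1 (.m (.m (.v 2) (.m (.v 1) (.m (.v 4) (.v 3)))) (.v 0))
  (.cons true 1 (.m (.m (.v 0) (.m (.v 1) (.m (.v 3) (.v 4)))) (.v 2))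
  (.cons true 1 (.m (.m (.v 0) (.m (.v 2) (.m (.v 3) (.v 4)))) (.v 1))
  (.cons true 1 (.m (.m (.v 1) (.m (.v 0) (.m (.v 3) (.v 4)))) (.v 2))
  (.cons true 1 (.m (.m (.v 1) (.m (.v 2) (.m (.v 3) (.v 4)))) (.v 0))
  (.cons true 1 (.m (.m (.v 2) (.m (.v 0) (.m (.v 3) (.v 4)))) (.v 1))
  (.cons true 1 (.m (.m (.v 2) (.m (.v 1) (.m (.v 3) (.v 4)))) (.v 0))
  (.cons true 1 (.m (.v 0) (.m (.m (.m (.v 4) (.v 3)) (.v 1)) (.v 2)))
  (.cons true 1 (.m (.v 0) (.m (.m (.m (.v 4) (.v 3)) (.v 2)) (.v 1)))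
  (.cons true 1 (.m (.v 1) (.m (.m (.m (.v 4) (.v 3)) (.v 0)) (.v 2)))
  (.cons true 1 (.m (.v 1) (.m (.m (.m (.v 4) (.v 3)) (.v 2)) (.v 0)))
  (.cons true 1 (.m (.v 2) (.m (.m (.m (.v 4) (.v 3)) (.v 0)) (.v 1)))
  (.cons true 1 (.m (.v 2) (.m (.m (.m (.v 4) (.v 3)) (.v 1)) (.v 0)))
  (.cons false 1 (.m (.v 0) (.m (.m (.m (.v 3) (.v 4)) (.v 1)) (.v 2)))
  (.cons false 1 (.m (.v 0) (.m (.m (.m (.v 3) (.v 4)) (.v 2)) (.v 1)))
  (.cons false 1 (.m (.v 1) (.m (.m (.m (.v 3) (.v 4)) (.v 0)) (.v 2)))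
  (.cons false 1 (.m (.v 1) (.m (.m (.m (.v 3) (.v 4)) (.v 2)) (.v 0)))
  (.cons false 1 (.m (.v 2) (.m (.m (.m (.v 3) (.v 4)) (.v 0)) (.v 1)))
  (.cons false 1 (.m (.v 2) (.m (.m (.m (.v 3) (.v 4)) (.v 1)) (.v 0)))
  (.cons false 1 (.m (.v 0) (.m (.m (.v 1) (.m (.v 4) (.v 3))) (.v 2)))
  (.cons false 1 (.m (.v 0) (.m (.m (.v 2) (.m (.v 4) (.v 3))) (.v 1)))
  (.cons false 1 (.m (.v 1) (.m (.m (.v 0) (.m (.v 4) (.v 3))) (.v 2)))
  (.cons false 1 (.m (.v 1) (.m (.m (.v 2) (.m (.v 4) (.v 3))) (.v 0)))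
  (.cons false 1 (.m (.v 2) (.m (.m (.v 0) (.m (.v 4) (.v 3))) (.v 1)))
  (.cons false 1 (.m (.v 2) (.m (.m (.v 1) (.m (.v 4) (.v 3))) (.v 0)))
  (.cons true 1 (.m (.v 0) (.m (.m (.v 1) (.m (.v 3) (.v 4))) (.v 2)))
  (.cons true 1 (.m (.v 0) (.m (.m (.v 2) (.m (.v 3) (.v 4))) (.v 1)))
  (.cons true 1 (.m (.v 1) (.m (.m (.v 0) (.m (.v 3) (.v 4))) (.v 2)))
  (.cons true 1 (.m (.v 1) (.m (.m (.v 2) (.m (.v 3) (.v 4))) (.v 0)))
  (.cons true 1 (.m (.v 2) (.m (.m (.v 0) (.m (.v 3) (.v 4))) (.v 1)))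
  (.cons true 1 (.m (.v 2) (.m (.m (.v 1) (.m (.v 3) (.v 4))) (.v 0)))
  (.cons false 1 (.m (.v 0) (.m (.v 1) (.m (.m (.v 4) (.v 3)) (.v 2))))
  (.cons false 1 (.m (.v 0) (.m (.v 2) (.m (.m (.v 4) (.v 3)) (.v 1))))
  (.cons false 1 (.m (.v 1) (.m (.v 0) (.m (.m (.v 4) (.v 3)) (.v 2))))
  (.cons false 1 (.m (.v 1) (.m (.v 2) (.m (.m (.v 4) (.v 3)) (.v 0))))
  (.cons false 1 (.m (.v 2) (.m (.v 0) (.m (.m (.v 4) (.v 3)) (.v 1))))
  (.cons false 1 (.m (.v 2) (.m (.v 1) (.m (.m (.v 4) (.v 3)) (.v 0))))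
  (.cons true 1 (.m (.v 0) (.m (.v 1) (.m (.m (.v 3) (.v 4)) (.v 2))))
  (.cons true 1 (.m (.v 0) (.m (.v 2) (.m (.m (.v 3) (.v 4)) (.v 1))))
  (.cons true 1 (.m (.v 1) (.m (.v 0) (.m (.m (.v 3) (.v 4)) (.v 2))))
  (.cons true 1 (.m (.v 1) (.m (.v 2) (.m (.m (.v 3) (.v 4)) (.v 0))))
  (.cons true 1 (.m (.v 2) (.m (.v 0) (.m (.m (.v 3) (.v 4)) (.v 1))))
  (.cons true 1 (.m (.v 2) (.m (.v 1) (.m (.m (.v 3) (.v 4)) (.v 0))))
  (.cons true 1 (.m (.v 0) (.m (.v 1) (.m (.v 2) (.m (.v 4) (.v 3)))))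
  (.cons true 1 (.m (.v 0) (.m (.v 2) (.m (.v 1) (.m (.v 4) (.v 3)))))
  (.cons true 1 (.m (.v 1) (.m (.v 0) (.m (.v 2) (.m (.v 4) (.v 3)))))
  (.cons true 1 (.m (.v 1) (.m (.v 2) (.m (.v 0) (.m (.v 4) (.v 3)))))
  (.cons true 1 (.m (.v 2) (.m (.v 0) (.m (.v 1) (.m (.v 4) (.v 3)))))
  (.cons true 1 (.m (.v 2) (.m (.v 1) (.m (.v 0) (.m (.v 4) (.v 3)))))
  (.cons false 1 (.m (.v 0) (.m (.v 1) (.m (.v 2) (.m (.v 3) (.v 4)))))
  (.cons false 1 (.m (.v 0) (.m (.v 2) (.m (.v 1) (.m (.v 3) (.v 4)))))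
  (.cons false 1 (.m (.v 1) (.m (.v 0) (.m (.v 2) (.m (.v 3) (.v 4)))))
  (.cons false 1 (.m (.v 1) (.m (.v 2) (.m (.v 0) (.m (.v 3) (.v 4)))))
  (.cons false 1 (.m (.v 2) (.m (.v 0) (.m (.v 1) (.m (.v 3) (.v 4)))))
  (.cons false 1 (.m (.v 2) (.m (.v 1) (.m (.v 0) (.m (.v 3) (.v 4)))))
  .nil))))))))))))))))))))))))))))))))))))))))))))))))))))))))))))))))))))))))))))))))))))))))))))))))))))))))))))))))))))))))))))))))))))))))))))))))))))))))))))))))))))))))))))))))))))))))))))))))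

theorem epsT_holds (tor : NoTor A) (hp : ∀ x y a : A, eps x x x y a = 0) (ρ : ℕ → A) :
    epsT.ev ρ = 0 := by
  refine Fast.ev_of_check tor (.cons 0 5 (ofP (E.sym3 (fun a b c => epsE a b c (.v 3) (.v 4))
    (.v 0) (.v 1) (.v 2)).p) .nil) ⟨fun ρ' _ => ?_, trivial⟩ 0 epsT
    [272834816] (by decide +kernel)
  rw [ev_ofP, evP_p]
  refine polar3 (fun a b c => eps a b c (ρ' 3) (ρ' 4)) ?_ ?_ ?_ (fun a => hp a _ _) (ρ' 0)
    (ρ' 1) (ρ' 2) <;>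
  · intro a b c d
    simp only [eps, mm, cmm, mul_add, add_mul, mul_sub, sub_mul, smul_add, smul_sub]
    abel

theorem R1T_holds (tor : NoTor A) (hp : ∀ x y a : A, r1 x x x y a = 0) (ρ : ℕ → A) :
    R1T.ev ρ = 0 := by
  refine Fast.ev_of_check tor (.cons 0 5 (ofP (E.sym3 (fun a b c => r1E a b c (.v 3) (.v 4))
    (.v 0) (.v 1) (.v 2)).p) .nil) ⟨fun ρ' _ => ?_, trivial⟩ 0 R1T
    [272834816] (by decide +kernel)
  rw [ev_ofP, evP_p]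
  refine polar3 (fun a b c => r1 a b c (ρ' 3) (ρ' 4)) ?_ ?_ ?_ (fun a => hp a _ _) (ρ' 0)
    (ρ' 1) (ρ' 2) <;>
  · intro a b c d
    simp only [r1, mm, ass, cmm, mul_add, add_mul, mul_sub, sub_mul]
    abel

theorem P5T_holds (tor : NoTor A) (hp : ∀ x y a : A, p5 x x x y a = 0) (ρ : ℕ → A) :
    P5T.ev ρ = 0 := by
  refine Fast.ev_of_check tor (.cons 0 5 (ofP (E.sym3 (fun a b c => p5E a b c (.v 3) (.v 4))
    (.v 0) (.v 1) (.v 2)).p) .nil) ⟨fun ρ' _ => ?_, trivial⟩ 0 P5T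
    [272834816] (by decide +kernel)
  rw [ev_ofP, evP_p]
  refine polar3 (fun a b c => p5 a b c (ρ' 3) (ρ' 4)) ?_ ?_ ?_ (fun a => hp a _ _) (ρ' 0)
    (ρ' 1) (ρ' 2) <;>
  · intro a b c d
    simp only [p5, cmm, mul_add, add_mul, mul_sub, sub_mul]
    abel

theorem C4T_holds (tor : NoTor A) (hp : ∀ x y : A, c4 x x x x y = 0) (ρ : ℕ → A) :
    C4T.ev ρ = 0 := by
  refine Fast.ev_of_check tor (.cons 0 5 (ofP (sym4 (fun a b c d => c4E a b c d (.v 4))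
    (.v 0) (.v 1) (.v 2) (.v 3)).p) .nil) ⟨fun ρ' _ => ?_, trivial⟩ 0 C4T
    [272834816] (by decide +kernel)
  rw [ev_ofP, evP_p]
  refine polar4 (fun a b c d => c4 a b c d (ρ' 4)) ?_ ?_ ?_ ?_ (fun a => hp a _) (ρ' 0) (ρ' 1)
    (ρ' 2) (ρ' 3) <;>
  · intro a b c d e
    simp only [c4, cmm_add_left, cmm_add_right]

/-- known identities -/
def KP : Kn := .cons 0 3 raT (.cons 0 4 malT (.cons 0 5 epsT (.cons 0 5 R1T .nil)))

theorem KP_holds (h : RAM A) (he : ∀ x y a : A, eps x x x y a = 0)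
    (hr : ∀ x y a : A, r1 x x x y a = 0) (ρ : ℕ → A) : KP.Holds ρ :=
  ⟨fun ρ' _ => raT_holds h ρ', fun ρ' _ => malT_holds h ρ', fun ρ' _ => epsT_holds h.tor he ρ',
    fun ρ' _ => R1T_holds h.tor hr ρ', trivial⟩

/-- certificate -/
def c4C : List ℕ :=
    [824651542528, 755916337152, 756198469632, 755914252272, 824633790448, 755915354352,
    824633848048, 824666288128, 536936450, 2952794115]

theorem c4_zero (h : RAM A) (he : ∀ x y a : A, eps x x x y a = 0)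
    (hr : ∀ x y a : A, r1 x x x y a = 0) (x y : A) : c4 x x x x y = 0 :=
  ev_of_checkE h.tor KP (KP_holds h he hr (fun i => if i = 0 then x else y)) 1
    (c4E (.v 0) (.v 0) (.v 0) (.v 0) (.v 1)) c4C (by decide +kernel)

/-- certificate -/
def p5C : List ℕ :=
    [47244709665, 25803485185, 825170661360, 25787572225, 756182814704, 756451123184,
    825170718960, 824902168560, 756198470144, 825186382080, 824666288640, 756452225264,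
    755963588864, 756182872304, 824904315120, 51541836033, 47245820161, 1075904515, 806486019,
    539033602, 269615106, 824636862720, 755916337664, 824651543040, 755948843264]

theorem p5_zero (h : RAM A) (he : ∀ x y a : A, eps x x x y a = 0)
    (hr : ∀ x y a : A, r1 x x x y a = 0) (x y z : A) : p5 x x x y z = 0 :=
  ev_of_checkE h.tor KP (KP_holds h he hr (fun i => if i = 0 then x else if i = 1 then y else z))
    1 (p5E (.v 0) (.v 0) (.v 0) (.v 1) (.v 2)) p5C (by decide +kernel)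

/-- known identities -/
def KB : Kn := .cons 0 3 raT (.cons 0 4 malT (.cons 0 5 epsT (.cons 0 5 R1T (.cons 0 5 C4T (.cons 0 5 P5T .nil)))))

/-- certificate -/
def tC : List ℕ :=
    [273576300209304064, 273593892128944640, 273576299927171584, 273593892143690240,
    273593888100381184, 273576295662678528, 273593887818248704, 273576295647932928,
    136797053462310944, 136779461245792288, 136797053447565344, 136779461527924768,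
    136779456966553632, 136797049419001888, 136797049136869408, 136779456981299232,
    45581426790232832, 45581495524389632, 45599019007734528, 45599087694705408,
    45598954551767808, 45598958861415168, 45581366659642112, 45581362397180672,
    45599152434909168, 45599152418074608, 45581560248803312, 45581560483688432,
    45581560232153072, 45599152669855728, 45599152938164208, 45581560752181232,
    2136364279787521, 2137463758856193, 2136364549206017, 2137463792398337, 2137464028340225,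
    2136364515663873, 2137464059850753, 2136364248276993, 22799614594974192, 1423868349714177,
    1424975914405633, 22781889785037296, 22799481971085552, 22781893559910896,
    1423876402716417, 1424967861280513, 88992561360899, 22781881731977456, 22799473918018032,
    22782022408933616, 89061281820675, 22799679274037232, 22799485745959152, 22799679306661872,
    1424967592972033, 22782087119634416, 22799481988707072, 22799481487552752,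
    22781953726017776, 22799545908916992, 88992563396610, 22781885477286656, 22799545910096112,
    22782022928888576, 22782087118647536, 22799679810957552, 1423868081221377,
    22781889551004416, 89061266096130, 22781889298363136, 22782087640641776, 22799473636799232,
    22781889299542256, 22782087103721456, 1424971619380993, 1423872107876097,
    22799611088401152, 22781889299484656, 22781885490077936, 22799679556350192,
    22799477676114672, 22781953689453296, 22799481485406192, 22781881463538416,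
    22799545910038512, 22799481450988272, 89061264125955, 22781893595427056, 22781953723871216,
    22799473649590512, 88992546615299, 22799545875505392, 22781885776130816, 22799477458858752,
    22781881718141696, 22781950451315456, 22799550690423552, 22799481957249792,
    22799614630490352, 22799485762597632, 22782022425572096, 22799485780430832,
    22781889264951536, 22799485780488432, 22782087089037296, 22799679288967152,
    22782087357526256, 22799679321403632, 22781893594324976, 22782022443462896,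
    22782022443405296, 22782087104888816, 22799679306538992, 22782087638675696,
    22799679575027952, 22799614629388272, 20899663067476736, 20899663082222336,
    20882071147836160, 20882070865703680, 20899663855087856, 20882071668924400,
    20882071670026480, 20899663855030256, 68398561358836480, 68380968906388224,
    68380904513401600, 68380968921133824, 68398497202762496, 102597633573596928,
    102580041387491072, 68380969693999344, 102580109586935552, 102580037361020672,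
    68398561076704000, 102597637348470528, 20881998401827584, 68380904498656000,
    68398496653243136, 68398561879924720, 102597629547003648, 20899590084555520,
    68398561881026800, 20899590069809920, 68380969693941744, 102597701772918528,
    102580045162364672, 102580255599894512, 68398431973089024, 20881997852308224,
    102597847786000368, 102597847786057968, 68380968636063488, 68398428198215424,
    20881933692124928, 68398497455419376, 68380827959107328, 102580255600996592,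
    68380905269555440, 20881937466998528, 68381041634586608, 20899517825105664,
    20899658502061824, 68398633820811504, 20881998656631024, 20899590840709360,
    68380905269497840, 20881998654484464, 68398633820753904, 68398497457565936,
    102580191175504112, 102597783362531568, 20899590840651760, 68381041636733168,
    20882010465825008, 102580191175446512, 102597783361429488, 20899602653835504,
    20899602651688944, 20882010465767408, 74149138661380, 74217874915332, 136779260169810176,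
    136779247099310336, 136796839537012992, 136796848329322752, 136797057472065792,
    136796848344068352, 34181630890340864, 34199210509201920, 136779400861511936,
    136779260184555776, 34199424166064640, 13299692985119232, 13282105816510976,
    136779315268284656, 34181630905086464, 136779315817804016, 34199351455641856,
    13299838729842944, 13282105831256576, 13299778296279552, 136796907438600432,
    34181759222411520, 13282246496612608, 136796907438542832, 136796908255506672,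
    136779315217170416, 34181760039317760, 13299838947160304, 34199351470387456,
    136779315268227056, 13282247313518848, 136796907404197872, 13282246764065008,
    34199351672959216, 13299838744588544, 13299765715399168, 13299838947102704,
    13282246760873968, 34181759489863920, 13282237923397616, 34181754975678704,
    34199347112574960, 13282173482168832, 34199287031132672, 13299830089842672,
    34199347947172080, 34181694797902336, 34181754975621104, 34181759486672880,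
    13299830423089392, 34199351672901616, 13282174299075072, 13282237923455216,
    13299765730144768, 34199287516885232, 34181695614808576, 34199287045878272,
    34181695333789936, 13299766201151728, 34199287516827632, 34181695330598896,
    13282174018056432, 13299766201094128, 13282174014865392, 711384562077489, 712484089433905,
    711384561155889, 712484071800625, 712483568300545, 711384308331009, 44531060895746,
    711384544260609, 711384326147889, 44530775568388, 44462340435970, 44462040363012,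
    712488082420225, 712483806318385, 712483805396785, 711384291802929, 712484057985025,
    11382354573521408, 44462325690370, 11399809354166784, 11382355091583488, 711388572889089,
    712492409892865, 11399809368912384, 44531043201026, 11399753486037504, 711392646606849,
    11382152758358528, 11382217120936448, 11399943251096064, 11399874061864944,
    11382354571563248, 11399946743837184, 44530492452868, 711384813744129, 11399946757603824,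
    44530809237507, 11399749709205744, 11382157523157488, 11399737081065984, 44461804433412,
    11382161298031088, 712492378435585, 11382145443565808, 11399809336545264, 712484055884545,
    711388871733249, 11399874280099824, 11399809336602864, 11382161284264448,
    11382282093871088, 11382285887598848, 711388570788609, 11382217153507568,
    11382152743612928, 11399749726892544, 11399753484079344, 712487880044545,
    11382157289189888, 11382217150316528, 11399737629606384, 11399878026457344,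
    11399946776342784, 11399951572594944, 11382285902344448, 11399946757546224,
    712483819954945, 712484088393985, 44462088777731, 11382282630795248, 11399744882471424,
    11382354571494128, 11399753484010224, 11382148921553408, 11382285853200368,
    11382351333486848, 11399878039060464, 11382161316770048, 712484593868545,
    11399749224624384, 11382157809283328, 11382354558841088, 11399749709136624,
    11382281875759088, 711397161836289, 711392865759489, 11382152726049008, 11382157523099888,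
    712496673525505, 11399749239369984, 711384056668929, 11399874047180784, 711384073449729,
    711385082302209, 11399737629548784, 711384812688129, 11382161297973488, 11382145443496688,
    11382145163456768, 11382156991394048, 11399749492011264, 11399753471357184, 44461822373891,
    11382281842397168, 11399744911851504, 11399745402564864, 11382285853257968,
    711384831561489, 11399744915042544, 11399878042251504, 11399874816778224,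
    11382152725991408, 11382281827467248, 11399874028257264, 11399873997783024,
    11382282632818928, 44530539884547, 11399805342330864, 712492157301505, 11382281860153328,
    11399749190283504, 711384830639889, 11399874803134704, 712484340301585, 11399874280157424,
    712496672419585, 711392897331969, 11382281842454768, 712487832850225, 711385081196289,
    11382213156409328, 11382213911261168, 11399805325742064, 712492142555905, 712492377379585,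
    11382157003997168, 11382213643014128, 711397160914689, 11382213142708208,
    11399805828874224, 11399749190225904, 712484592946945, 11382213139513328,
    11382157007188208, 711392615199489, 11399805310812144, 712488382427905, 11382213093310448,
    11399806097428464, 711396910235409, 11399806116163824, 712496419897105, 11399805326786544,
    11382213643071728, 11399805325799664, 11382213898662128, 592645895303169, 593745407979521,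
    2136351380336641, 2137450892947457, 2136351649755137, 2137451160399873, 593736582295553,
    593740844642305, 592641331965953, 592637339103233, 27213486424067, 88992279232515,
    133591517429763, 27213201276931, 88992027639811, 133522546294787, 89061279793155,
    27144527937539, 355146806534145, 356254937456641, 356242291630081, 355155174170625,
    356250613125121, 355155694260225, 355143048433665, 356254702571521, 22265933537284,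
    22265698775042, 22196978315266, 22197198331908, 22265950433285, 22197229973509,
    22196711911426, 22197230833668, 22265429422082, 22265918853124, 22197215227909,
    22265932738565, 1068738976616449, 1067626646147073, 1067635438456833, 1068725906116609,
    295777805996033, 296877270437889, 295768963358721, 296873492422657, 295773242597377,
    296872707039233, 178052486070275, 178121189818371, 17249146437635, 44462090682371,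
    17317879808003, 44530775818243, 44530525208579, 17317595643907, 16080929226756,
    22196945879044, 22265699696644, 16012195856388, 22196695269380, 16080645062660,
    14844231221253, 14775528521733, 14775511744516, 14844247998468, 13607030030338,
    44462058307586, 66727214907394, 66796186042370, 13606744883202, 44461806714882,
    13538071543810, 44531058868226, 89060747968514, 88992044220418, 22196980219906,
    8590492368898, 8659225739266, 22265665355778, 22265414746114, 8658941575170,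
    1067630623662081, 1068730136338433, 117656872226817, 3205076701089793, 3206176228446209,
    3205076985253889, 3206176481153025, 118756384903169, 117652308828161, 118751821504513,
    118747545149441, 1068725623005185, 1067634650189825, 1068734162866177, 1067626379812865,
    117648301957121, 22197245640708, 22265713459204, 6185326542852, 6185041395716,
    6116368056324, 58283260850177, 59382756749313, 1423872424357889, 1423876434112513,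
    58278714224641, 1424975930011649, 1424971904528385, 59378194395137, 1424975914463233,
    1423868349771777, 58274906107905, 59382470799361, 3918663991357441, 3918659963842561,
    3917560453197825, 3917564478746625, 3562426532433713, 9262285970154481, 3561318196916721,
    9261186458530545, 3561322994216753, 3562422505967409, 9262285954429681, 3562417677087217,
    9261186442798065, 3561327020744497]

/-- `[k1(m, x; z), u] = 0` for `m = [[y, x], x]` -/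
theorem main (h : RAM A) (he : ∀ x y a : A, eps x x x y a = 0)
    (hr : ∀ x y a : A, r1 x x x y a = 0) (x y z u : A) : cmm (k1 x x x y z) u = 0 :=
  ev_of_checkE h.tor KB (ρ := fun i => if i = 0 then x else if i = 1 then y else if i = 2 then z
      else u) ⟨fun ρ' _ => raT_holds h ρ', fun ρ' _ => malT_holds h ρ',
      fun ρ' _ => epsT_holds h.tor he ρ', fun ρ' _ => R1T_holds h.tor hr ρ',
      fun ρ' _ => C4T_holds h.tor (c4_zero h he hr) ρ',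
      fun ρ' _ => P5T_holds h.tor (p5_zero h he hr) ρ', trivial⟩
    5 (.cm (k1E (.v 0) (.v 0) (.v 0) (.v 1) (.v 2)) (.v 3)) tC (by decide +kernel)

end ring

end B3

end Pool.Agent.NACert
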