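import Pool.Agent.NACert.B1

/-!
# Block 3b: `(x, x, (x, x, y)) = 0`
-/

namespace Pool.Agent.NACert

open Fast

section ring

variable {A : Type*} [NonUnitalNonAssocRing A]

/-- certificate -/
def b3bC : List ℕ :=
  [5772469735424, 6597087588352, 4879098712064, 2405198589952, 2405214253056, 3229849088000,
    824635813888, 2405197422336, 2473933668592, 1649284288512, 1168263675904, 2473934778624,
    755948847344, 1580817444864, 1168231231728, 824667275760, 412351528960, 1168264790032,
    12886016002, 17197629442, 1580564803840, 1580563759344, 1236984140016, 343631003664,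
    755932135424, 343614165232, 412602204160, 824649453808, 1649285267696, 755915296752,
    824649580560, 755947859984, 1649283232000, 412316930032, 343632117760, 343882596592,
    824918994944, 755947868160, 412602138624, 755948908544, 824650629136, 412601155584]

/-- `(x, x, (x, x, y)) = 0` -/
theorem RAM.b3b (h : RAM A) (hg : ∀ x y : A, g31 x x x y = 0) (x y : A) :
    ass x x (ass x x y) = 0 :=
  ev_of_checkE h.tor KG (ρ := fun i => if i = 0 then x else y) (h.kg hg _) 2
    (.as (.v 0) (.v 0) (.as (.v 0) (.v 0) (.v 1))) b3bC (by decide +kernel)

end ring

end Pool.Agent.NACert
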