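import Pool.Agent.NACert.B2
import Pool.Agent.NACert.Zc
import Pool.Agent.NACert.OmegaM

/-!
# Block 4: `k(m, x; a x) = k(m, x; a) x`

for `k(m, x; a) = 2 (m a) x - 2 (x m) a + 2 x (a m) - 2 (a m) x - (a x) m + a (x m)`.
-/

namespace Pool.Agent.NACert

open Fast B14 B3

section ring

variable {A : Type*} [NonUnitalNonAssocRing A]

/-- `2 (m a) x - 2 (x m) a + 2 x (a m) - 2 (a m) x - (a x) m + a (x m)` -/
def kw (m x a : A) : A :=
  ((((((2 : ℤ) • ((m * a) * x)) - ((2 : ℤ) • ((x * m) * a))) + ((2 : ℤ) • (x * (a * m)))) - ((2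
    : ℤ) • ((a * m) * x))) - ((a * x) * m)) + (a * (x * m))

/-- the same expression -/
@[reducible] def kwE (m x a : E) : E :=
  .add (.sub (.sub (.add (.sub (.sm 2 (.mul (.mul m a) x)) (.sm 2 (.mul (.mul x m) a))) (.sm 2
    (.mul x (.mul a m)))) (.sm 2 (.mul (.mul a m) x))) (.mul (.mul a x) m)) (.mul a (.mul x m))

/-- known identities for a pair `m`, `x` -/
def b4K : Kn :=
  .cons 0 3 raT (.cons 0 4 malT (.cons 0 4 g31T (.cons 2 1 (ofP (E.add (.as (.v 0) (.v 2) (.v 1)) (.as (.v 1) (.v 2) (.v 0))).p)
    (.cons 2 1 (ofP (wmE (.v 0) (.v 1) (.v 2)).p) .nil))))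

/-- certificate -/
def b4C : List ℕ :=
  [32614916627, 6000876851216, 16307458803, 16306409764, 16307458804, 16307462676, 16306409763,
    4174709322016, 3130763964672, 2696166842624, 3478924563184, 2869844635680, 3304710021136,
    2739386061056, 2870113136656, 1826434982160, 1304328008208, 2087356264720, 1087165763840,
    1260842451696, 2000113700896, 81537339905, 782491578384, 1565248331792, 956437692912,
    1739195486224, 521570218272, 521572315392, 1304597426704, 869732979184, 1043677245712,
    1043409805568, 21726568706, 434598060528, 565326192880, 38050734354, 739002880288,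
    782758965760, 16307462417, 347894518000, 391110594848, 5435953410, 695516340496]

/-- `k(m, x; a x) = k(m, x; a) x` -/
theorem RAM.b4 (h : RAM A) (hg : ∀ x y : A, g31 x x x y = 0) {m x : A}
    (hR : ∀ a : A, ass m a x + ass x a m = 0) (hw : ∀ a : A, wm m x a = 0) (a : A) :
    kw m x (a * x) - kw m x a * x = 0 := by
  have hK : b4K.Holds (fun i => if i = 0 then m else if i = 1 then x else a) := by
    refine ⟨fun ρ' _ => raT_holds h ρ', fun ρ' _ => malT_holds h ρ',
      fun ρ' _ => g31T_holds h.tor hg ρ', fun ρ' h0 => ?_, fun ρ' h0 => ?_, trivial⟩ <;>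
    · have e0 : ρ' 0 = m := h0 0 (by norm_num)
      have e1 : ρ' 1 = x := h0 1 (by norm_num)
      rw [ev_ofP, evP_p]
      subst e0
      subst e1
      first
      | exact hR (ρ' 2)
      | exact hw (ρ' 2)
  exact ev_of_checkE h.tor b4K hK 5 (.sub (kwE (.v 0) (.v 1) (.mul (.v 2) (.v 1)))
    (.mul (kwE (.v 0) (.v 1) (.v 2)) (.v 1))) b4C (by decide +kernel)

end ring

section alg

variable {F A : Type*} [Field F] [NonUnitalNonAssocRing A] [Module F A] [IsScalarTower F A A]
  [SMulCommClass F A A]

/-- `k(m, x; a) = 0` for `m = [[y, x], x]`, if these elements commute with everything -/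
theorem SR.kappa (h : SR F A) (hg : ∀ x y : A, g31 x x x y = 0)
    (hc : ∀ x y a u : A, cmm (k1 x x x y a) u = 0) (x y a : A) : k1 x x x y a = 0 := by
  have hz : ∀ a, ZC (k1 x x x y a) := fun a => h.cm_zc h.omH (cm_of_cmm fun u => hc x y a u)
  have hx : ZC (k1 x x x y a * x) := by
    have e := h.ram.b4 hg (m := mm x x y) (x := x) (fun a => h.ram.b1 hg x y a)
      (fun a => h.eps_zero hg x y a) a
    rw [sub_eq_zero] at e
    have e' : k1 x x x y a * x = k1 x x x y (a * x) := e.symm
    rw [e']
    exact hz _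
  rcases h.rtrick h.omH (hz a) hx with h0 | h0
  · exact h0
  · have hm : mm x x y = 0 := by
      have e : cmm y x = 0 := by
        have := h0.cmm y
        have e2 : cmm y x = - cmm x y := by simp only [cmm]; abel
        rw [e2, this, neg_zero]
      simp only [mm, e]
      simp [cmm]
    simp only [k1, hm]
    simp

end alg

end Pool.Agent.NACert
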