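import Pool.Agent.NACert.Step5
import Pool.Agent.NACert.OmegaM
import Pool.Agent.NACert.Zc

/-!
# Block 6: `F1 = 0`

`F1(y x) = F1(y) x` for `F1(y) = [[[y, x], x], x]` (certificate of degree 5, 34 items); so if the
values of `F1` are central in a simple algebra, they vanish.
-/

namespace Pool.Agent.NACert

open Fast

namespace B6

section ring

variable {A : Type*} [NonUnitalNonAssocRing A]

/-- the expression `[[[y, a], b], c]` -/
@[reducible] def f1E (a b c y : E) : E := .cm (.cm (.cm y a) b) c

/-- certificate -/
def tC : List ℕ :=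
    [24739013718016, 4879099695104, 9895638331392, 9826918797312, 2886234804464, 9826900971264,
    12369522720784, 4947819237376, 1649551671296, 9895622476016, 13194157420544, 4879098581232,
    3710884315136, 3298819047664, 257700069378, 3229816516848, 2474185457664, 11063869374480,
    11063869309424, 14774720004336, 98785357826, 30082531330, 103080329218, 4947835883760,
    14843407102192, 1168248995840, 227650105346, 103081377794, 4947819163904, 4466766057456,
    3642133319664, 3710867603472, 14774720065536, 19722506727424]

/-- `F1(y x) = F1(y) x` -/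
theorem main (h : RAM A) (hg : ∀ x y : A, g31 x x x y = 0) (x y : A) :
    f1 x x x (y * x) - f1 x x x y * x = 0 :=
  ev_of_checkE h.tor (.cons 0 3 raT (.cons 0 4 malT (.cons 0 4 g31T .nil)))
    (ρ := fun i => if i = 0 then x else y)
    ⟨fun ρ' _ => raT_holds h ρ', fun ρ' _ => malT_holds h ρ',
      fun ρ' _ => g31T_holds h.tor hg ρ', trivial⟩ 2
    (.sub (f1E (.v 0) (.v 0) (.v 0) (.mul (.v 1) (.v 0)))
      (.mul (f1E (.v 0) (.v 0) (.v 0) (.v 1)) (.v 0)))
    tC (by decide +kernel)

end ring

end B6

section alg

variable {F A : Type*} [Field F] [NonUnitalNonAssocRing A] [Module F A] [IsScalarTower F A A]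
  [SMulCommClass F A A]

/-- if the values of `F1` lie in the second centre, they vanish -/
theorem SR.f1_eq_zero (h : SR F A) (hg : ∀ x y : A, g31 x x x y = 0)
    (hc : ∀ x y z u : A, cmm (cmm (f1 x x x y) z) u = 0) (x y : A) : f1 x x x y = 0 := by
  have hz : ∀ y : A, ZC (f1 x x x y) := fun y => h.hyper h.omH fun a b => hc x y a b
  have h2 : ZC (f1 x x x y * x) := by
    have e := B6.main h.ram hg x y
    rw [← sub_eq_zero.mp e]
    exact hz _
  rcases h.rtrick h.omH (hz y) h2 with h3 | h3
  · exact h3
  · unfold f1
    exact h3.cmm' _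

end alg

end Pool.Agent.NACert
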