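import Pool.Agent.NACert.StepM12
import Pool.Agent.NACert.B14

/-!
# Block 9: `[[a, b], [c, d]] = 0`

A certificate of degree 4 in the class with `g31`, `F1` and `[[[y, z], x], x] = 0`.
-/

namespace Pool.Agent.NACert

open Fast

namespace B9

section ring

variable {A : Type*} [NonUnitalNonAssocRing A]

/-- `[[a, b], [c, d]]` -/
def tE : E := .cm (.cm (.v 0) (.v 1)) (.cm (.v 2) (.v 3))

/-- certificate -/
def tC : List ℕ :=
  [84017940, 84087300, 100799236, 100860436, 84087297, 100672273]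

/-- known identities -/
def K9 : Kn := .cons 0 3 raT (.cons 0 4 malT (.cons 0 4 g31T (.cons 0 4 f1T
  (.cons 0 4 B14.LAT .nil))))

theorem main (h : RAM A) (hg : ∀ x y : A, g31 x x x y = 0) (hf : ∀ x y : A, f1 x x x y = 0)
    (hA : ∀ x y z : A, cmm (cmm (cmm y z) x) x = 0) (a b c d : A) :
    cmm (cmm a b) (cmm c d) = 0 :=
  ev_of_checkE h.tor K9
    (ρ := fun i => if i = 0 then a else if i = 1 then b else if i = 2 then c else d)
    ⟨fun ρ' _ => raT_holds h ρ', fun ρ' _ => malT_holds h ρ', fun ρ' _ => g31T_holds h.tor hg ρ',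
      fun ρ' _ => f1T_holds h.tor hf ρ', fun ρ' _ => B14.LAT_holds h.tor hA ρ', trivial⟩
    1 tE tC (by decide +kernel)

end ring

end B9

section ring

variable {A : Type*} [NonUnitalNonAssocRing A]

/-- `[[a, b], [c, d]] = 0` -/
theorem RAM.b9 (h : RAM A) (hg : ∀ x y : A, g31 x x x y = 0) (hf : ∀ x y : A, f1 x x x y = 0)
    (hA : ∀ x y z : A, cmm (cmm (cmm y z) x) x = 0) (a b c d : A) :
    cmm (cmm a b) (cmm c d) = 0 := B9.main h hg hf hA a b c d

end ring

end Pool.Agent.NACert
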