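import Pool.Agent.NACert.Tool

/-!
# Fast evaluation of certificates

The same certificates as in `Tool`, with functions written with recursors, so that the kernel
evaluates them quickly.
-/

noncomputable section

namespace Pool.Agent.NACert.Fast

/-- forces the evaluation of a natural number -/
def force {β : Type} (x : ℕ) (k : ℕ → β) : β :=
  @Nat.rec (fun _ => β) (k (nat_lit 0)) (fun n _ => k n) (Nat.succ x)

theorem force_eq {β : Type} (x : ℕ) (k : ℕ → β) : force x k = k x := rfl

/-- conditional (a definition, so that the kernel does not nest the calls) -/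
def bc {β : Type*} (x y : β) (b : Bool) : β := @Bool.rec (fun _ => β) x y b

theorem bc_true {β : Type*} (x y : β) : bc x y true = y := rfl
theorem bc_false {β : Type*} (x y : β) : bc x y false = x := rfl

/-- code of a product -/
def cb (a b : ℕ) : ℕ :=
  Nat.succ (Nat.add (Nat.mul (Nat.add a b) (Nat.succ (Nat.add a b))) (Nat.add b b))

theorem cb_eq (a b : ℕ) : cb a b = (a + b) * (a + b + 1) + (b + b) + 1 := rfl

theorem cb_odd (a b : ℕ) : cb a b % 2 = 1 := by
  have h : (a + b) * (a + b + 1) % 2 = 0 := by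
    have := Nat.even_mul_succ_self (a + b)
    exact Nat.even_iff.mp this
  rw [cb_eq]
  omega

theorem cb_inj {a b c d : ℕ} (h : cb a b = cb c d) : a = c ∧ b = d := by
  rw [cb_eq, cb_eq] at h
  have hs : a + b = c + d := by
    rcases lt_trichotomy (a + b) (c + d) with hl | hl | hl
    · exfalso
      obtain ⟨s, hs⟩ : ∃ s, s = a + b := ⟨_, rfl⟩
      obtain ⟨t, ht⟩ : ∃ t, t = c + d := ⟨_, rfl⟩
      rw [← hs, ← ht] at h hl
      have hb : b ≤ s := by omega
      nlinarith
    · exact hl
    · exfalso
      obtain ⟨s, hs⟩ : ∃ s, s = a + b := ⟨_, rfl⟩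
      obtain ⟨t, ht⟩ : ∃ t, t = c + d := ⟨_, rfl⟩
      rw [← hs, ← ht] at h hl
      have hb : d ≤ t := by omega
      nlinarith
  rw [hs] at h
  omega

theorem lt_cb (a b : ℕ) : a < cb a b ∧ b < cb a b := by
  rw [cb_eq]
  constructor <;> nlinarith [Nat.zero_le (a + b)]

/-- the value of a code -/
def gv {A : Type*} [Mul A] (ρ : ℕ → A) (n : ℕ) : A :=
  open Classical in
  if h : ∃ p : ℕ × ℕ, cb p.1 p.2 = n then
    have h1 : (Classical.choose h).1 < n := by
      have := (lt_cb (Classical.choose h).1 (Classical.choose h).2).1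
      rwa [Classical.choose_spec h] at this
    have h2 : (Classical.choose h).2 < n := by
      have := (lt_cb (Classical.choose h).1 (Classical.choose h).2).2
      rwa [Classical.choose_spec h] at this
    gv ρ (Classical.choose h).1 * gv ρ (Classical.choose h).2
  else ρ (n / 2)
termination_by n

theorem gv_even {A : Type*} [Mul A] (ρ : ℕ → A) (n : ℕ) : gv ρ (Nat.add n n) = ρ n := by
  have h : ¬ ∃ p : ℕ × ℕ, cb p.1 p.2 = Nat.add n n := by
    rintro ⟨p, hp⟩
    have := cb_odd p.1 p.2
    rw [hp] at this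
    have h2 : Nat.add n n = n + n := rfl
    omega
  rw [gv, dif_neg h]
  congr 1
  have h2 : Nat.add n n = n + n := rfl
  omega

theorem gv_cb {A : Type*} [Mul A] (ρ : ℕ → A) (a b : ℕ) : gv ρ (cb a b) = gv ρ a * gv ρ b := by
  have h : ∃ p : ℕ × ℕ, cb p.1 p.2 = cb a b := ⟨(a, b), rfl⟩
  have h3 := cb_inj (Classical.choose_spec h)
  rw [gv, dif_pos h]
  simp only
  rw [h3.1, h3.2]

/-- combinations of codes with natural coefficients -/
inductive L : Type
  | nil : L
  | cons : ℕ → ℕ → L → L

/-- value -/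
def L.ev {A : Type*} [NonUnitalNonAssocRing A] (ρ : ℕ → A) : L → A
  | .nil => 0
  | .cons t x l => x • gv ρ t + l.ev ρ

/-- merge of sorted combinations -/
def mg (p : L) : L → L :=
  @L.rec (fun _ => L → L) (fun q => q)
    (fun s c p ih q => @L.rec (fun _ => L) (.cons s c p)
      (fun t d q ihq => bc (.cons t d ihq)
        (bc (.cons s c (ih (.cons t d q)))
          (force (Nat.add c d) fun e => .cons s e (ih q)) (Nat.beq s t)) (Nat.ble s t)) q) p

theorem mg_n (q : L) : mg .nil q = q := rfl
theorem mg_c_n (s c : ℕ) (p : L) : mg (.cons s c p) .nil = .cons s c p := rfl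
theorem mg_c_c (s c : ℕ) (p : L) (t d : ℕ) (q : L) : mg (.cons s c p) (.cons t d q) =
    bc (.cons t d (mg (.cons s c p) q))
        (bc (.cons s c (mg p (.cons t d q)))
          (.cons s (c + d) (mg p q)) (Nat.beq s t)) (Nat.ble s t) := rfl

theorem ev_mg {A : Type*} [NonUnitalNonAssocRing A] (ρ : ℕ → A) (p : L) : ∀ q : L,
    (mg p q).ev ρ = p.ev ρ + q.ev ρ := by
  induction p with
  | nil => intro q; rw [mg_n]; simp [L.ev]
  | cons s c p ih =>
    intro q
    induction q with
    | nil => rw [mg_c_n]; simp [L.ev]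
    | cons t d q ihq =>
      rw [mg_c_c]
      cases h1 : Nat.ble s t with
      | false =>
        rw [bc_false, L.ev, ihq]
        simp only [L.ev]
        abel
      | true =>
        cases h2 : Nat.beq s t with
        | false => rw [bc_true, bc_false, L.ev, ih]; simp only [L.ev]; abel
        | true =>
          have : s = t := Nat.eq_of_beq_eq_true h2
          subst this
          rw [bc_true, bc_true, L.ev, ih]
          simp only [L.ev, add_smul]; abel

/-- equality of combinations -/
def eqL (p : L) : L → Bool :=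
  @L.rec (fun _ => L → Bool) (fun q => @L.rec (fun _ => Bool) true (fun _ _ _ _ => false) q)
    (fun s c _ ih q => @L.rec (fun _ => Bool) false
      (fun t d q _ => bc false (bc false (ih q) (Nat.beq c d)) (Nat.beq s t)) q) p

theorem eq_of_eqL (p : L) : ∀ q : L, eqL p q = true → p = q := by
  induction p with
  | nil =>
    intro q h
    cases q with
    | nil => rfl
    | cons t d q => exact absurd h (by simp [eqL])
  | cons s c p ih =>
    intro q h
    cases q with
    | nil => exact absurd h (by simp [eqL])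
    | cons t d q =>
      have h' : bc false (bc false (eqL p q) (Nat.beq c d)) (Nat.beq s t) = true := h
      cases h1 : Nat.beq s t with
      | false => rw [h1, bc_false] at h'; exact absurd h' (by simp)
      | true =>
        rw [h1, bc_true] at h'
        cases h2 : Nat.beq c d with
        | false => rw [h2, bc_false] at h'; exact absurd h' (by simp)
        | true =>
          rw [h2, bc_true] at h'
          rw [Nat.eq_of_beq_eq_true h1, Nat.eq_of_beq_eq_true h2, ih q h']

/-- pairs of combinations (positive and negative parts) -/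
inductive D : Type
  | mk : L → L → D

/-- value -/
def D.ev {A : Type*} [NonUnitalNonAssocRing A] (ρ : ℕ → A) : D → A
  | .mk p q => p.ev ρ - q.ev ρ

/-- merge -/
def mD (x y : D) : D :=
  @D.rec (fun _ => D) (fun p q => @D.rec (fun _ => D) (fun p' q' => .mk (mg p p') (mg q q')) y) x

theorem ev_mD {A : Type*} [NonUnitalNonAssocRing A] (ρ : ℕ → A) (x y : D) :
    (mD x y).ev ρ = x.ev ρ + y.ev ρ := by
  cases x with
  | mk p q => cases y with
    | mk p' q' =>
      show (mg p p').ev ρ - (mg q q').ev ρ = _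
      rw [ev_mg, ev_mg]
      simp only [D.ev]
      abel

/-- value of a list -/
def evD {A : Type*} [NonUnitalNonAssocRing A] (ρ : ℕ → A) : List D → A
  | [] => 0
  | a :: l => a.ev ρ + evD ρ l

/-! ### templates -/

/-- template polynomials: sign (`true` is positive), coefficient, word -/
inductive Tm : Type
  | nil : Tm
  | cons : Bool → ℕ → T → Tm → Tm

/-- value of a template -/
def Tm.ev {A : Type*} [NonUnitalNonAssocRing A] (ρ : ℕ → A) : Tm → A
  | .nil => 0
  | .cons s x t p => (bc (-(x • t.ev ρ)) (x • t.ev ρ) s) + p.ev ρ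

/-- lists of codes as substitutions: index to code -/
def sb (l : List ℕ) : ℕ → ℕ :=
  @List.rec ℕ (fun _ => ℕ → ℕ) (fun _ => nat_lit 0)
    (fun a _ ih i => @Nat.rec (fun _ => ℕ) a (fun j _ => ih j) i) l

/-- code of a word -/
def cd (σ : ℕ → ℕ) (t : T) : ℕ :=
  @T.rec (fun _ => ℕ) (fun i => σ i)
    (fun _ _ iha ihb => force iha fun a => force ihb fun b => cb a b) t

theorem gv_cd {A : Type*} [Mul A] (ρ : ℕ → A) (σ : ℕ → ℕ) (t : T) :
    gv ρ (cd σ t) = t.ev (fun n => gv ρ (σ n)) := by
  induction t with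
  | v n => rfl
  | m a b iha ihb =>
    have h : cd σ (.m a b) = cb (cd σ a) (cd σ b) := rfl
    rw [h, gv_cb, T.ev, iha, ihb]

/-- contexts -/
inductive C : Type
  | nil : C
  | r : ℕ → C → C
  | l : ℕ → C → C

/-- apply a context to an element -/
def C.ap {A : Type*} [NonUnitalNonAssocRing A] (ρ : ℕ → A) : C → A → A
  | .nil, a => a
  | .r u x, a => x.ap ρ (a * gv ρ u)
  | .l u x, a => x.ap ρ (gv ρ u * a)

theorem C.ap_add {A : Type*} [NonUnitalNonAssocRing A] (ρ : ℕ → A) (x : C) : ∀ a b : A,
    x.ap ρ (a + b) = x.ap ρ a + x.ap ρ b := by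
  induction x with
  | nil => intro a b; rfl
  | r u x ih => intro a b; simp only [C.ap, add_mul, ih]
  | l u x ih => intro a b; simp only [C.ap, mul_add, ih]

/-- the context as a homomorphism -/
def C.hom {A : Type*} [NonUnitalNonAssocRing A] (ρ : ℕ → A) (x : C) : A →+ A :=
  AddMonoidHom.mk' (x.ap ρ) (x.ap_add ρ)

/-- apply a context -/
def wr (x : C) : ℕ → ℕ :=
  @C.rec (fun _ => ℕ → ℕ) (fun t => t) (fun u _ ih t => force (cb t u) ih)
    (fun u _ ih t => force (cb u t) ih) x

theorem gv_wr {A : Type*} [NonUnitalNonAssocRing A] (ρ : ℕ → A) (x : C) : ∀ (t : ℕ),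
    gv ρ (wr x t) = x.ap ρ (gv ρ t) := by
  induction x with
  | nil => intro t; rfl
  | r u x ih =>
    intro t
    have h : wr (.r u x) t = wr x (cb t u) := rfl
    rw [h, ih, gv_cb, C.ap]
  | l u x ih =>
    intro t
    have h : wr (.l u x) t = wr x (cb u t) := rfl
    rw [h, ih, gv_cb, C.ap]

/-- instance of a template followed by a list; `s` is the sign -/
def ins (s : Bool) (c : ℕ) (σ : ℕ → ℕ) (x : C) (p : Tm) (r : List D) : List D :=
  @Tm.rec (fun _ => List D) r
    (fun s' d t _ ih => force (wr x (cd σ t)) fun u => force (Nat.mul c d) fun e =>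
      bc (bc (.mk (.cons u e .nil) .nil :: ih) (.mk .nil (.cons u e .nil) :: ih) s)
        (bc (.mk .nil (.cons u e .nil) :: ih) (.mk (.cons u e .nil) .nil :: ih) s) s') p

theorem ins_cons (s : Bool) (c : ℕ) (σ : ℕ → ℕ) (x : C) (s' : Bool) (d : ℕ) (t : T) (p : Tm)
    (r : List D) : ins s c σ x (.cons s' d t p) r =
    bc (bc (.mk (.cons (wr x (cd σ t)) (c * d) .nil) .nil :: ins s c σ x p r)
        (.mk .nil (.cons (wr x (cd σ t)) (c * d) .nil) :: ins s c σ x p r) s)
      (bc (.mk .nil (.cons (wr x (cd σ t)) (c * d) .nil) :: ins s c σ x p r)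
        (.mk (.cons (wr x (cd σ t)) (c * d) .nil) .nil :: ins s c σ x p r) s) s' := rfl

/-- sign -/
def sg (s : Bool) (c : ℕ) : ℤ := bc (-(c : ℤ)) (c : ℤ) s

theorem evD_ins {A : Type*} [NonUnitalNonAssocRing A] (ρ : ℕ → A) (s : Bool) (c : ℕ)
    (σ : ℕ → ℕ) (x : C) (p : Tm) (r : List D) : evD ρ (ins s c σ x p r) =
      sg s c • x.ap ρ (p.ev (fun n => gv ρ (σ n))) + evD ρ r := by
  induction p with
  | nil =>
    show evD ρ r = _
    rw [Tm.ev, show x.ap ρ 0 = 0 from map_zero (x.hom ρ), smul_zero, zero_add]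
  | cons s' d t p ih =>
    rw [ins_cons, Tm.ev, C.ap_add, smul_add]
    have hn : ∀ a : A, x.ap ρ (-a) = - x.ap ρ a := fun a => map_neg (x.hom ρ) a
    have hs : ∀ (m : ℕ) (a : A), x.ap ρ (m • a) = m • x.ap ρ a := fun m a => map_nsmul (x.hom ρ) m a
    have hg : gv ρ (wr x (cd σ t)) = x.ap ρ (t.ev (fun n => gv ρ (σ n))) := by
      rw [gv_wr, gv_cd]
    set g := x.ap ρ (t.ev (fun n => gv ρ (σ n))) with hgd
    have e1 : (c * d) • g = (c : ℤ) • (d • g) := by
      rw [mul_smul, natCast_zsmul]
    cases s <;> cases s' <;>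
      simp only [bc_true, bc_false, evD, D.ev, L.ev, ih, hg, hn, hs, sg, add_zero, zero_sub,
        sub_zero, ← hgd, e1, neg_smul, smul_neg, neg_neg, add_assoc]

/-! ### parsing -/

/-- parse a word: base 16, digit 15 is the product, other digits are variables -/
def pT {β : Type} (f : ℕ) : ℕ → (ℕ → ℕ → β) → β :=
  @Nat.rec (fun _ => ℕ → (ℕ → ℕ → β) → β) (fun n k => k (nat_lit 0) n)
    (fun _ ih n k =>
      force (Nat.div n (nat_lit 16)) fun n' =>
      force (Nat.mod n (nat_lit 16)) fun d =>
      bc (force (Nat.add d d) fun e => k e n')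
        (ih n' fun a r => ih r fun b r' => force (cb a b) fun c => k c r')
        (Nat.beq d (nat_lit 15))) f

/-- parse `j` words -/
def pL {β : Type} (j : ℕ) : ℕ → (List ℕ → ℕ → β) → β :=
  @Nat.rec (fun _ => ℕ → (List ℕ → ℕ → β) → β) (fun n k => k [] n)
    (fun _ ih n k => pT (nat_lit 12) n fun a r => ih r fun l r' => k (a :: l) r') j

/-- parse a context: digit 0 ends, digit 1 multiplies on the right, digit 2 on the left -/
def pC {β : Type} (f : ℕ) : ℕ → (C → ℕ → β) → β :=
  @Nat.rec (fun _ => ℕ → (C → ℕ → β) → β) (fun n k => k .nil n)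
    (fun _ ih n k =>
      force (Nat.div n (nat_lit 16)) fun n' =>
      force (Nat.mod n (nat_lit 16)) fun d =>
      bc
        (pT (nat_lit 12) n' fun a r => ih r fun x r' =>
          bc (k (.l a x) r') (k (.r a x) r') (Nat.beq d (nat_lit 1)))
        (k .nil n') (Nat.beq d (nat_lit 0))) f

/-- known identities: number of constants, number of other variables, template -/
inductive Kn : Type
  | nil : Kn
  | cons : ℕ → ℕ → Tm → Kn → Kn

/-- the known identities hold, the constants having their values under `ρ` -/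
def Kn.Holds {A : Type*} [NonUnitalNonAssocRing A] (ρ : ℕ → A) : Kn → Prop
  | .nil => True
  | .cons k0 _ p K => (∀ ρ' : ℕ → A, (∀ i < k0, ρ' i = ρ i) → p.ev ρ' = 0) ∧ K.Holds ρ

/-- lookup -/
def look {β : Type} (K : Kn) : ℕ → (ℕ → ℕ → Tm → β) → β :=
  @Kn.rec (fun _ => ℕ → (ℕ → ℕ → Tm → β) → β) (fun _ k => k (nat_lit 0) (nat_lit 0) .nil)
    (fun k0 k1 t _ ih i k => @Nat.rec (fun _ => β) (k k0 k1 t) (fun j _ => ih j k) i) K

/-- the substitution for the constants -/
def cst (k : ℕ) : ℕ → List ℕ → List ℕ :=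
  @Nat.rec (fun _ => ℕ → List ℕ → List ℕ) (fun _ l => l)
    (fun _ ih n l => force (Nat.add n n) fun a => a :: ih (Nat.succ n) l) k

theorem gv_cst {A : Type*} [Mul A] (ρ : ℕ → A) (k : ℕ) : ∀ (n : ℕ) (l : List ℕ) (i : ℕ), i < k →
    gv ρ (sb (cst k n l) i) = ρ (n + i) := by
  induction k with
  | zero => intro n l i hi; omega
  | succ k ih =>
    intro n l i hi
    have h : cst (k + 1) n l = (Nat.add n n) :: cst k (Nat.succ n) l := rfl
    rw [h]
    cases i with
    | zero =>
      show gv ρ (Nat.add n n) = _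
      rw [gv_even, add_zero]
    | succ i =>
      show gv ρ (sb (cst k (Nat.succ n) l) i) = _
      rw [ih _ _ _ (by omega)]
      congr 1
      omega

/-- last step of the expansion of an item -/
def body2 (k0 : ℕ) (t : Tm) (tl : List D) (l : List ℕ) (x : C) (r' : ℕ) : List D :=
  force (Nat.div r' (nat_lit 2)) fun c =>
    bc
      (ins true c (sb (cst k0 (nat_lit 0) l)) x t tl)
      (ins false (Nat.succ c) (sb (cst k0 (nat_lit 0) l)) x t tl)
      (Nat.beq (Nat.mod r' (nat_lit 2)) (nat_lit 1))

/-- expansion of an item, for a given identity -/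
def body (n' : ℕ) (tl : List D) (k0 k1 : ℕ) (t : Tm) : List D :=
  pL k1 n' fun l r => pC (nat_lit 12) r (body2 k0 t tl l)

/-- expansion of an item, followed by a list -/
def item (K : Kn) (n : ℕ) (tl : List D) : List D :=
  force (Nat.div n (nat_lit 16)) fun n' =>
  force (Nat.mod n (nat_lit 16)) fun d => look K d (body n' tl)

theorem pT_ind {β : Type} (Pr : β → Prop) (f : ℕ) : ∀ (n : ℕ) (k : ℕ → ℕ → β),
    (∀ a b, Pr (k a b)) → Pr (pT f n k) := by
  induction f with
  | zero => intro n k h; exact h _ _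
  | succ f ih =>
    intro n k h
    show Pr (bc _ _ _)
    cases hb : Nat.beq (Nat.mod n (nat_lit 16)) (nat_lit 15) with
    | false => exact h _ _
    | true =>
      refine ih _ _ fun a b => ih _ _ fun c d => h _ _

theorem pL_ind {β : Type} (Pr : β → Prop) (f : ℕ) : ∀ (n : ℕ) (k : List ℕ → ℕ → β),
    (∀ a b, Pr (k a b)) → Pr (pL f n k) := by
  induction f with
  | zero => intro n k h; exact h _ _
  | succ f ih =>
    intro n k h
    show Pr (pT (nat_lit 12) n fun a r => pL f r fun l r' => k (a :: l) r')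
    exact pT_ind Pr _ _ _ fun a b => ih _ _ fun c d => h _ _

theorem pC_ind {β : Type} (Pr : β → Prop) (f : ℕ) : ∀ (n : ℕ) (k : C → ℕ → β),
    (∀ a b, Pr (k a b)) → Pr (pC f n k) := by
  induction f with
  | zero => intro n k h; exact h _ _
  | succ f ih =>
    intro n k h
    show Pr (bc _ _ _)
    cases hb : Nat.beq (Nat.mod n (nat_lit 16)) (nat_lit 0) with
    | true => exact h _ _
    | false =>
      rw [bc_false]
      refine pT_ind Pr _ _ _ fun a b => ih _ _ fun c d => ?_
      cases Nat.beq (Nat.mod n (nat_lit 16)) (nat_lit 1)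
      · exact h _ _
      · exact h _ _

theorem evD_body2 {A : Type*} [NonUnitalNonAssocRing A] (ρ : ℕ → A) (k0 : ℕ) (t : Tm)
    (ht : ∀ ρ' : ℕ → A, (∀ i < k0, ρ' i = ρ i) → t.ev ρ' = 0) (tl : List D) (l : List ℕ) (x : C)
    (r' : ℕ) : evD ρ (body2 k0 t tl l x r') = evD ρ tl := by
  have h0 : t.ev (fun n => gv ρ (sb (cst k0 (nat_lit 0) l) n)) = 0 := by
    apply ht
    intro i hi
    rw [gv_cst ρ k0 _ _ i hi]
    exact congrArg ρ (Nat.zero_add i)
  have h1 : x.ap ρ 0 = 0 := map_zero (x.hom ρ)
  have e : body2 k0 t tl l x r' = bc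
      (ins true (Nat.div r' (nat_lit 2)) (sb (cst k0 (nat_lit 0) l)) x t tl)
      (ins false (Nat.succ (Nat.div r' (nat_lit 2))) (sb (cst k0 (nat_lit 0) l)) x t tl)
      (Nat.beq (Nat.mod r' (nat_lit 2)) (nat_lit 1)) := rfl
  rw [e]
  cases Nat.beq (Nat.mod r' (nat_lit 2)) (nat_lit 1)
  · rw [bc_false, evD_ins, h0, h1, smul_zero, zero_add]
  · rw [bc_true, evD_ins, h0, h1, smul_zero, zero_add]

theorem evD_body {A : Type*} [NonUnitalNonAssocRing A] (ρ : ℕ → A) (n' : ℕ) (tl : List D)
    (k0 k1 : ℕ) (t : Tm)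
    (ht : ∀ ρ' : ℕ → A, (∀ i < k0, ρ' i = ρ i) → t.ev ρ' = 0) :
    evD ρ (body n' tl k0 k1 t) = evD ρ tl := by
  unfold body
  exact pL_ind (fun y => evD ρ y = evD ρ tl) _ _ _ fun l r =>
    pC_ind (fun y => evD ρ y = evD ρ tl) _ _ _ fun x r' => evD_body2 ρ k0 t ht tl l x r'

theorem look_nil {β : Type} (d : ℕ) (k : ℕ → ℕ → Tm → β) :
    look .nil d k = k (nat_lit 0) (nat_lit 0) .nil := rfl
theorem look_zero {β : Type} (k0 k1 : ℕ) (t : Tm) (K : Kn) (k : ℕ → ℕ → Tm → β) :
    look (.cons k0 k1 t K) 0 k = k k0 k1 t := rfl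
theorem look_succ {β : Type} (k0 k1 : ℕ) (t : Tm) (K : Kn) (d : ℕ) (k : ℕ → ℕ → Tm → β) :
    look (.cons k0 k1 t K) (d + 1) k = look K d k := rfl

theorem evD_look {A : Type*} [NonUnitalNonAssocRing A] (ρ : ℕ → A) (n' : ℕ) (tl : List D) (K : Kn) :
    K.Holds ρ → ∀ d, evD ρ (look K d (body n' tl)) = evD ρ tl := by
  induction K with
  | nil =>
    intro _ d
    rw [look_nil]
    exact evD_body ρ n' tl _ _ .nil fun _ _ => rfl
  | cons k0 k1 t K ih =>
    intro h d
    cases d with
    | zero =>
      rw [look_zero]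
      exact evD_body ρ n' tl k0 k1 t h.1
    | succ d =>
      rw [look_succ]
      exact ih h.2 d

theorem evD_item {A : Type*} [NonUnitalNonAssocRing A] (ρ : ℕ → A) (K : Kn)
    (hK : K.Holds ρ) (n : ℕ) (tl : List D) : evD ρ (item K n tl) = evD ρ tl :=
  evD_look ρ _ tl K hK _

/-- merge of adjacent elements of a list of combinations -/
def mp (l : List D) : List D :=
  @List.rec D (fun _ => Bool → D → List D) (fun b x => bc [] [x] b)
    (fun a _ ih b x => bc (ih true a) (mD x a :: ih false a) b) l false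
      (.mk .nil .nil)

theorem evD_mp {A : Type*} [NonUnitalNonAssocRing A] (ρ : ℕ → A) (l : List D) :
    evD ρ (mp l) = evD ρ l := by
  have key : ∀ (l : List D) (b : Bool) (x : D), evD ρ (@List.rec D (fun _ => Bool → D → List D)
      (fun b x => bc [] [x] b)
      (fun a _ ih b x => bc (ih true a) (mD x a :: ih false a) b) l b x)
        = (bc 0 (x.ev ρ) b) + evD ρ l := by
    intro l
    induction l with
    | nil =>
      intro b x
      cases b
      · simp [bc_false, evD]
      · simp [bc_true, evD]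
    | cons a l ih =>
      intro b x
      cases b
      · show evD ρ (@List.rec D (fun _ => Bool → D → List D)
          (fun b x => bc [] [x] b)
          (fun a _ ih b x => bc (ih true a) (mD x a :: ih false a) b) l true a) = _
        rw [ih, bc_true, bc_false, evD]
        abel
      · show (mD x a).ev ρ + evD ρ (@List.rec D (fun _ => Bool → D → List D)
          (fun b x => bc [] [x] b)
          (fun a _ ih b x => bc (ih true a) (mD x a :: ih false a) b) l false a) = _
        rw [ih, bc_true, bc_false, evD, ev_mD]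
        abel
  rw [mp, key, bc_false, zero_add]

/-- all the items -/
def items (K : Kn) (l : List ℕ) : List D :=
  @List.rec ℕ (fun _ => List D) [] (fun a _ ih => item K a ih) l

theorem evD_items {A : Type*} [NonUnitalNonAssocRing A] (ρ : ℕ → A) (K : Kn)
    (hK : K.Holds ρ) (l : List ℕ) : evD ρ (items K l) = 0 := by
  induction l with
  | nil => rfl
  | cons a l ih =>
    have h : items K (a :: l) = item K a (items K l) := rfl
    rw [h, evD_item ρ K hK, ih]

/-- repeated merges -/
def ms (k : ℕ) : List D → List D :=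
  @Nat.rec (fun _ => List D → List D) (fun l => l) (fun _ ih l => ih (mp l)) k

theorem evD_ms {A : Type*} [NonUnitalNonAssocRing A] (ρ : ℕ → A) (k : ℕ) : ∀ (l : List D),
    evD ρ (ms k l) = evD ρ l := by
  induction k with
  | zero => intro l; rfl
  | succ k ih =>
    intro l
    have h : ms (k + 1) l = ms k (mp l) := rfl
    rw [h, ih, evD_mp]

/-- positive part equal to negative part -/
def fin (l : List D) : Bool :=
  @List.rec D (fun _ => Bool) true (fun a _ ih => bc false ih
    (@D.rec (fun _ => Bool) (fun p q => eqL p q) a)) l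

theorem evD_fin {A : Type*} [NonUnitalNonAssocRing A] (ρ : ℕ → A) (l : List D)
    (h : fin l = true) : evD ρ l = 0 := by
  induction l with
  | nil => rfl
  | cons a l ih =>
    cases a with
    | mk p q =>
      have h' : bc false (fin l) (eqL p q) = true := h
      cases h1 : eqL p q with
      | false => rw [h1, bc_false] at h'; exact absurd h' (by simp)
      | true =>
        rw [h1, bc_true] at h'
        have h2 := eq_of_eqL p q h1
        subst h2
        rw [evD, ih h', D.ev, sub_self, add_zero]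

/-- the check -/
def check (K : Kn) (D0 : ℕ) (target : Tm) (cert : List ℕ) : Bool :=
  fin (ms (nat_lit 24) (ins true D0 (fun i => Nat.add i i) .nil target (items K cert)))

theorem check_sound {A : Type*} [NonUnitalNonAssocRing A] (ρ : ℕ → A) (K : Kn)
    (hK : K.Holds ρ) (D0 : ℕ) (target : Tm) (cert : List ℕ)
    (h : check K D0 target cert = true) : D0 • target.ev ρ = 0 := by
  have h1 := evD_fin ρ _ h
  rw [evD_ms, evD_ins, evD_items ρ K hK, add_zero] at h1
  have h2 : (fun n => gv ρ (Nat.add n n)) = ρ := funext fun n => gv_even ρ n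
  rw [h2] at h1
  simpa [sg, bc_true, C.ap] using h1

/-- a certificate with denominator a power of `6` proves an identity in rings without
`6`-torsion -/
theorem ev_of_check {A : Type*} [NonUnitalNonAssocRing A] (hA : NoTor A) {ρ : ℕ → A} (K : Kn)
    (hK : K.Holds ρ) (k : ℕ) (target : Tm) (cert : List ℕ)
    (h : check K (6 ^ k) target cert = true) : target.ev ρ = 0 := by
  have := check_sound ρ K hK _ _ _ h
  apply hA.pow k
  rw [← natCast_zsmul] at this
  push_cast at this
  exact this

/-- templates as polynomials -/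
def Tm.toP : Tm → P
  | .nil => []
  | .cons s x t p => (sg s x, t) :: p.toP

theorem ev_toP {A : Type*} [NonUnitalNonAssocRing A] (ρ : ℕ → A) (p : Tm) :
    evP ρ p.toP = p.ev ρ := by
  induction p with
  | nil => rfl
  | cons s x t p ih =>
    rw [Tm.toP, evP, ih, Tm.ev]
    cases s <;> simp [sg, bc_true, bc_false]

/-- polynomials as templates -/
def ofP : P → Tm
  | [] => .nil
  | (c, t) :: p => .cons (decide (0 ≤ c)) c.natAbs t (ofP p)

theorem ev_ofP {A : Type*} [NonUnitalNonAssocRing A] (ρ : ℕ → A) (p : P) :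
    (ofP p).ev ρ = evP ρ p := by
  induction p with
  | nil => rfl
  | cons a p ih =>
    obtain ⟨c, t⟩ := a
    rw [ofP, Tm.ev, ih, evP]
    congr 1
    by_cases hc : 0 ≤ c
    · rw [decide_eq_true hc, bc_true, ← natCast_zsmul, Int.natAbs_of_nonneg hc]
    · rw [decide_eq_false hc, bc_false, ← natCast_zsmul, Int.ofNat_natAbs_of_nonpos (by omega),
        neg_smul, neg_neg]

/-- a certificate with denominator a power of `6` proves that an expression vanishes in rings
without `6`-torsion -/
theorem ev_of_checkE {A : Type*} [NonUnitalNonAssocRing A] (hA : NoTor A) {ρ : ℕ → A} (K : Kn)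
    (hK : K.Holds ρ) (k : ℕ) (target : E) (cert : List ℕ)
    (h : check K (6 ^ k) (ofP target.p) cert = true) : target.ev ρ = 0 := by
  rw [← evP_p, ← ev_ofP]
  exact ev_of_check hA K hK k _ cert h

end Pool.Agent.NACert.Fast
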