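import Pool.Agent.NACert.Ideals

/-!
# The commutative centre of a right alternative ring

`K` is the set of the elements which commute with everything (`Cm`).  We write `D a b k` for the
associator `(k, a, b)`.
-/

namespace Pool.Agent.NACert

section ring

variable {A : Type*} [NonUnitalNonAssocRing A]

/-- the element commutes with everything -/
def Cm (k : A) : Prop := ∀ x : A, k * x = x * k

/-- right alternative rings without 6-torsion -/
structure RAL (A : Type*) [NonUnitalNonAssocRing A] : Prop where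
  tor : NoTor A
  ra : ∀ x y : A, (x * y) * y = x * (y * y)

theorem RAM.ral (h : RAM A) : RAL A := ⟨h.tor, h.ra⟩

theorem NoTor.two (h : NoTor A) {a : A} (ha : (2 : ℤ) • a = 0) : a = 0 := by
  apply h
  rw [show (6 : ℤ) = 3 * 2 by norm_num, mul_smul, ha, smul_zero]

theorem NoTor.three (h : NoTor A) {a : A} (ha : (3 : ℤ) • a = 0) : a = 0 := by
  apply h
  rw [show (6 : ℤ) = 2 * 3 by norm_num, mul_smul, ha, smul_zero]

theorem NoTor.two_inj (h : NoTor A) {a b : A} (ha : (2 : ℤ) • a = (2 : ℤ) • b) : a = b := by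
  rw [← sub_eq_zero]
  apply h.two
  rw [smul_sub, ha, sub_self]

theorem NoTor.three_inj (h : NoTor A) {a b : A} (ha : (3 : ℤ) • a = (3 : ℤ) • b) : a = b := by
  rw [← sub_eq_zero]
  apply h.three
  rw [smul_sub, ha, sub_self]

theorem ass_add_left (x x' y z : A) : ass (x + x') y z = ass x y z + ass x' y z := by
  simp only [ass, add_mul]; abel
theorem ass_add_mid (x y y' z : A) : ass x (y + y') z = ass x y z + ass x y' z := by
  simp only [ass, add_mul, mul_add]; abel
theorem ass_add_right (x y z z' : A) : ass x y (z + z') = ass x y z + ass x y z' := by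
  simp only [ass, mul_add]; abel
theorem ass_sub_left (x x' y z : A) : ass (x - x') y z = ass x y z - ass x' y z := by
  simp only [ass, sub_mul]; abel
theorem ass_sub_mid (x y y' z : A) : ass x (y - y') z = ass x y z - ass x y' z := by
  simp only [ass, sub_mul, mul_sub]; abel
theorem ass_sub_right (x y z z' : A) : ass x y (z - z') = ass x y z - ass x y z' := by
  simp only [ass, mul_sub]; abel

/-- linearised right alternative law -/
theorem RAL.sk (h : RAL A) (x y z : A) : ass x y z = - ass x z y := by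
  have h1 := h.ra x (y + z)
  have h2 := h.ra x y
  have h3 := h.ra x z
  simp only [mul_add, add_mul] at h1
  rw [h2, h3] at h1
  rw [← sub_eq_zero] at h1
  rw [← sub_eq_zero, ← h1]
  simp only [ass]
  abel

theorem RAL.z3 (h : RAL A) (x y : A) : ass x y y = 0 := by
  rw [ass, h.ra, sub_self]

/-- an identity valid in every ring -/
theorem FF (a b c : A) : cmm (a * b) c - a * cmm b c - cmm a c * b =
    ass a b c - ass a c b + ass c a b := by
  simp only [cmm, ass, mul_sub, sub_mul]; abel

/-- an identity valid in every ring -/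
theorem teich (w x y z : A) : ass (w * x) y z - ass w (x * y) z + ass w x (y * z) =
    w * ass x y z + ass w x y * z := by
  simp only [ass, mul_sub, sub_mul]; abel

/-- right Moufang identity -/
theorem RAL.moufang (h : RAL A) (x y z : A) : ass x y (y * z) = ass x y z * y := by
  have t1 := teich x z y y
  have t2 := teich x y z y
  have t3 := teich x y y z
  rw [h.z3, h.z3, mul_zero] at t1
  rw [h.z3, zero_mul] at t3
  have e1 := h.sk x (z * y) y
  have e2 := h.sk x (y * y) z
  have e3 := h.sk x (y * z) y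
  have e4 := h.sk (x * y) z y
  have e5 := h.sk y z y
  have e6 := h.sk x z y
  rw [e1, e6] at t1
  rw [e3, e4, e5] at t2
  rw [e2] at t3
  apply h.tor.two_inj
  simp only [mul_neg, neg_mul, sub_neg_eq_add, add_zero, zero_add] at t1 t2 t3
  have : (2 : ℤ) • ass x y (y * z) - (2 : ℤ) • (ass x y z * y) = 0 := by
    rw [← sub_eq_zero] at t1 t2 t3
    have h4 := congrArg₂ (· - ·) (congrArg₂ (· + ·) t2 t3) t1
    simp only [sub_zero, add_zero] at h4
    rw [← h4]
    abel
  rw [← sub_eq_zero]
  exact this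

/-! ### elements commuting with everything -/

theorem Cm.cmm {k : A} (hk : Cm k) (x : A) : cmm k x = 0 := by rw [NACert.cmm, hk x, sub_self]
theorem Cm.cmm' {k : A} (hk : Cm k) (x : A) : NACert.cmm x k = 0 := by
  rw [NACert.cmm, hk x, sub_self]

theorem cm_of_cmm {k : A} (h : ∀ x : A, cmm k x = 0) : Cm k := fun x => sub_eq_zero.mp (h x)

theorem cmm_skew (x y : A) : cmm x y = - cmm y x := by simp only [cmm]; abel

/-- `(a, b, k)` -/
theorem RAL.l1b (h : RAL A) {k : A} (hk : Cm k) (a b : A) :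
    (2 : ℤ) • ass a b k = - ass k a b := by
  have h1 := FF a b k
  rw [hk.cmm', hk.cmm', hk.cmm', h.sk a k b] at h1
  simp only [mul_zero, zero_mul, sub_zero] at h1
  rw [eq_neg_iff_add_eq_zero, two_smul, h1]
  abel

/-- `(a, k, b)` -/
theorem RAL.l1a (h : RAL A) {k : A} (hk : Cm k) (a b : A) :
    (2 : ℤ) • ass a k b = ass k a b := by
  rw [h.sk a k b, smul_neg, h.l1b hk, neg_neg]

/-- `[k b, c]` -/
theorem RAL.l2 (h : RAL A) {k : A} (hk : Cm k) (b c : A) :
    (2 : ℤ) • cmm (k * b) c = (2 : ℤ) • (k * cmm b c) + (3 : ℤ) • ass k b c := by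
  have h1 := FF k b c
  rw [hk.cmm, zero_mul, sub_zero, h.sk k c b] at h1
  have h2 := h.l1a hk c b
  rw [h.sk k c b] at h2
  have h3 : (2 : ℤ) • cmm (k * b) c - (2 : ℤ) • (k * cmm b c) = (3 : ℤ) • ass k b c := by
    rw [← smul_sub, h1, smul_add, h2]
    abel
  rw [← h3]; abel

/-- `(k, l, a)` -/
theorem RAL.l3a (h : RAL A) {k l : A} (hk : Cm k) (hl : Cm l) (a : A) : ass k l a = 0 := by
  have h1 := h.l1a hl k a
  have h2 := h.l1a hk l a
  apply h.tor.three
  have : (3 : ℤ) • ass k l a = (2 : ℤ) • ((2 : ℤ) • ass k l a) - ass k l a := by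
    abel
  rw [this, h1, h2, sub_self]

theorem RAL.l3b (h : RAL A) {k l : A} (hk : Cm k) (hl : Cm l) (a : A) : ass k a l = 0 := by
  rw [h.sk, h.l3a hk hl, neg_zero]

theorem RAL.l3c (h : RAL A) {k l : A} (hk : Cm k) (hl : Cm l) (a : A) : ass a k l = 0 := by
  apply h.tor.two
  rw [h.l1a hk, h.l3b hk hl]

/-- `K K ⊆ K` -/
theorem RAL.mulK (h : RAL A) {k l : A} (hk : Cm k) (hl : Cm l) : Cm (k * l) := by
  apply cm_of_cmm
  intro x
  apply h.tor.two
  rw [h.l2 hk, hl.cmm, h.l3a hk hl]
  simp

/-- `(k, l a, b) = l (k, a, b)` -/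
theorem RAL.l4 (h : RAL A) {k l : A} (hk : Cm k) (hl : Cm l) (a b : A) :
    ass k (l * a) b = l * ass k a b := by
  have t1 := teich l k b a
  have t2 := teich b k l a
  rw [h.l3a hl hk, h.l3a hl hk, zero_mul, add_zero, add_zero] at t1
  rw [h.l3a hk hl, h.l3c hk hl, mul_zero, zero_mul, add_zero] at t2
  have e1 := h.l1a hl (b * k) a
  have e2 := h.l1a (h.mulK hk hl) b a
  have e3 := h.l1a hk b (l * a)
  rw [h.sk k b (l * a)] at e3
  rw [h.sk k b a, mul_neg, hl k, hk b] at t1
  linear_combination (norm := module) - t1 - (2 : ℤ) • t2 + e1 - e2 + e3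

/-- `D a b` is a derivation on `K` -/
theorem RAL.l5 (h : RAL A) {k l : A} (hk : Cm k) (hl : Cm l) (a b : A) :
    ass (k * l) a b = k * ass l a b + l * ass k a b := by
  have t1 := teich k l a b
  rw [h.l3a hk hl, h.l3a hk hl, zero_mul, add_zero, add_zero, h.l4 hk hl] at t1
  linear_combination (norm := module) t1

/-- `(k, a, l b) = l (k, a, b)` -/
theorem RAL.l4' (h : RAL A) {k l : A} (hk : Cm k) (hl : Cm l) (a b : A) :
    ass k a (l * b) = l * ass k a b := by
  rw [h.sk k a, h.l4 hk hl, ← mul_neg, ← h.sk k a b]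

/-- `4 (k, a, c) a` when `(k, a, c)` commutes with `a` -/
theorem RAL.l8 (h : RAL A) {k : A} (hk : Cm k) (a c : A) (hT : Cm (ass k a c)) :
    (4 : ℤ) • (ass k a c * a) = ass k (a * a) c + (2 : ℤ) • ass k a (a * c)
      + ass k a (cmm a c) := by
  have t1 := teich a a k c
  have t2 := teich a k a c
  have t3 := teich k a a c
  have z1 : ass a a k = 0 := by
    apply h.tor.two; rw [h.l1b hk, h.z3, neg_zero]
  have z2 : ass a k a = 0 := by rw [h.sk, z1, neg_zero]
  rw [z1, zero_mul, add_zero] at t1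
  rw [z2, zero_mul, add_zero] at t2
  rw [h.z3, zero_mul, add_zero] at t3
  have e1 := h.l1a hk (a * a) c
  have e2 : a * ((2 : ℤ) • ass a k c) = a * ass k a c := by rw [h.l1a hk a c]
  rw [mul_smul_comm] at e2
  have e3 := h.l1a hk a (a * c)
  have w1 := FF a a (k * c)
  rw [h.z3, h.sk a (k * c) a] at w1
  have w0 := congrArg (fun x => k * x) (FF a a c)
  rw [h.z3, h.sk a c a, add_zero, sub_neg_eq_add, mul_add, mul_sub, mul_sub] at w0
  have f1 := h.l2 hk c (a * a)
  have f2 := h.l2 hk c a
  have f2l := congrArg (fun x => a * x) f2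
  have f2r := congrArg (fun x => x * a) f2
  simp only [mul_add, add_mul, mul_smul_comm, smul_mul_assoc] at f2l f2r
  rw [cmm_skew (a * a) (k * c), cmm_skew a (k * c), mul_neg, neg_mul] at w1
  have g1 : a * (k * cmm c a) = k * (a * cmm c a) + ass k a (cmm c a) - ass a k (cmm c a) := by
    have : k * a * cmm c a = a * k * cmm c a := by rw [hk a]
    simp only [ass, this]
    abel
  have g2 : (k * cmm c a) * a = k * (cmm c a * a) + ass k (cmm c a) a := by
    simp only [ass]; abel
  have g3 := h.l1a hk a (cmm c a)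
  have g4 := h.sk k (cmm c a) a
  have g5 : a * ass k c a = - (ass k a c * a) := by rw [h.sk k c a, mul_neg, hT a]
  have g6 : ass k c a * a = - (ass k a c * a) := by rw [h.sk k c a, neg_mul]
  have g7 : a * ass k a c = ass k a c * a := (hT a).symm
  rw [g5, g1] at f2l
  rw [g6, g2, g4] at f2r
  have g8 := h.sk k c (a * a)
  rw [g8] at f1
  have c1 : cmm (a * a) c = - cmm c (a * a) := cmm_skew _ _
  have c2 : cmm a c = - cmm c a := cmm_skew _ _
  rw [c1, c2, mul_neg, mul_neg, neg_mul, mul_neg, mul_neg] at w0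
  have c3 : ass k a (cmm a c) = - ass k a (cmm c a) := by
    rw [c2]; simp only [ass, mul_neg]; abel
  rw [c3]
  have k2 : ass a (k * a) c = ass a (a * k) c := by rw [hk a]
  have k3 : ass (a * k) a c = ass (k * a) a c := by rw [hk a]
  rw [k2, k3] at t2
  rw [g7] at e2 t2
  linear_combination (norm := module) (-2 : ℤ) • w1 - f1 + f2l + f2r + (2 : ℤ) • w0 - g3
    - (4 : ℤ) • t1 + (4 : ℤ) • t2 - (4 : ℤ) • t3 + (2 : ℤ) • e1 - (2 : ℤ) • e2 - (2 : ℤ) • e3

theorem cm_of_zsmul (h : RAL A) {k : A} (hk : Cm ((4 : ℤ) • k)) : Cm k := by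
  apply cm_of_cmm
  intro x
  apply h.tor.two
  apply h.tor.two
  have h1 : cmm ((4 : ℤ) • k) x = 0 := hk.cmm x
  have h2 : (2 : ℤ) • ((2 : ℤ) • cmm k x) = cmm ((4 : ℤ) • k) x := by
    simp only [cmm, smul_mul_assoc, mul_smul_comm]
    module
  rw [h2, h1]

theorem Cm.add {k l : A} (hk : Cm k) (hl : Cm l) : Cm (k + l) := fun x => by
  rw [add_mul, mul_add, hk x, hl x]

theorem Cm.zsmul {k : A} (hk : Cm k) (c : ℤ) : Cm (c • k) := fun x => by
  rw [smul_mul_assoc, mul_smul_comm, hk x]

theorem Cm.neg {k : A} (hk : Cm k) : Cm (-k) := fun x => by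
  rw [neg_mul, mul_neg, hk x]

theorem Cm.sub {k l : A} (hk : Cm k) (hl : Cm l) : Cm (k - l) := fun x => by
  rw [sub_mul, mul_sub, hk x, hl x]

theorem Cm.zero : Cm (0 : A) := fun x => by simp

/-- the derivations `D a b` preserve `K` -/
def DK (A : Type*) [NonUnitalNonAssocRing A] : Prop := ∀ k : A, Cm k → ∀ a b : A, Cm (ass k a b)

theorem RAL.l8K (h : RAL A) (hT : DK A) {k : A} (hk : Cm k) (a c : A) : Cm (ass k a c * a) := by
  apply cm_of_zsmul h
  rw [h.l8 hk a c (hT k hk a c)]
  exact ((hT k hk _ _).add ((hT k hk _ _).zsmul _)).add (hT k hk _ _)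

/-- products of values of `D a b` and `D a c` vanish -/
theorem RAL.l9 (h : RAL A) (hT : DK A) {k l : A} (hk : Cm k) (hl : Cm l) (a b c : A) :
    ass k a b * ass l a c = 0 := by
  rw [← h.l4 hl (hT k hk a b), h.l3a hl (h.l8K hT hk a b)]

/-- the values of the derivations -/
def IsDv (t : A) : Prop := ∃ k a b : A, Cm k ∧ t = ass k a b

theorem IsDv.cm (hT : DK A) {t : A} (ht : IsDv t) : Cm t := by
  obtain ⟨k, a, b, hk, rfl⟩ := ht
  exact hT k hk a b

theorem IsDv.sq (h : RAL A) (hT : DK A) {t : A} (ht : IsDv t) : t * t = 0 := by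
  obtain ⟨k, a, b, hk, rfl⟩ := ht
  exact h.l9 hT hk hk a b b

theorem RAL.assocK (h : RAL A) {k l : A} (hk : Cm k) (hl : Cm l) (a : A) :
    (k * l) * a = k * (l * a) := sub_eq_zero.mp (h.l3a hk hl a)

theorem RAL.leftcommK (h : RAL A) {k l : A} (hk : Cm k) (hl : Cm l) (a : A) :
    k * (l * a) = l * (k * a) := by
  rw [← h.assocK hk hl, hk l, h.assocK hl hk]

end ring

section alg

variable {F A : Type*} [Field F] [NonUnitalNonAssocRing A] [Module F A] [IsScalarTower F A A]
  [SMulCommClass F A A]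

/-- the commutative centre -/
def cK (F A : Type*) [Field F] [NonUnitalNonAssocRing A] [Module F A] [IsScalarTower F A A]
    [SMulCommClass F A A] : Submodule F A where
  carrier := {k | Cm k}
  zero_mem' := Cm.zero
  add_mem' := fun ha hb => ha.add hb
  smul_mem' := fun c k hk x => by rw [smul_mul_assoc, mul_smul_comm, hk x]

theorem mem_cK {k : A} : k ∈ cK F A ↔ Cm k := Iff.rfl

/-- products of at least `j` elements of `S` and an element of `K` -/
def Pw (F : Type*) {A : Type*} [Field F] [NonUnitalNonAssocRing A] [Module F A]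
    [IsScalarTower F A A] [SMulCommClass F A A] (S : List A) : ℕ → Submodule F A
  | 0 => cK F A
  | j + 1 => Submodule.span F {x | ∃ s ∈ S, ∃ z ∈ Pw F S j, x = s * z}

theorem Pw.mul_mem {S : List A} {s z : A} {j : ℕ} (hs : s ∈ S) (hz : z ∈ Pw F S j) :
    s * z ∈ Pw F S (j + 1) := Submodule.subset_span ⟨s, hs, z, hz, rfl⟩

theorem Pw.ind {S : List A} {j : ℕ} (N : Submodule F A)
    (hN : ∀ s ∈ S, ∀ z ∈ Pw F S j, s * z ∈ N) : Pw F S (j + 1) ≤ N := by
  apply Submodule.span_le.mpr
  rintro _ ⟨s, hs, z, hz, rfl⟩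
  exact hN s hs z hz

theorem Pw.succ_le (h : RAL A) {S : List A} (hS : ∀ s ∈ S, Cm s) (j : ℕ) :
    Pw F S (j + 1) ≤ Pw F S j := by
  induction j with
  | zero => exact Pw.ind _ fun s hs z hz => h.mulK (hS s hs) hz
  | succ j ih => exact Pw.ind _ fun s hs z hz => Pw.mul_mem hs (ih hz)

theorem Pw.le_cK (h : RAL A) {S : List A} (hS : ∀ s ∈ S, Cm s) (j : ℕ) :
    Pw F S j ≤ cK F A := by
  induction j with
  | zero => exact le_rfl
  | succ j ih => exact (Pw.succ_le h hS j).trans ih

theorem Pw.K_mul (h : RAL A) {S : List A} (hS : ∀ s ∈ S, Cm s) {k : A} (hk : Cm k) (j : ℕ) :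
    ∀ z ∈ Pw F S j, k * z ∈ Pw F S j := by
  induction j with
  | zero => intro z hz; exact h.mulK hk hz
  | succ j ih =>
    have h1 : Pw F S (j + 1) ≤ (Pw F S (j + 1)).comap (LinearMap.mulLeft F k) := by
      apply Pw.ind
      intro s hs z hz
      show k * (s * z) ∈ Pw F S (j + 1)
      rw [h.leftcommK hk (hS s hs)]
      exact Pw.mul_mem hs (ih z hz)
    intro z hz
    exact h1 hz

/-- the derivation as a linear map -/
def dl (F : Type*) {A : Type*} [Field F] [NonUnitalNonAssocRing A] [Module F A]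
    [IsScalarTower F A A] [SMulCommClass F A A] (a b : A) : A →ₗ[F] A where
  toFun k := ass k a b
  map_add' := fun x y => ass_add_left x y a b
  map_smul' := fun c x => by simp [ass, smul_mul_assoc, smul_sub]

theorem Pw.dl_mem (h : RAL A) (hT : DK A) {S : List A} (hS : ∀ s ∈ S, Cm s) (a b : A) (j : ℕ) :
    ∀ z ∈ Pw F S (j + 1), ass z a b ∈ Pw F S j := by
  have key : Pw F S (j + 1) ≤ (Pw F S j).comap (dl F a b) := by
    induction j with
    | zero =>
      apply Pw.ind
      intro s hs z hz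
      exact hT _ (h.mulK (hS s hs) hz) a b
    | succ j ih =>
      apply Pw.ind
      intro s hs z hz
      show ass (s * z) a b ∈ Pw F S (j + 1)
      have hz' : Cm z := Pw.le_cK h hS _ hz
      rw [h.l5 (hS s hs) hz']
      apply Submodule.add_mem
      · exact Pw.mul_mem hs (ih hz)
      · rw [← (hT s (hS s hs) a b) z]
        exact Pw.K_mul h hS (hT s (hS s hs) a b) _ _ hz
  intro z hz
  exact key hz

theorem Pw.mono {S S' : List A} (hSS : ∀ s ∈ S, s ∈ S') (j : ℕ) : Pw F S j ≤ Pw F S' j := by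
  induction j with
  | zero => exact le_rfl
  | succ j ih => exact Pw.ind _ fun s hs z hz => Pw.mul_mem (hSS s hs) (ih hz)

theorem Pw.cons_le (h : RAL A) {s : A} {S : List A} (hs : Cm s) (hS : ∀ s ∈ S, Cm s)
    (hss : s * s = 0) (j : ℕ) :
    Pw F (s :: S) (j + 1) ≤ Pw F S (j + 1) ⊔ (Pw F S j).map (LinearMap.mulLeft F s) := by
  induction j with
  | zero =>
    apply Pw.ind
    intro r hr z hz
    rcases List.mem_cons.mp hr with rfl | hr
    · exact Submodule.mem_sup_right ⟨z, hz, rfl⟩
    · exact Submodule.mem_sup_left (Pw.mul_mem hr hz)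
  | succ j ih =>
    apply Pw.ind
    intro r hr z hz
    obtain ⟨z1, h1, z2, h2, rfl⟩ := Submodule.mem_sup.mp (ih hz)
    obtain ⟨w, hw, rfl⟩ := h2
    have hw' : Cm w := Pw.le_cK h hS _ hw
    rw [mul_add]
    rcases List.mem_cons.mp hr with rfl | hr
    · have e : r * (LinearMap.mulLeft F r) w = 0 := by
        show r * (r * w) = 0
        rw [← h.assocK hs hs, hss, zero_mul]
      rw [e, add_zero]
      exact Submodule.mem_sup_right ⟨z1, h1, rfl⟩
    · apply Submodule.add_mem
      · exact Submodule.mem_sup_left (Pw.mul_mem hr h1)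
      · apply Submodule.mem_sup_right
        refine ⟨r * w, Pw.mul_mem hr hw, ?_⟩
        show s * (r * w) = r * (s * w)
        exact h.leftcommK hs (hS r hr) w

theorem Pw.nilp (h : RAL A) (S : List A) (hS : ∀ s ∈ S, Cm s) (hss : ∀ s ∈ S, s * s = 0) :
    Pw F S (S.length + 1) = ⊥ := by
  induction S with
  | nil =>
    rw [eq_bot_iff]
    apply Pw.ind
    intro s hs
    simp at hs
  | cons s S ih =>
    have ih' := ih (fun r hr => hS r (List.mem_cons_of_mem _ hr))
      (fun r hr => hss r (List.mem_cons_of_mem _ hr))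
    have h1 := Pw.cons_le (F := F) h (hS s List.mem_cons_self)
      (fun r hr => hS r (List.mem_cons_of_mem _ hr)) (hss s List.mem_cons_self) (S.length + 1)
    rw [ih'] at h1
    have h2 : Pw F S (S.length + 1 + 1) = ⊥ := by
      rw [eq_bot_iff, ← ih']
      exact Pw.succ_le h (fun r hr => hS r (List.mem_cons_of_mem _ hr)) _
    rw [h2] at h1
    rw [eq_bot_iff, List.length_cons]
    simpa using h1

end alg

end Pool.Agent.NACert
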