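import Pool.Agent.NACert.KCalc

/-!
# The commutative centre of a simple right alternative algebra

If `(K, A, A) ⊆ K` in a simple right alternative algebra then `(K, A, A) = 0`.
-/

namespace Pool.Agent.NACert

section alg

variable {F A : Type*} [Field F] [NonUnitalNonAssocRing A] [Module F A] [IsScalarTower F A A]
  [SMulCommClass F A A]

/-- the ideal generated by a differential ideal of `K` -/
def idI (I : Submodule F A) : Submodule F A :=
  I ⊔ Submodule.span F {x | ∃ t ∈ I, ∃ a : A, x = t * a}

omit [IsScalarTower F A A] [SMulCommClass F A A] in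
theorem idI_le {I N : Submodule F A} (h1 : ∀ t ∈ I, t ∈ N) (h2 : ∀ t ∈ I, ∀ a : A, t * a ∈ N) :
    idI I ≤ N := by
  apply sup_le h1
  apply Submodule.span_le.mpr
  rintro _ ⟨t, ht, a, rfl⟩
  exact h2 t ht a

omit [IsScalarTower F A A] [SMulCommClass F A A] in
theorem mem_idI {I : Submodule F A} {t : A} (ht : t ∈ I) : t ∈ idI I :=
  Submodule.mem_sup_left ht

omit [IsScalarTower F A A] [SMulCommClass F A A] in
theorem mul_mem_idI {I : Submodule F A} {t : A} (ht : t ∈ I) (a : A) : t * a ∈ idI I :=
  Submodule.mem_sup_right (Submodule.subset_span ⟨t, ht, a, rfl⟩)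

theorem idI_isId (h : RAL A) (h2 : (2 : F) ≠ 0) {I : Submodule F A} (hI : ∀ t ∈ I, Cm t)
    (hD : ∀ t ∈ I, ∀ a b : A, ass t a b ∈ I) : IsId F (idI I) := by
  have h2' : ((2 : ℤ) : F) ≠ 0 := by simpa using h2
  have key1 : ∀ b : A, idI I ≤ (idI I).comap (LinearMap.mulRight F b) := by
    intro b
    apply idI_le
    · intro t ht
      exact mul_mem_idI ht b
    · intro t ht a
      have e : (t * a) * b = t * (a * b) + ass t a b := by simp only [ass]; abel
      show (t * a) * b ∈ idI I
      rw [e]
      exact Submodule.add_mem _ (mul_mem_idI ht _) (mem_idI (hD t ht a b))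
  have key2 : ∀ b : A, idI I ≤ (idI I).comap (LinearMap.mulLeft F b) := by
    intro b
    apply idI_le
    · intro t ht
      show b * t ∈ idI I
      rw [← hI t ht b]
      exact mul_mem_idI ht b
    · intro t ht a
      have e : b * (t * a) = t * (b * a) + ass t b a - ass b t a := by
        have : (b * t) * a = (t * b) * a := by rw [hI t ht b]
        simp only [ass, this]; abel
      show b * (t * a) ∈ idI I
      rw [e]
      apply Submodule.sub_mem
      · exact Submodule.add_mem _ (mul_mem_idI ht _) (mem_idI (hD t ht b a))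
      · apply mem_idI
        apply mem_of_zsmul h2'
        rw [h.l1a (hI t ht)]
        exact hD t ht b a
  intro x hx a
  exact ⟨key2 a hx, key1 a hx⟩

/-- linear in the middle argument -/
def dm (F : Type*) {A : Type*} [Field F] [NonUnitalNonAssocRing A] [Module F A]
    [IsScalarTower F A A] [SMulCommClass F A A] (k b : A) : A →ₗ[F] A where
  toFun a := ass k a b
  map_add' := fun x y => ass_add_mid k x y b
  map_smul' := fun c x => by simp [ass, smul_mul_assoc, mul_smul_comm, smul_sub]

theorem ass_mem_of_top (h : RAL A) (hT : DK A) {I : Submodule F A} (hI : ∀ t ∈ I, Cm t)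
    (hK : ∀ k : A, Cm k → ∀ t ∈ I, k * t ∈ I) (htop : idI I = ⊤) {k : A} (hk : Cm k) (a b : A) :
    ass k a b ∈ I := by
  have key : idI I ≤ I.comap (dm F k b) := by
    apply idI_le
    · intro t ht
      show ass k t b ∈ I
      rw [h.l3a hk (hI t ht)]
      exact I.zero_mem
    · intro t ht a'
      show ass k (t * a') b ∈ I
      rw [h.l4 hk (hI t ht), hI t ht]
      exact hK _ (hT k hk _ _) t ht
  have : a ∈ idI I := by rw [htop]; trivial
  exact key this

/-- a nonzero differential ideal of `K` contains all the values of the derivations -/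
theorem ass_mem_of_ne (h : RAL A) (h2 : (2 : F) ≠ 0) (hT : DK A) (hS : IsSimp F A)
    {I : Submodule F A} (hI : ∀ t ∈ I, Cm t) (hK : ∀ k : A, Cm k → ∀ t ∈ I, k * t ∈ I)
    (hD : ∀ t ∈ I, ∀ a b : A, ass t a b ∈ I) (hne : I ≠ ⊥) :
    idI I = ⊤ ∧ ∀ k : A, Cm k → ∀ a b : A, ass k a b ∈ I := by
  have h1 : idI I = ⊤ := by
    rcases hS.2 _ (idI_isId h h2 hI hD) with h1 | h1
    · exfalso
      apply hne
      rw [eq_bot_iff, ← h1]
      exact fun t ht => mem_idI ht
    · exact h1
  exact ⟨h1, fun k hk a b => ass_mem_of_top h hT hI hK h1 hk a b⟩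

/-- the elements which are in a higher power than `t` -/
def Gd (F : Type*) {A : Type*} [Field F] [NonUnitalNonAssocRing A] [Module F A]
    [IsScalarTower F A A] [SMulCommClass F A A] (t : A) : Submodule F A where
  carrier := {y | Cm y ∧ ∃ S : List A, (∀ s ∈ S, IsDv s) ∧ ∀ S' : List A, (∀ s ∈ S', IsDv s) →
    (∀ s ∈ S, s ∈ S') → ∀ j, t ∈ Pw F S' j → y ∈ Pw F S' (j + 1)}
  zero_mem' := ⟨Cm.zero, [], by simp, fun S' _ _ j _ => Submodule.zero_mem _⟩
  add_mem' := by
    rintro y z ⟨hy, S1, hS1, h1⟩ ⟨hz, S2, hS2, h2⟩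
    refine ⟨hy.add hz, S1 ++ S2, ?_, fun S' hS' hSS j hj => Submodule.add_mem _ ?_ ?_⟩
    · intro s hs
      rcases List.mem_append.mp hs with hs | hs
      · exact hS1 s hs
      · exact hS2 s hs
    · exact h1 S' hS' (fun s hs => hSS s (List.mem_append_left _ hs)) j hj
    · exact h2 S' hS' (fun s hs => hSS s (List.mem_append_right _ hs)) j hj
  smul_mem' := by
    rintro c y ⟨hy, S1, hS1, h1⟩
    refine ⟨(cK F A).smul_mem c hy, S1, hS1, fun S' hS' hSS j hj => Submodule.smul_mem _ c ?_⟩
    exact h1 S' hS' hSS j hj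

theorem Gd_cm {t y : A} (hy : y ∈ Gd F t) : Cm y := hy.1

theorem Gd_K (h : RAL A) (hT : DK A) {t : A} {k : A} (hk : Cm k) {y : A} (hy : y ∈ Gd F t) :
    k * y ∈ Gd F t := by
  obtain ⟨hy, S, hS, h1⟩ := hy
  refine ⟨h.mulK hk hy, S, hS, fun S' hS' hSS j hj => ?_⟩
  exact Pw.K_mul h (fun s hs => (hS' s hs).cm hT) hk _ _ (h1 S' hS' hSS j hj)

/-- the span of the values of the derivations -/
def spT (F A : Type*) [Field F] [NonUnitalNonAssocRing A] [Module F A] : Submodule F A :=
  Submodule.span F {t | IsDv t}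

theorem spT_cm (hT : DK A) : spT F A ≤ cK F A := by
  apply Submodule.span_le.mpr
  intro t ht
  exact IsDv.cm hT ht

omit [IsScalarTower F A A] in
theorem spT_K (h : RAL A) {k : A} (hk : Cm k) : ∀ t ∈ spT F A, k * t ∈ spT F A := by
  have : spT F A ≤ (spT F A).comap (LinearMap.mulLeft F k) := by
    apply Submodule.span_le.mpr
    rintro _ ⟨l, a, b, hl, rfl⟩
    show k * ass l a b ∈ spT F A
    rw [← h.l4 hl hk]
    exact Submodule.subset_span ⟨l, k * a, b, hl, rfl⟩
  intro t ht
  exact this ht

theorem spT_D (hT : DK A) (a b : A) : ∀ t ∈ spT F A, ass t a b ∈ spT F A := by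
  have : spT F A ≤ (spT F A).comap (dl F a b) := by
    apply Submodule.span_le.mpr
    intro t ht
    exact Submodule.subset_span ⟨t, a, b, IsDv.cm hT ht, rfl⟩
  intro t ht
  exact this ht

theorem Gd_D (h : RAL A) (hT : DK A) (htop : idI (spT F A) = ⊤) {t : A} {y : A}
    (hy : y ∈ Gd F t) (a b : A) : ass y a b ∈ Gd F t := by
  have hyc : Cm y := hy.1
  have key : idI (spT F A) ≤ (Gd F t).comap (dm F y b) := by
    have key1 : ∀ a' : A, spT F A ≤ (Gd F t).comap ((dm F y b).comp (LinearMap.mulRight F a')) := by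
      intro a'
      apply Submodule.span_le.mpr
      intro s hs
      show ass y (s * a') b ∈ Gd F t
      have hsc : Cm s := IsDv.cm hT hs
      rw [h.l4 hyc hsc]
      obtain ⟨hy, S, hS, h1⟩ := hy
      refine ⟨h.mulK hsc (hT y hyc _ _), s :: S, ?_, fun S' hS' hSS j hj => ?_⟩
      · intro r hr
        rcases List.mem_cons.mp hr with rfl | hr
        · exact hs
        · exact hS r hr
      · have hS'c : ∀ s ∈ S', Cm s := fun s hs => (hS' s hs).cm hT
        have h2 := h1 S' hS' (fun s hs => hSS s (List.mem_cons_of_mem _ hs)) j hj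
        exact Pw.mul_mem (hSS s List.mem_cons_self) (Pw.dl_mem h hT hS'c a' b j y h2)
    apply idI_le
    · intro s hs
      show ass y s b ∈ Gd F t
      rw [h.l3a hyc (spT_cm hT hs)]
      exact Submodule.zero_mem _
    · intro s hs a'
      exact key1 a' hs
  have : a ∈ idI (spT F A) := by rw [htop]; trivial
  exact key this

/-- in a simple right alternative algebra with `(K, A, A) ⊆ K` one has `(K, A, A) = 0` -/
theorem DK_zero (h : RAL A) (h2 : (2 : F) ≠ 0) (hS : IsSimp F A)
    (hann : ∀ z : A, (∀ a : A, a * z = 0) → z = 0) (hT : DK A) {k : A} (hk : Cm k) (a b : A) :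
    ass k a b = 0 := by
  by_contra hne
  set t := ass k a b with ht
  have htD : IsDv t := ⟨k, a, b, hk, ht⟩
  have htc : Cm t := htD.cm hT
  -- the span of the values is everything
  have hTne : spT F A ≠ ⊥ := by
    intro h0
    have : t ∈ spT F A := Submodule.subset_span htD
    rw [h0, Submodule.mem_bot] at this
    exact hne this
  obtain ⟨htop, -⟩ := ass_mem_of_ne h h2 hT hS (I := spT F A) (fun s hs => spT_cm hT hs)
    (fun k hk s hs => spT_K h hk s hs) (fun s hs a b => spT_D hT a b s hs) hTne
  -- the ideal G is not zero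
  have hG : Gd F t ≠ ⊥ := by
    intro h0
    apply hne
    apply hann
    have h1 : ∀ s : A, IsDv s → s * t = 0 := by
      intro s hs
      have : s * t ∈ Gd F t := by
        refine ⟨h.mulK (hs.cm hT) htc, [s], by simpa using hs, fun S' hS' hSS j hj => ?_⟩
        exact Pw.mul_mem (hSS s (by simp)) hj
      rw [h0, Submodule.mem_bot] at this
      exact this
    have h3 : ∀ s ∈ spT F A, s * t = 0 := by
      have : spT F A ≤ (LinearMap.mulRight F t).ker := by
        apply Submodule.span_le.mpr
        intro s hs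
        exact h1 s hs
      intro s hs
      exact this hs
    have h4 : idI (spT F A) ≤ (LinearMap.mulRight F t).ker := by
      apply idI_le
      · intro s hs
        exact h3 s hs
      · intro s hs a'
        show (s * a') * t = 0
        have hsc : Cm s := spT_cm hT hs
        have e : (s * a') * t = (t * s) * a' := by
          rw [← htc (s * a'), h.assocK htc hsc]
        rw [e, htc s, h3 s hs, zero_mul]
    intro a'
    have : a' ∈ idI (spT F A) := by rw [htop]; trivial
    exact h4 this
  obtain ⟨-, hall⟩ := ass_mem_of_ne h h2 hT hS (I := Gd F t) (fun s hs => Gd_cm hs)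
    (fun k hk s hs => Gd_K h hT hk hs) (fun s hs a b => Gd_D h hT htop hs a b) hG
  obtain ⟨-, S, hSD, h5⟩ := hall k hk a b
  rw [← ht] at h5
  have h6 : ∀ j, t ∈ Pw F S j := by
    intro j
    induction j with
    | zero => exact htc
    | succ j ih => exact h5 S hSD (fun s hs => hs) j ih
  have h7 := h6 (S.length + 1)
  rw [Pw.nilp h S (fun s hs => (hSD s hs).cm hT) (fun s hs => (hSD s hs).sq h hT),
    Submodule.mem_bot] at h7
  exact hne h7

end alg

end Pool.Agent.NACert
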