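import Pool.Agent.NACert.KNuc

/-!
# Simple right alternative algebras with `[[A, A], A] = 0`

They are associative (characteristic not `2`, `3`).
-/

namespace Pool.Agent.NACert

section ring

variable {A : Type*} [NonUnitalNonAssocRing A]

/-- `(K, A, A) = 0` -/
def NK (A : Type*) [NonUnitalNonAssocRing A] : Prop := ∀ k : A, Cm k → ∀ a b : A, ass k a b = 0

theorem RAL.nkl (hN : NK A) {k : A} (hk : Cm k) (x y : A) :
    (k * x) * y = k * (x * y) := sub_eq_zero.mp (hN k hk x y)

theorem RAL.nkr (h : RAL A) (hN : NK A) {k : A} (hk : Cm k) (x y : A) :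
    x * (k * y) = k * (x * y) := by
  have h1 : ass x k y = 0 := by
    apply h.tor.two
    rw [h.l1a hk, hN k hk]
  rw [← sub_eq_zero.mp h1, ← hk x, RAL.nkl hN hk]

theorem RAL.ncm (h : RAL A) (hN : NK A) {k : A} (hk : Cm k) (x y : A) :
    cmm (k * x) y = k * cmm x y := by
  rw [cmm, cmm, RAL.nkl hN hk, h.nkr hN hk, mul_sub]

theorem cm_of_two (h : RAL A) {k : A} (hk : Cm ((2 : ℤ) • k)) : Cm k := by
  apply cm_of_cmm
  intro x
  apply h.tor.two
  have h1 : cmm ((2 : ℤ) • k) x = 0 := hk.cmm x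
  rw [← h1]
  simp only [cmm, smul_mul_assoc, mul_smul_comm, smul_sub]

theorem cm_of_three (h : RAL A) {k : A} (hk : Cm ((3 : ℤ) • k)) : Cm k := by
  apply cm_of_cmm
  intro x
  apply h.tor.three
  have h1 : cmm ((3 : ℤ) • k) x = 0 := hk.cmm x
  rw [← h1]
  simp only [cmm, smul_mul_assoc, mul_smul_comm, smul_sub]

theorem RAL.dk_of_lie (h : RAL A) (hL : ∀ x y : A, Cm (cmm x y)) : DK A := by
  intro k hk a b
  apply cm_of_three h
  have e : (3 : ℤ) • ass k a b = (2 : ℤ) • cmm (k * a) b - (2 : ℤ) • (k * cmm a b) := by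
    rw [h.l2 hk]; abel
  rw [e]
  exact ((hL _ _).zsmul _).sub ((h.mulK hk (hL _ _)).zsmul _)

theorem RAL.f0 (h : RAL A) (hL : ∀ x y : A, Cm (cmm x y)) (a c : A) :
    (2 : ℤ) • ass a a c = cmm (a * a) c - (2 : ℤ) • (cmm a c * a) := by
  have h1 := FF a a c
  rw [h.z3, h.sk a c a, ← hL a c a] at h1
  linear_combination (norm := module) - h1

theorem RAL.f1a (h : RAL A) (hL : ∀ x y : A, Cm (cmm x y)) (a c : A) :
    (2 : ℤ) • cmm a (a * c) = cmm (a * a) c := by
  have h1 := FF a c a
  have h2 := h.f0 hL a c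
  have e : cmm a a = 0 := by simp [cmm]
  rw [e, zero_mul, h.sk a c a, cmm_skew c a, mul_neg, ← hL a c a, cmm_skew (a * c) a] at h1
  linear_combination (norm := module) (-2 : ℤ) • h1 + h2

theorem RAL.f1 (h : RAL A) (hN : NK A) (hL : ∀ x y : A, Cm (cmm x y)) (a c : A) :
    (2 : ℤ) • (cmm a c * (a * a)) = (2 : ℤ) • (cmm (a * a) c * a) - cmm (a * a) (a * c) := by
  have h1 := h.f0 hL a c
  have h2 := congrArg (fun x => x * a) h1
  simp only [smul_mul_assoc, sub_mul] at h2
  rw [RAL.nkl hN (hL a c)] at h2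
  have h3 := h.f0 hL a (a * c)
  have h4 := congrArg (fun x => x * a) (h.f1a hL a c)
  simp only [smul_mul_assoc] at h4
  have h5 := h.moufang a a c
  rw [h5] at h3
  linear_combination (norm := module) h2 - h3 + h4

/-- nonzero elements of `K` are not zero divisors -/
def InjK (A : Type*) [NonUnitalNonAssocRing A] : Prop :=
  ∀ k : A, Cm k → k ≠ 0 → ∀ x : A, k * x = 0 → x = 0

theorem RAL.f3 (h : RAL A) (hN : NK A) (hL : ∀ x y : A, Cm (cmm x y)) (hI : InjK A) (a c : A)
    (ha : Cm (a * a)) (hc : Cm (c * c)) (hne : cmm a c ≠ 0) : False := by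
  set b := cmm a c with hb
  have hbc : Cm b := hL a c
  have hca : cmm c a = - b := cmm_skew c a
  have inj : ∀ x : A, b * x = 0 → x = 0 := hI b hbc hne
  have f1 : ass a a c = - (b * a) := by
    apply h.tor.two_inj
    rw [h.f0 hL, ha.cmm, ← hb]; module
  have f2 : ass c c a = b * c := by
    apply h.tor.two_inj
    rw [h.f0 hL, hc.cmm, hca, neg_mul]; module
  have f3 : cmm a (a * c) = 0 := by
    apply h.tor.two
    rw [h.f1a hL, ha.cmm]
  have f4 : cmm c (c * a) = 0 := by
    apply h.tor.two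
    rw [h.f1a hL, hc.cmm]
  have f5 : cmm c (a * c) = 0 := by
    have : a * c = c * a + b := by rw [hb, cmm]; abel
    rw [this, cmm_add_right, f4, hbc.cmm', add_zero]
  have f6 : cmm (a * c + c * a) c = 0 := by
    rw [cmm_skew, cmm_add_right, f5, f4, add_zero, neg_zero]
  -- `b (a c + c a)` is in `K`
  have g1 : Cm (b * (a * c + c * a)) := by
    have e1 : cmm (a + c) c = b := by
      rw [cmm_add_left, ← hb]; simp [cmm]
    have e2 : (a + c) * (a + c) = a * a + c * c + (a * c + c * a) := by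
      simp only [mul_add, add_mul]; abel
    have e3 : cmm ((a + c) * (a + c)) c = 0 := by
      rw [e2, cmm_add_left, cmm_add_left, ha.cmm, hc.cmm, f6]; simp
    have e4 := h.f1 hN hL (a + c) c
    rw [e1, e3, zero_mul, smul_zero, zero_sub] at e4
    have e5 : Cm (b * ((a + c) * (a + c))) := by
      apply cm_of_two h
      rw [e4]
      exact (hL _ _).neg
    rw [e2, mul_add] at e5
    have e6 : b * (a * c + c * a) = (b * (a * a + c * c) + b * (a * c + c * a)) -
        b * (a * a + c * c) := by abel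
    rw [e6]
    exact e5.sub (h.mulK hbc (ha.add hc))
  set w := b * (a * c) with hw
  have hwc : Cm w := by
    apply cm_of_two h
    have e : (2 : ℤ) • w = b * (a * c + c * a) + b * b := by
      rw [hw]
      have : b * b = b * (a * c) - b * (c * a) := by
        rw [← mul_sub]; rfl
      rw [this, mul_add]; module
    rw [e]
    exact g1.add (h.mulK hbc hbc)
  have g2 : w * a = b * ((a * a) * c) + b * (b * a) := by
    rw [hwc a, hw, h.nkr hN hbc, ← mul_add]
    congr 1
    have : a * (a * c) = (a * a) * c - ass a a c := by rw [ass]; abel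
    rw [this, f1]; abel
  -- `a a = 0`
  have g3 : a * a = 0 := by
    have e1 := congrArg (fun x => cmm x a) g2
    have e0 : cmm a a = 0 := by simp [cmm]
    rw [h.ncm hN hwc, cmm_add_left, h.ncm hN hbc, h.ncm hN ha, h.ncm hN hbc, h.ncm hN hbc, e0,
      hca, mul_zero, mul_zero, mul_zero, add_zero, ha] at e1
    apply inj
    apply inj
    have e2 : b * (b * (a * a)) = - (b * (-b * (a * a))) := by
      rw [neg_mul, mul_neg, neg_neg]
    rw [e2, ← e1, neg_zero]
  rw [g3, zero_mul, mul_zero, zero_add] at g2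
  -- `w = b b`
  have g4 : w = b * b := by
    have e1 := congrArg (fun x => cmm x c) g2
    rw [h.ncm hN hwc, h.ncm hN hbc, h.ncm hN hbc, ← hb] at e1
    rw [← sub_eq_zero]
    apply inj
    rw [mul_sub, ← e1, hwc b, sub_self]
  have g5 : c * a = 0 := by
    have e1 : b * (a * c - b) = 0 := by rw [mul_sub, ← hw, g4, sub_self]
    have e2 := inj _ e1
    rw [hb, cmm] at e2
    rw [← e2]; abel
  have g6 : (c * c) * a = b * c := by
    rw [← f2, ass, g5, mul_zero, sub_zero]
  have g7 := congrArg (fun x => cmm x a) g6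
  have e0 : cmm a a = 0 := by simp [cmm]
  rw [h.ncm hN hc, h.ncm hN hbc, e0, mul_zero, hca, mul_neg] at g7
  have g8 : b * b = 0 := by
    rw [← neg_neg (b * b), ← g7, neg_zero]
  exact hne (inj _ g8)

theorem RAL.comm_of_lie (h : RAL A) (hN : NK A) (hL : ∀ x y : A, Cm (cmm x y)) (hI : InjK A)
    (a c : A) : cmm a c = 0 := by
  by_contra hne
  set b := cmm a c with hb
  have hbc : Cm b := hL a c
  have hca : cmm c a = - b := cmm_skew c a
  have inj : ∀ x : A, b * x = 0 → x = 0 := hI b hbc hne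
  set Z := cmm (a * a) c with hZ
  set Z' := cmm (c * c) a with hZ'
  have hZc : Cm Z := hL _ _
  have hZc' : Cm Z' := hL _ _
  have f1 := h.f1 hN hL a c
  have f2 := h.f1 hN hL c a
  rw [← hb, ← hZ] at f1
  rw [hca, ← hZ', neg_mul] at f2
  have e1 : ((2 : ℤ) • (b * a) - Z) * ((2 : ℤ) • (b * a) - Z) =
      - ((2 : ℤ) • (b * cmm (a * a) (a * c))) + Z * Z := by
    have e := congrArg (fun x => b * x) f1
    simp only [mul_sub, mul_smul_comm] at e
    have k1 : (b * a) * (b * a) = b * (b * (a * a)) := by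
      rw [RAL.nkl hN hbc, h.nkr hN hbc]
    have k2 : (b * a) * Z = b * (Z * a) := by
      rw [RAL.nkl hN hbc, hZc a]
    have k3 : Z * (b * a) = b * (Z * a) := by
      rw [h.nkr hN hbc]
    simp only [mul_sub, sub_mul, smul_mul_assoc, mul_smul_comm, k1, k2, k3]
    linear_combination (norm := module) (2 : ℤ) • e
  have e2 : ((2 : ℤ) • (b * c) + Z') * ((2 : ℤ) • (b * c) + Z') =
      (2 : ℤ) • (b * cmm (c * c) (c * a)) + Z' * Z' := by
    have e := congrArg (fun x => b * x) f2
    simp only [mul_sub, mul_smul_comm, smul_neg, mul_neg] at e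
    have k1 : (b * c) * (b * c) = b * (b * (c * c)) := by
      rw [RAL.nkl hN hbc, h.nkr hN hbc]
    have k2 : (b * c) * Z' = b * (Z' * c) := by
      rw [RAL.nkl hN hbc, hZc' c]
    have k3 : Z' * (b * c) = b * (Z' * c) := by
      rw [h.nkr hN hbc]
    simp only [mul_add, add_mul, smul_mul_assoc, mul_smul_comm, k1, k2, k3]
    linear_combination (norm := module) (-2 : ℤ) • e
  have e3 : cmm ((2 : ℤ) • (b * a) - Z) ((2 : ℤ) • (b * c) + Z') =
      (4 : ℤ) • (b * (b * b)) := by
    have k1 : (b * a) * (b * c) = b * (b * (a * c)) := by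
      rw [RAL.nkl hN hbc, h.nkr hN hbc]
    have k2 : (b * c) * (b * a) = b * (b * (c * a)) := by
      rw [RAL.nkl hN hbc, h.nkr hN hbc]
    have k3 : b * (b * b) = b * (b * (a * c)) - b * (b * (c * a)) := by
      rw [← mul_sub, ← mul_sub]; rfl
    have k4 : Z * (b * c) = (b * c) * Z := hZc _
    have k5 : Z' * (b * a) = (b * a) * Z' := hZc' _
    have k6 : Z * Z' = Z' * Z := hZc _
    rw [k3]
    simp only [cmm, mul_sub, sub_mul, mul_add, add_mul, smul_mul_assoc, mul_smul_comm, k1, k2, k4,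
      k5, k6]
    module
  refine h.f3 hN hL hI ((2 : ℤ) • (b * a) - Z) ((2 : ℤ) • (b * c) + Z') ?_ ?_ ?_
  · rw [e1]
    exact ((h.mulK hbc (hL _ _)).zsmul _).neg.add (h.mulK hZc hZc)
  · rw [e2]
    exact ((h.mulK hbc (hL _ _)).zsmul _).add (h.mulK hZc' hZc')
  · rw [e3]
    intro h4
    have h5 : b * (b * b) = 0 := by
      apply h.tor.two
      apply h.tor.two
      rw [← h4]; module
    exact hne (inj _ (inj _ h5))

end ring

section alg

variable {F A : Type*} [Field F] [NonUnitalNonAssocRing A] [Module F A] [IsScalarTower F A A]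
  [SMulCommClass F A A]

theorem SR.injK (h : SR F A) (hN : NK A) : InjK A := by
  intro k hk hne x hx
  set I : Submodule F A := (LinearMap.mulLeft F k).ker with hI
  have hid : IsId F I := by
    intro y hy a
    have hy' : k * y = 0 := hy
    constructor
    · show k * (a * y) = 0
      rw [← h.ram.ral.nkr hN hk, hy', mul_zero]
    · show k * (y * a) = 0
      rw [← RAL.nkl hN hk, hy', zero_mul]
  rcases h.simp.2 _ hid with h1 | h1
  · have : x ∈ I := hx
    rw [h1, Submodule.mem_bot] at this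
    exact this
  · exfalso
    apply hne
    apply h.annl
    intro a
    rw [← hk a]
    have : a ∈ I := by rw [h1]; trivial
    exact this

/-- `(K, A, A) ⊆ K` implies `(K, A, A) = 0` -/
theorem SR.nk_of_dk (h : SR F A) (hT : DK A) : NK A :=
  fun _ hk a b => DK_zero h.ram.ral h.two h.simp (fun _ => h.annl) hT hk a b

/-- there is no simple right alternative algebra with `[[A, A], A] = 0` which is not left
alternative -/
theorem SR.no_lie_two (h : SR F A) (hL : ∀ x y z : A, cmm (cmm x y) z = 0) : False := by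
  have hL' : ∀ x y : A, Cm (cmm x y) := fun x y => cm_of_cmm (hL x y)
  have hN : NK A := h.nk_of_dk (h.ram.ral.dk_of_lie hL')
  have hI := h.injK hN
  obtain ⟨x, y, hxy⟩ := h.na
  apply hxy
  have hc : ∀ z : A, Cm z := fun z => cm_of_cmm fun t => h.ram.ral.comm_of_lie hN hL' hI z t
  exact h.ram.ral.l3a (hc x) (hc x) y

end alg

end Pool.Agent.NACert
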