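import Pool.Agent.NACert.MainA
import Pool.Agent.NACert.B6
import Pool.Agent.NACert.B3b
import Pool.Agent.NACert.B11
import Pool.Agent.NACert.B12
import Pool.Agent.NACert.StepE

/-!
# Simple right alternative Malcev-admissible algebras are alternative

Characteristic different from 2 and 3.
-/

namespace Pool.Agent.NACert

open B14 B3

section alg

variable {F A : Type*} [Field F] [NonUnitalNonAssocRing A] [Module F A] [IsScalarTower F A A]
  [SMulCommClass F A A]

/-- the element `g` is hypercentral -/
theorem SR.relg_hyper (h : SR F A) (hf : ∀ x y : A, f1 x x x y = 0) (x y a u v : A) :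
    cmm (cmm (relg x x x y a) u) v = 0 := by
  have hg := h.g31_eq_zero
  have hA := h.la_zero hf
  have hB := h.ram.b9 hg hf hA
  have h1 := B10.rel1_zero h.ram hg hA hB
  have h2 := B10.rel2_zero h.ram hg hA hB
  have h3 := B10.rel3_zero h.ram hg hA hB
  have h4 := B10.rel4_zero h.ram hg hA hB
  exact h.ram.b12 hg hA hB (m := mm x x y) (x := x) (fun a => h1 x y a) (fun a => h2 x y a)
    (fun a => h3 x y a) (fun a => h4 x y a) (fun a b => hB a b (cmm y x) x)
    (fun a b => B11.main h.ram hg hA hB h1 h2 h3 h4 (h.ram.b3b hg) x y a b) a u v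

/-- there are no simple right alternative Malcev-admissible algebras that are not alternative -/
theorem SR.false (h : SR F A) : False := by
  have hg := h.g31_eq_zero
  have hf : ∀ x y : A, f1 x x x y = 0 := h.f1_eq_zero hg fun x y z u =>
    B5.main h.ram (h.eps_zero hg) (h.ram.b1 hg) h.k1_zero x y z u
  have hA := h.la_zero hf
  have hB := h.ram.b9 hg hf hA
  exact h.stepE hg hf hA hB (h.tt_zero hf (h.relg_hyper hf))

/-- a simple right alternative Malcev-admissible algebra over a field of characteristic different
from 2 and 3 is alternative -/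
theorem alternative_of_char_ne (h2 : (2 : F) ≠ 0) (h3 : (3 : F) ≠ 0) (hs : IsSimp F A)
    (hra : ∀ x y : A, (x * y) * y = x * (y * y))
    (hmal : ∀ x y z : A, cmm (cmm x y) (cmm x z) =
      cmm (cmm (cmm x y) z) x + cmm (cmm (cmm y z) x) x + cmm (cmm (cmm z x) x) y) (x y : A) :
    (x * x) * y = x * (x * y) := by
  by_contra hne
  have tor : NoTor A := by
    intro a ha
    have e : ((6 : ℤ) : F) • a = 0 := by rw [Int.cast_smul_eq_zsmul]; exact ha
    have h6 : ((6 : ℤ) : F) ≠ 0 := by
      have : ((6 : ℤ) : F) = 2 * 3 := by norm_num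
      rw [this]
      exact mul_ne_zero h2 h3
    rcases smul_eq_zero.mp e with h0 | h0
    · exact absurd h0 h6
    · exact h0
  exact SR.false (F := F) (A := A) ⟨⟨tor, hra, hmal⟩, h2, h3, hs, x, y, sub_ne_zero.mpr hne⟩

end alg

end Pool.Agent.NACert
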