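import Pool.Agent.NACert.StepS1
import Pool.Agent.NACert.B4
import Pool.Agent.NACert.B5
import Pool.Agent.NACert.B7
import Pool.Agent.NACert.B8
import Pool.Agent.NACert.B9
import Pool.Agent.NACert.B10
import Pool.Agent.NACert.B14r
import Pool.Agent.NACert.B15

/-!
# Assembly: identities of a simple right alternative Malcev-admissible algebra

The steps from `g31 = 0` to `t = 0` in a simple right alternative Malcev-admissible algebra which
is not alternative, over a field of characteristic different from 2 and 3.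
-/

namespace Pool.Agent.NACert

open B14 B3

section alg

variable {F A : Type*} [Field F] [NonUnitalNonAssocRing A] [Module F A] [IsScalarTower F A A]
  [SMulCommClass F A A]

/-- `k1 = 0` -/
theorem SR.k1_zero (h : SR F A) (x y a : A) : k1 x x x y a = 0 :=
  h.kappa h.g31_eq_zero (fun x y a u => B3.main h.ram (h.eps_zero h.g31_eq_zero)
    (h.ram.b1 h.g31_eq_zero) x y a u) x y a

/-- `[[[y, x], x], x]` is in the centre -/
theorem SR.f1_zc (h : SR F A) (x y : A) : ZC (f1 x x x y) :=
  h.hyper h.omH fun z u => B5.main h.ram (h.eps_zero h.g31_eq_zero) (h.ram.b1 h.g31_eq_zero)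
    h.k1_zero x y z u

/-- if `F1 = 0` then `[[[y, z], x], x]` is in the centre -/
theorem SR.la_zc (h : SR F A) (hf : ∀ x y : A, f1 x x x y = 0) (x y z : A) :
    ZC (cmm (cmm (cmm y z) x) x) :=
  h.om_zc h.omH ((h.ram.ral.om_iff _).2 fun a b => h.ram.b7 h.g31_eq_zero hf x y z a b)

/-- if `F1 = 0` then `[[[y, z], x], x] = 0` -/
theorem SR.la_zero (h : SR F A) (hf : ∀ x y : A, f1 x x x y = 0) (x y z : A) :
    cmm (cmm (cmm y z) x) x = 0 := by
  have hx : ZC (cmm (cmm (cmm y z) x) x * x) := by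
    rw [← h.ram.b8 h.g31_eq_zero hf x y z]
    exact h.la_zc hf x (y * x) z
  rcases h.rtrick h.omH (h.la_zc hf x y z) hx with h0 | h0
  · exact h0
  · have e : cmm (cmm (cmm y z) x) x = - cmm x (cmm (cmm y z) x) := by simp only [cmm]; abel
    rw [e, h0.cmm, neg_zero]

/-- if `F1 = 0` and `g` is hypercentral then `t = [(x, x, y), x] = 0` -/
theorem SR.tt_zero (h : SR F A) (hf : ∀ x y : A, f1 x x x y = 0)
    (hc : ∀ x y a u v : A, cmm (cmm (relg x x x y a) u) v = 0) (x y : A) : tt x x x y = 0 := by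
  have hg := h.g31_eq_zero
  have hA := h.la_zero hf
  have hB := h.ram.b9 hg hf hA
  have h1 := B10.rel1_zero h.ram hg hA hB
  have h2 := B10.rel2_zero h.ram hg hA hB
  have h3 := B10.rel3_zero h.ram hg hA hB
  have h4 := B10.rel4_zero h.ram hg hA hB
  have h5 := h.g_zero hg h1 h2 h3 h4 hc
  have h6 : ∀ x y a : A, B15.reln x x x y a = 0 := h.n_zero hg hA hB h1 h2 h3 h4 h5
  have hz : ∀ x y : A, ZC (tt x x x y) := fun x y =>
    h.cm_zc h.omH (cm_of_cmm fun a => B15.main h.ram hg hA hB h1 h3 h5 h6 x y a)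
  exact h.tt_eq_zero hg hf (fun x y a => (hz x y).cmm a) (fun x y => (hz x y).n1)
    (fun x y => (hz x y).n2) (fun x y => (hz x y).n3) x y

end alg

end Pool.Agent.NACert
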