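import Pool.Agent.NACert.OmegaA
import Pool.Agent.NACert.KNuc

/-!
# Local nilpotency and the elements of `Ω`

Let `T` be the span of `(A, Ω, A)`.  If `[A, Ω] ⊆ T` and `[T, Ω] = 0` in a simple nonalternative
right alternative Malcev-admissible algebra then `(A, Ω, A) = 0`.

Let `F0` be a finite set of elements of `T` and `G` a finite set of letters.  The elements which
are obtained from the elements of `F0` by the operations `u ↦ [u, g]` and `u ↦ (g, u, g')` are
called factors; a factor obtained with `k` letters has weight `2 - k`, and a letter has weight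
`- 1`.  The span `PI μ` of the products of factors and a word in `G`, of total weight at least `μ`,
is a filtration.  A product of weight `μ` contains at least `μ / 2` factors obtained with at most
one letter, so it vanishes for large `μ`.
-/

namespace Pool.Agent.NACert

section ring

variable {A : Type*} [NonUnitalNonAssocRing A]

theorem comm_of_cmm {x y : A} (h : cmm x y = 0) : x * y = y * x := sub_eq_zero.mp h

/-- Leibniz rule -/
theorem RAL.leib (h : RAL A) {t u : A} (ht : Om t) (hu : Om u) (c : A) :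
    cmm (t * u) c = t * cmm u c + cmm t c * u := by
  have h1 := FF t u c
  rw [ht.z1 hu h, ht.z2 hu h, ht.z3 hu h] at h1
  linear_combination (norm := module) h1

theorem RAL.asc (h : RAL A) {t u : A} (ht : Om t) (hu : Om u) (a : A) :
    (t * u) * a = t * (u * a) := sub_eq_zero.mp (ht.z1 hu h a)

/-- the elements of `Ω` which commute with `Ω` -/
structure OT (t : A) : Prop where
  om : Om t
  com : ∀ u : A, Om u → cmm t u = 0

/-- the facts on `Ω` which are used -/
structure OmG (A : Type*) [NonUnitalNonAssocRing A] : Prop where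
  ral : RAL A
  th : ∀ t : A, Om t → ∀ a b : A, OT (ass a t b)
  ad : ∀ t : A, Om t → ∀ a : A, OT (cmm t a)

theorem OmG.th_mul (h : OmG A) {t u : A} (ht : Om t) (hu : Om u) (a b : A) :
    ass a (t * u) b = t * ass a u b + u * ass a t b := by
  have t1 := teich a t u b
  rw [ht.z1 hu h.ral, ht.z3 hu h.ral, mul_zero, zero_mul, add_zero] at t1
  have e1 : a * t = t * a - cmm t a := by simp only [cmm]; abel
  rw [e1, ass_sub_left, hu.mulR ht h.ral, (h.ad t ht a).om.z1 hu h.ral, sub_zero] at t1
  have e2 : ass a t (u * b) = ass a t b * u := by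
    rw [ht.skew h.ral a (u * b), ht.mulR hu h.ral, ht.skew h.ral a b, neg_mul]
  rw [e2, comm_of_cmm ((h.th u hu a b).com t ht), comm_of_cmm ((h.th t ht a b).com u hu)] at t1
  linear_combination (norm := module) - t1

theorem OmG.mul (h : OmG A) {t u : A} (ht : Om t) (hu : Om u) : Om (t * u) := by
  rw [h.ral.om_iff]
  intro a b
  have t1 := teich t u a b
  rw [ht.z1 hu h.ral, ht.z1 hu h.ral, zero_mul, add_zero, add_zero,
    ht.as1 h.ral (u * a) b, ht.mulR hu h.ral a b, hu.as1 h.ral a b, mul_smul_comm,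
    comm_of_cmm ((h.th t ht a b).com u hu)] at t1
  rw [h.th_mul ht hu]
  linear_combination (norm := module) t1

/-! ### products of many elements -/

/-- iterated left multiplication -/
def act (l : List A) (w : A) : A := l.foldr (fun u x => u * x) w

theorem act_append (l l' : List A) (w : A) : act (l ++ l') w = act l (act l' w) := by
  simp [act]

theorem act_zero (l : List A) : act l (0 : A) = 0 := by
  induction l with
  | nil => rfl
  | cons u l ih =>
    show u * act l 0 = 0
    rw [ih, mul_zero]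

/-- a product which contains many elements of a finite set of nilpotent elements -/
theorem OmG.nil_act (h : OmG A) (S : Finset A) (N : ℕ) (hS : ∀ s ∈ S, ∀ w : A,
    act (List.replicate N s) w = 0) (l : List A) (hl : ∀ u ∈ l, OT u) (p : A → Bool)
    (hp : ∀ u ∈ l, p u = true → u ∈ S) (hlen : N * S.card < l.countP p) (w : A) :
    act l w = 0 := by
  classical
  have key : ∀ l : List A, (∀ u ∈ l, p u = true → u ∈ S) →
      l.countP p ≤ ∑ s ∈ S, l.countP (fun u => decide (u = s)) := by
    intro l
    induction l with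
    | nil => intro _; simp
    | cons u l ih =>
      intro hl
      have h1 := ih fun v hv => hl v (List.mem_cons_of_mem _ hv)
      simp only [List.countP_cons, Finset.sum_add_distrib]
      have h2 : (if p u = true then 1 else 0) ≤
          ∑ s ∈ S, (if decide (u = s) = true then 1 else 0) := by
        split_ifs with hpu
        · refine le_trans ?_ (Finset.single_le_sum (fun _ _ => Nat.zero_le _)
            (hl u List.mem_cons_self hpu))
          simp
        · exact Nat.zero_le _
      omega
  have h1 := key l hp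
  obtain ⟨s, hs, h3⟩ : ∃ s ∈ S, N ≤ l.countP (fun u => decide (u = s)) := by
    by_contra hcon
    push Not at hcon
    have : ∑ s ∈ S, l.countP (fun u => decide (u = s)) ≤ ∑ _s ∈ S, N :=
      Finset.sum_le_sum fun i hi => (hcon i hi).le
    rw [Finset.sum_const, smul_eq_mul, mul_comm] at this
    omega
  have hperm := List.filter_append_perm (fun u => decide (u = s)) l
  have hcomm : ∀ x ∈ l, ∀ y ∈ l, ∀ z : A, y * (x * z) = x * (y * z) := by
    intro x hx y hy z
    rw [← h.ral.asc (hl y hy).om (hl x hx).om, ← h.ral.asc (hl x hx).om (hl y hy).om,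
      comm_of_cmm ((hl x hx).com y (hl y hy).om)]
  have e1 : act l w = act (l.filter (fun u => decide (u = s)) ++
      l.filter (fun u => !decide (u = s))) w := by
    unfold act
    exact hperm.symm.foldr_eq' hcomm w
  rw [e1, act_append]
  rw [List.countP_eq_length_filter] at h3
  have hrep : l.filter (fun u => decide (u = s)) =
      List.replicate (l.filter (fun u => decide (u = s))).length s := by
    rw [List.eq_replicate_iff]
    refine ⟨rfl, fun b hb => ?_⟩
    simpa using (List.mem_filter.mp hb).2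
  rw [hrep]
  obtain ⟨m, hm⟩ := Nat.exists_eq_add_of_le h3
  rw [hm, List.replicate_add, act_append]
  exact hS s hs _

/-! ### factors, products and words -/

/-- factors -/
inductive FU (F0 G : Finset A) : ℕ → A → Prop
  | base {u : A} : u ∈ F0 → FU F0 G 0 u
  | ad {k : ℕ} {u g : A} : FU F0 G k u → g ∈ G → FU F0 G (k + 1) (cmm u g)
  | th {k : ℕ} {u g g' : A} : FU F0 G k u → g ∈ G → g' ∈ G → FU F0 G (k + 2) (ass g u g')

theorem FU.mono {F0 F0' G G' : Finset A} (hF : F0 ⊆ F0') (hG : G ⊆ G') {k : ℕ} {u : A}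
    (hu : FU F0 G k u) : FU F0' G' k u := by
  induction hu with
  | base h => exact .base (hF h)
  | ad _ h ih => exact .ad ih (hG h)
  | th _ h h' ih => exact .th ih (hG h) (hG h')

theorem FU.ot {F0 G : Finset A} (h : OmG A) (hF : ∀ u ∈ F0, OT u) {k : ℕ} {u : A}
    (hu : FU F0 G k u) : OT u := by
  induction hu with
  | base h => exact hF _ h
  | ad _ _ ih => exact h.ad _ ih.om _
  | th _ _ _ ih => exact h.th _ ih.om _ _

/-- products of factors, with their weights -/
inductive Pr (F0 G : Finset A) : ℤ → A → Prop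
  | one {k : ℕ} {u : A} : FU F0 G k u → Pr F0 G (2 - k) u
  | mul {k : ℕ} {u w : A} {r : ℤ} : FU F0 G k u → Pr F0 G r w → Pr F0 G (2 - k + r) (u * w)

theorem Pr.mono {F0 F0' G G' : Finset A} (hF : F0 ⊆ F0') (hG : G ⊆ G') {r : ℤ} {w : A}
    (hw : Pr F0 G r w) : Pr F0' G' r w := by
  induction hw with
  | one hu => exact .one (hu.mono hF hG)
  | mul hu _ ih => exact .mul (hu.mono hF hG) ih

theorem Pr.om {F0 G : Finset A} (h : OmG A) (hF : ∀ u ∈ F0, OT u) {r : ℤ} {w : A}
    (hw : Pr F0 G r w) : Om w := by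
  induction hw with
  | one hu => exact (hu.ot h hF).om
  | mul hu _ ih => exact h.mul (hu.ot h hF).om ih

theorem Pr.prod {F0 G : Finset A} (h : OmG A) (hF : ∀ u ∈ F0, OT u) {r r' : ℤ} {w w' : A}
    (hw : Pr F0 G r w) (hw' : Pr F0 G r' w') : Pr F0 G (r + r') (w * w') := by
  induction hw with
  | one hu => exact .mul hu hw'
  | @mul k u w r hu hw ih =>
    rw [h.ral.asc (hu.ot h hF).om (hw.om h hF), add_assoc]
    exact .mul hu ih

/-- the factors obtained with at most one letter -/
def S1 [DecidableEq A] (F0 G : Finset A) : Finset A :=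
  F0 ∪ (F0 ×ˢ G).image fun x => cmm x.1 x.2

theorem FU.mem_S1 [DecidableEq A] {F0 G : Finset A} {k : ℕ} {u : A} (hu : FU F0 G k u)
    (hk : k ≤ 1) : u ∈ S1 F0 G := by
  cases hu with
  | base h => exact Finset.mem_union_left _ h
  | @ad k u g h hg =>
    have : k = 0 := by omega
    subst this
    cases h with
    | base h =>
      apply Finset.mem_union_right
      rw [Finset.mem_image]
      exact ⟨(u, g), Finset.mem_product.mpr ⟨h, hg⟩, rfl⟩
  | th h hg hg' => omega

theorem Pr.to_act [DecidableEq A] {F0 G : Finset A} {r : ℤ} {w : A} (hw : Pr F0 G r w) :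
    ∃ (l : List A) (u : A), (∀ x ∈ l, ∃ k, FU F0 G k x) ∧ w = act l u ∧
      r ≤ 2 * (l.countP (fun x => decide (x ∈ S1 F0 G)) : ℤ) + 2 := by
  induction hw with
  | @one k u hu => exact ⟨[], u, by simp, rfl, by simp⟩
  | @mul k u w r hu _ ih =>
    obtain ⟨l, v, h1, rfl, h3⟩ := ih
    refine ⟨u :: l, v, ?_, rfl, ?_⟩
    · intro x hx
      rcases List.mem_cons.mp hx with rfl | hx
      · exact ⟨k, hu⟩
      · exact h1 x hx
    · rw [List.countP_cons]
      by_cases hk : k ≤ 1
      · have := hu.mem_S1 hk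
        simp only [this, decide_true, if_true]
        push_cast
        omega
      · push_cast
        split_ifs <;> omega

theorem Pr.eq_zero [DecidableEq A] {F0 G : Finset A} (h : OmG A) (hF : ∀ u ∈ F0, OT u) {N : ℕ}
    (hN : ∀ s ∈ S1 F0 G, ∀ w : A, act (List.replicate N s) w = 0) {r : ℤ} {w : A}
    (hw : Pr F0 G r w) (hr : 2 * (N * (S1 F0 G).card : ℤ) + 2 < r) : w = 0 := by
  obtain ⟨l, u, h1, rfl, h3⟩ := hw.to_act
  refine h.nil_act (S1 F0 G) N hN l (fun x hx => ?_) (fun x => decide (x ∈ S1 F0 G))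
    (fun x _ hx => by simpa using hx)
    (by have : (N * (S1 F0 G).card : ℤ) < l.countP (fun x => decide (x ∈ S1 F0 G)) := by omega
        exact_mod_cast this) u
  obtain ⟨k, hk⟩ := h1 x hx
  exact hk.ot h hF

/-- words in the letters of `G` -/
inductive Wd (G : Finset A) : ℕ → A → Prop
  | base {g : A} : g ∈ G → Wd G 1 g
  | mul {x y : A} {s s' : ℕ} : Wd G s x → Wd G s' y → Wd G (s + s') (x * y)

theorem Wd.pos {G : Finset A} {s : ℕ} {x : A} (hx : Wd G s x) : 1 ≤ s := by
  induction hx with
  | base _ => exact le_rfl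
  | mul _ _ ih1 ih2 => omega

theorem Wd.mono {G G' : Finset A} (h : G ⊆ G') {s : ℕ} {x : A} (hx : Wd G s x) : Wd G' s x := by
  induction hx with
  | base hg => exact .base (h hg)
  | mul _ _ ih1 ih2 => exact .mul ih1 ih2

end ring

section alg

variable (F : Type*) {A : Type*} [Field F] [NonUnitalNonAssocRing A] [Module F A]
  [IsScalarTower F A A] [SMulCommClass F A A]

/-- generators of the filtration -/
inductive PG (F0 G : Finset A) (μ : ℤ) (σ : ℕ) : A → Prop
  | pure {w : A} {r : ℤ} : μ ≤ r → Pr F0 G r w → PG F0 G μ σ w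
  | word {w c : A} {r : ℤ} {s : ℕ} : μ ≤ r - s → s ≤ σ → Pr F0 G r w → Wd G s c →
      PG F0 G μ σ (w * c)

/-- the filtration, with a bound for the number of letters -/
def PP (F0 G : Finset A) (μ : ℤ) (σ : ℕ) : Submodule F A :=
  Submodule.span F {x | PG F0 G μ σ x}

variable {F}

omit [IsScalarTower F A A] [SMulCommClass F A A] in
theorem PP_mono {F0 F0' G G' : Finset A} (hF : F0 ⊆ F0') (hG : G ⊆ G') {μ μ' : ℤ} {σ σ' : ℕ}
    (hr : μ' ≤ μ) (hσ : σ ≤ σ') : PP F F0 G μ σ ≤ PP F F0' G' μ' σ' := by
  apply Submodule.span_mono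
  rintro x (⟨h1, h2⟩ | ⟨h1, h2, h3, h4⟩)
  · exact .pure (hr.trans h1) (h2.mono hF hG)
  · exact .word (hr.trans h1) (h2.trans hσ) (h3.mono hF hG) (h4.mono hG)

omit [IsScalarTower F A A] [SMulCommClass F A A] in
theorem PP_le {F0 G : Finset A} {μ μ' : ℤ} {σ σ' : ℕ}
    (hr : μ' ≤ μ) (hσ : σ ≤ σ') : PP F F0 G μ σ ≤ PP F F0 G μ' σ' :=
  PP_mono (subset_refl _) (subset_refl _) hr hσ

omit [IsScalarTower F A A] in
theorem PP_mulL (h : OmG A) {F0 G : Finset A} (hF : ∀ u ∈ F0, OT u) {r μ : ℤ} {σ : ℕ} {w x : A}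
    (hw : Pr F0 G r w) (hx : x ∈ PP F F0 G μ σ) : w * x ∈ PP F F0 G (r + μ) σ := by
  have : PP F F0 G μ σ ≤ (PP F F0 G (r + μ) σ).comap (LinearMap.mulLeft F w) := by
    apply Submodule.span_le.mpr
    rintro x (⟨h1, h2⟩ | ⟨h1, h2, h3, h4⟩)
    · exact Submodule.subset_span (.pure (by omega) (hw.prod h hF h2))
    · rename_i w' c r'' s
      show w * (w' * c) ∈ PP F F0 G (r + μ) σ
      rw [← h.ral.asc (hw.om h hF) (h3.om h hF)]
      exact Submodule.subset_span (.word (by omega) h2 (hw.prod h hF h3) h4)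
  exact this hx

omit [IsScalarTower F A A] in
/-- derivations `w ↦ (c, w, c')` -/
theorem PP_der1 (h : OmG A) {F0 G : Finset A} (hF : ∀ u ∈ F0, OT u) {r : ℤ} {σ m : ℕ}
    {w c c' : A} (hw : Pr F0 G r w)
    (hu : ∀ (k : ℕ) (u : A), FU F0 G k u → ass c u c' ∈ PP F F0 G (2 - k - m) σ) :
    ass c w c' ∈ PP F F0 G (r - m) σ := by
  induction hw with
  | one h1 => exact hu _ _ h1
  | @mul k u w r h1 hw ih =>
    rw [h.th_mul (h1.ot h hF).om (hw.om h hF)]
    apply Submodule.add_mem
    · exact PP_le (by omega) le_rfl (PP_mulL h hF (.one h1) ih)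
    · exact PP_le (by omega) le_rfl (PP_mulL h hF hw (hu k u h1))

omit [IsScalarTower F A A] in
/-- derivations `w ↦ [w, c]` -/
theorem PP_der2 (h : OmG A) {F0 G : Finset A} (hF : ∀ u ∈ F0, OT u) {r : ℤ} {σ m : ℕ} {w c : A}
    (hw : Pr F0 G r w)
    (hu : ∀ (k : ℕ) (u : A), FU F0 G k u → cmm u c ∈ PP F F0 G (2 - k - m) σ) :
    cmm w c ∈ PP F F0 G (r - m) σ := by
  induction hw with
  | one h1 => exact hu _ _ h1
  | @mul k u w r h1 hw ih =>
    rw [h.ral.leib (h1.ot h hF).om (hw.om h hF)]
    apply Submodule.add_mem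
    · exact PP_le (by omega) le_rfl (PP_mulL h hF (.one h1) ih)
    · rw [comm_of_cmm ((h.ad u (h1.ot h hF).om c).com w (hw.om h hF))]
      exact PP_le (by omega) le_rfl (PP_mulL h hF hw (hu k u h1))

/-- the statement which is proved by induction on the number of letters -/
structure QQ (F : Type*) {A : Type*} [Field F] [NonUnitalNonAssocRing A] [Module F A]
    (F0 G : Finset A) (n : ℕ) : Prop where
  a : ∀ (k : ℕ) (t : A), FU F0 G k t → ∀ (c c' : A) (s s' : ℕ), Wd G s c → Wd G s' c' →
    s + s' ≤ n + 1 → ass c t c' ∈ PP F F0 G (2 - k - (s + s' : ℕ)) n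
  b : ∀ (k : ℕ) (u : A), FU F0 G k u → ∀ (c : A) (s : ℕ), Wd G s c → s ≤ n + 1 →
    cmm u c ∈ PP F F0 G (2 - k - s) n
  c : ∀ (μ : ℤ) (σ : ℕ) (c : A) (s : ℕ), Wd G s c → s + σ ≤ n → ∀ x ∈ PP F F0 G μ σ,
    c * x ∈ PP F F0 G (μ - s) (s + σ) ∧ x * c ∈ PP F F0 G (μ - s) (s + σ)

theorem OmG.qc (h : OmG A) {F0 G : Finset A} (hF : ∀ u ∈ F0, OT u) {n : ℕ}
    (ih : ∀ m < n, QQ F F0 G m) (μ : ℤ) (σ : ℕ) (c : A)
    (s : ℕ) (hc : Wd G s c) (hs : s + σ ≤ n) : ∀ x ∈ PP F F0 G μ σ,
    c * x ∈ PP F F0 G (μ - s) (s + σ) ∧ x * c ∈ PP F F0 G (μ - s) (s + σ) := by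
  have hs1 := hc.pos
  have hcm : ∀ {r' : ℤ} {w : A}, Pr F0 G r' w → cmm w c ∈ PP F F0 G (r' - s) (s - 1) := fun hw =>
    PP_der2 h hF hw fun k u hu => (ih (s - 1) (by omega)).b k u hu c s hc (by omega)
  have key : PP F F0 G μ σ ≤ (PP F F0 G (μ - s) (s + σ)).comap (LinearMap.mulLeft F c) ⊓
      (PP F F0 G (μ - s) (s + σ)).comap (LinearMap.mulRight F c) := by
    apply Submodule.span_le.mpr
    rintro x (⟨h1, h2⟩ | ⟨h1, h2, h3, h4⟩)
    · rename_i r'
      constructor
      · show c * x ∈ PP F F0 G (μ - s) (s + σ)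
        have e : c * x = x * c - cmm x c := by simp only [cmm]; abel
        rw [e]
        exact Submodule.sub_mem _ (Submodule.subset_span (.word (by omega) (by omega) h2 hc))
          (PP_le (by omega) (by omega) (hcm h2))
      · exact Submodule.subset_span (.word (by omega) (by omega) h2 hc)
    · rename_i w c' r' s'
      have hs2 := h4.pos
      have w1 : Pr F0 G r' w := h3
      constructor
      · show c * (w * c') ∈ PP F F0 G (μ - s) (s + σ)
        have e : c * (w * c') = w * (c * c') + ass w c c' - ass c w c' - cmm w c * c' := by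
          simp only [cmm, ass, sub_mul]; abel
        rw [e, (h3.om h hF).as1 h.ral]
        have m1 : ass c w c' ∈ PP F F0 G (μ - s) (s + σ) := by
          refine PP_le (μ := r' - ((s + s' : ℕ) : ℤ)) (by push_cast; omega) (by omega)
            (PP_der1 (σ := s + s' - 1) h hF h3 fun k u hu => ?_)
          exact (ih (s + s' - 1) (by omega)).a k u hu c c' s s' hc h4 (by omega)
        have m2 : cmm w c * c' ∈ PP F F0 G (μ - s) (s + σ) := by
          have := ((ih (s' + (s - 1)) (by omega)).c (r' - s) (s - 1) c' s' h4 le_rfl _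
            (hcm h3)).2
          exact PP_le (by omega) (by omega) this
        refine Submodule.sub_mem _ (Submodule.sub_mem _ (Submodule.add_mem _ ?_ ?_) m1) m2
        · exact Submodule.subset_span (.word (by push_cast; omega) (by omega) h3 (.mul hc h4))
        · exact zsmul_mem' _ m1
      · show (w * c') * c ∈ PP F F0 G (μ - s) (s + σ)
        have e : (w * c') * c = w * (c' * c) + ass w c' c := by simp only [ass]; abel
        rw [e, (h3.om h hF).as1 h.ral]
        refine Submodule.add_mem _ ?_ (zsmul_mem' _ ?_)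
        · exact Submodule.subset_span (.word (by push_cast; omega) (by omega) h3 (.mul h4 hc))
        · refine PP_le (μ := r' - ((s' + s : ℕ) : ℤ)) (by push_cast; omega) (by omega)
            (PP_der1 (σ := s' + s - 1) h hF h3 fun k u hu => ?_)
          exact (ih (s' + s - 1) (by omega)).a k u hu c' c s' s h4 hc (by omega)
  exact fun x hx => key hx

theorem OmG.qq (h : OmG A) {F0 G : Finset A} (hF : ∀ u ∈ F0, OT u) (n : ℕ) :
    QQ F F0 G n := by
  induction n using Nat.strong_induction_on with
  | _ n ih =>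
    have hC := h.qc (F := F) (F0 := F0) (G := G) hF ih
    -- products on the left factor
    have hA1 : ∀ (k : ℕ) (t : A), FU F0 G k t → ∀ (c1 c2 c' : A) (s1 s2 s' : ℕ), Wd G s1 c1 →
        Wd G s2 c2 → Wd G s' c' → s1 + s2 + s' ≤ n + 1 →
        ass (c1 * c2) t c' ∈ PP F F0 G (2 - k - (s1 + s2 + s' : ℕ)) n := by
      intro k t ht c1 c2 c' s1 s2 s' h1 h2 h3 hs
      have p1 := h1.pos
      have p2 := h2.pos
      have p3 := h3.pos
      rw [(ht.ot h hF).om.der h.ral]
      refine Submodule.add_mem _ (Submodule.add_mem _ ?_ ?_) ?_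
      · have := (ih (n - s1) (by omega)).a k t ht c2 c' s2 s' h2 h3 (by omega)
        have := (hC _ (n - s1) c1 s1 h1 (by omega) _ this).1
        exact PP_le (by push_cast; omega) (by omega) this
      · have := (ih (n - s2) (by omega)).a k t ht c1 c' s1 s' h1 h3 (by omega)
        have := (hC _ (n - s2) c2 s2 h2 (by omega) _ this).2
        exact PP_le (by push_cast; omega) (by omega) this
      · have hx := (ih (s' - 1) (by omega)).b k t ht c' s' h3 (by omega)
        have e1 := (hC _ (s' - 1) c1 s1 h1 (by omega) _ hx).1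
        have e2 := (hC _ _ c2 s2 h2 (by omega) _ e1).2
        have e3 := (hC _ (s' - 1) c2 s2 h2 (by omega) _ hx).2
        have e4 := (hC _ _ c1 s1 h1 (by omega) _ e3).1
        unfold ass
        refine Submodule.sub_mem _ ?_ ?_
        · exact PP_le (by push_cast; omega) (by omega) e2
        · exact PP_le (by push_cast; omega) (by omega) e4
    refine ⟨?_, ?_, hC⟩
    · intro k t ht c c' s s' hc hc' hs
      have oT := (ht.ot h hF).om
      cases hc with
      | base hg =>
        cases hc' with
        | base hg' =>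
          refine Submodule.subset_span (.pure ?_ (.one (.th ht hg hg')))
          push_cast
          omega
        | @mul x y s1 s2 h1 h2 =>
          rw [oT.skew h.ral]
          refine Submodule.neg_mem _ (PP_le ?_ le_rfl
            (hA1 k t ht x y c s1 s2 1 h1 h2 (.base hg) (by omega)))
          push_cast
          omega
      | @mul x y s1 s2 h1 h2 => exact hA1 k t ht x y c' s1 s2 s' h1 h2 hc' hs
    · intro k u hu c s hc hs
      have oU := (hu.ot h hF).om
      cases hc with
      | base hg =>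
        refine Submodule.subset_span (.pure ?_ (.one (.ad hu hg)))
        push_cast
        omega
      | @mul x y s1 s2 h1 h2 =>
        have p1 := h1.pos
        have p2 := h2.pos
        have e : cmm u (x * y) = x * cmm u y + cmm u x * y := by
          rw [cmm_skew, oU x y, cmm_skew y u, cmm_skew x u, mul_neg, neg_mul]
          abel
        rw [e]
        refine Submodule.add_mem _ ?_ ?_
        · have := (ih (s2 - 1) (by omega)).b k u hu y s2 h2 (by omega)
          have := (hC _ _ x s1 h1 (by omega) _ this).1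
          exact PP_le (by push_cast; omega) (by omega) this
        · have := (ih (s1 - 1) (by omega)).b k u hu x s1 h1 (by omega)
          have := (hC _ _ y s2 h2 (by omega) _ this).2
          exact PP_le (by push_cast; omega) (by omega) this

variable (F) in
/-- the filtration -/
def PI (F0 G : Finset A) (μ : ℤ) : Submodule F A := Submodule.span F {x | ∃ σ, PG F0 G μ σ x}

omit [IsScalarTower F A A] [SMulCommClass F A A] in
theorem PP_le_PI (F0 G : Finset A) (μ : ℤ) (σ : ℕ) : PP F F0 G μ σ ≤ PI F F0 G μ :=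
  Submodule.span_mono fun _ hx => ⟨σ, hx⟩

omit [IsScalarTower F A A] [SMulCommClass F A A] in
theorem PI_mono {F0 F0' G G' : Finset A} (hF : F0 ⊆ F0') (hG : G ⊆ G') {μ μ' : ℤ} (hr : μ' ≤ μ) :
    PI F F0 G μ ≤ PI F F0' G' μ' := by
  apply Submodule.span_le.mpr
  rintro x ⟨σ, hx⟩
  exact PP_le_PI _ _ _ _ (PP_mono hF hG hr le_rfl (Submodule.subset_span hx))

theorem PI_word (h : OmG A) {F0 G : Finset A} (hF : ∀ u ∈ F0, OT u) {μ : ℤ} {s : ℕ} {c x : A}
    (hc : Wd G s c) (hx : x ∈ PI F F0 G μ) :
    c * x ∈ PI F F0 G (μ - s) ∧ x * c ∈ PI F F0 G (μ - s) := by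
  have key : PI F F0 G μ ≤ (PI F F0 G (μ - s)).comap (LinearMap.mulLeft F c) ⊓
      (PI F F0 G (μ - s)).comap (LinearMap.mulRight F c) := by
    apply Submodule.span_le.mpr
    rintro x ⟨σ, hx⟩
    have := (h.qq (F := F) (G := G) hF (s + σ)).c μ σ c s hc le_rfl x (Submodule.subset_span hx)
    exact ⟨PP_le_PI _ _ _ _ this.1, PP_le_PI _ _ _ _ this.2⟩
  exact key hx

omit [IsScalarTower F A A] in
theorem PI_mulL (h : OmG A) {F0 G : Finset A} (hF : ∀ u ∈ F0, OT u) {r μ : ℤ} {w x : A}
    (hw : Pr F0 G r w) (hx : x ∈ PI F F0 G μ) : w * x ∈ PI F F0 G (r + μ) := by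
  have : PI F F0 G μ ≤ (PI F F0 G (r + μ)).comap (LinearMap.mulLeft F w) := by
    apply Submodule.span_le.mpr
    rintro x ⟨σ, hx⟩
    exact PP_le_PI _ _ _ _ (PP_mulL h hF hw (Submodule.subset_span hx))
  exact this hx

theorem PI_mul (h : OmG A) {F0 G : Finset A} (hF : ∀ u ∈ F0, OT u) {μ μ' : ℤ} {x y : A}
    (hx : x ∈ PI F F0 G μ) (hy : y ∈ PI F F0 G μ') : x * y ∈ PI F F0 G (μ + μ') := by
  have key : PI F F0 G μ ≤ (PI F F0 G (μ + μ')).comap (LinearMap.mulRight F y) := by
    apply Submodule.span_le.mpr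
    rintro x ⟨σ, ⟨h1, h2⟩ | ⟨h1, h2, h3, h4⟩⟩
    · exact PI_mono (subset_refl _) (subset_refl _) (by omega) (PI_mulL h hF h2 hy)
    · rename_i w c r'' s
      show (w * c) * y ∈ PI F F0 G (μ + μ')
      have e : (w * c) * y = w * (c * y) + ass w c y := by simp only [ass]; abel
      rw [e, (h3.om h hF).as1 h.ral]
      refine Submodule.add_mem _ ?_ (zsmul_mem' _ ?_)
      · exact PI_mono (subset_refl _) (subset_refl _) (by omega)
          (PI_mulL h hF h3 (PI_word h hF h4 hy).1)
      · -- `(c, w, y)`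
        have lin : ∀ z z' : A, ass c w (z + z') = ass c w z + ass c w z' := fun z z' =>
          ass_add_right _ _ _ _
        refine Submodule.span_induction (p := fun y _ => ass c w y ∈ PI F F0 G (μ + μ'))
          ?_ ?_ ?_ ?_ hy
        · rintro y ⟨τ, ⟨g1, g2⟩ | ⟨g1, g2, g3, g4⟩⟩
          · rw [(h3.om h hF).z3 (g2.om h hF) h.ral]
            exact Submodule.zero_mem _
          · rename_i w' c' r3 s'
            have ow := h3.om h hF
            have ow' := g3.om h hF
            rw [ow.skew h.ral, ow.mulR ow' h.ral, comm_of_cmm ((h.th w ow c' c).com w' ow')]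
            apply Submodule.neg_mem
            have m1 : ass c' w c ∈ PP F F0 G (r'' - ((s' + s : ℕ) : ℤ)) (s' + s - 1) := by
              refine PP_der1 h hF h3 fun k u hu => ?_
              have := g4.pos
              have := h4.pos
              exact (h.qq (F := F) (G := G) hF (s' + s - 1)).a k u hu c' c s' s g4 h4 (by omega)
            exact PI_mono (subset_refl _) (subset_refl _) (by push_cast; omega)
              (PP_le_PI _ _ _ _ (PP_mulL h hF g3 m1))
        · have : ass c w 0 = (0 : A) := by simp [ass]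
          rw [this]
          exact Submodule.zero_mem _
        · intro z z' _ _ hz hz'
          rw [lin]
          exact Submodule.add_mem _ hz hz'
        · intro a z _ hz
          have : ass c w (a • z) = a • ass c w z := by
            simp only [ass, mul_smul_comm, smul_sub]
          rw [this]
          exact Submodule.smul_mem _ _ hz
  exact key hx

omit [IsScalarTower F A A] [SMulCommClass F A A] in
theorem PI_eq_zero [DecidableEq A] (h : OmG A) {F0 G : Finset A} (hF : ∀ u ∈ F0, OT u) {N : ℕ}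
    (hN : ∀ s ∈ S1 F0 G, ∀ w : A, act (List.replicate N s) w = 0) {μ : ℤ}
    (hr : 2 * (N * (S1 F0 G).card : ℤ) + 2 < μ) {x : A}
    (hx : x ∈ PI F F0 G μ) : x = 0 := by
  have : PI F F0 G μ ≤ ⊥ := by
    apply Submodule.span_le.mpr
    rintro x ⟨σ, ⟨h1, h2⟩ | ⟨h1, h2, h3, h4⟩⟩
    · exact h2.eq_zero h hF hN (by omega)
    · have := h3.eq_zero h hF hN (by omega)
      rw [this, zero_mul]
      rfl
  exact (Submodule.mem_bot F).mp (this hx)

variable (F) in
/-- `y` is obtained from `x` by at least one multiplication -/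
def Mx (x y : A) : Prop := ∃ G0 : Finset A, ∀ Q : ℕ → Submodule F A, (∀ r, Q (r + 1) ≤ Q r) →
  (∀ g ∈ G0, ∀ r, ∀ z ∈ Q r, g * z ∈ Q (r + 1) ∧ z * g ∈ Q (r + 1)) → ∀ r, x ∈ Q r → y ∈ Q (r + 1)

variable (F) in
/-- the ideal `M x` -/
def idMx (x : A) : Submodule F A where
  carrier := {y | Mx F x y}
  zero_mem' := ⟨∅, fun _ _ _ _ _ => Submodule.zero_mem _⟩
  add_mem' := by
    classical
    rintro y z ⟨G, hy⟩ ⟨G', hz⟩
    refine ⟨G ∪ G', fun Q h1 h2 r hx => Submodule.add_mem _ (hy Q h1 ?_ r hx) (hz Q h1 ?_ r hx)⟩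
    · exact fun g hg => h2 g (Finset.mem_union_left _ hg)
    · exact fun g hg => h2 g (Finset.mem_union_right _ hg)
  smul_mem' := by
    rintro c y ⟨G, hy⟩
    exact ⟨G, fun Q h1 h2 r hx => Submodule.smul_mem _ _ (hy Q h1 h2 r hx)⟩

omit [IsScalarTower F A A] [SMulCommClass F A A] in
theorem idMx_isId (x : A) : IsId F (idMx F x) := by
  classical
  rintro y ⟨G, hy⟩ a
  constructor
  · refine ⟨G ∪ {a}, fun Q h1 h2 r hx => ?_⟩
    have := hy Q h1 (fun g hg => h2 g (Finset.mem_union_left _ hg)) r hx
    exact h1 _ (h2 a (by simp) _ _ this).1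
  · refine ⟨G ∪ {a}, fun Q h1 h2 r hx => ?_⟩
    have := hy Q h1 (fun g hg => h2 g (Finset.mem_union_left _ hg)) r hx
    exact h1 _ (h2 a (by simp) _ _ this).2

/-- in a simple algebra every element is obtained from itself by multiplications -/
theorem SR.mx_self (h : SR F A) (x : A) : Mx F x x := by
  classical
  by_cases hx : x = 0
  · exact ⟨∅, fun _ _ _ _ _ => by rw [hx]; exact Submodule.zero_mem _⟩
  have h1 : ∃ a : A, a * x ≠ 0 := by
    by_contra hcon
    push Not at hcon
    exact hx (h.annl hcon)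
  obtain ⟨a, ha⟩ := h1
  have hm : a * x ∈ idMx F x := ⟨{a}, fun Q _ h2 r hx => (h2 a (by simp) r x hx).1⟩
  rcases h.simp.2 _ (idMx_isId (F := F) x) with h2 | h2
  · rw [h2, Submodule.mem_bot] at hm
    exact absurd hm ha
  · have : x ∈ idMx F x := by rw [h2]; trivial
    exact this

variable (F A) in
/-- the span `T` of `(A, Ω, A)` -/
def TS : Submodule F A := Submodule.span F {x : A | ∃ t a b : A, Om t ∧ x = ass a t b}

omit [IsScalarTower F A A] [SMulCommClass F A A] in
theorem th_mem_TS {t : A} (ht : Om t) (a b : A) : ass a t b ∈ TS F A :=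
  Submodule.subset_span ⟨t, a, b, ht, rfl⟩

theorem cmm_smul_right (c : F) (x t : A) : cmm x (c • t) = c • cmm x t := by
  simp only [cmm, mul_smul_comm, smul_mul_assoc, smul_sub]

/-- scalar multiples -/
theorem Om.smul {t : A} (ht : Om t) (c : F) : Om (c • t) := fun a b => by
  rw [cmm_smul_right, cmm_smul_right, cmm_smul_right, ht a b, smul_add, mul_smul_comm,
    smul_mul_assoc]

theorem OT.smul {t : A} (ht : OT t) (c : F) : OT (c • t) :=
  ⟨ht.om.smul c, fun u hu => by
    have e : cmm (c • t) u = c • cmm t u := by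
      simp only [cmm, mul_smul_comm, smul_mul_assoc, smul_sub]
    rw [e, ht.com u hu, smul_zero]⟩

omit [Field F] [Module F A] [IsScalarTower F A A] [SMulCommClass F A A] in
theorem OT.add {t u : A} (ht : OT t) (hu : OT u) : OT (t + u) :=
  ⟨ht.om.add hu.om, fun v hv => by rw [cmm_add_left, ht.com v hv, hu.com v hv, add_zero]⟩

omit [Field F] [Module F A] [IsScalarTower F A A] [SMulCommClass F A A] in
theorem OT.zero : OT (0 : A) := ⟨Om.zero, fun v _ => by simp [cmm]⟩

theorem OmG.ot_of_TS (h : OmG A) {x : A} (hx : x ∈ TS F A) : OT x := by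
  refine Submodule.span_induction (p := fun x _ => OT x) ?_ OT.zero ?_ ?_ hx
  · rintro _ ⟨t, a, b, ht, rfl⟩
    exact h.th t ht a b
  · intro x y _ _ hx hy
    exact hx.add hy
  · intro c x _ hx
    exact hx.smul c

/-- the elements of `T` are nilpotent -/
theorem OmG.nil_of_TS (h : OmG A) {x : A} (hx : x ∈ TS F A) :
    IsNilpotent (LinearMap.mulLeft F x : Module.End F A) := by
  have key : OT x ∧ IsNilpotent (LinearMap.mulLeft F x : Module.End F A) := by
    refine Submodule.span_induction
      (p := fun x _ => OT x ∧ IsNilpotent (LinearMap.mulLeft F x : Module.End F A)) ?_ ?_ ?_ ?_ hx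
    · rintro _ ⟨t, a, b, ht, rfl⟩
      have o := h.th t ht a b
      refine ⟨o, 2, ?_⟩
      ext w
      show ass a t b * (ass a t b * w) = 0
      rw [← h.ral.asc o.om o.om, ht.thth ht h.ral, zero_mul]
    · refine ⟨OT.zero, 1, ?_⟩
      ext w
      show (0 : A) * w = 0
      exact zero_mul w
    · rintro x y _ _ ⟨hx, nx⟩ ⟨hy, ny⟩
      refine ⟨hx.add hy, ?_⟩
      have e : (LinearMap.mulLeft F (x + y) : Module.End F A) =
          LinearMap.mulLeft F x + LinearMap.mulLeft F y := by
        ext w
        exact add_mul x y w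
      rw [e]
      refine Commute.isNilpotent_add ?_ nx ny
      show (LinearMap.mulLeft F x : Module.End F A) * LinearMap.mulLeft F y =
        LinearMap.mulLeft F y * LinearMap.mulLeft F x
      ext w
      show x * (y * w) = y * (x * w)
      rw [← h.ral.asc hx.om hy.om, ← h.ral.asc hy.om hx.om, comm_of_cmm (hx.com y hy.om)]
    · rintro c x _ ⟨hx, nx⟩
      refine ⟨hx.smul c, ?_⟩
      have e : (LinearMap.mulLeft F (c • x) : Module.End F A) = c • LinearMap.mulLeft F x := by
        ext w
        exact smul_mul_assoc c x w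
      rw [e]
      exact nx.smul c
  exact key.2

theorem OmG.nil_act_TS (h : OmG A) {x : A} (hx : x ∈ TS F A) :
    ∃ N : ℕ, ∀ w : A, act (List.replicate N x) w = 0 := by
  obtain ⟨N, hN⟩ := h.nil_of_TS hx
  refine ⟨N, fun w => ?_⟩
  have key : ∀ (n : ℕ) (w : A), act (List.replicate n x) w =
      ((LinearMap.mulLeft F x : Module.End F A) ^ n) w := by
    intro n
    induction n with
    | zero => intro w; rfl
    | succ n ih =>
      intro w
      rw [pow_succ']
      show x * act (List.replicate n x) w = x * (((LinearMap.mulLeft F x : Module.End F A) ^ n) w)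
      rw [ih]
  rw [key, hN]
  rfl

/-- `T + T A` is an ideal -/
theorem OmG.TS_isId (h : OmG A) (hB : ∀ t : A, Om t → ∀ a : A, cmm t a ∈ TS F A) :
    IsId F (idI (TS F A)) := by
  have key1 : ∀ b : A, idI (TS F A) ≤ (idI (TS F A)).comap (LinearMap.mulRight F b) := by
    intro b
    apply idI_le
    · intro t ht
      exact mul_mem_idI ht b
    · intro t ht a
      have e : (t * a) * b = t * (a * b) + ass t a b := by simp only [ass]; abel
      show (t * a) * b ∈ idI (TS F A)
      rw [e, (h.ot_of_TS ht).om.as1 h.ral]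
      exact Submodule.add_mem _ (mul_mem_idI ht _)
        (zsmul_mem' _ (mem_idI (th_mem_TS (h.ot_of_TS ht).om _ _)))
  have key2 : ∀ b : A, idI (TS F A) ≤ (idI (TS F A)).comap (LinearMap.mulLeft F b) := by
    intro b
    apply idI_le
    · intro t ht
      show b * t ∈ idI (TS F A)
      have e : b * t = t * b - cmm t b := by simp only [cmm]; abel
      rw [e]
      exact Submodule.sub_mem _ (mul_mem_idI ht b) (mem_idI (hB t (h.ot_of_TS ht).om b))
    · intro t ht a
      have ot := (h.ot_of_TS ht).om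
      show b * (t * a) ∈ idI (TS F A)
      have e : b * (t * a) = t * (b * a) + ass t b a - ass b t a - cmm t b * a := by
        simp only [cmm, ass, sub_mul]; abel
      rw [e, ot.as1 h.ral]
      refine Submodule.sub_mem _ (Submodule.sub_mem _ (Submodule.add_mem _
        (mul_mem_idI ht _) ?_) ?_) ?_
      · exact zsmul_mem' _ (mem_idI (th_mem_TS ot _ _))
      · exact mem_idI (th_mem_TS ot _ _)
      · exact mul_mem_idI (hB t ot b) a
  intro x hx a
  exact ⟨key2 a hx, key1 a hx⟩

variable (F A) in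
/-- the elements of some `PI F0 G 1` -/
def JJ : Submodule F A where
  carrier := {x | ∃ F0 G : Finset A, (∀ u ∈ F0, u ∈ TS F A) ∧ x ∈ PI F F0 G 1}
  zero_mem' := ⟨∅, ∅, by simp, Submodule.zero_mem _⟩
  add_mem' := by
    classical
    rintro x y ⟨F0, G, h1, hx⟩ ⟨F0', G', h1', hy⟩
    refine ⟨F0 ∪ F0', G ∪ G', ?_, Submodule.add_mem _
      (PI_mono Finset.subset_union_left Finset.subset_union_left le_rfl hx)
      (PI_mono Finset.subset_union_right Finset.subset_union_right le_rfl hy)⟩
    intro u hu
    rcases Finset.mem_union.mp hu with hu | hu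
    · exact h1 u hu
    · exact h1' u hu
  smul_mem' := by
    rintro c x ⟨F0, G, h1, hx⟩
    exact ⟨F0, G, h1, Submodule.smul_mem _ _ hx⟩

omit [IsScalarTower F A A] [SMulCommClass F A A] in
theorem idI_le_JJ : idI (TS F A) ≤ JJ F A := by
  apply idI_le
  · intro t ht
    refine ⟨{t}, ∅, by simpa using ht, Submodule.subset_span ⟨0, .pure ?_ (.one (k := 0)
      (.base (by simp)))⟩⟩
    norm_num
  · intro t ht a
    refine ⟨{t}, {a}, by simpa using ht, Submodule.subset_span ⟨1, .word ?_ le_rfl (.one (k := 0)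
      (.base (by simp))) (.base (by simp))⟩⟩
    norm_num

/-- the main result of this file: `(A, Ω, A) = 0` -/
theorem SR.th_zero (h : SR F A) (hf : OmG A) (hB : ∀ t : A, Om t → ∀ a : A, cmm t a ∈ TS F A)
    {t : A} (ht : Om t) (a b : A) : ass a t b = 0 := by
  classical
  by_contra hne
  have hI : idI (TS F A) = ⊤ := by
    rcases h.simp.2 _ (hf.TS_isId hB) with h1 | h1
    · exfalso
      have : ass a t b ∈ idI (TS F A) := mem_idI (th_mem_TS ht a b)
      rw [h1, Submodule.mem_bot] at this
      exact hne this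
    · exact h1
  have hall : ∀ x : A, ∃ F0 G : Finset A, (∀ u ∈ F0, u ∈ TS F A) ∧ x ∈ PI F F0 G 1 := by
    intro x
    have : x ∈ JJ F A := idI_le_JJ (by rw [hI]; trivial)
    exact this
  -- a finite set of letters for a finite set of elements
  have hfin : ∀ S : Finset A, ∃ F0 G : Finset A, (∀ u ∈ F0, u ∈ TS F A) ∧
      ∀ x ∈ S, x ∈ PI F F0 G 1 := by
    intro S
    induction S using Finset.induction_on with
    | empty => exact ⟨∅, ∅, by simp, by simp⟩
    | insert y S _ ih =>
      obtain ⟨F0, G, h0, hG⟩ := ih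
      obtain ⟨F0', G', h0', hG'⟩ := hall y
      refine ⟨F0 ∪ F0', G ∪ G', fun u hu => ?_, fun x hx => ?_⟩
      · rcases Finset.mem_union.mp hu with hu | hu
        · exact h0 u hu
        · exact h0' u hu
      · rcases Finset.mem_insert.mp hx with rfl | hx
        · exact PI_mono Finset.subset_union_right Finset.subset_union_right le_rfl hG'
        · exact PI_mono Finset.subset_union_left Finset.subset_union_left le_rfl (hG x hx)
  obtain ⟨x, hx⟩ : ∃ x : A, x ≠ 0 := ⟨_, hne⟩
  obtain ⟨G0, hG0⟩ := h.mx_self x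
  obtain ⟨F0, G, h0, hG⟩ := hfin (G0 ∪ {x})
  have hOT : ∀ u ∈ F0, OT u := fun u hu => hf.ot_of_TS (h0 u hu)
  have step := hG0 (fun r => PI F F0 G ((r : ℤ) + 1))
    (fun r => PI_mono (subset_refl _) (subset_refl _) (by push_cast; omega))
    (fun g hg r z hz => by
      have hg1 := hG g (Finset.mem_union_left _ hg)
      have m1 := PI_mul hf hOT hg1 hz
      have m2 := PI_mul hf hOT hz hg1
      have e1 : (((r + 1 : ℕ) : ℤ) + 1) = 1 + ((r : ℤ) + 1) := by push_cast; ring
      have e2 : (((r + 1 : ℕ) : ℤ) + 1) = ((r : ℤ) + 1) + 1 := by push_cast; ring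
      constructor
      · show g * z ∈ PI F F0 G (((r + 1 : ℕ) : ℤ) + 1)
        rw [e1]
        exact m1
      · show z * g ∈ PI F F0 G (((r + 1 : ℕ) : ℤ) + 1)
        rw [e2]
        exact m2)
  have hxr : ∀ r : ℕ, x ∈ PI F F0 G ((r : ℤ) + 1) := by
    intro r
    induction r with
    | zero => simpa using hG x (by simp)
    | succ r ih => exact step r ih
  -- a common exponent
  have hS : ∀ s ∈ S1 F0 G, s ∈ TS F A := by
    intro s hs
    rcases Finset.mem_union.mp hs with hs | hs
    · exact h0 s hs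
    · obtain ⟨⟨u, g⟩, hug, rfl⟩ := Finset.mem_image.mp hs
      exact hB u (hf.ot_of_TS (h0 u (Finset.mem_product.mp hug).1)).om g
  have hN : ∃ N : ℕ, ∀ s ∈ S1 F0 G, ∀ w : A, act (List.replicate N s) w = 0 := by
    have key : ∀ S : Finset A, (∀ s ∈ S, s ∈ TS F A) →
        ∃ N : ℕ, ∀ s ∈ S, ∀ w : A, act (List.replicate N s) w = 0 := by
      intro S
      induction S using Finset.induction_on with
      | empty => intro _; exact ⟨0, by simp⟩
      | insert y S _ ih =>
        intro hS
        obtain ⟨N, hN⟩ := ih fun s hs => hS s (Finset.mem_insert_of_mem hs)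
        obtain ⟨M, hM⟩ := hf.nil_act_TS (hS y (Finset.mem_insert_self _ _))
        refine ⟨N + M, fun s hs w => ?_⟩
        rw [List.replicate_add, act_append]
        rcases Finset.mem_insert.mp hs with rfl | hs
        · rw [hM, act_zero]
        · exact hN s hs _
    exact key _ hS
  obtain ⟨N, hN⟩ := hN
  refine hx (PI_eq_zero hf hOT hN ?_ (hxr (2 * (N * (S1 F0 G).card) + 2)))
  push_cast
  omega

end alg

end Pool.Agent.NACert
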