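import Pool.Agent.NACert.KCalc

/-!
# Elements whose commutator map is a derivation

`Om t` says that `x ↦ [x, t]` is a derivation.  We write `θ t a b` for the associator `(a, t, b)`.
-/

namespace Pool.Agent.NACert

open Fast

variable {A : Type*} [NonUnitalNonAssocRing A]

/-- the commutator with `t` is a derivation -/
def Om (t : A) : Prop := ∀ a b : A, cmm (a * b) t = a * cmm b t + cmm a t * b

/-- the two associators of an element of `Ω` -/
theorem RAL.om_iff (h : RAL A) (t : A) : Om t ↔ ∀ a b : A, ass t a b = (2 : ℤ) • ass a t b := by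
  have key : ∀ a b : A, ass t a b - (2 : ℤ) • ass a t b =
      cmm (a * b) t - (a * cmm b t + cmm a t * b) := by
    intro a b
    have h1 := FF a b t
    rw [h.sk a b t] at h1
    linear_combination (norm := module) - h1
  constructor
  · intro ht a b
    rw [← sub_eq_zero, key, ht a b, sub_self]
  · intro ht a b
    rw [← sub_eq_zero, ← key, ht a b, sub_self]

theorem Om.as1 {t : A} (ht : Om t) (h : RAL A) (a b : A) : ass t a b = (2 : ℤ) • ass a t b :=
  (h.om_iff t).mp ht a b

theorem Om.as2 {t : A} (_ : Om t) (h : RAL A) (a b : A) : ass a b t = - ass a t b :=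
  h.sk a b t

/-- `(a, t, b)` is skew-symmetric -/
theorem Om.skew {t : A} (ht : Om t) (h : RAL A) (a b : A) : ass a t b = - ass b t a := by
  have h1 := ht.as1 h a b
  have h2 := ht.as1 h b a
  have h3 := h.sk t a b
  apply h.tor.two_inj
  rw [smul_neg, ← h1, ← h2, h3]

theorem Om.alt {t : A} (ht : Om t) (h : RAL A) (a : A) : ass a t a = 0 := by
  apply h.tor.two
  have := ht.skew h a a
  rw [two_smul]
  nth_rw 1 [this]
  exact neg_add_cancel _

theorem Om.zero : Om (0 : A) := fun a b => by simp [cmm]

theorem Om.add {t u : A} (ht : Om t) (hu : Om u) : Om (t + u) := fun a b => by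
  simp only [cmm_add_right, ht a b, hu a b, mul_add, add_mul]; abel

theorem Om.zsmul {t : A} (ht : Om t) (c : ℤ) : Om (c • t) := fun a b => by
  have e : ∀ x : A, cmm x (c • t) = c • cmm x t := fun x => by
    simp only [cmm, mul_smul_comm, smul_mul_assoc, smul_sub]
  rw [e, e, e, ht a b, smul_add, mul_smul_comm, smul_mul_assoc]

theorem Om.neg {t : A} (ht : Om t) : Om (-t) := by
  have := ht.zsmul (-1)
  rwa [neg_one_smul] at this

theorem Om.sub {t u : A} (ht : Om t) (hu : Om u) : Om (t - u) := by
  rw [sub_eq_add_neg]; exact ht.add hu.neg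

/-- elements commuting with everything are in `Ω` -/
theorem Cm.om {k : A} (hk : Cm k) : Om k := fun a b => by
  rw [hk.cmm', hk.cmm', hk.cmm', mul_zero, zero_mul, add_zero]

theorem om_of_two (h : RAL A) {t : A} (ht : Om ((2 : ℤ) • t)) : Om t := by
  rw [h.om_iff] at ht ⊢
  intro a b
  apply h.tor.two_inj
  have := ht a b
  simp only [ass, smul_mul_assoc, mul_smul_comm, smul_sub] at this ⊢
  exact this

end Pool.Agent.NACert
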