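import Pool.Agent.NACert.Omega

/-!
# Elements whose commutator map is a derivation: identities

`A` is a right alternative ring without 6-torsion.  We write `θ t a b` for the associator
`(a, t, b)` with `t` in `Ω` (`Om t`).
-/

namespace Pool.Agent.NACert

open Fast

variable {A : Type*} [NonUnitalNonAssocRing A]

/-! ### known identities -/

/-- `(t, a, b) - 2 (a, t, b)` -/
def t1T : Tm :=
  (.cons true 1 (.m (.m (.v 0) (.v 1)) (.v 2))
  (.cons false 1 (.m (.v 0) (.m (.v 1) (.v 2)))
  (.cons false 2 (.m (.m (.v 1) (.v 0)) (.v 2))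
  (.cons true 2 (.m (.v 1) (.m (.v 0) (.v 2)))
  .nil))))

/-- `(a, b, t) + (a, t, b)` -/
def t2T : Tm :=
  (.cons true 1 (.m (.m (.v 1) (.v 0)) (.v 2))
  (.cons false 1 (.m (.v 1) (.m (.v 0) (.v 2)))
  (.cons true 1 (.m (.m (.v 1) (.v 2)) (.v 0))
  (.cons false 1 (.m (.v 1) (.m (.v 2) (.v 0)))
  .nil))))

/-- `(u, a, b) - 2 (a, u, b)` -/
def u1T : Tm :=
  (.cons true 1 (.m (.m (.v 1) (.v 2)) (.v 3))
  (.cons false 1 (.m (.v 1) (.m (.v 2) (.v 3)))
  (.cons false 2 (.m (.m (.v 2) (.v 1)) (.v 3))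
  (.cons true 2 (.m (.v 2) (.m (.v 1) (.v 3)))
  .nil))))

/-- `(a, b, u) + (a, u, b)` -/
def u2T : Tm :=
  (.cons true 1 (.m (.m (.v 2) (.v 1)) (.v 3))
  (.cons false 1 (.m (.v 2) (.m (.v 1) (.v 3)))
  (.cons true 1 (.m (.m (.v 2) (.v 3)) (.v 1))
  (.cons false 1 (.m (.v 2) (.m (.v 3) (.v 1)))
  .nil))))

/-- `(t, u, a)` -/
def z1T : Tm :=
  (.cons true 1 (.m (.m (.v 0) (.v 1)) (.v 2))
  (.cons false 1 (.m (.v 0) (.m (.v 1) (.v 2)))
  .nil))

/-- `(t, a, u)` -/
def z2T : Tm :=
  (.cons true 1 (.m (.m (.v 0) (.v 2)) (.v 1))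
  (.cons false 1 (.m (.v 0) (.m (.v 2) (.v 1)))
  .nil))

/-- `(a, t, u)` -/
def z3T : Tm :=
  (.cons true 1 (.m (.m (.v 2) (.v 0)) (.v 1))
  (.cons false 1 (.m (.v 2) (.m (.v 0) (.v 1)))
  .nil))

/-- `(a, u, t)` -/
def z4T : Tm :=
  (.cons true 1 (.m (.m (.v 2) (.v 1)) (.v 0))
  (.cons false 1 (.m (.v 2) (.m (.v 1) (.v 0)))
  .nil))

/-- `(u, t, a)` -/
def z5T : Tm :=
  (.cons true 1 (.m (.m (.v 1) (.v 0)) (.v 2))
  (.cons false 1 (.m (.v 1) (.m (.v 0) (.v 2)))
  .nil))

/-- `(u, a, t)` -/
def z6T : Tm :=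
  (.cons true 1 (.m (.m (.v 1) (.v 2)) (.v 0))
  (.cons false 1 (.m (.v 1) (.m (.v 2) (.v 0)))
  .nil))

theorem RAL.raT (h : RAL A) (ρ : ℕ → A) : raT.ev ρ = 0 := by
  have h1 := h.sk (ρ 0) (ρ 1) (ρ 2)
  simp only [ass] at h1
  simp only [NACert.raT, Tm.ev, T.ev, bc_true, bc_false]
  linear_combination (norm := module) h1

theorem Om.t1 {t : A} (ht : Om t) (h : RAL A) {ρ : ℕ → A} (h0 : ρ 0 = t) : t1T.ev ρ = 0 := by
  have h1 := ht.as1 h (ρ 1) (ρ 2)
  simp only [ass, ← h0] at h1
  simp only [t1T, Tm.ev, T.ev, bc_true, bc_false]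
  linear_combination (norm := module) h1

theorem RAL.t2 (h : RAL A) {ρ : ℕ → A} : t2T.ev ρ = 0 := by
  have h1 := h.sk (ρ 1) (ρ 2) (ρ 0)
  simp only [ass] at h1
  simp only [t2T, Tm.ev, T.ev, bc_true, bc_false]
  linear_combination (norm := module) h1

theorem Om.u1 {t : A} (ht : Om t) (h : RAL A) {ρ : ℕ → A} (h0 : ρ 1 = t) : u1T.ev ρ = 0 := by
  have h1 := ht.as1 h (ρ 2) (ρ 3)
  simp only [ass, ← h0] at h1
  simp only [u1T, Tm.ev, T.ev, bc_true, bc_false]
  linear_combination (norm := module) h1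

theorem RAL.u2 (h : RAL A) {ρ : ℕ → A} : u2T.ev ρ = 0 := by
  have h1 := h.sk (ρ 2) (ρ 3) (ρ 1)
  simp only [ass] at h1
  simp only [u2T, Tm.ev, T.ev, bc_true, bc_false]
  linear_combination (norm := module) h1

/-- known identities for an element of `Ω` -/
def omKT : Kn := .cons 1 2 t1T (.cons 1 2 t2T (.cons 0 3 NACert.raT .nil))

theorem Om.kt {t : A} (ht : Om t) (h : RAL A) {ρ : ℕ → A} (h0 : ρ 0 = t) : omKT.Holds ρ :=
  ⟨fun ρ' h1 => ht.t1 h ((h1 0 (by norm_num)).trans h0), fun ρ' _ => h.t2,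
    fun ρ' _ => h.raT ρ', trivial⟩

/-- known identities for two elements of `Ω` -/
def omKU : Kn := .cons 1 2 t1T (.cons 1 2 t2T (.cons 0 3 NACert.raT
  (.cons 2 2 u1T (.cons 2 2 u2T .nil))))

theorem Om.ku {t u : A} (ht : Om t) (hu : Om u) (h : RAL A) {ρ : ℕ → A} (h0 : ρ 0 = t)
    (h1 : ρ 1 = u) : omKU.Holds ρ :=
  ⟨fun ρ' h2 => ht.t1 h ((h2 0 (by norm_num)).trans h0), fun ρ' _ => h.t2,
    fun ρ' _ => h.raT ρ', fun ρ' h2 => hu.u1 h ((h2 1 (by norm_num)).trans h1),
    fun ρ' _ => h.u2, trivial⟩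

/-! ### `(Ω, Ω, A) = 0` -/

theorem Om.z1 {t u : A} (ht : Om t) (hu : Om u) (h : RAL A) (a : A) : ass t u a = 0 := by
  have h1 := ht.as1 h u a
  have h2 := hu.as1 h t a
  apply h.tor.three
  linear_combination (norm := module) - h1 - (2 : ℤ) • h2

theorem Om.z2 {t u : A} (ht : Om t) (hu : Om u) (h : RAL A) (a : A) : ass t a u = 0 := by
  rw [h.sk, ht.z1 hu h, neg_zero]

theorem Om.z3 {t u : A} (ht : Om t) (hu : Om u) (h : RAL A) (a : A) : ass a t u = 0 := by
  apply h.tor.two
  rw [← ht.as1 h, ht.z2 hu h]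

/-- certificate -/
def omRC : List ℕ :=
  [604181008, 587272992, 604185072, 604054512, 4566618626, 4834005762, 4832961282, 4566687490,
  4564598530, 4564659970, 4834017026, 4834139906, 4566626050, 4831978258, 4563538722,
  4831973938, 4833091826, 4564594930, 4565700850]

/-- expression -/
def omRE : E :=
  let t : E := .v 0
  let a : E := .v 1
  let b : E := .v 2
  let c : E := .v 3
  .add (.add (.sub (.mul (.as a t b) c) (.mul (.as b t c) a)) (.as (.mul a b) t c))
    (.as (.mul c b) t a)

theorem Om.rel {t : A} (ht : Om t) (h : RAL A) (a b c : A) :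
    ass a t b * c - ass b t c * a + ass (a * b) t c + ass (c * b) t a = 0 :=
  ev_of_checkE h.tor omKT (ht.kt (ρ := fun i => if i = 0 then t else if i = 1 then a else
    if i = 2 then b else c) h rfl) 2 omRE omRC (by decide +kernel)

/-- `θ(a,b) a = θ(a, a b)` -/
theorem Om.mid {t : A} (ht : Om t) (h : RAL A) (a b : A) :
    ass a t b * a = ass a t (a * b) := by
  have h1 := ht.rel h a b a
  have h2 := ht.skew h b a
  have h3 := ht.skew h (a * b) a
  rw [h2, h3, neg_mul] at h1
  apply h.tor.two_inj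
  linear_combination (norm := module) h1

/-- certificate -/
def omTC : List ℕ :=
  [154687181328, 386599752208, 150395097616, 382320452112, 73067143696, 73085690384,
  150376424464, 231980929312, 227701629216, 77362110752, 227704512800, 154671322144,
  150376369952, 150376554272, 154687050288, 150392151856, 150376423744, 154671321664,
  73049117504, 73032405824, 77329273664, 77345002304, 150376423232, 154653508592, 150343730160,
  154671326448, 154671334128, 154687054832, 154671518448, 154653704176, 154671518225,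
  150392218129, 150376555025, 154671322145, 150392148273, 150358724913, 154657558833,
  154689016113, 154654413873, 154638700337, 150358785841, 150393192241, 309290144321,
  150376423233, 154671334129, 154671518449, 154637975537, 154687127537, 1169324839426,
  2406024811010, 1238090453506, 3711945544194, 1169074295298, 1238090519042, 1238043267842,
  1169322746626, 1237791609858, 1169071088642, 1237505356802, 1237237969922, 1168548901890,
  1168800560130, 1168786079490, 1237238169346, 1169071165186, 1169071288066, 1169322819330,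
  1169322880770, 1237791624962, 1237791809282, 1238043279106, 1238043401986, 1169324846850,
  1169074237186, 1238090460930, 1238044385026, 3711694937858, 1169371045634, 1237273739010,
  1168555060994, 1237289467650, 1237257027330, 1168822632194, 1237542969090, 1168838360834,
  1168789208834, 1238041240338, 2406022775826, 1237789582354, 1168266834962, 1237504373778,
  1168266900498, 1237503325202, 1168267034386, 2474744229650, 7422546608418, 4880176644386,
  4948645511458, 7354123944226, 1169321759522, 2406020617250, 1237789578274, 1236985263138,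
  1168516461602, 1236985328674, 1168515413026, 2474744225570, 1236985462562, 2406020632354,
  2406020816674, 2474741092130, 2406021861154, 4948893958706, 2406272274994, 2405202727474,
  2473984070194, 2474990703154, 1238041236018, 2473950516274, 2474185401394, 2406272343858,
  2405202796338, 2474470559538, 2474470805298, 2474992742194, 2405471104818, 2474252447538,
  2475007422258, 2406274371378, 2405739597618, 2474520940338, 2475024256818, 2405200887602,
  2405517426482, 2405453221682, 2405786779442, 2405719932722, 2474440085298, 2405735661362,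
  4948877311794, 4880158633778, 2406022709570, 4879923937602, 2474458087746, 2474504225090,
  2406020616770, 1169070101058, 2473921221186, 2473967358530, 2405736448834, 2405469061954,
  2474218947394, 2474470605634, 2474741083970, 2406022713154, 2474454893554, 2405467046898,
  2405199660018, 1236985332722, 2474440082418, 2405484676082, 2405201560562, 1238042353906,
  1169071284466, 1168570786034, 2406273197042, 2406258512882, 2406020817394, 1169071161586,
  2406291014642, 1169322815730, 1169323921650, 3642973491442, 1237558694130, 2473936044018,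
  2405250036722, 2473970450418, 1168537489394, 2474203369458, 2405483934962, 2474203430898,
  2474236900338, 2474506207218, 2474505224178, 2405785793522]

/-- expression -/
def omTE : E :=
  let t : E := .v 0
  let a : E := .v 1
  let b : E := .v 2
  let c : E := .v 3
  let d : E := .v 4
  .sub (.as (.as a t b) c d) (.sm 2 (.as c (.as a t b) d))

/-- `θ(a,b)` is in `Ω` -/
theorem Om.th {t : A} (ht : Om t) (h : RAL A) (a b : A) : Om (ass a t b) := by
  rw [h.om_iff]
  intro c d
  rw [← sub_eq_zero]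
  exact ev_of_checkE h.tor omKT (ht.kt (ρ := fun i => if i = 0 then t else if i = 1 then a else
    if i = 2 then b else if i = 3 then c else d) h rfl) 2 omTE omTC (by decide +kernel)

/-! ### two elements of `Ω` -/

theorem Om.z1' {t u : A} (ht : Om t) (hu : Om u) (h : RAL A) {ρ : ℕ → A} (h0 : ρ 0 = t)
    (h1 : ρ 1 = u) : z1T.ev ρ = 0 := by
  have h2 := ht.z1 hu h (ρ 2)
  simp only [ass, ← h0, ← h1] at h2
  simp only [z1T, Tm.ev, T.ev, bc_true, bc_false]
  linear_combination (norm := module) h2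

theorem Om.z2' {t u : A} (ht : Om t) (hu : Om u) (h : RAL A) {ρ : ℕ → A} (h0 : ρ 0 = t)
    (h1 : ρ 1 = u) : z2T.ev ρ = 0 := by
  have h2 := ht.z2 hu h (ρ 2)
  simp only [ass, ← h0, ← h1] at h2
  simp only [z2T, Tm.ev, T.ev, bc_true, bc_false]
  linear_combination (norm := module) h2

theorem Om.z3' {t u : A} (ht : Om t) (hu : Om u) (h : RAL A) {ρ : ℕ → A} (h0 : ρ 0 = t)
    (h1 : ρ 1 = u) : z3T.ev ρ = 0 := by
  have h2 := ht.z3 hu h (ρ 2)
  simp only [ass, ← h0, ← h1] at h2
  simp only [z3T, Tm.ev, T.ev, bc_true, bc_false]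
  linear_combination (norm := module) h2

theorem Om.z4' {t u : A} (ht : Om t) (hu : Om u) (h : RAL A) {ρ : ℕ → A} (h0 : ρ 0 = t)
    (h1 : ρ 1 = u) : z4T.ev ρ = 0 := by
  have h2 := hu.z3 ht h (ρ 2)
  simp only [ass, ← h0, ← h1] at h2
  simp only [z4T, Tm.ev, T.ev, bc_true, bc_false]
  linear_combination (norm := module) h2

theorem Om.z5' {t u : A} (ht : Om t) (hu : Om u) (h : RAL A) {ρ : ℕ → A} (h0 : ρ 0 = t)
    (h1 : ρ 1 = u) : z5T.ev ρ = 0 := by
  have h2 := hu.z1 ht h (ρ 2)
  simp only [ass, ← h0, ← h1] at h2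
  simp only [z5T, Tm.ev, T.ev, bc_true, bc_false]
  linear_combination (norm := module) h2

theorem Om.z6' {t u : A} (ht : Om t) (hu : Om u) (h : RAL A) {ρ : ℕ → A} (h0 : ρ 0 = t)
    (h1 : ρ 1 = u) : z6T.ev ρ = 0 := by
  have h2 := hu.z2 ht h (ρ 2)
  simp only [ass, ← h0, ← h1] at h2
  simp only [z6T, Tm.ev, T.ev, bc_true, bc_false]
  linear_combination (norm := module) h2

/-- known identities for two elements of `Ω` -/
def omKZ : Kn := .cons 1 2 t1T (.cons 1 2 t2T (.cons 0 3 NACert.raT
  (.cons 2 2 u1T (.cons 2 2 u2T (.cons 2 1 z1T (.cons 2 1 z2T (.cons 2 1 z3T (.cons 2 1 z4T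
  (.cons 2 1 z5T (.cons 2 1 z6T .nil))))))))))

theorem Om.kz {t u : A} (ht : Om t) (hu : Om u) (h : RAL A) {ρ : ℕ → A} (h0 : ρ 0 = t)
    (h1 : ρ 1 = u) : omKZ.Holds ρ := by
  have e0 : ∀ ρ' : ℕ → A, (∀ i < 2, ρ' i = ρ i) → ρ' 0 = t ∧ ρ' 1 = u := fun ρ' h2 =>
    ⟨(h2 0 (by norm_num)).trans h0, (h2 1 (by norm_num)).trans h1⟩
  exact ⟨fun ρ' h2 => ht.t1 h ((h2 0 (by norm_num)).trans h0), fun ρ' _ => h.t2,
    fun ρ' _ => h.raT ρ', fun ρ' h2 => hu.u1 h (e0 ρ' h2).2,
    fun ρ' _ => h.u2, fun ρ' h2 => ht.z1' hu h (e0 ρ' h2).1 (e0 ρ' h2).2,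
    fun ρ' h2 => ht.z2' hu h (e0 ρ' h2).1 (e0 ρ' h2).2,
    fun ρ' h2 => ht.z3' hu h (e0 ρ' h2).1 (e0 ρ' h2).2,
    fun ρ' h2 => ht.z4' hu h (e0 ρ' h2).1 (e0 ρ' h2).2,
    fun ρ' h2 => ht.z5' hu h (e0 ρ' h2).1 (e0 ρ' h2).2,
    fun ρ' h2 => ht.z6' hu h (e0 ρ' h2).1 (e0 ρ' h2).2, trivial⟩

/-- certificate -/
def om4C : List ℕ :=
  [37757238, 36713206, 18886953, 18882873, 17835001, 17838841, 587272992, 604185072, 285221667,
  285221427, 302133491, 302194931, 604184820, 4833026818, 9398525698, 9665855234, 4831978258,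
  9395376930, 4565697010]

/-- expression -/
def om4E : E :=
  let t : E := .v 0
  let u : E := .v 1
  let a : E := .v 2
  let b : E := .v 3
  .sub (.as (.mul u a) t b) (.mul (.as a t b) u)

/-- `θ_t(u a, b) = θ_t(a, b) u` -/
theorem Om.mulR {t u : A} (ht : Om t) (hu : Om u) (h : RAL A) (a b : A) :
    ass (u * a) t b = ass a t b * u := by
  rw [← sub_eq_zero]
  exact ev_of_checkE h.tor omKZ (ht.kz hu (ρ := fun i => if i = 0 then t else if i = 1 then u else
    if i = 2 then a else b) h rfl rfl) 2 om4E om4C (by decide +kernel)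

/-- certificate -/
def omPC : List ℕ :=
  [12591669, 12595495, 11546920, 11543097, 6304042, 11543098, 6304506, 100737825, 100668195,
  83902243, 84086563, 100860659, 2952994594, 3221426930, 1342382578]

/-- expression -/
def omPE : E :=
  let t : E := .v 0
  let u : E := .v 1
  let a : E := .v 2
  let b : E := .v 3
  .as a (.cm t u) b

/-- `(a, [t, u], b) = 0` -/
theorem Om.n2 {t u : A} (ht : Om t) (hu : Om u) (h : RAL A) (a b : A) :
    ass a (cmm t u) b = 0 :=
  ev_of_checkE h.tor omKZ (ht.kz hu (ρ := fun i => if i = 0 then t else if i = 1 then u else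
    if i = 2 then a else b) h rfl rfl) 1 omPE omPC (by decide +kernel)

/-- certificate -/
def omQC : List ℕ :=
  [1061157, 2110197, 8397366, 3158774, 2109737, 1061625, 3158314, 50402080, 33628960, 67190560,
  16982512, 16786211, 67309347, 50529011, 33759475, 50340644, 2148732706, 1880294130,
  1074995442]

/-- expression -/
def omQE : E :=
  let t : E := .v 0
  let u : E := .v 1
  let a : E := .v 2
  let b : E := .v 3
  .as (.cm t u) a b

/-- `([t, u], a, b) = 0` -/
theorem Om.n1 {t u : A} (ht : Om t) (hu : Om u) (h : RAL A) (a b : A) :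
    ass (cmm t u) a b = 0 :=
  ev_of_checkE h.tor omKZ (ht.kz hu (ρ := fun i => if i = 0 then t else if i = 1 then u else
    if i = 2 then a else b) h rfl rfl) 0 omQE omQC (by decide +kernel)

/-- `(a, b, [t, u]) = 0` -/
theorem Om.n3 {t u : A} (ht : Om t) (hu : Om u) (h : RAL A) (a b : A) :
    ass a b (cmm t u) = 0 := by
  rw [h.sk, ht.n2 hu h, neg_zero]

theorem Om.cmm {t u : A} (ht : Om t) (hu : Om u) (h : RAL A) : Om (cmm t u) := by
  rw [h.om_iff]
  intro a b
  rw [ht.n1 hu h, ht.n2 hu h, smul_zero]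

/-- certificate -/
def omEC : List ℕ :=
  [6304038, 11547174, 12591670, 5255926, 5255466, 12591418, 5255930, 83960608, 100744992,
  100733488, 83960368, 83963696, 100807152, 83890979, 100863779, 84021043, 84083443, 100795379,
  100868339, 83895076, 184684340, 184746740, 1343300354, 1611801346, 1613836034, 1344478978,
  1612726034, 1345457938, 1343357730, 3222474530, 1610818034, 3222406130, 1611866354]

/-- expression -/
def omEE : E :=
  let t : E := .v 0
  let u : E := .v 1
  let a : E := .v 2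
  let b : E := .v 3
  .sub (.cm (.as a t b) u) (.cm (.as a u b) t)

/-- `[θ_t(a, b), u] = [θ_u(a, b), t]` -/
theorem Om.esym {t u : A} (ht : Om t) (hu : Om u) (h : RAL A) (a b : A) :
    NACert.cmm (ass a t b) u = NACert.cmm (ass a u b) t := by
  rw [← sub_eq_zero]
  exact ev_of_checkE h.tor omKZ (ht.kz hu (ρ := fun i => if i = 0 then t else if i = 1 then u else
    if i = 2 then a else b) h rfl rfl) 1 omEE omEC (by decide +kernel)

/-- certificate -/
def omFC : List ℕ :=
  [36708662, 37761782, 56635689, 56631609, 55583737, 55587577, 74461482, 604050208, 587407856,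
  301998883, 301998643, 906174707, 1191379699, 285356275, 14496703234, 9397419778, 9666961154,
  4563542802, 19329650450, 9663812386, 9396494578, 14229373426]

/-- expression -/
def omFE : E :=
  let t : E := .v 0
  let u : E := .v 1
  let a : E := .v 2
  let b : E := .v 3
  .sub (.cm (.as a t b) u) (.sm 2 (.as (.cm a t) u b))

/-- `[θ_t(a, b), u] = 2 θ_u([a, t], b)` -/
theorem Om.eth {t u : A} (ht : Om t) (hu : Om u) (h : RAL A) (a b : A) :
    NACert.cmm (ass a t b) u = (2 : ℤ) • ass (NACert.cmm a t) u b := by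
  rw [← sub_eq_zero]
  exact ev_of_checkE h.tor omKZ (ht.kz hu (ρ := fun i => if i = 0 then t else if i = 1 then u else
    if i = 2 then a else b) h rfl rfl) 2 omFE omFC (by decide +kernel)

/-- `θ_t(a, b) a` is in `Ω` -/
theorem Om.tha {t : A} (ht : Om t) (h : RAL A) (a b : A) : Om (ass a t b * a) := by
  rw [ht.mid h]
  exact ht.th h _ _

/-- `θ_u(a, c) θ_t(a, b) = 0` -/
theorem Om.thth {t u : A} (ht : Om t) (hu : Om u) (h : RAL A) (a b c : A) :
    ass a u c * ass a t b = 0 := by
  rw [← hu.mulR (ht.th h a b) h, (ht.tha h a b).z1 hu h]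

/-- `[θ_t(a, b), u]² = 0` -/
theorem Om.esq {t u : A} (ht : Om t) (hu : Om u) (h : RAL A) (a b : A) :
    NACert.cmm (ass a t b) u * NACert.cmm (ass a t b) u = 0 := by
  rw [ht.eth hu h, smul_mul_assoc, mul_smul_comm, hu.thth hu h, smul_zero, smul_zero]

/-- `θ(a,b) c + θ(a,c) b = θ(ba,c) + θ(ca,b)` -/
theorem Om.v5 {t : A} (ht : Om t) (h : RAL A) (a b c : A) :
    ass a t b * c + ass a t c * b = ass (b * a) t c + ass (c * a) t b := by
  have h1 := ht.rel h b a c
  rw [ht.skew h b a, neg_mul] at h1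
  linear_combination (norm := module) - h1

/-- certificate -/
def omVC : List ℕ :=
  [16978448, 16913168, 33763088, 33701648, 16982512, 16921072, 538059522, 270598930, 268575506,
  540151570, 270729714, 539169010]

/-- expression -/
def omVE : E :=
  let t : E := .v 0
  let a : E := .v 1
  let b : E := .v 2
  let c : E := .v 3
  .sub (.sub (.add (.sub (.sub (.as a (.cm t c) b) (.mul a (.as c t b))) (.sm 2 (.as (.mul a b) t c)))
    (.as a t (.add (.mul b c) (.mul c b)))) (.as (.mul a c) t b)) (.mul (.as a t b) c)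

/-- `(a, [t, c], b) = a θ(c,b) + 2 θ(ab,c) - θ(a, bc + cb) + θ(ac,b) + θ(a,b) c` -/
theorem Om.v6 {t : A} (ht : Om t) (h : RAL A) (a b c : A) :
    ass a (NACert.cmm t c) b = a * ass c t b + (2 : ℤ) • ass (a * b) t c
      - ass a t (b * c + c * b) + ass (a * c) t b + ass a t b * c := by
  have h1 := ev_of_checkE h.tor omKT (ht.kt (ρ := fun i => if i = 0 then t else if i = 1 then a else
    if i = 2 then b else c) h rfl) 0 omVE omVC (by decide +kernel)
  have h2 : ass a (NACert.cmm t c) b - a * ass c t b - (2 : ℤ) • ass (a * b) t c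
      + ass a t (b * c + c * b) - ass (a * c) t b - ass a t b * c = 0 := h1
  linear_combination (norm := module) h2

/-- certificate -/
def omXC : List ℕ :=
  [100864528, 100799248, 84033296, 84094736, 83960608, 83960368, 100868592, 100807152,
  1343365890, 3223388946, 1610752786, 2956070674, 3223519730, 1344475378]

/-- expression -/
def omXE : E :=
  let t : E := .v 0
  let a : E := .v 1
  let b : E := .v 2
  let c : E := .v 3
  .sub (.sub (.sub (.as (.mul a b) t c) (.mul a (.as b t c))) (.mul (.as a t c) b)) (.as a (.cm t c) b)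

/-- `θ(ab,c) = a θ(b,c) + θ(a,c) b + (a, [t, c], b)` -/
theorem Om.der {t : A} (ht : Om t) (h : RAL A) (a b c : A) :
    ass (a * b) t c = a * ass b t c + ass a t c * b + ass a (NACert.cmm t c) b := by
  have h1 := ev_of_checkE h.tor omKT (ht.kt (ρ := fun i => if i = 0 then t else if i = 1 then a else
    if i = 2 then b else c) h rfl) 1 omXE omXC (by decide +kernel)
  have h2 : ass (a * b) t c - a * ass b t c - ass a t c * b - ass a (NACert.cmm t c) b = 0 := h1
  linear_combination (norm := module) h2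

end Pool.Agent.NACert
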