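import Pool.Agent.NACert.OmegaS
import Pool.Agent.NACert.Zc

/-!
# Elements whose commutator map is a derivation: the Malcev identity

Let `A` be right alternative and Malcev-admissible, and `t` in `Ω`.  We write `θ a b = (a, t, b)` and
`κ a b c = [(a, t, b), c]`.
-/

namespace Pool.Agent.NACert

open Fast

section ring

variable {A : Type*} [NonUnitalNonAssocRing A]

/-! ### expressions -/

/-- the Jacobian -/
def jc (a b c : A) : A := cmm (cmm a b) c + cmm (cmm b c) a + cmm (cmm c a) b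

/-- the cyclic sum `θ([a, b], c) + θ([b, c], a) + θ([c, a], b)` -/
def th3 (t a b c : A) : A := ass (cmm a b) t c + ass (cmm b c) t a + ass (cmm c a) t b

/-- Jacobian of expressions -/
@[reducible] def jcE (a b c : E) : E :=
  .add (.add (.cm (.cm a b) c) (.cm (.cm b c) a)) (.cm (.cm c a) b)

/-- `th3` of expressions -/
@[reducible] def th3E (t a b c : E) : E :=
  .add (.add (.as (.cm a b) t c) (.as (.cm b c) t a)) (.as (.cm c a) t b)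

/-- `κ` of expressions -/
@[reducible] def kpE (t a b c : E) : E := .cm (.as a t b) c

/-- `a b + b a` of expressions -/
@[reducible] def joE (a b : E) : E := .add (.mul a b) (.mul b a)

theorem RAL.jc_eq (h : RAL A) (a b c : A) :
    jc a b c = (2 : ℤ) • (ass a b c + ass b c a + ass c a b) := by
  have h1 := h.sk a b c
  have h2 := h.sk b c a
  have h3 := h.sk c a b
  simp only [ass] at h1 h2 h3 ⊢
  simp only [jc, cmm, mul_sub, sub_mul]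
  linear_combination (norm := module) - h1 - h2 - h3

/-! ### templates -/

/-- `[t ∘ x, y] - t ∘ [x, y] - [t, y] ∘ x - 6 θ(x, y)` -/
def kbT : Tm :=
  (.cons true 1 (.m (.m (.v 0) (.v 1)) (.v 2))
  (.cons false 5 (.m (.m (.v 1) (.v 0)) (.v 2))
  (.cons false 1 (.m (.v 2) (.m (.v 0) (.v 1)))
  (.cons false 1 (.m (.v 2) (.m (.v 1) (.v 0)))
  (.cons false 1 (.m (.v 0) (.m (.v 1) (.v 2)))
  (.cons true 1 (.m (.v 0) (.m (.v 2) (.v 1)))
  (.cons false 1 (.m (.m (.v 1) (.v 2)) (.v 0))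
  (.cons true 1 (.m (.m (.v 2) (.v 1)) (.v 0))
  (.cons false 1 (.m (.m (.v 0) (.v 2)) (.v 1))
  (.cons true 1 (.m (.m (.v 2) (.v 0)) (.v 1))
  (.cons true 5 (.m (.v 1) (.m (.v 0) (.v 2)))
  (.cons true 1 (.m (.v 1) (.m (.v 2) (.v 0)))
  .nil))))))))))))

/-- `J(t ∘ x, y, z)` -/
def kaT : Tm :=
  (.cons true 1 (.m (.m (.m (.v 0) (.v 1)) (.v 2)) (.v 3))
  (.cons false 3 (.m (.m (.m (.v 1) (.v 0)) (.v 2)) (.v 3))
  (.cons false 1 (.m (.m (.v 2) (.m (.v 0) (.v 1))) (.v 3))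
  (.cons false 1 (.m (.m (.v 2) (.m (.v 1) (.v 0))) (.v 3))
  (.cons false 1 (.m (.v 3) (.m (.m (.v 0) (.v 1)) (.v 2)))
  (.cons true 3 (.m (.v 3) (.m (.m (.v 1) (.v 0)) (.v 2)))
  (.cons true 1 (.m (.v 3) (.m (.v 2) (.m (.v 0) (.v 1))))
  (.cons true 1 (.m (.v 3) (.m (.v 2) (.m (.v 1) (.v 0))))
  (.cons true 5 (.m (.m (.v 2) (.v 3)) (.m (.v 0) (.v 1)))
  (.cons true 1 (.m (.m (.v 2) (.v 3)) (.m (.v 1) (.v 0)))
  (.cons false 5 (.m (.m (.v 3) (.v 2)) (.m (.v 0) (.v 1)))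
  (.cons false 1 (.m (.m (.v 3) (.v 2)) (.m (.v 1) (.v 0)))
  (.cons false 1 (.m (.m (.v 0) (.v 1)) (.m (.v 2) (.v 3)))
  (.cons true 1 (.m (.m (.v 0) (.v 1)) (.m (.v 3) (.v 2)))
  (.cons false 1 (.m (.m (.v 1) (.v 0)) (.m (.v 2) (.v 3)))
  (.cons true 1 (.m (.m (.v 1) (.v 0)) (.m (.v 3) (.v 2)))
  (.cons true 5 (.m (.m (.v 3) (.m (.v 0) (.v 1))) (.v 2))
  (.cons true 1 (.m (.m (.v 3) (.m (.v 1) (.v 0))) (.v 2))
  (.cons false 1 (.m (.m (.m (.v 0) (.v 1)) (.v 3)) (.v 2))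
  (.cons false 1 (.m (.m (.m (.v 1) (.v 0)) (.v 3)) (.v 2))
  (.cons false 5 (.m (.v 2) (.m (.v 3) (.m (.v 0) (.v 1))))
  (.cons false 1 (.m (.v 2) (.m (.v 3) (.m (.v 1) (.v 0))))
  (.cons true 1 (.m (.v 2) (.m (.m (.v 0) (.v 1)) (.v 3)))
  (.cons true 1 (.m (.v 2) (.m (.m (.v 1) (.v 0)) (.v 3)))
  (.cons false 1 (.m (.v 0) (.m (.m (.v 1) (.v 2)) (.v 3)))
  (.cons true 1 (.m (.v 0) (.m (.m (.v 2) (.v 1)) (.v 3)))
  (.cons true 1 (.m (.v 0) (.m (.v 3) (.m (.v 1) (.v 2))))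
  (.cons false 1 (.m (.v 0) (.m (.v 3) (.m (.v 2) (.v 1))))
  (.cons false 1 (.m (.v 0) (.m (.m (.v 2) (.v 3)) (.v 1)))
  (.cons true 1 (.m (.v 0) (.m (.m (.v 3) (.v 2)) (.v 1)))
  (.cons true 1 (.m (.v 0) (.m (.v 1) (.m (.v 2) (.v 3))))
  (.cons false 1 (.m (.v 0) (.m (.v 1) (.m (.v 3) (.v 2))))
  (.cons false 1 (.m (.v 0) (.m (.m (.v 3) (.v 1)) (.v 2)))
  (.cons true 1 (.m (.v 0) (.m (.m (.v 1) (.v 3)) (.v 2)))
  (.cons true 1 (.m (.v 0) (.m (.v 2) (.m (.v 3) (.v 1))))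
  (.cons false 1 (.m (.v 0) (.m (.v 2) (.m (.v 1) (.v 3))))
  (.cons false 1 (.m (.m (.m (.v 1) (.v 2)) (.v 3)) (.v 0))
  (.cons true 1 (.m (.m (.m (.v 2) (.v 1)) (.v 3)) (.v 0))
  (.cons true 1 (.m (.m (.v 3) (.m (.v 1) (.v 2))) (.v 0))
  (.cons false 1 (.m (.m (.v 3) (.m (.v 2) (.v 1))) (.v 0))
  (.cons false 1 (.m (.m (.m (.v 2) (.v 3)) (.v 1)) (.v 0))
  (.cons true 1 (.m (.m (.m (.v 3) (.v 2)) (.v 1)) (.v 0))
  (.cons true 1 (.m (.m (.v 1) (.m (.v 2) (.v 3))) (.v 0))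
  (.cons false 1 (.m (.m (.v 1) (.m (.v 3) (.v 2))) (.v 0))
  (.cons false 1 (.m (.m (.m (.v 3) (.v 1)) (.v 2)) (.v 0))
  (.cons true 1 (.m (.m (.m (.v 1) (.v 3)) (.v 2)) (.v 0))
  (.cons true 1 (.m (.m (.v 2) (.m (.v 3) (.v 1))) (.v 0))
  (.cons false 1 (.m (.m (.v 2) (.m (.v 1) (.v 3))) (.v 0))
  (.cons false 4 (.m (.m (.m (.v 1) (.v 2)) (.v 0)) (.v 3))
  (.cons true 4 (.m (.m (.m (.v 2) (.v 1)) (.v 0)) (.v 3))
  (.cons true 4 (.m (.m (.v 1) (.v 2)) (.m (.v 0) (.v 3)))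
  (.cons false 4 (.m (.m (.v 2) (.v 1)) (.m (.v 0) (.v 3)))
  (.cons false 4 (.m (.m (.m (.v 2) (.v 3)) (.v 0)) (.v 1))
  (.cons true 4 (.m (.m (.m (.v 3) (.v 2)) (.v 0)) (.v 1))
  (.cons false 4 (.m (.m (.m (.v 3) (.v 1)) (.v 0)) (.v 2))
  (.cons true 4 (.m (.m (.m (.v 1) (.v 3)) (.v 0)) (.v 2))
  (.cons true 4 (.m (.m (.v 3) (.v 1)) (.m (.v 0) (.v 2)))
  (.cons false 4 (.m (.m (.v 1) (.v 3)) (.m (.v 0) (.v 2)))
  (.cons true 4 (.m (.m (.v 1) (.m (.v 0) (.v 2))) (.v 3))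
  (.cons false 4 (.m (.v 3) (.m (.v 1) (.m (.v 0) (.v 2))))
  (.cons true 8 (.m (.m (.m (.v 2) (.v 0)) (.v 3)) (.v 1))
  (.cons false 8 (.m (.m (.v 2) (.m (.v 0) (.v 3))) (.v 1))
  (.cons false 8 (.m (.v 1) (.m (.m (.v 2) (.v 0)) (.v 3)))
  (.cons true 8 (.m (.v 1) (.m (.v 2) (.m (.v 0) (.v 3))))
  (.cons false 4 (.m (.m (.m (.v 3) (.v 0)) (.v 1)) (.v 2))
  (.cons true 4 (.m (.v 2) (.m (.m (.v 3) (.v 0)) (.v 1)))
  .nil))))))))))))))))))))))))))))))))))))))))))))))))))))))))))))))))))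

/-- `J(t, x, y)` -/
def jnT : Tm :=
  (.cons true 1 (.m (.m (.v 0) (.v 1)) (.v 2))
  (.cons false 1 (.m (.m (.v 1) (.v 0)) (.v 2))
  (.cons false 1 (.m (.v 2) (.m (.v 0) (.v 1)))
  (.cons true 1 (.m (.v 2) (.m (.v 1) (.v 0)))
  (.cons true 1 (.m (.m (.v 1) (.v 2)) (.v 0))
  (.cons false 1 (.m (.m (.v 2) (.v 1)) (.v 0))
  (.cons false 1 (.m (.v 0) (.m (.v 1) (.v 2)))
  (.cons true 1 (.m (.v 0) (.m (.v 2) (.v 1)))
  (.cons true 1 (.m (.m (.v 2) (.v 0)) (.v 1))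
  (.cons false 1 (.m (.m (.v 0) (.v 2)) (.v 1))
  (.cons false 1 (.m (.v 1) (.m (.v 2) (.v 0)))
  (.cons true 1 (.m (.v 1) (.m (.v 0) (.v 2)))
  .nil))))))))))))

/-- `J(θ(a, b), x, y)` -/
def jthT : Tm :=
  (.cons true 1 (.m (.m (.m (.m (.v 1) (.v 0)) (.v 2)) (.v 3)) (.v 4))
  (.cons false 1 (.m (.m (.m (.v 1) (.m (.v 0) (.v 2))) (.v 3)) (.v 4))
  (.cons false 1 (.m (.m (.v 3) (.m (.m (.v 1) (.v 0)) (.v 2))) (.v 4))
  (.cons true 1 (.m (.m (.v 3) (.m (.v 1) (.m (.v 0) (.v 2)))) (.v 4))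
  (.cons false 1 (.m (.v 4) (.m (.m (.m (.v 1) (.v 0)) (.v 2)) (.v 3)))
  (.cons true 1 (.m (.v 4) (.m (.m (.v 1) (.m (.v 0) (.v 2))) (.v 3)))
  (.cons true 1 (.m (.v 4) (.m (.v 3) (.m (.m (.v 1) (.v 0)) (.v 2))))
  (.cons false 1 (.m (.v 4) (.m (.v 3) (.m (.v 1) (.m (.v 0) (.v 2)))))
  (.cons true 1 (.m (.m (.v 3) (.v 4)) (.m (.m (.v 1) (.v 0)) (.v 2)))
  (.cons false 1 (.m (.m (.v 3) (.v 4)) (.m (.v 1) (.m (.v 0) (.v 2))))
  (.cons false 1 (.m (.m (.v 4) (.v 3)) (.m (.m (.v 1) (.v 0)) (.v 2)))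
  (.cons true 1 (.m (.m (.v 4) (.v 3)) (.m (.v 1) (.m (.v 0) (.v 2))))
  (.cons false 1 (.m (.m (.m (.v 1) (.v 0)) (.v 2)) (.m (.v 3) (.v 4)))
  (.cons true 1 (.m (.m (.m (.v 1) (.v 0)) (.v 2)) (.m (.v 4) (.v 3)))
  (.cons true 1 (.m (.m (.v 1) (.m (.v 0) (.v 2))) (.m (.v 3) (.v 4)))
  (.cons false 1 (.m (.m (.v 1) (.m (.v 0) (.v 2))) (.m (.v 4) (.v 3)))
  (.cons true 1 (.m (.m (.v 4) (.m (.m (.v 1) (.v 0)) (.v 2))) (.v 3))
  (.cons false 1 (.m (.m (.v 4) (.m (.v 1) (.m (.v 0) (.v 2)))) (.v 3))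
  (.cons false 1 (.m (.m (.m (.m (.v 1) (.v 0)) (.v 2)) (.v 4)) (.v 3))
  (.cons true 1 (.m (.m (.m (.v 1) (.m (.v 0) (.v 2))) (.v 4)) (.v 3))
  (.cons false 1 (.m (.v 3) (.m (.v 4) (.m (.m (.v 1) (.v 0)) (.v 2))))
  (.cons true 1 (.m (.v 3) (.m (.v 4) (.m (.v 1) (.m (.v 0) (.v 2)))))
  (.cons true 1 (.m (.v 3) (.m (.m (.m (.v 1) (.v 0)) (.v 2)) (.v 4)))
  (.cons false 1 (.m (.v 3) (.m (.m (.v 1) (.m (.v 0) (.v 2))) (.v 4)))
  .nil))))))))))))))))))))))))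

set_option maxRecDepth 20000 in
/-- Malcev identity for `J(w, t ∘ x, [v, z])` -/
def bpT : Tm :=
  (.cons true 12 (.m (.m (.m (.m (.v 1) (.v 0)) (.v 3)) (.v 2)) (.v 4))
  (.cons true 12 (.m (.m (.m (.m (.v 2) (.v 0)) (.v 3)) (.v 1)) (.v 4))
  (.cons false 12 (.m (.m (.m (.v 1) (.m (.v 0) (.v 3))) (.v 2)) (.v 4))
  (.cons false 12 (.m (.m (.m (.v 2) (.m (.v 0) (.v 3))) (.v 1)) (.v 4))
  (.cons false 12 (.m (.m (.v 1) (.m (.m (.v 2) (.v 0)) (.v 3))) (.v 4))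
  (.cons false 12 (.m (.m (.v 2) (.m (.m (.v 1) (.v 0)) (.v 3))) (.v 4))
  (.cons true 12 (.m (.m (.v 1) (.m (.v 2) (.m (.v 0) (.v 3)))) (.v 4))
  (.cons true 12 (.m (.m (.v 2) (.m (.v 1) (.m (.v 0) (.v 3)))) (.v 4))
  (.cons false 8 (.m (.m (.m (.v 1) (.v 0)) (.m (.v 2) (.v 3))) (.v 4))
  (.cons false 8 (.m (.m (.m (.v 2) (.v 0)) (.m (.v 1) (.v 3))) (.v 4))
  (.cons true 8 (.m (.m (.m (.v 1) (.v 0)) (.m (.v 3) (.v 2))) (.v 4))
  (.cons true 8 (.m (.m (.m (.v 2) (.v 0)) (.m (.v 3) (.v 1))) (.v 4))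
  (.cons true 8 (.m (.m (.v 1) (.m (.v 0) (.m (.v 2) (.v 3)))) (.v 4))
  (.cons true 8 (.m (.m (.v 2) (.m (.v 0) (.m (.v 1) (.v 3)))) (.v 4))
  (.cons false 8 (.m (.m (.v 1) (.m (.v 0) (.m (.v 3) (.v 2)))) (.v 4))
  (.cons false 8 (.m (.m (.v 2) (.m (.v 0) (.m (.v 3) (.v 1)))) (.v 4))
  (.cons false 12 (.m (.v 4) (.m (.m (.m (.v 1) (.v 0)) (.v 3)) (.v 2)))
  (.cons false 12 (.m (.v 4) (.m (.m (.m (.v 2) (.v 0)) (.v 3)) (.v 1)))
  (.cons true 12 (.m (.v 4) (.m (.m (.v 1) (.m (.v 0) (.v 3))) (.v 2)))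
  (.cons true 12 (.m (.v 4) (.m (.m (.v 2) (.m (.v 0) (.v 3))) (.v 1)))
  (.cons true 12 (.m (.v 4) (.m (.v 1) (.m (.m (.v 2) (.v 0)) (.v 3))))
  (.cons true 12 (.m (.v 4) (.m (.v 2) (.m (.m (.v 1) (.v 0)) (.v 3))))
  (.cons false 12 (.m (.v 4) (.m (.v 1) (.m (.v 2) (.m (.v 0) (.v 3)))))
  (.cons false 12 (.m (.v 4) (.m (.v 2) (.m (.v 1) (.m (.v 0) (.v 3)))))
  (.cons true 8 (.m (.v 4) (.m (.m (.v 1) (.v 0)) (.m (.v 2) (.v 3))))
  (.cons true 8 (.m (.v 4) (.m (.m (.v 2) (.v 0)) (.m (.v 1) (.v 3))))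
  (.cons false 8 (.m (.v 4) (.m (.m (.v 1) (.v 0)) (.m (.v 3) (.v 2))))
  (.cons false 8 (.m (.v 4) (.m (.m (.v 2) (.v 0)) (.m (.v 3) (.v 1))))
  (.cons false 8 (.m (.v 4) (.m (.v 1) (.m (.v 0) (.m (.v 2) (.v 3)))))
  (.cons false 8 (.m (.v 4) (.m (.v 2) (.m (.v 0) (.m (.v 1) (.v 3)))))
  (.cons true 8 (.m (.v 4) (.m (.v 1) (.m (.v 0) (.m (.v 3) (.v 2)))))
  (.cons true 8 (.m (.v 4) (.m (.v 2) (.m (.v 0) (.m (.v 3) (.v 1)))))
  (.cons true 12 (.m (.m (.m (.v 1) (.v 0)) (.v 3)) (.m (.v 4) (.v 2)))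
  (.cons true 12 (.m (.m (.m (.v 2) (.v 0)) (.v 3)) (.m (.v 4) (.v 1)))
  (.cons false 12 (.m (.m (.m (.v 1) (.v 0)) (.v 3)) (.m (.v 2) (.v 4)))
  (.cons false 12 (.m (.m (.m (.v 2) (.v 0)) (.v 3)) (.m (.v 1) (.v 4)))
  (.cons false 12 (.m (.m (.v 1) (.m (.v 0) (.v 3))) (.m (.v 4) (.v 2)))
  (.cons false 12 (.m (.m (.v 2) (.m (.v 0) (.v 3))) (.m (.v 4) (.v 1)))
  (.cons true 12 (.m (.m (.v 1) (.m (.v 0) (.v 3))) (.m (.v 2) (.v 4)))
  (.cons true 12 (.m (.m (.v 2) (.m (.v 0) (.v 3))) (.m (.v 1) (.v 4)))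
  (.cons false 12 (.m (.m (.v 4) (.v 1)) (.m (.m (.v 2) (.v 0)) (.v 3)))
  (.cons false 12 (.m (.m (.v 4) (.v 2)) (.m (.m (.v 1) (.v 0)) (.v 3)))
  (.cons true 12 (.m (.m (.v 4) (.v 1)) (.m (.v 2) (.m (.v 0) (.v 3))))
  (.cons true 12 (.m (.m (.v 4) (.v 2)) (.m (.v 1) (.m (.v 0) (.v 3))))
  (.cons true 12 (.m (.m (.v 1) (.v 4)) (.m (.m (.v 2) (.v 0)) (.v 3)))
  (.cons true 12 (.m (.m (.v 2) (.v 4)) (.m (.m (.v 1) (.v 0)) (.v 3)))
  (.cons false 12 (.m (.m (.v 1) (.v 4)) (.m (.v 2) (.m (.v 0) (.v 3))))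
  (.cons false 12 (.m (.m (.v 2) (.v 4)) (.m (.v 1) (.m (.v 0) (.v 3))))
  (.cons true 4 (.m (.m (.m (.v 4) (.v 1)) (.v 0)) (.m (.v 2) (.v 3)))
  (.cons true 4 (.m (.m (.m (.v 4) (.v 2)) (.v 0)) (.m (.v 1) (.v 3)))
  (.cons false 4 (.m (.m (.m (.v 4) (.v 1)) (.v 0)) (.m (.v 3) (.v 2)))
  (.cons false 4 (.m (.m (.m (.v 4) (.v 2)) (.v 0)) (.m (.v 3) (.v 1)))
  (.cons false 4 (.m (.m (.m (.v 1) (.v 4)) (.v 0)) (.m (.v 2) (.v 3)))
  (.cons false 4 (.m (.m (.m (.v 2) (.v 4)) (.v 0)) (.m (.v 1) (.v 3)))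
  (.cons true 4 (.m (.m (.m (.v 1) (.v 4)) (.v 0)) (.m (.v 3) (.v 2)))
  (.cons true 4 (.m (.m (.m (.v 2) (.v 4)) (.v 0)) (.m (.v 3) (.v 1)))
  (.cons false 4 (.m (.m (.v 4) (.v 1)) (.m (.v 0) (.m (.v 2) (.v 3))))
  (.cons false 4 (.m (.m (.v 4) (.v 2)) (.m (.v 0) (.m (.v 1) (.v 3))))
  (.cons true 4 (.m (.m (.v 4) (.v 1)) (.m (.v 0) (.m (.v 3) (.v 2))))
  (.cons true 4 (.m (.m (.v 4) (.v 2)) (.m (.v 0) (.m (.v 3) (.v 1))))
  (.cons true 4 (.m (.m (.v 1) (.v 4)) (.m (.v 0) (.m (.v 2) (.v 3))))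
  (.cons true 4 (.m (.m (.v 2) (.v 4)) (.m (.v 0) (.m (.v 1) (.v 3))))
  (.cons false 4 (.m (.m (.v 1) (.v 4)) (.m (.v 0) (.m (.v 3) (.v 2))))
  (.cons false 4 (.m (.m (.v 2) (.v 4)) (.m (.v 0) (.m (.v 3) (.v 1))))
  (.cons true 4 (.m (.m (.m (.v 1) (.m (.v 2) (.v 3))) (.v 0)) (.v 4))
  (.cons true 4 (.m (.m (.m (.v 2) (.m (.v 1) (.v 3))) (.v 0)) (.v 4))
  (.cons false 4 (.m (.m (.m (.v 1) (.m (.v 3) (.v 2))) (.v 0)) (.v 4))
  (.cons false 4 (.m (.m (.m (.v 2) (.m (.v 3) (.v 1))) (.v 0)) (.v 4))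
  (.cons false 4 (.m (.m (.m (.m (.v 1) (.v 3)) (.v 2)) (.v 0)) (.v 4))
  (.cons false 4 (.m (.m (.m (.m (.v 2) (.v 3)) (.v 1)) (.v 0)) (.v 4))
  (.cons true 4 (.m (.m (.m (.m (.v 3) (.v 1)) (.v 2)) (.v 0)) (.v 4))
  (.cons true 4 (.m (.m (.m (.m (.v 3) (.v 2)) (.v 1)) (.v 0)) (.v 4))
  (.cons false 4 (.m (.m (.v 1) (.m (.v 2) (.v 3))) (.m (.v 0) (.v 4)))
  (.cons false 4 (.m (.m (.v 2) (.m (.v 1) (.v 3))) (.m (.v 0) (.v 4)))
  (.cons true 4 (.m (.m (.v 1) (.m (.v 3) (.v 2))) (.m (.v 0) (.v 4)))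
  (.cons true 4 (.m (.m (.v 2) (.m (.v 3) (.v 1))) (.m (.v 0) (.v 4)))
  (.cons true 4 (.m (.m (.m (.v 1) (.v 3)) (.v 2)) (.m (.v 0) (.v 4)))
  (.cons true 4 (.m (.m (.m (.v 2) (.v 3)) (.v 1)) (.m (.v 0) (.v 4)))
  (.cons false 4 (.m (.m (.m (.v 3) (.v 1)) (.v 2)) (.m (.v 0) (.v 4)))
  (.cons false 4 (.m (.m (.m (.v 3) (.v 2)) (.v 1)) (.m (.v 0) (.v 4)))
  (.cons false 2 (.m (.m (.m (.m (.v 1) (.v 3)) (.v 4)) (.v 0)) (.v 2))
  (.cons false 2 (.m (.m (.m (.m (.v 2) (.v 3)) (.v 4)) (.v 0)) (.v 1))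
  (.cons true 2 (.m (.m (.m (.m (.v 3) (.v 1)) (.v 4)) (.v 0)) (.v 2))
  (.cons true 2 (.m (.m (.m (.m (.v 3) (.v 2)) (.v 4)) (.v 0)) (.v 1))
  (.cons true 2 (.m (.m (.m (.v 4) (.m (.v 1) (.v 3))) (.v 0)) (.v 2))
  (.cons true 2 (.m (.m (.m (.v 4) (.m (.v 2) (.v 3))) (.v 0)) (.v 1))
  (.cons false 2 (.m (.m (.m (.v 4) (.m (.v 3) (.v 1))) (.v 0)) (.v 2))
  (.cons false 2 (.m (.m (.m (.v 4) (.m (.v 3) (.v 2))) (.v 0)) (.v 1))
  (.cons true 1 (.m (.m (.m (.v 1) (.v 3)) (.v 4)) (.m (.v 0) (.v 2)))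
  (.cons true 1 (.m (.m (.m (.v 2) (.v 3)) (.v 4)) (.m (.v 0) (.v 1)))
  (.cons false 1 (.m (.m (.m (.v 3) (.v 1)) (.v 4)) (.m (.v 0) (.v 2)))
  (.cons false 1 (.m (.m (.m (.v 3) (.v 2)) (.v 4)) (.m (.v 0) (.v 1)))
  (.cons false 1 (.m (.m (.v 4) (.m (.v 1) (.v 3))) (.m (.v 0) (.v 2)))
  (.cons false 1 (.m (.m (.v 4) (.m (.v 2) (.v 3))) (.m (.v 0) (.v 1)))
  (.cons true 1 (.m (.m (.v 4) (.m (.v 3) (.v 1))) (.m (.v 0) (.v 2)))
  (.cons true 1 (.m (.m (.v 4) (.m (.v 3) (.v 2))) (.m (.v 0) (.v 1)))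
  (.cons true 4 (.m (.m (.m (.v 4) (.v 0)) (.v 1)) (.m (.v 2) (.v 3)))
  (.cons true 4 (.m (.m (.m (.v 4) (.v 0)) (.v 2)) (.m (.v 1) (.v 3)))
  (.cons false 4 (.m (.m (.m (.v 4) (.v 0)) (.v 1)) (.m (.v 3) (.v 2)))
  (.cons false 4 (.m (.m (.m (.v 4) (.v 0)) (.v 2)) (.m (.v 3) (.v 1)))
  (.cons false 4 (.m (.m (.v 4) (.m (.v 0) (.v 1))) (.m (.v 2) (.v 3)))
  (.cons false 4 (.m (.m (.v 4) (.m (.v 0) (.v 2))) (.m (.v 1) (.v 3)))
  (.cons true 4 (.m (.m (.v 4) (.m (.v 0) (.v 1))) (.m (.v 3) (.v 2)))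
  (.cons true 4 (.m (.m (.v 4) (.m (.v 0) (.v 2))) (.m (.v 3) (.v 1)))
  (.cons false 4 (.m (.m (.v 1) (.v 3)) (.m (.m (.v 4) (.v 0)) (.v 2)))
  (.cons false 4 (.m (.m (.v 2) (.v 3)) (.m (.m (.v 4) (.v 0)) (.v 1)))
  (.cons true 4 (.m (.m (.v 1) (.v 3)) (.m (.v 4) (.m (.v 0) (.v 2))))
  (.cons true 4 (.m (.m (.v 2) (.v 3)) (.m (.v 4) (.m (.v 0) (.v 1))))
  (.cons true 4 (.m (.m (.v 3) (.v 1)) (.m (.m (.v 4) (.v 0)) (.v 2)))
  (.cons true 4 (.m (.m (.v 3) (.v 2)) (.m (.m (.v 4) (.v 0)) (.v 1)))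
  (.cons false 4 (.m (.m (.v 3) (.v 1)) (.m (.v 4) (.m (.v 0) (.v 2))))
  (.cons false 4 (.m (.m (.v 3) (.v 2)) (.m (.v 4) (.m (.v 0) (.v 1))))
  (.cons false 4 (.m (.m (.m (.m (.v 4) (.v 1)) (.v 0)) (.v 3)) (.v 2))
  (.cons false 4 (.m (.m (.m (.m (.v 4) (.v 2)) (.v 0)) (.v 3)) (.v 1))
  (.cons true 4 (.m (.m (.m (.m (.v 1) (.v 4)) (.v 0)) (.v 3)) (.v 2))
  (.cons true 4 (.m (.m (.m (.m (.v 2) (.v 4)) (.v 0)) (.v 3)) (.v 1))
  (.cons true 4 (.m (.m (.m (.v 4) (.v 1)) (.m (.v 0) (.v 3))) (.v 2))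
  (.cons true 4 (.m (.m (.m (.v 4) (.v 2)) (.m (.v 0) (.v 3))) (.v 1))
  (.cons false 4 (.m (.m (.m (.v 1) (.v 4)) (.m (.v 0) (.v 3))) (.v 2))
  (.cons false 4 (.m (.m (.m (.v 2) (.v 4)) (.m (.v 0) (.v 3))) (.v 1))
  (.cons false 4 (.m (.m (.m (.m (.v 3) (.v 4)) (.v 0)) (.v 1)) (.v 2))
  (.cons false 4 (.m (.m (.m (.m (.v 3) (.v 4)) (.v 0)) (.v 2)) (.v 1))
  (.cons true 4 (.m (.m (.m (.m (.v 4) (.v 3)) (.v 0)) (.v 1)) (.v 2))
  (.cons true 4 (.m (.m (.m (.m (.v 4) (.v 3)) (.v 0)) (.v 2)) (.v 1))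
  (.cons true 4 (.m (.m (.m (.v 3) (.v 4)) (.m (.v 0) (.v 1))) (.v 2))
  (.cons true 4 (.m (.m (.m (.v 3) (.v 4)) (.m (.v 0) (.v 2))) (.v 1))
  (.cons false 4 (.m (.m (.m (.v 4) (.v 3)) (.m (.v 0) (.v 1))) (.v 2))
  (.cons false 4 (.m (.m (.m (.v 4) (.v 3)) (.m (.v 0) (.v 2))) (.v 1))
  (.cons false 4 (.m (.m (.m (.m (.v 4) (.v 0)) (.v 1)) (.v 3)) (.v 2))
  (.cons false 4 (.m (.m (.m (.m (.v 4) (.v 0)) (.v 2)) (.v 3)) (.v 1))
  (.cons true 4 (.m (.m (.m (.v 4) (.m (.v 0) (.v 1))) (.v 3)) (.v 2))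
  (.cons true 4 (.m (.m (.m (.v 4) (.m (.v 0) (.v 2))) (.v 3)) (.v 1))
  (.cons true 4 (.m (.m (.v 3) (.m (.m (.v 4) (.v 0)) (.v 1))) (.v 2))
  (.cons true 4 (.m (.m (.v 3) (.m (.m (.v 4) (.v 0)) (.v 2))) (.v 1))
  (.cons false 4 (.m (.m (.v 3) (.m (.v 4) (.m (.v 0) (.v 1)))) (.v 2))
  (.cons false 4 (.m (.m (.v 3) (.m (.v 4) (.m (.v 0) (.v 2)))) (.v 1))
  (.cons false 4 (.m (.m (.m (.m (.v 1) (.v 0)) (.v 3)) (.v 4)) (.v 2))
  (.cons false 4 (.m (.m (.m (.m (.v 2) (.v 0)) (.v 3)) (.v 4)) (.v 1))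
  (.cons true 4 (.m (.m (.m (.v 1) (.m (.v 0) (.v 3))) (.v 4)) (.v 2))
  (.cons true 4 (.m (.m (.m (.v 2) (.m (.v 0) (.v 3))) (.v 4)) (.v 1))
  (.cons true 4 (.m (.m (.v 4) (.m (.m (.v 1) (.v 0)) (.v 3))) (.v 2))
  (.cons true 4 (.m (.m (.v 4) (.m (.m (.v 2) (.v 0)) (.v 3))) (.v 1))
  (.cons false 4 (.m (.m (.v 4) (.m (.v 1) (.m (.v 0) (.v 3)))) (.v 2))
  (.cons false 4 (.m (.m (.v 4) (.m (.v 2) (.m (.v 0) (.v 3)))) (.v 1))
  (.cons false 4 (.m (.m (.m (.m (.v 3) (.v 0)) (.v 4)) (.v 1)) (.v 2))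
  (.cons false 4 (.m (.m (.m (.m (.v 3) (.v 0)) (.v 4)) (.v 2)) (.v 1))
  (.cons true 4 (.m (.m (.m (.v 3) (.m (.v 0) (.v 4))) (.v 1)) (.v 2))
  (.cons true 4 (.m (.m (.m (.v 3) (.m (.v 0) (.v 4))) (.v 2)) (.v 1))
  (.cons true 4 (.m (.m (.v 1) (.m (.m (.v 3) (.v 0)) (.v 4))) (.v 2))
  (.cons true 4 (.m (.m (.v 2) (.m (.m (.v 3) (.v 0)) (.v 4))) (.v 1))
  (.cons false 4 (.m (.m (.v 1) (.m (.v 3) (.m (.v 0) (.v 4)))) (.v 2))
  (.cons false 4 (.m (.m (.v 2) (.m (.v 3) (.m (.v 0) (.v 4)))) (.v 1))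
  (.cons true 4 (.m (.v 1) (.m (.m (.m (.v 4) (.v 2)) (.v 0)) (.v 3)))
  (.cons true 4 (.m (.v 2) (.m (.m (.m (.v 4) (.v 1)) (.v 0)) (.v 3)))
  (.cons false 4 (.m (.v 1) (.m (.m (.m (.v 2) (.v 4)) (.v 0)) (.v 3)))
  (.cons false 4 (.m (.v 2) (.m (.m (.m (.v 1) (.v 4)) (.v 0)) (.v 3)))
  (.cons false 4 (.m (.v 1) (.m (.m (.v 4) (.v 2)) (.m (.v 0) (.v 3))))
  (.cons false 4 (.m (.v 2) (.m (.m (.v 4) (.v 1)) (.m (.v 0) (.v 3))))
  (.cons true 4 (.m (.v 1) (.m (.m (.v 2) (.v 4)) (.m (.v 0) (.v 3))))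
  (.cons true 4 (.m (.v 2) (.m (.m (.v 1) (.v 4)) (.m (.v 0) (.v 3))))
  (.cons true 4 (.m (.v 1) (.m (.m (.m (.v 3) (.v 4)) (.v 0)) (.v 2)))
  (.cons true 4 (.m (.v 2) (.m (.m (.m (.v 3) (.v 4)) (.v 0)) (.v 1)))
  (.cons false 4 (.m (.v 1) (.m (.m (.m (.v 4) (.v 3)) (.v 0)) (.v 2)))
  (.cons false 4 (.m (.v 2) (.m (.m (.m (.v 4) (.v 3)) (.v 0)) (.v 1)))
  (.cons false 4 (.m (.v 1) (.m (.m (.v 3) (.v 4)) (.m (.v 0) (.v 2))))
  (.cons false 4 (.m (.v 2) (.m (.m (.v 3) (.v 4)) (.m (.v 0) (.v 1))))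
  (.cons true 4 (.m (.v 1) (.m (.m (.v 4) (.v 3)) (.m (.v 0) (.v 2))))
  (.cons true 4 (.m (.v 2) (.m (.m (.v 4) (.v 3)) (.m (.v 0) (.v 1))))
  (.cons true 4 (.m (.v 1) (.m (.m (.m (.v 4) (.v 0)) (.v 2)) (.v 3)))
  (.cons true 4 (.m (.v 2) (.m (.m (.m (.v 4) (.v 0)) (.v 1)) (.v 3)))
  (.cons false 4 (.m (.v 1) (.m (.m (.v 4) (.m (.v 0) (.v 2))) (.v 3)))
  (.cons false 4 (.m (.v 2) (.m (.m (.v 4) (.m (.v 0) (.v 1))) (.v 3)))
  (.cons false 4 (.m (.v 1) (.m (.v 3) (.m (.m (.v 4) (.v 0)) (.v 2))))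
  (.cons false 4 (.m (.v 2) (.m (.v 3) (.m (.m (.v 4) (.v 0)) (.v 1))))
  (.cons true 4 (.m (.v 1) (.m (.v 3) (.m (.v 4) (.m (.v 0) (.v 2)))))
  (.cons true 4 (.m (.v 2) (.m (.v 3) (.m (.v 4) (.m (.v 0) (.v 1)))))
  (.cons true 4 (.m (.v 1) (.m (.m (.m (.v 2) (.v 0)) (.v 3)) (.v 4)))
  (.cons true 4 (.m (.v 2) (.m (.m (.m (.v 1) (.v 0)) (.v 3)) (.v 4)))
  (.cons false 4 (.m (.v 1) (.m (.m (.v 2) (.m (.v 0) (.v 3))) (.v 4)))
  (.cons false 4 (.m (.v 2) (.m (.m (.v 1) (.m (.v 0) (.v 3))) (.v 4)))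
  (.cons false 4 (.m (.v 1) (.m (.v 4) (.m (.m (.v 2) (.v 0)) (.v 3))))
  (.cons false 4 (.m (.v 2) (.m (.v 4) (.m (.m (.v 1) (.v 0)) (.v 3))))
  (.cons true 4 (.m (.v 1) (.m (.v 4) (.m (.v 2) (.m (.v 0) (.v 3)))))
  (.cons true 4 (.m (.v 2) (.m (.v 4) (.m (.v 1) (.m (.v 0) (.v 3)))))
  (.cons true 4 (.m (.v 1) (.m (.m (.m (.v 3) (.v 0)) (.v 4)) (.v 2)))
  (.cons true 4 (.m (.v 2) (.m (.m (.m (.v 3) (.v 0)) (.v 4)) (.v 1)))
  (.cons false 4 (.m (.v 1) (.m (.m (.v 3) (.m (.v 0) (.v 4))) (.v 2)))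
  (.cons false 4 (.m (.v 2) (.m (.m (.v 3) (.m (.v 0) (.v 4))) (.v 1)))
  (.cons false 4 (.m (.v 1) (.m (.v 2) (.m (.m (.v 3) (.v 0)) (.v 4))))
  (.cons false 4 (.m (.v 2) (.m (.v 1) (.m (.m (.v 3) (.v 0)) (.v 4))))
  (.cons true 4 (.m (.v 1) (.m (.v 2) (.m (.v 3) (.m (.v 0) (.v 4)))))
  (.cons true 4 (.m (.v 2) (.m (.v 1) (.m (.v 3) (.m (.v 0) (.v 4)))))
  (.cons true 1 (.m (.m (.v 1) (.v 0)) (.m (.m (.v 4) (.v 2)) (.v 3)))
  (.cons true 1 (.m (.m (.v 2) (.v 0)) (.m (.m (.v 4) (.v 1)) (.v 3)))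
  (.cons false 1 (.m (.m (.v 1) (.v 0)) (.m (.m (.v 2) (.v 4)) (.v 3)))
  (.cons false 1 (.m (.m (.v 2) (.v 0)) (.m (.m (.v 1) (.v 4)) (.v 3)))
  (.cons false 1 (.m (.m (.v 1) (.v 0)) (.m (.v 3) (.m (.v 4) (.v 2))))
  (.cons false 1 (.m (.m (.v 2) (.v 0)) (.m (.v 3) (.m (.v 4) (.v 1))))
  (.cons true 1 (.m (.m (.v 1) (.v 0)) (.m (.v 3) (.m (.v 2) (.v 4))))
  (.cons true 1 (.m (.m (.v 2) (.v 0)) (.m (.v 3) (.m (.v 1) (.v 4))))
  (.cons true 1 (.m (.m (.v 1) (.v 0)) (.m (.m (.v 2) (.v 3)) (.v 4)))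
  (.cons true 1 (.m (.m (.v 2) (.v 0)) (.m (.m (.v 1) (.v 3)) (.v 4)))
  (.cons false 1 (.m (.m (.v 1) (.v 0)) (.m (.m (.v 3) (.v 2)) (.v 4)))
  (.cons false 1 (.m (.m (.v 2) (.v 0)) (.m (.m (.v 3) (.v 1)) (.v 4)))
  (.cons false 1 (.m (.m (.v 1) (.v 0)) (.m (.v 4) (.m (.v 2) (.v 3))))
  (.cons false 1 (.m (.m (.v 2) (.v 0)) (.m (.v 4) (.m (.v 1) (.v 3))))
  (.cons true 1 (.m (.m (.v 1) (.v 0)) (.m (.v 4) (.m (.v 3) (.v 2))))
  (.cons true 1 (.m (.m (.v 2) (.v 0)) (.m (.v 4) (.m (.v 3) (.v 1))))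
  (.cons true 1 (.m (.m (.v 1) (.v 0)) (.m (.m (.v 3) (.v 4)) (.v 2)))
  (.cons true 1 (.m (.m (.v 2) (.v 0)) (.m (.m (.v 3) (.v 4)) (.v 1)))
  (.cons false 1 (.m (.m (.v 1) (.v 0)) (.m (.m (.v 4) (.v 3)) (.v 2)))
  (.cons false 1 (.m (.m (.v 2) (.v 0)) (.m (.m (.v 4) (.v 3)) (.v 1)))
  (.cons false 1 (.m (.m (.v 1) (.v 0)) (.m (.v 2) (.m (.v 3) (.v 4))))
  (.cons false 1 (.m (.m (.v 2) (.v 0)) (.m (.v 1) (.m (.v 3) (.v 4))))
  (.cons true 1 (.m (.m (.v 1) (.v 0)) (.m (.v 2) (.m (.v 4) (.v 3))))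
  (.cons true 1 (.m (.m (.v 2) (.v 0)) (.m (.v 1) (.m (.v 4) (.v 3))))
  (.cons false 1 (.m (.m (.v 0) (.v 1)) (.m (.m (.v 4) (.v 2)) (.v 3)))
  (.cons false 1 (.m (.m (.v 0) (.v 2)) (.m (.m (.v 4) (.v 1)) (.v 3)))
  (.cons true 1 (.m (.m (.v 0) (.v 1)) (.m (.m (.v 2) (.v 4)) (.v 3)))
  (.cons true 1 (.m (.m (.v 0) (.v 2)) (.m (.m (.v 1) (.v 4)) (.v 3)))
  (.cons true 1 (.m (.m (.v 0) (.v 1)) (.m (.v 3) (.m (.v 4) (.v 2))))
  (.cons true 1 (.m (.m (.v 0) (.v 2)) (.m (.v 3) (.m (.v 4) (.v 1))))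
  (.cons false 1 (.m (.m (.v 0) (.v 1)) (.m (.v 3) (.m (.v 2) (.v 4))))
  (.cons false 1 (.m (.m (.v 0) (.v 2)) (.m (.v 3) (.m (.v 1) (.v 4))))
  (.cons false 1 (.m (.m (.v 0) (.v 1)) (.m (.m (.v 2) (.v 3)) (.v 4)))
  (.cons false 1 (.m (.m (.v 0) (.v 2)) (.m (.m (.v 1) (.v 3)) (.v 4)))
  (.cons true 1 (.m (.m (.v 0) (.v 1)) (.m (.m (.v 3) (.v 2)) (.v 4)))
  (.cons true 1 (.m (.m (.v 0) (.v 2)) (.m (.m (.v 3) (.v 1)) (.v 4)))
  (.cons true 1 (.m (.m (.v 0) (.v 1)) (.m (.v 4) (.m (.v 2) (.v 3))))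
  (.cons true 1 (.m (.m (.v 0) (.v 2)) (.m (.v 4) (.m (.v 1) (.v 3))))
  (.cons false 1 (.m (.m (.v 0) (.v 1)) (.m (.v 4) (.m (.v 3) (.v 2))))
  (.cons false 1 (.m (.m (.v 0) (.v 2)) (.m (.v 4) (.m (.v 3) (.v 1))))
  (.cons false 1 (.m (.m (.v 0) (.v 1)) (.m (.m (.v 3) (.v 4)) (.v 2)))
  (.cons false 1 (.m (.m (.v 0) (.v 2)) (.m (.m (.v 3) (.v 4)) (.v 1)))
  (.cons true 1 (.m (.m (.v 0) (.v 1)) (.m (.m (.v 4) (.v 3)) (.v 2)))
  (.cons true 1 (.m (.m (.v 0) (.v 2)) (.m (.m (.v 4) (.v 3)) (.v 1)))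
  (.cons true 1 (.m (.m (.v 0) (.v 1)) (.m (.v 2) (.m (.v 3) (.v 4))))
  (.cons true 1 (.m (.m (.v 0) (.v 2)) (.m (.v 1) (.m (.v 3) (.v 4))))
  (.cons false 1 (.m (.m (.v 0) (.v 1)) (.m (.v 2) (.m (.v 4) (.v 3))))
  (.cons false 1 (.m (.m (.v 0) (.v 2)) (.m (.v 1) (.m (.v 4) (.v 3))))
  (.cons true 1 (.m (.m (.m (.v 4) (.v 1)) (.v 3)) (.m (.v 2) (.v 0)))
  (.cons true 1 (.m (.m (.m (.v 4) (.v 2)) (.v 3)) (.m (.v 1) (.v 0)))
  (.cons true 5 (.m (.m (.m (.v 4) (.v 1)) (.v 3)) (.m (.v 0) (.v 2)))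
  (.cons true 5 (.m (.m (.m (.v 4) (.v 2)) (.v 3)) (.m (.v 0) (.v 1)))
  (.cons false 1 (.m (.m (.m (.v 1) (.v 4)) (.v 3)) (.m (.v 2) (.v 0)))
  (.cons false 1 (.m (.m (.m (.v 2) (.v 4)) (.v 3)) (.m (.v 1) (.v 0)))
  (.cons false 5 (.m (.m (.m (.v 1) (.v 4)) (.v 3)) (.m (.v 0) (.v 2)))
  (.cons false 5 (.m (.m (.m (.v 2) (.v 4)) (.v 3)) (.m (.v 0) (.v 1)))
  (.cons false 1 (.m (.m (.v 3) (.m (.v 4) (.v 1))) (.m (.v 2) (.v 0)))
  (.cons false 1 (.m (.m (.v 3) (.m (.v 4) (.v 2))) (.m (.v 1) (.v 0)))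
  (.cons false 5 (.m (.m (.v 3) (.m (.v 4) (.v 1))) (.m (.v 0) (.v 2)))
  (.cons false 5 (.m (.m (.v 3) (.m (.v 4) (.v 2))) (.m (.v 0) (.v 1)))
  (.cons true 1 (.m (.m (.v 3) (.m (.v 1) (.v 4))) (.m (.v 2) (.v 0)))
  (.cons true 1 (.m (.m (.v 3) (.m (.v 2) (.v 4))) (.m (.v 1) (.v 0)))
  (.cons true 5 (.m (.m (.v 3) (.m (.v 1) (.v 4))) (.m (.v 0) (.v 2)))
  (.cons true 5 (.m (.m (.v 3) (.m (.v 2) (.v 4))) (.m (.v 0) (.v 1)))
  (.cons true 1 (.m (.m (.m (.v 1) (.v 3)) (.v 4)) (.m (.v 2) (.v 0)))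
  (.cons true 1 (.m (.m (.m (.v 2) (.v 3)) (.v 4)) (.m (.v 1) (.v 0)))
  (.cons false 1 (.m (.m (.m (.v 3) (.v 1)) (.v 4)) (.m (.v 2) (.v 0)))
  (.cons false 1 (.m (.m (.m (.v 3) (.v 2)) (.v 4)) (.m (.v 1) (.v 0)))
  (.cons false 1 (.m (.m (.v 4) (.m (.v 1) (.v 3))) (.m (.v 2) (.v 0)))
  (.cons false 1 (.m (.m (.v 4) (.m (.v 2) (.v 3))) (.m (.v 1) (.v 0)))
  (.cons true 1 (.m (.m (.v 4) (.m (.v 3) (.v 1))) (.m (.v 2) (.v 0)))
  (.cons true 1 (.m (.m (.v 4) (.m (.v 3) (.v 2))) (.m (.v 1) (.v 0)))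
  (.cons true 1 (.m (.m (.m (.v 3) (.v 4)) (.v 1)) (.m (.v 2) (.v 0)))
  (.cons true 1 (.m (.m (.m (.v 3) (.v 4)) (.v 2)) (.m (.v 1) (.v 0)))
  (.cons true 5 (.m (.m (.m (.v 3) (.v 4)) (.v 1)) (.m (.v 0) (.v 2)))
  (.cons true 5 (.m (.m (.m (.v 3) (.v 4)) (.v 2)) (.m (.v 0) (.v 1)))
  (.cons false 1 (.m (.m (.m (.v 4) (.v 3)) (.v 1)) (.m (.v 2) (.v 0)))
  (.cons false 1 (.m (.m (.m (.v 4) (.v 3)) (.v 2)) (.m (.v 1) (.v 0)))
  (.cons false 5 (.m (.m (.m (.v 4) (.v 3)) (.v 1)) (.m (.v 0) (.v 2)))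
  (.cons false 5 (.m (.m (.m (.v 4) (.v 3)) (.v 2)) (.m (.v 0) (.v 1)))
  (.cons false 1 (.m (.m (.v 1) (.m (.v 3) (.v 4))) (.m (.v 2) (.v 0)))
  (.cons false 1 (.m (.m (.v 2) (.m (.v 3) (.v 4))) (.m (.v 1) (.v 0)))
  (.cons false 5 (.m (.m (.v 1) (.m (.v 3) (.v 4))) (.m (.v 0) (.v 2)))
  (.cons false 5 (.m (.m (.v 2) (.m (.v 3) (.v 4))) (.m (.v 0) (.v 1)))
  (.cons true 1 (.m (.m (.v 1) (.m (.v 4) (.v 3))) (.m (.v 2) (.v 0)))
  (.cons true 1 (.m (.m (.v 2) (.m (.v 4) (.v 3))) (.m (.v 1) (.v 0)))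
  (.cons true 5 (.m (.m (.v 1) (.m (.v 4) (.v 3))) (.m (.v 0) (.v 2)))
  (.cons true 5 (.m (.m (.v 2) (.m (.v 4) (.v 3))) (.m (.v 0) (.v 1)))
  (.cons false 6 (.m (.m (.m (.m (.v 4) (.v 1)) (.v 3)) (.v 0)) (.v 2))
  (.cons false 6 (.m (.m (.m (.m (.v 4) (.v 2)) (.v 3)) (.v 0)) (.v 1))
  (.cons true 6 (.m (.m (.m (.m (.v 1) (.v 4)) (.v 3)) (.v 0)) (.v 2))
  (.cons true 6 (.m (.m (.m (.m (.v 2) (.v 4)) (.v 3)) (.v 0)) (.v 1))
  (.cons true 6 (.m (.m (.m (.v 3) (.m (.v 4) (.v 1))) (.v 0)) (.v 2))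
  (.cons true 6 (.m (.m (.m (.v 3) (.m (.v 4) (.v 2))) (.v 0)) (.v 1))
  (.cons false 6 (.m (.m (.m (.v 3) (.m (.v 1) (.v 4))) (.v 0)) (.v 2))
  (.cons false 6 (.m (.m (.m (.v 3) (.m (.v 2) (.v 4))) (.v 0)) (.v 1))
  (.cons false 6 (.m (.m (.m (.m (.v 3) (.v 4)) (.v 1)) (.v 0)) (.v 2))
  (.cons false 6 (.m (.m (.m (.m (.v 3) (.v 4)) (.v 2)) (.v 0)) (.v 1))
  (.cons true 6 (.m (.m (.m (.m (.v 4) (.v 3)) (.v 1)) (.v 0)) (.v 2))
  (.cons true 6 (.m (.m (.m (.m (.v 4) (.v 3)) (.v 2)) (.v 0)) (.v 1))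
  (.cons true 6 (.m (.m (.m (.v 1) (.m (.v 3) (.v 4))) (.v 0)) (.v 2))
  (.cons true 6 (.m (.m (.m (.v 2) (.m (.v 3) (.v 4))) (.v 0)) (.v 1))
  (.cons false 6 (.m (.m (.m (.v 1) (.m (.v 4) (.v 3))) (.v 0)) (.v 2))
  (.cons false 6 (.m (.m (.m (.v 2) (.m (.v 4) (.v 3))) (.v 0)) (.v 1))
  .nil))))))))))))))))))))))))))))))))))))))))))))))))))))))))))))))))))))))))))))))))))))))))))))))))))))))))))))))))))))))))))))))))))))))))))))))))))))))))))))))))))))))))))))))))))))))))))))))))))))))))))))))))))))))))))))))))))))))))))))))))))))))))))))))))))))))))))))))))))))))))))))))))))))))))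

/-! ### degree 3 and 4 -/

/-- known identities -/
def omKM : Kn := .cons 0 3 NACert.raT (.cons 0 4 malT (.cons 1 2 t1T .nil))

theorem RAM.okm (h : RAM A) {t : A} (ht : Om t) {ρ : ℕ → A} (h0 : ρ 0 = t) : omKM.Holds ρ :=
  ⟨fun ρ' _ => h.ral.raT ρ', fun ρ' _ => malT_holds h ρ',
    fun ρ' h1 => ht.t1 h.ral ((h1 0 (by norm_num)).trans h0), trivial⟩

/-- values of the variables -/
def rho (t a b c d : A) : ℕ → A := fun i =>
  if i = 0 then t else if i = 1 then a else if i = 2 then b else if i = 3 then c else d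

/-- certificate -/
def m3C : List ℕ :=
  [57983169072, 57713750576, 57716900336, 57985339632, 57713750816, 57983169312, 1795301682,
    28724826160, 43489763344, 2718114082, 2718110226, 43489824800, 2701337106, 43221393424,
    28993196080, 1795298066, 28724768784, 1812074802, 43221323808, 2701332770, 1812079378,
    28993269776, 906048242, 14496576240, 14230417424, 889267186, 14228136944, 889401106,
    906116882, 14497869840, 905978641, 889205265, 889266945, 14228267056, 889266738, 906044194,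
    906039858, 14496636976, 14496706592, 14228205600, 889262882, 14498669040, 906174962,
    14496755760, 906047282, 889331506, 14229303344, 14230229744, 889393906]

/-- expression -/
def m3E : E :=
  let t : E := .v 0
  let x : E := .v 1
  let a : E := .v 2
  let b : E := .v 3
  .add (.add (.as (.cm x t) a b) (.as a b (.cm x t))) (.as b (.cm x t) a)

theorem RAM.om3 (h : RAM A) {t : A} (ht : Om t) (x a b : A) :
    ass (cmm x t) a b + ass a b (cmm x t) + ass b (cmm x t) a = 0 :=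
  ev_of_checkE h.tor omKM (h.okm ht (ρ := rho t x a b 0) rfl) 3 m3E m3C (by decide +kernel)

theorem RAM.ojcm (h : RAM A) {t : A} (ht : Om t) (x a b : A) : jc (cmm x t) a b = 0 := by
  rw [h.ral.jc_eq, h.om3 ht, smul_zero]

/-- certificate -/
def m4C : List ℕ :=
  [1795232274, 1812013586, 28992151808, 28723781888, 19060039696, 19328540688, 19329519632,
    19061076240, 19060093440, 19328463136, 19059110160, 19061019120, 9665900560, 14229246208,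
    14497747200, 14228194032, 9663803920, 604115218, 9665839600, 1191252258, 9397473296,
    9396416544, 9664917760, 9665900800, 604053282, 9664786960, 9665843440, 4564525296,
    4831973664, 4563472672, 9664733680, 9396359200, 587272946, 587272705, 9664917520,
    604053794]

/-- expression -/
def m4E : E :=
  let t : E := .v 0
  let x : E := .v 1
  let z : E := .v 2
  .sub (.cm (.as x x z) t) (.sm 3 (.cm (.as x t z) x))

theorem RAM.om4 (h : RAM A) {t : A} (ht : Om t) (x z : A) :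
    cmm (ass x x z) t = (3 : ℤ) • cmm (ass x t z) x := by
  rw [← sub_eq_zero]
  exact ev_of_checkE h.tor omKM (h.okm ht (ρ := rho t x z 0 0) rfl) 2 m4E m4C
    (by decide +kernel)

/-- certificate -/
def c4C : List ℕ :=
  [117514770, 134287890, 1880170752, 2148671744, 1881214992, 2149642512, 1074917408,
    806416672, 1075974160, 269488880, 805433872, 806547712, 33632018, 807469552, 50467090,
    50467314, 1074917888, 67178786, 537985776, 1074860064, 270668032, 536940832, 537993456,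
    268570912, 539037952, 269676560, 33624818, 33624577, 269492720, 539095056, 16851442,
    33693458]

/-- expression -/
def c4E : E :=
  let t : E := .v 0
  let x : E := .v 1
  let z : E := .v 2
  .add (jcE (joE t x) x z) (.sm 12 (.cm (.as x t z) x))

/-- `J(t ∘ x, x, z) = - 12 κ(x, z, x)` -/
theorem RAM.oc4 (h : RAM A) {t : A} (ht : Om t) (x z : A) :
    jc (t * x + x * t) x z + (12 : ℤ) • cmm (ass x t z) x = 0 :=
  ev_of_checkE h.tor omKM (h.okm ht (ρ := rho t x z 0 0) rfl) 0 c4E c4C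
    (by decide +kernel)

/-- certificate -/
def c5C : List ℕ :=
  [115967402240, 115697922304, 6325146386, 5436019218, 86975246640, 86706815984, 72212345120,
    72480785136, 5435958034, 86975328272, 3607306770, 57716908048, 4513279762, 4529995538,
    57716842752, 57984233728, 57985396992, 57715978496, 57716900336, 57985339632, 57714749472,
    43487666224, 57985331232, 43488646128, 43221258992, 28724817968, 43489759264, 2718109986,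
    43220275248, 2701267250, 43218366752, 43486621984, 28722667824, 28991222064, 43220283408,
    28994248720, 28723834928, 28992335904, 1795243810, 1812016946, 1795240690, 28723655408,
    906044402, 14496572400, 28722721328, 28992139824, 28722733360, 28993204464, 14495642400,
    14495658272, 14230298864, 14228189984, 14230417424, 14497869840, 889205265, 905978641,
    14228267056, 889266738, 14496706592, 906044194, 1812078386, 906171122, 889328626,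
    906048001, 14229189104, 889336306, 889262642]

/-- expression -/
def c5E : E :=
  let t : E := .v 0
  let y : E := .v 1
  let c : E := .v 2
  let e : E := .v 3
  .sub (.as (.cm y t) c e) (.add (.sub (.as y t (.cm c e)) (kpE t y c e)) (kpE t y e c))

/-- `([y, t], c, e) = θ(y, [c, e]) - κ(y, c, e) + κ(y, e, c)` -/
theorem RAM.oc5 (h : RAM A) {t : A} (ht : Om t) (y c e : A) :
    ass (cmm y t) c e = ass y t (cmm c e) - cmm (ass y t c) e + cmm (ass y t e) c := by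
  rw [← sub_eq_zero]
  exact ev_of_checkE h.tor omKM (h.okm ht (ρ := rho t y c e 0) rfl) 3 c5E c5C
    (by decide +kernel)

/-- certificate -/
def c6C : List ℕ :=
  [38387462656, 38389477904, 38657982960, 38657925136, 2416120338, 1812144626, 24159334928,
    23894036720, 1191252770, 1191390994, 1208095506, 1191329554, 14498787840, 14230298880,
    14496821760, 14227222816, 14498734320, 587338738, 604054514, 587281138, 587404018,
    604123634, 4565758208, 4566741248, 4565627648, 4564644608, 4832965120, 4834013440,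
    4565577968, 4831977776]

/-- expression -/
def c6E : E :=
  let t : E := .v 0
  let p : E := .v 1
  let c : E := .v 2
  let q : E := .v 3
  .sub (.sm 2 (.as p (.cm c t) q)) (.sub (.sub (.add (.sm 2 (kpE t c q p)) (.as (.cm c p) t q))
    (.as (.cm q c) t p)) (.as (.cm p q) t c))

/-- `2 (p, [c, t], q) = 2 κ(c, q, p) + θ([c, p], q) - θ([q, c], p) - θ([p, q], c)` -/
theorem RAM.oc6 (h : RAM A) {t : A} (ht : Om t) (p c q : A) :
    (2 : ℤ) • ass p (cmm c t) q = (2 : ℤ) • cmm (ass c t q) p + ass (cmm c p) t q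
      - ass (cmm q c) t p - ass (cmm p q) t c := by
  rw [← sub_eq_zero]
  exact ev_of_checkE h.tor omKM (h.okm ht (ρ := rho t p c q 0) rfl) 2 c6E c6C
    (by decide +kernel)

theorem om_jc {t : A} (ht : Om t) (a b : A) : jc t a b = 0 := by
  have h1 := om_cmm_cmm ht a b
  have e1 : cmm (cmm t a) b = - cmm (cmm a t) b := by
    simp only [cmm, sub_mul, mul_sub]; abel
  have e2 : cmm (cmm b t) a = - cmm a (cmm b t) := by
    simp only [cmm, sub_mul, mul_sub]; abel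
  rw [jc, h1, e1, e2]
  abel

/-- known identities for an element of the Lie nucleus -/
def lnK : Kn := .cons 0 3 NACert.raT (.cons 0 4 malT (.cons 1 2 jnT .nil))

/-- certificate -/
def njC : List ℕ :=
  [604181234, 587407858, 587407138, 604061474, 587349778, 604188434, 285413889, 285287169,
    285356289]

/-- expression -/
def njE : E :=
  let n : E := .v 0
  let a : E := .v 1
  let b : E := .v 2
  let c : E := .v 3
  .cm (jcE a b c) n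

theorem jnT_holds {n : A} (hn : ∀ a b : A, jc n a b = 0) (tor : NoTor A) (ρ : ℕ → A)
    (h0 : ρ 0 = n) : jnT.ev ρ = 0 := by
  refine Fast.ev_of_check tor (.cons 1 2 (ofP (jcE (.v 0) (.v 1) (.v 2)).p) .nil)
    ⟨fun ρ' h1 => ?_, trivial⟩ 0 jnT [66064] (by decide +kernel)
  rw [ev_ofP, evP_p]
  have h2 : ρ' 0 = n := (h1 0 (by norm_num)).trans h0
  have h3 := hn (ρ' 1) (ρ' 2)
  rw [← h2] at h3
  exact h3

/-- the Lie nucleus commutes with the Jacobians -/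
theorem RAM.nj (h : RAM A) {n : A} (hn : ∀ a b : A, jc n a b = 0) (a b c : A) :
    cmm (jc a b c) n = 0 :=
  ev_of_checkE h.tor lnK (ρ := rho n a b c 0) ⟨fun ρ' _ => h.ral.raT ρ',
    fun ρ' _ => malT_holds h ρ',
    fun ρ' h1 => jnT_holds hn h.tor ρ' (h1 0 (by norm_num)), trivial⟩ 2 njE njC
    (by decide +kernel)

/-! ### the Malcev identity with an argument `t ∘ x` -/

/-- certificate -/
def kbC : List ℕ :=
  [197137, 1052704, 2105600, 2105360]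

theorem RAM.okbT (h : RAM A) {t : A} (ht : Om t) {ρ : ℕ → A} (h0 : ρ 0 = t) : kbT.ev ρ = 0 :=
  Fast.ev_of_check h.tor (.cons 0 3 NACert.raT (.cons 1 2 t1T .nil))
    ⟨fun ρ' _ => h.ral.raT ρ', fun ρ' h1 => ht.t1 h.ral ((h1 0 (by norm_num)).trans h0), trivial⟩
    0 NACert.kbT kbC (by decide +kernel)

/-- certificate -/
def kaC : List ℕ :=
  [788603682, 704713506, 9397473328, 9396547616, 486744562, 7787847696, 486740498, 8054125296,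
    503460338, 8055238672, 9666957344, 9664917552, 302064626, 6443638832, 6175207456,
    6174208784, 6445658640, 402854642, 6444675840, 6445789440, 6177300736, 6443643392,
    6177288704, 6176370944, 6175142400, 6445670656, 6442709520, 6176174864, 7785686000,
    4565512688, 285291250, 4831965984, 4831981856, 4563480864, 4566622448, 4834992624,
    402858514, 386011442, 386012146, 1610805552, 1343287856, 1344336176, 1612776432,
    1611735088, 100733490, 3223580688, 201473810, 201466162, 2956128272, 184758034, 184631074,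
    4834013424, 4563530288, 4563542320, 4831912240, 1611723552, 1345389296, 1342435616,
    1613820192, 100799250, 1343303712, 201404210, 201531682, 83895057, 100799233]

theorem RAM.okaT (h : RAM A) {t : A} (ht : Om t) {ρ : ℕ → A} (h0 : ρ 0 = t) : kaT.ev ρ = 0 :=
  Fast.ev_of_check h.tor omKM (h.okm ht h0) 1 NACert.kaT kaC (by decide +kernel)

theorem RAM.ojthT (h : RAM A) {t : A} (ht : Om t) {ρ : ℕ → A} (h0 : ρ 0 = t) :
    jthT.ev ρ = 0 := by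
  refine Fast.ev_of_check h.tor (.cons 1 4 (ofP (jcE (.as (.v 1) (.v 0) (.v 2)) (.v 3) (.v 4)).p)
    .nil) ⟨fun ρ' h1 => ?_, trivial⟩ 0 NACert.jthT [17052176] (by decide +kernel)
  rw [ev_ofP, evP_p]
  have h2 : ρ' 0 = t := (h1 0 (by norm_num)).trans h0
  have h3 := om_jc (ht.th h.ral (ρ' 1) (ρ' 2)) (ρ' 3) (ρ' 4)
  rw [← h2] at h3
  exact h3

/-- certificate -/
def bpC : List ℕ :=
  [386147091, 386143011, 4332920817, 8627765233, 8626762993, 4329848817, 8627941873,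
    4332844017, 8624862193, 4331753457, 4331991537, 8624754673, 8626905073, 4329829617,
    4314120177, 8611164913, 8610131953, 4315041777, 8609133553, 4316132337, 8609026033,
    4315214577, 4316147697, 8610051313, 4314100977, 8611053553, 540209474, 270790978,
    540144194, 269742658, 538063426, 269562434, 270610754, 539111746, 4296229392, 4297277968,
    8640590352, 8644522512]

theorem RAM.obpT (h : RAM A) {t : A} (ht : Om t) {ρ : ℕ → A} (h0 : ρ 0 = t) : bpT.ev ρ = 0 :=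
  Fast.ev_of_check h.tor (.cons 0 4 malT (.cons 1 2 NACert.kbT (.cons 1 3 NACert.kaT
    (.cons 1 4 NACert.jthT .nil))))
    ⟨fun ρ' _ => malT_holds h ρ', fun ρ' h1 => h.okbT ht ((h1 0 (by norm_num)).trans h0),
      fun ρ' h1 => h.okaT ht ((h1 0 (by norm_num)).trans h0),
      fun ρ' h1 => h.ojthT ht ((h1 0 (by norm_num)).trans h0), trivial⟩
    0 NACert.bpT bpC (by decide +kernel)

/-- certificate -/
def q3C : List ℕ :=
  [10452406803, 2416055059, 1610813731, 511120187169, 511120126449, 511119070193,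
    515414045169, 515415086065, 511119015713, 515414105889, 8246642471424, 8177906217472,
    8246623728128, 515415031585, 8177921028608, 6597374112000, 6528637858048, 408040914705,
    412334833425, 412335813361, 408039797489, 408039927569, 412335943441, 6528655618304,
    6597358317824, 408040842225, 412334760945, 4948371779840, 4879400644864, 309257507121,
    304978268465, 304978268945, 309257507601, 304962543921, 304962544401, 4948120187136,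
    309273239857, 309273240337, 4879652368640, 408040968481, 6597374976256, 408040968721,
    408039924001, 412335939873, 6597358264576, 6528655565056, 412335940113, 412334887201,
    408039924241, 412334887441, 6528638722304, 201901150481, 201916883217, 206211846417,
    309275336977, 4879906173184, 4948642427136, 4948626632960, 4879923933440, 309289103121,
    4879387063040, 304995184401, 304994197265, 304994132465, 309256724977, 4948089762560,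
    309290148337, 309289095921, 304961630001, 309290213137, 309256658737, 309255548721,
    304960709105, 304995177201, 304961753841, 304960642865, 309255672561, 4948105556736,
    4879369302784, 4948642308352, 304995176977, 309289095697, 304994132497, 309290148369,
    304995176737, 4879922897152, 309290148129, 4948625596672, 4879906054400, 304994132257,
    309289095457, 309256589873, 309256590113, 4879385965056, 304961626913, 309255545633,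
    309255545393, 304961626673, 304960574001, 4948105507328, 4879369253376, 304960574241,
    4948088664576, 1649870442752, 1650122166528, 1581402624256, 2405784752384, 103115071249,
    103113888753, 385950482, 98819055377, 98819970033, 103114945009, 1649824362752,
    1581121663232, 98818929137, 1581102919936, 103113899793, 98819981073, 1649839173888,
    302194962, 201397026, 1649839059200, 98819973905, 98819973425, 1649822216448, 98818921233,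
    98820104465, 98818920753, 103115067665, 98819051793, 206193238289, 103114937105,
    1581119516928, 103114936625, 103113892625, 103113892145, 1581102805248, 84029714,
    825207427328, 756487885056, 825190584576, 1581104894208, 3230099698224, 3298805412400,
    201916027153, 1650108469504, 98835767569, 103130730769, 825458036992, 756738494720]

/-- the right-hand side of `Om.q3` -/
def q3R (t w z x : A) : A :=
  (2 : ℤ) • cmm (ass w t z) (cmm x w) + (6 : ℤ) • cmm (ass x t w) (cmm w z)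
    - (2 : ℤ) • cmm (ass w t (cmm w z)) x + (6 : ℤ) • cmm (ass x t (cmm w z)) w
    + (2 : ℤ) • cmm (ass w t (cmm w x)) z - (2 : ℤ) • cmm (ass z t (cmm w x)) w
    + (4 : ℤ) • th3 t x w (cmm w z)
    + (cmm w t * jc x w z + jc x w z * cmm w t) - (6 : ℤ) • ass (jc x w z) t w

/-- the same expression -/
@[reducible] def q3RE (t w z x : E) : E :=
  .sub (.add (.add (.sub (.add (.add (.sub (.add (.sm 2 (.cm (.as w t z) (.cm x w)))
    (.sm 6 (.cm (.as x t w) (.cm w z))))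
    (.sm 2 (.cm (.as w t (.cm w z)) x))) (.sm 6 (.cm (.as x t (.cm w z)) w)))
    (.sm 2 (.cm (.as w t (.cm w x)) z))) (.sm 2 (.cm (.as z t (.cm w x)) w)))
    (.sm 4 (th3E t x w (.cm w z))))
    (.add (.mul (.cm w t) (jcE x w z)) (.mul (jcE x w z) (.cm w t))))
    (.sm 6 (.as (jcE x w z) t w))

/-- expression -/
def q3E : E := .sub (.sm 4 (.cm (.cm (.as (.v 1) (.v 0) (.v 2)) (.v 1)) (.v 3)))
  (q3RE (.v 0) (.v 1) (.v 2) (.v 3))

/-- the commutator of `κ(w, z, w)` and `x` -/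
theorem RAM.oq3 (h : RAM A) {t : A} (ht : Om t) (w z x : A) :
    (4 : ℤ) • cmm (cmm (ass w t z) w) x = q3R t w z x := by
  rw [← sub_eq_zero]
  exact ev_of_checkE h.tor (.cons 0 3 NACert.raT (.cons 1 2 t1T (.cons 1 4 NACert.bpT
    (.cons 1 4 NACert.jthT .nil)))) (ρ := rho t w z x 0)
    ⟨fun ρ' _ => h.ral.raT ρ', fun ρ' h1 => ht.t1 h.ral (h1 0 (by norm_num)),
      fun ρ' h1 => h.obpT ht (h1 0 (by norm_num)), fun ρ' h1 => h.ojthT ht (h1 0 (by norm_num)),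
      trivial⟩ 2 q3E q3C (by decide +kernel)

end ring

end Pool.Agent.NACert
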