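import Pool.Agent.NACert.OmegaA
import Pool.Agent.NACert.OmNil
import Pool.Agent.NACert.LieTwo

/-!
# Elements whose commutator map is a derivation, in simple algebras

From the three Malcev facts of `OmH` and simplicity: `[A, Ω] ⊆ (A, Ω, A)`, and so by local
nilpotency `(A, Ω, A) = 0` and `Ω` is the centre.
-/

namespace Pool.Agent.NACert

section ring

variable {A : Type*} [NonUnitalNonAssocRing A]

/-- the facts on `Ω` which use the Malcev identity -/
structure OmH (A : Type*) [NonUnitalNonAssocRing A] : Prop where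
  /-- `(y, y, [(x, x, c), t]) = 0` -/
  f6 : ∀ t : A, Om t → ∀ x c y : A, ass y y (cmm (ass x x c) t) = 0
  /-- `[A, t]` is in the Lie nucleus -/
  m3 : ∀ t : A, Om t → ∀ x a b : A,
    ass (cmm x t) a b + ass a b (cmm x t) + ass b (cmm x t) a = 0
  /-- `[(x, x, c), t] = 3 [(x, t, c), x]` -/
  m4 : ∀ t : A, Om t → ∀ x c : A, cmm (ass x x c) t = (3 : ℤ) • cmm (ass x t c) x

/-- an element `n` of the Lie nucleus with `(y, y, n) = 0` is in `Ω` -/
theorem RAL.om_of_lie (h : RAL A) {n : A} (h1 : ∀ a b : A, ass n a b + ass a b n + ass b n a = 0)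
    (h2 : ∀ y : A, ass y y n = 0) : Om n := by
  rw [h.om_iff]
  intro a b
  have e1 := h1 a b
  have e2 := h2 (a + b)
  rw [ass_add_left, ass_add_mid, ass_add_mid, h2 a, h2 b] at e2
  rw [h.sk b n a] at e1
  have e4 := h.sk a n b
  rw [e4]
  linear_combination (norm := module) e1 + e2

/-- `ad t` is a derivation for the commutator -/
theorem om_cmm_cmm {t : A} (ht : Om t) (a b : A) :
    cmm (cmm a b) t = cmm a (cmm b t) + cmm (cmm a t) b := by
  have e1 := ht a b
  have e2 := ht b a
  have e3 : cmm (cmm a b) t = cmm (a * b) t - cmm (b * a) t := by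
    simp only [cmm, sub_mul, mul_sub]; abel
  rw [e3, e1, e2]
  simp only [cmm]
  abel

theorem RAL.omS_z1 (h : RAL A) (hc : ∀ t a : A, Om t → Om (cmm a t)) {t u : A} (ht : Om t)
    (hu : Om u) (a b : A) : ass (cmm a t) u b = 0 := (hc t a ht).z1 hu h b

theorem RAL.omS_f3 (h : RAL A) (hc : ∀ t a : A, Om t → Om (cmm a t)) {t u : A} (ht : Om t)
    (hu : Om u) (a b : A) : cmm (ass a t b) u = 0 := by
  rw [ht.eth hu h, h.omS_z1 hc ht hu, smul_zero]

/-- elements of the centre -/
structure ZC (z : A) : Prop where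
  cm : Cm z
  n1 : ∀ a b : A, ass z a b = 0
  n2 : ∀ a b : A, ass a z b = 0
  n3 : ∀ a b : A, ass a b z = 0

theorem ZC.om {z : A} (hz : ZC z) : Om z := hz.cm.om

theorem ZC.cmm' {z : A} (hz : ZC z) (a : A) : cmm a z = 0 := hz.cm.cmm' a

end ring

section alg

variable {F A : Type*} [Field F] [NonUnitalNonAssocRing A] [Module F A] [IsScalarTower F A A]
  [SMulCommClass F A A]

/-- `[A, Ω] ⊆ Ω` -/
theorem SR.cmm_om (h : SR F A) (hM : OmH A) {t : A} (ht : Om t) (a : A) : Om (cmm a t) := by
  apply h.ram.ral.om_of_lie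
  · intro b c
    exact hM.m3 t ht a b c
  · intro y
    have key : ∀ a : A, ass y y (cmm a t) = 0 := by
      apply h.induction (p := fun a => ass y y (cmm a t) = 0)
      · intro x c
        exact hM.f6 t ht x c y
      · intro a b ha hb
        rw [cmm_add_left, ass_add_right, ha, hb, add_zero]
      · intro c a ha
        have : ass y y (cmm (c • a) t) = c • ass y y (cmm a t) := by
          simp only [ass, cmm, smul_mul_assoc, mul_smul_comm, smul_sub, mul_sub, mul_smul_comm]
        rw [this, ha, smul_zero]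
    exact key a

/-- `[A, Ω] ⊆ (A, Ω, A)` -/
theorem SR.cmm_TS (h : SR F A) (hM : OmH A) {t : A} (ht : Om t) (a : A) : cmm a t ∈ TS F A := by
  have hr := h.ram.ral
  have hu : ∀ c : A, Om (cmm t c) := fun c => by
    have := (h.cmm_om hM ht c).neg
    rwa [← cmm_skew] at this
  have k0 : ∀ a b c : A, a * ass c t b + ass a t b * c ∈ TS F A := by
    intro a b c
    have e := ht.v6 hr a b c
    have e' : a * ass c t b + ass a t b * c = ass a (cmm t c) b - (2 : ℤ) • ass (a * b) t c
        + ass a t (b * c + c * b) - ass (a * c) t b := by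
      rw [e]; abel
    rw [e']
    exact Submodule.sub_mem _ (Submodule.add_mem _ (Submodule.sub_mem _ (th_mem_TS (hu c) _ _)
      (zsmul_mem' _ (th_mem_TS ht _ _))) (th_mem_TS ht _ _)) (th_mem_TS ht _ _)
  have k1 : ∀ c x : A, cmm (ass x t c) x ∈ TS F A := by
    intro c x
    have e1 := k0 c x x
    have e2 := k0 x x c
    rw [ht.alt hr, mul_zero, zero_add] at e1
    rw [ht.alt hr, zero_mul, add_zero] at e2
    have e3 := Submodule.sub_mem _ e2 e1
    have e4 : cmm (ass x t c) x = x * ass c t x - ass c t x * x := by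
      rw [ht.skew hr x c]
      simp only [cmm, neg_mul, mul_neg]
      abel
    rw [e4]
    exact e3
  have key : ∀ a : A, cmm a t ∈ TS F A := by
    apply h.induction (p := fun a => cmm a t ∈ TS F A)
    · intro x c
      rw [hM.m4 t ht]
      exact zsmul_mem' _ (k1 c x)
    · intro a b ha hb
      rw [cmm_add_left]
      exact Submodule.add_mem _ ha hb
    · intro c a ha
      have : cmm (c • a) t = c • cmm a t := by
        simp only [cmm, smul_mul_assoc, mul_smul_comm, smul_sub]
      rw [this]
      exact Submodule.smul_mem _ c ha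
  exact key a

/-- the elements of `(A, Ω, A)` commute with `Ω` -/
theorem SR.TS_om (h : SR F A) (hM : OmH A) {x : A} (hx : x ∈ TS F A) {u : A} (hu : Om u) :
    cmm x u = 0 := by
  refine Submodule.span_induction (p := fun x _ => cmm x u = 0) ?_ ?_ ?_ ?_ hx
  · rintro _ ⟨t, a, b, ht, rfl⟩
    exact h.ram.ral.omS_f3 (fun t a ht => h.cmm_om hM ht a) ht hu a b
  · simp [cmm]
  · intro x y _ _ hx hy
    rw [cmm_add_left, hx, hy, add_zero]
  · intro c x _ hx
    have : cmm (c • x) u = c • cmm x u := by
      simp only [cmm, smul_mul_assoc, mul_smul_comm, smul_sub]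
    rw [this, hx, smul_zero]

theorem SR.omG (h : SR F A) (hM : OmH A) : OmG A := by
  have hr := h.ram.ral
  refine ⟨hr, fun t ht a b => ⟨ht.th hr a b, fun u hu => h.TS_om hM (th_mem_TS ht a b) hu⟩,
    fun t ht a => ⟨?_, fun u hu => ?_⟩⟩
  · have := (h.cmm_om hM ht a).neg
    rwa [← cmm_skew] at this
  · rw [cmm_skew t a]
    have := h.TS_om hM (h.cmm_TS hM ht a) hu
    have e : cmm (-cmm a t) u = - cmm (cmm a t) u := by
      simp only [cmm, neg_mul, mul_neg]; abel
    rw [e, this, neg_zero]

/-- `(A, Ω, A) = 0` -/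
theorem SR.th_om (h : SR F A) (hM : OmH A) {t : A} (ht : Om t) (a b : A) : ass a t b = 0 := by
  refine h.th_zero (h.omG hM) (fun u hu c => ?_) ht a b
  rw [cmm_skew]
  exact Submodule.neg_mem _ (h.cmm_TS hM hu c)

/-- the elements of `Ω` are central -/
theorem SR.om_zc (h : SR F A) (hM : OmH A) {t : A} (ht : Om t) : ZC t := by
  have h0 := fun a b => h.th_om hM ht a b
  refine ⟨?_, fun a b => ?_, h0, fun a b => ?_⟩
  · have key : ∀ a : A, cmm a t = 0 := by
      apply h.induction (p := fun a => cmm a t = 0)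
      · intro x c
        rw [hM.m4 t ht, h0]
        simp [cmm]
      · intro a b ha hb
        rw [cmm_add_left, ha, hb, add_zero]
      · intro c a ha
        have : cmm (c • a) t = c • cmm a t := by
          simp only [cmm, smul_mul_assoc, mul_smul_comm, smul_sub]
        rw [this, ha, smul_zero]
    intro x
    exact (sub_eq_zero.mp (key x)).symm
  · rw [ht.as1 h.ram.ral, h0, smul_zero]
  · rw [h.ram.ral.sk, h0, neg_zero]

/-- commuting elements are central -/
theorem SR.cm_zc (h : SR F A) (hM : OmH A) {t : A} (ht : Cm t) : ZC t := h.om_zc hM ht.om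

end alg

end Pool.Agent.NACert
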