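import Pool.Agent.NACert.TKill

/-!
# Products of alternators with the values of `t(x, y) = [(x, x, y), x]`

If the elements `t(x, y)` commute and associate with everything, and the identities `g31` and `F1`
hold, then `(a, a, b) t(x, y) = 0` (certificate of degree 7, 313 items).
-/

namespace Pool.Agent.NACert

open Fast

/-- polarisation of a cubic map -/
theorem polar3 {A B : Type*} [AddCommGroup A] [AddCommGroup B] (f : A → A → A → B)
    (h1 : ∀ a a' b c, f (a + a') b c = f a b c + f a' b c)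
    (h2 : ∀ a b b' c, f a (b + b') c = f a b c + f a b' c)
    (h3 : ∀ a b c c', f a b (c + c') = f a b c + f a b c')
    (h : ∀ a, f a a a = 0) (x y z : A) :
    f x y z + f x z y + f y x z + f y z x + f z x y + f z y x = 0 := by
  have e := h (x + y + z)
  have e1 := h (x + y)
  have e2 := h (x + z)
  have e3 := h (y + z)
  have e4 := h x
  have e5 := h y
  have e6 := h z
  simp only [h1, h2, h3] at e e1 e2 e3
  linear_combination (norm := module) e - e1 - e2 - e3 + e4 + e5 + e6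

/-- full linearisation of a cubic expression -/
@[reducible] def E.sym3 (f : E → E → E → E) (a b c : E) : E :=
  .add (.add (.add (.add (.add (f a b c) (f a c b)) (f b a c)) (f b c a)) (f c a b)) (f c b a)

section ring

variable {A : Type*} [NonUnitalNonAssocRing A]

/-- the identity `g31` (partially linearised) -/
def g31 (a b c y : A) : A :=
  (((a * b) * y) * c - (a * b) * (y * c)) + ((a * y) * b) * c - (4 : ℤ) • ((a * (y * b)) * c)
    + (3 : ℤ) • (a * ((y * b) * c))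

/-- the same expression -/
@[reducible] def g31E (a b c y : E) : E :=
  .add (.sub (.add (.sub (.mul (.mul (.mul a b) y) c) (.mul (.mul a b) (.mul y c)))
    (.mul (.mul (.mul a y) b) c)) (.sm 4 (.mul (.mul a (.mul y b)) c)))
    (.sm 3 (.mul a (.mul (.mul y b) c)))

/-- `[[[y, a], b], c]` -/
def f1 (a b c y : A) : A := cmm (cmm (cmm y a) b) c

/-- `[(a, b, y), c]` -/
def tt (a b c y : A) : A := cmm (ass a b y) c

/-- the same expression -/
@[reducible] def ttE (a b c y : E) : E := .cm (.as a b y) c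

/-- linearisation of `g31` -/
def g31T : Tm :=
  (.cons true 1 (.m (.m (.m (.v 0) (.v 1)) (.v 3)) (.v 2))
  (.cons true 1 (.m (.m (.m (.v 0) (.v 2)) (.v 3)) (.v 1))
  (.cons true 1 (.m (.m (.m (.v 1) (.v 0)) (.v 3)) (.v 2))
  (.cons true 1 (.m (.m (.m (.v 1) (.v 2)) (.v 3)) (.v 0))
  (.cons true 1 (.m (.m (.m (.v 2) (.v 0)) (.v 3)) (.v 1))
  (.cons true 1 (.m (.m (.m (.v 2) (.v 1)) (.v 3)) (.v 0))
  (.cons false 1 (.m (.m (.v 0) (.v 1)) (.m (.v 3) (.v 2)))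
  (.cons false 1 (.m (.m (.v 0) (.v 2)) (.m (.v 3) (.v 1)))
  (.cons false 1 (.m (.m (.v 1) (.v 0)) (.m (.v 3) (.v 2)))
  (.cons false 1 (.m (.m (.v 1) (.v 2)) (.m (.v 3) (.v 0)))
  (.cons false 1 (.m (.m (.v 2) (.v 0)) (.m (.v 3) (.v 1)))
  (.cons false 1 (.m (.m (.v 2) (.v 1)) (.m (.v 3) (.v 0)))
  (.cons true 1 (.m (.m (.m (.v 0) (.v 3)) (.v 1)) (.v 2))
  (.cons true 1 (.m (.m (.m (.v 0) (.v 3)) (.v 2)) (.v 1))
  (.cons true 1 (.m (.m (.m (.v 1) (.v 3)) (.v 0)) (.v 2))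
  (.cons true 1 (.m (.m (.m (.v 1) (.v 3)) (.v 2)) (.v 0))
  (.cons true 1 (.m (.m (.m (.v 2) (.v 3)) (.v 0)) (.v 1))
  (.cons true 1 (.m (.m (.m (.v 2) (.v 3)) (.v 1)) (.v 0))
  (.cons false 4 (.m (.m (.v 0) (.m (.v 3) (.v 1))) (.v 2))
  (.cons false 4 (.m (.m (.v 0) (.m (.v 3) (.v 2))) (.v 1))
  (.cons false 4 (.m (.m (.v 1) (.m (.v 3) (.v 0))) (.v 2))
  (.cons false 4 (.m (.m (.v 1) (.m (.v 3) (.v 2))) (.v 0))
  (.cons false 4 (.m (.m (.v 2) (.m (.v 3) (.v 0))) (.v 1))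
  (.cons false 4 (.m (.m (.v 2) (.m (.v 3) (.v 1))) (.v 0))
  (.cons true 3 (.m (.v 0) (.m (.m (.v 3) (.v 1)) (.v 2)))
  (.cons true 3 (.m (.v 0) (.m (.m (.v 3) (.v 2)) (.v 1)))
  (.cons true 3 (.m (.v 1) (.m (.m (.v 3) (.v 0)) (.v 2)))
  (.cons true 3 (.m (.v 1) (.m (.m (.v 3) (.v 2)) (.v 0)))
  (.cons true 3 (.m (.v 2) (.m (.m (.v 3) (.v 0)) (.v 1)))
  (.cons true 3 (.m (.v 2) (.m (.m (.v 3) (.v 1)) (.v 0)))
  .nil))))))))))))))))))))))))))))))

/-- linearisation of `F1` -/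
def f1T : Tm :=
  (.cons true 1 (.m (.m (.m (.v 3) (.v 0)) (.v 1)) (.v 2))
  (.cons true 1 (.m (.m (.m (.v 3) (.v 0)) (.v 2)) (.v 1))
  (.cons true 1 (.m (.m (.m (.v 3) (.v 1)) (.v 0)) (.v 2))
  (.cons true 1 (.m (.m (.m (.v 3) (.v 1)) (.v 2)) (.v 0))
  (.cons true 1 (.m (.m (.m (.v 3) (.v 2)) (.v 0)) (.v 1))
  (.cons true 1 (.m (.m (.m (.v 3) (.v 2)) (.v 1)) (.v 0))
  (.cons false 1 (.m (.m (.m (.v 0) (.v 3)) (.v 1)) (.v 2))
  (.cons false 1 (.m (.m (.m (.v 0) (.v 3)) (.v 2)) (.v 1))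
  (.cons false 1 (.m (.m (.m (.v 1) (.v 3)) (.v 0)) (.v 2))
  (.cons false 1 (.m (.m (.m (.v 1) (.v 3)) (.v 2)) (.v 0))
  (.cons false 1 (.m (.m (.m (.v 2) (.v 3)) (.v 0)) (.v 1))
  (.cons false 1 (.m (.m (.m (.v 2) (.v 3)) (.v 1)) (.v 0))
  (.cons false 1 (.m (.m (.v 0) (.m (.v 3) (.v 1))) (.v 2))
  (.cons false 1 (.m (.m (.v 0) (.m (.v 3) (.v 2))) (.v 1))
  (.cons false 1 (.m (.m (.v 1) (.m (.v 3) (.v 0))) (.v 2))
  (.cons false 1 (.m (.m (.v 1) (.m (.v 3) (.v 2))) (.v 0))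
  (.cons false 1 (.m (.m (.v 2) (.m (.v 3) (.v 0))) (.v 1))
  (.cons false 1 (.m (.m (.v 2) (.m (.v 3) (.v 1))) (.v 0))
  (.cons true 1 (.m (.m (.v 0) (.m (.v 1) (.v 3))) (.v 2))
  (.cons true 1 (.m (.m (.v 0) (.m (.v 2) (.v 3))) (.v 1))
  (.cons true 1 (.m (.m (.v 1) (.m (.v 0) (.v 3))) (.v 2))
  (.cons true 1 (.m (.m (.v 1) (.m (.v 2) (.v 3))) (.v 0))
  (.cons true 1 (.m (.m (.v 2) (.m (.v 0) (.v 3))) (.v 1))
  (.cons true 1 (.m (.m (.v 2) (.m (.v 1) (.v 3))) (.v 0))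
  (.cons false 1 (.m (.v 0) (.m (.m (.v 3) (.v 1)) (.v 2)))
  (.cons false 1 (.m (.v 0) (.m (.m (.v 3) (.v 2)) (.v 1)))
  (.cons false 1 (.m (.v 1) (.m (.m (.v 3) (.v 0)) (.v 2)))
  (.cons false 1 (.m (.v 1) (.m (.m (.v 3) (.v 2)) (.v 0)))
  (.cons false 1 (.m (.v 2) (.m (.m (.v 3) (.v 0)) (.v 1)))
  (.cons false 1 (.m (.v 2) (.m (.m (.v 3) (.v 1)) (.v 0)))
  (.cons true 1 (.m (.v 0) (.m (.m (.v 1) (.v 3)) (.v 2)))
  (.cons true 1 (.m (.v 0) (.m (.m (.v 2) (.v 3)) (.v 1)))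
  (.cons true 1 (.m (.v 1) (.m (.m (.v 0) (.v 3)) (.v 2)))
  (.cons true 1 (.m (.v 1) (.m (.m (.v 2) (.v 3)) (.v 0)))
  (.cons true 1 (.m (.v 2) (.m (.m (.v 0) (.v 3)) (.v 1)))
  (.cons true 1 (.m (.v 2) (.m (.m (.v 1) (.v 3)) (.v 0)))
  (.cons true 1 (.m (.v 0) (.m (.v 1) (.m (.v 3) (.v 2))))
  (.cons true 1 (.m (.v 0) (.m (.v 2) (.m (.v 3) (.v 1))))
  (.cons true 1 (.m (.v 1) (.m (.v 0) (.m (.v 3) (.v 2))))
  (.cons true 1 (.m (.v 1) (.m (.v 2) (.m (.v 3) (.v 0))))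
  (.cons true 1 (.m (.v 2) (.m (.v 0) (.m (.v 3) (.v 1))))
  (.cons true 1 (.m (.v 2) (.m (.v 1) (.m (.v 3) (.v 0))))
  (.cons false 1 (.m (.v 0) (.m (.v 1) (.m (.v 2) (.v 3))))
  (.cons false 1 (.m (.v 0) (.m (.v 2) (.m (.v 1) (.v 3))))
  (.cons false 1 (.m (.v 1) (.m (.v 0) (.m (.v 2) (.v 3))))
  (.cons false 1 (.m (.v 1) (.m (.v 2) (.m (.v 0) (.v 3))))
  (.cons false 1 (.m (.v 2) (.m (.v 0) (.m (.v 1) (.v 3))))
  (.cons false 1 (.m (.v 2) (.m (.v 1) (.m (.v 0) (.v 3))))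
  .nil))))))))))))))))))))))))))))))))))))))))))))))))

/-- `[t, a]` -/
def tcT : Tm :=
  (.cons true 1 (.m (.m (.m (.m (.v 0) (.v 1)) (.v 3)) (.v 2)) (.v 4))
  (.cons true 1 (.m (.m (.m (.m (.v 0) (.v 2)) (.v 3)) (.v 1)) (.v 4))
  (.cons true 1 (.m (.m (.m (.m (.v 1) (.v 0)) (.v 3)) (.v 2)) (.v 4))
  (.cons true 1 (.m (.m (.m (.m (.v 1) (.v 2)) (.v 3)) (.v 0)) (.v 4))
  (.cons true 1 (.m (.m (.m (.m (.v 2) (.v 0)) (.v 3)) (.v 1)) (.v 4))
  (.cons true 1 (.m (.m (.m (.m (.v 2) (.v 1)) (.v 3)) (.v 0)) (.v 4))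
  (.cons false 1 (.m (.m (.m (.v 0) (.m (.v 1) (.v 3))) (.v 2)) (.v 4))
  (.cons false 1 (.m (.m (.m (.v 0) (.m (.v 2) (.v 3))) (.v 1)) (.v 4))
  (.cons false 1 (.m (.m (.m (.v 1) (.m (.v 0) (.v 3))) (.v 2)) (.v 4))
  (.cons false 1 (.m (.m (.m (.v 1) (.m (.v 2) (.v 3))) (.v 0)) (.v 4))
  (.cons false 1 (.m (.m (.m (.v 2) (.m (.v 0) (.v 3))) (.v 1)) (.v 4))
  (.cons false 1 (.m (.m (.m (.v 2) (.m (.v 1) (.v 3))) (.v 0)) (.v 4))
  (.cons false 1 (.m (.m (.v 0) (.m (.m (.v 1) (.v 2)) (.v 3))) (.v 4))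
  (.cons false 1 (.m (.m (.v 0) (.m (.m (.v 2) (.v 1)) (.v 3))) (.v 4))
  (.cons false 1 (.m (.m (.v 1) (.m (.m (.v 0) (.v 2)) (.v 3))) (.v 4))
  (.cons false 1 (.m (.m (.v 1) (.m (.m (.v 2) (.v 0)) (.v 3))) (.v 4))
  (.cons false 1 (.m (.m (.v 2) (.m (.m (.v 0) (.v 1)) (.v 3))) (.v 4))
  (.cons false 1 (.m (.m (.v 2) (.m (.m (.v 1) (.v 0)) (.v 3))) (.v 4))
  (.cons true 1 (.m (.m (.v 0) (.m (.v 1) (.m (.v 2) (.v 3)))) (.v 4))
  (.cons true 1 (.m (.m (.v 0) (.m (.v 2) (.m (.v 1) (.v 3)))) (.v 4))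
  (.cons true 1 (.m (.m (.v 1) (.m (.v 0) (.m (.v 2) (.v 3)))) (.v 4))
  (.cons true 1 (.m (.m (.v 1) (.m (.v 2) (.m (.v 0) (.v 3)))) (.v 4))
  (.cons true 1 (.m (.m (.v 2) (.m (.v 0) (.m (.v 1) (.v 3)))) (.v 4))
  (.cons true 1 (.m (.m (.v 2) (.m (.v 1) (.m (.v 0) (.v 3)))) (.v 4))
  (.cons false 1 (.m (.v 4) (.m (.m (.m (.v 0) (.v 1)) (.v 3)) (.v 2)))
  (.cons false 1 (.m (.v 4) (.m (.m (.m (.v 0) (.v 2)) (.v 3)) (.v 1)))
  (.cons false 1 (.m (.v 4) (.m (.m (.m (.v 1) (.v 0)) (.v 3)) (.v 2)))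
  (.cons false 1 (.m (.v 4) (.m (.m (.m (.v 1) (.v 2)) (.v 3)) (.v 0)))
  (.cons false 1 (.m (.v 4) (.m (.m (.m (.v 2) (.v 0)) (.v 3)) (.v 1)))
  (.cons false 1 (.m (.v 4) (.m (.m (.m (.v 2) (.v 1)) (.v 3)) (.v 0)))
  (.cons true 1 (.m (.v 4) (.m (.m (.v 0) (.m (.v 1) (.v 3))) (.v 2)))
  (.cons true 1 (.m (.v 4) (.m (.m (.v 0) (.m (.v 2) (.v 3))) (.v 1)))
  (.cons true 1 (.m (.v 4) (.m (.m (.v 1) (.m (.v 0) (.v 3))) (.v 2)))
  (.cons true 1 (.m (.v 4) (.m (.m (.v 1) (.m (.v 2) (.v 3))) (.v 0)))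
  (.cons true 1 (.m (.v 4) (.m (.m (.v 2) (.m (.v 0) (.v 3))) (.v 1)))
  (.cons true 1 (.m (.v 4) (.m (.m (.v 2) (.m (.v 1) (.v 3))) (.v 0)))
  (.cons true 1 (.m (.v 4) (.m (.v 0) (.m (.m (.v 1) (.v 2)) (.v 3))))
  (.cons true 1 (.m (.v 4) (.m (.v 0) (.m (.m (.v 2) (.v 1)) (.v 3))))
  (.cons true 1 (.m (.v 4) (.m (.v 1) (.m (.m (.v 0) (.v 2)) (.v 3))))
  (.cons true 1 (.m (.v 4) (.m (.v 1) (.m (.m (.v 2) (.v 0)) (.v 3))))
  (.cons true 1 (.m (.v 4) (.m (.v 2) (.m (.m (.v 0) (.v 1)) (.v 3))))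
  (.cons true 1 (.m (.v 4) (.m (.v 2) (.m (.m (.v 1) (.v 0)) (.v 3))))
  (.cons false 1 (.m (.v 4) (.m (.v 0) (.m (.v 1) (.m (.v 2) (.v 3)))))
  (.cons false 1 (.m (.v 4) (.m (.v 0) (.m (.v 2) (.m (.v 1) (.v 3)))))
  (.cons false 1 (.m (.v 4) (.m (.v 1) (.m (.v 0) (.m (.v 2) (.v 3)))))
  (.cons false 1 (.m (.v 4) (.m (.v 1) (.m (.v 2) (.m (.v 0) (.v 3)))))
  (.cons false 1 (.m (.v 4) (.m (.v 2) (.m (.v 0) (.m (.v 1) (.v 3)))))
  (.cons false 1 (.m (.v 4) (.m (.v 2) (.m (.v 1) (.m (.v 0) (.v 3)))))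
  .nil))))))))))))))))))))))))))))))))))))))))))))))))

/-- `(t, a, b)` -/
def ta1T : Tm :=
  (.cons true 1 (.m (.m (.m (.m (.m (.v 0) (.v 1)) (.v 3)) (.v 2)) (.v 4)) (.v 5))
  (.cons true 1 (.m (.m (.m (.m (.m (.v 0) (.v 2)) (.v 3)) (.v 1)) (.v 4)) (.v 5))
  (.cons true 1 (.m (.m (.m (.m (.m (.v 1) (.v 0)) (.v 3)) (.v 2)) (.v 4)) (.v 5))
  (.cons true 1 (.m (.m (.m (.m (.m (.v 1) (.v 2)) (.v 3)) (.v 0)) (.v 4)) (.v 5))
  (.cons true 1 (.m (.m (.m (.m (.m (.v 2) (.v 0)) (.v 3)) (.v 1)) (.v 4)) (.v 5))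
  (.cons true 1 (.m (.m (.m (.m (.m (.v 2) (.v 1)) (.v 3)) (.v 0)) (.v 4)) (.v 5))
  (.cons false 1 (.m (.m (.m (.m (.v 0) (.m (.v 1) (.v 3))) (.v 2)) (.v 4)) (.v 5))
  (.cons false 1 (.m (.m (.m (.m (.v 0) (.m (.v 2) (.v 3))) (.v 1)) (.v 4)) (.v 5))
  (.cons false 1 (.m (.m (.m (.m (.v 1) (.m (.v 0) (.v 3))) (.v 2)) (.v 4)) (.v 5))
  (.cons false 1 (.m (.m (.m (.m (.v 1) (.m (.v 2) (.v 3))) (.v 0)) (.v 4)) (.v 5))
  (.cons false 1 (.m (.m (.m (.m (.v 2) (.m (.v 0) (.v 3))) (.v 1)) (.v 4)) (.v 5))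
  (.cons false 1 (.m (.m (.m (.m (.v 2) (.m (.v 1) (.v 3))) (.v 0)) (.v 4)) (.v 5))
  (.cons false 1 (.m (.m (.m (.v 0) (.m (.m (.v 1) (.v 2)) (.v 3))) (.v 4)) (.v 5))
  (.cons false 1 (.m (.m (.m (.v 0) (.m (.m (.v 2) (.v 1)) (.v 3))) (.v 4)) (.v 5))
  (.cons false 1 (.m (.m (.m (.v 1) (.m (.m (.v 0) (.v 2)) (.v 3))) (.v 4)) (.v 5))
  (.cons false 1 (.m (.m (.m (.v 1) (.m (.m (.v 2) (.v 0)) (.v 3))) (.v 4)) (.v 5))
  (.cons false 1 (.m (.m (.m (.v 2) (.m (.m (.v 0) (.v 1)) (.v 3))) (.v 4)) (.v 5))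
  (.cons false 1 (.m (.m (.m (.v 2) (.m (.m (.v 1) (.v 0)) (.v 3))) (.v 4)) (.v 5))
  (.cons true 1 (.m (.m (.m (.v 0) (.m (.v 1) (.m (.v 2) (.v 3)))) (.v 4)) (.v 5))
  (.cons true 1 (.m (.m (.m (.v 0) (.m (.v 2) (.m (.v 1) (.v 3)))) (.v 4)) (.v 5))
  (.cons true 1 (.m (.m (.m (.v 1) (.m (.v 0) (.m (.v 2) (.v 3)))) (.v 4)) (.v 5))
  (.cons true 1 (.m (.m (.m (.v 1) (.m (.v 2) (.m (.v 0) (.v 3)))) (.v 4)) (.v 5))
  (.cons true 1 (.m (.m (.m (.v 2) (.m (.v 0) (.m (.v 1) (.v 3)))) (.v 4)) (.v 5))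
  (.cons true 1 (.m (.m (.m (.v 2) (.m (.v 1) (.m (.v 0) (.v 3)))) (.v 4)) (.v 5))
  (.cons false 1 (.m (.m (.m (.m (.v 0) (.v 1)) (.v 3)) (.v 2)) (.m (.v 4) (.v 5)))
  (.cons false 1 (.m (.m (.m (.m (.v 0) (.v 2)) (.v 3)) (.v 1)) (.m (.v 4) (.v 5)))
  (.cons false 1 (.m (.m (.m (.m (.v 1) (.v 0)) (.v 3)) (.v 2)) (.m (.v 4) (.v 5)))
  (.cons false 1 (.m (.m (.m (.m (.v 1) (.v 2)) (.v 3)) (.v 0)) (.m (.v 4) (.v 5)))
  (.cons false 1 (.m (.m (.m (.m (.v 2) (.v 0)) (.v 3)) (.v 1)) (.m (.v 4) (.v 5)))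
  (.cons false 1 (.m (.m (.m (.m (.v 2) (.v 1)) (.v 3)) (.v 0)) (.m (.v 4) (.v 5)))
  (.cons true 1 (.m (.m (.m (.v 0) (.m (.v 1) (.v 3))) (.v 2)) (.m (.v 4) (.v 5)))
  (.cons true 1 (.m (.m (.m (.v 0) (.m (.v 2) (.v 3))) (.v 1)) (.m (.v 4) (.v 5)))
  (.cons true 1 (.m (.m (.m (.v 1) (.m (.v 0) (.v 3))) (.v 2)) (.m (.v 4) (.v 5)))
  (.cons true 1 (.m (.m (.m (.v 1) (.m (.v 2) (.v 3))) (.v 0)) (.m (.v 4) (.v 5)))
  (.cons true 1 (.m (.m (.m (.v 2) (.m (.v 0) (.v 3))) (.v 1)) (.m (.v 4) (.v 5)))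
  (.cons true 1 (.m (.m (.m (.v 2) (.m (.v 1) (.v 3))) (.v 0)) (.m (.v 4) (.v 5)))
  (.cons true 1 (.m (.m (.v 0) (.m (.m (.v 1) (.v 2)) (.v 3))) (.m (.v 4) (.v 5)))
  (.cons true 1 (.m (.m (.v 0) (.m (.m (.v 2) (.v 1)) (.v 3))) (.m (.v 4) (.v 5)))
  (.cons true 1 (.m (.m (.v 1) (.m (.m (.v 0) (.v 2)) (.v 3))) (.m (.v 4) (.v 5)))
  (.cons true 1 (.m (.m (.v 1) (.m (.m (.v 2) (.v 0)) (.v 3))) (.m (.v 4) (.v 5)))
  (.cons true 1 (.m (.m (.v 2) (.m (.m (.v 0) (.v 1)) (.v 3))) (.m (.v 4) (.v 5)))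
  (.cons true 1 (.m (.m (.v 2) (.m (.m (.v 1) (.v 0)) (.v 3))) (.m (.v 4) (.v 5)))
  (.cons false 1 (.m (.m (.v 0) (.m (.v 1) (.m (.v 2) (.v 3)))) (.m (.v 4) (.v 5)))
  (.cons false 1 (.m (.m (.v 0) (.m (.v 2) (.m (.v 1) (.v 3)))) (.m (.v 4) (.v 5)))
  (.cons false 1 (.m (.m (.v 1) (.m (.v 0) (.m (.v 2) (.v 3)))) (.m (.v 4) (.v 5)))
  (.cons false 1 (.m (.m (.v 1) (.m (.v 2) (.m (.v 0) (.v 3)))) (.m (.v 4) (.v 5)))
  (.cons false 1 (.m (.m (.v 2) (.m (.v 0) (.m (.v 1) (.v 3)))) (.m (.v 4) (.v 5)))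
  (.cons false 1 (.m (.m (.v 2) (.m (.v 1) (.m (.v 0) (.v 3)))) (.m (.v 4) (.v 5)))
  .nil))))))))))))))))))))))))))))))))))))))))))))))))

/-- `(a, t, b)` -/
def ta2T : Tm :=
  (.cons true 1 (.m (.m (.v 4) (.m (.m (.m (.v 0) (.v 1)) (.v 3)) (.v 2))) (.v 5))
  (.cons true 1 (.m (.m (.v 4) (.m (.m (.m (.v 0) (.v 2)) (.v 3)) (.v 1))) (.v 5))
  (.cons true 1 (.m (.m (.v 4) (.m (.m (.m (.v 1) (.v 0)) (.v 3)) (.v 2))) (.v 5))
  (.cons true 1 (.m (.m (.v 4) (.m (.m (.m (.v 1) (.v 2)) (.v 3)) (.v 0))) (.v 5))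
  (.cons true 1 (.m (.m (.v 4) (.m (.m (.m (.v 2) (.v 0)) (.v 3)) (.v 1))) (.v 5))
  (.cons true 1 (.m (.m (.v 4) (.m (.m (.m (.v 2) (.v 1)) (.v 3)) (.v 0))) (.v 5))
  (.cons false 1 (.m (.m (.v 4) (.m (.m (.v 0) (.m (.v 1) (.v 3))) (.v 2))) (.v 5))
  (.cons false 1 (.m (.m (.v 4) (.m (.m (.v 0) (.m (.v 2) (.v 3))) (.v 1))) (.v 5))
  (.cons false 1 (.m (.m (.v 4) (.m (.m (.v 1) (.m (.v 0) (.v 3))) (.v 2))) (.v 5))
  (.cons false 1 (.m (.m (.v 4) (.m (.m (.v 1) (.m (.v 2) (.v 3))) (.v 0))) (.v 5))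
  (.cons false 1 (.m (.m (.v 4) (.m (.m (.v 2) (.m (.v 0) (.v 3))) (.v 1))) (.v 5))
  (.cons false 1 (.m (.m (.v 4) (.m (.m (.v 2) (.m (.v 1) (.v 3))) (.v 0))) (.v 5))
  (.cons false 1 (.m (.m (.v 4) (.m (.v 0) (.m (.m (.v 1) (.v 2)) (.v 3)))) (.v 5))
  (.cons false 1 (.m (.m (.v 4) (.m (.v 0) (.m (.m (.v 2) (.v 1)) (.v 3)))) (.v 5))
  (.cons false 1 (.m (.m (.v 4) (.m (.v 1) (.m (.m (.v 0) (.v 2)) (.v 3)))) (.v 5))
  (.cons false 1 (.m (.m (.v 4) (.m (.v 1) (.m (.m (.v 2) (.v 0)) (.v 3)))) (.v 5))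
  (.cons false 1 (.m (.m (.v 4) (.m (.v 2) (.m (.m (.v 0) (.v 1)) (.v 3)))) (.v 5))
  (.cons false 1 (.m (.m (.v 4) (.m (.v 2) (.m (.m (.v 1) (.v 0)) (.v 3)))) (.v 5))
  (.cons true 1 (.m (.m (.v 4) (.m (.v 0) (.m (.v 1) (.m (.v 2) (.v 3))))) (.v 5))
  (.cons true 1 (.m (.m (.v 4) (.m (.v 0) (.m (.v 2) (.m (.v 1) (.v 3))))) (.v 5))
  (.cons true 1 (.m (.m (.v 4) (.m (.v 1) (.m (.v 0) (.m (.v 2) (.v 3))))) (.v 5))
  (.cons true 1 (.m (.m (.v 4) (.m (.v 1) (.m (.v 2) (.m (.v 0) (.v 3))))) (.v 5))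
  (.cons true 1 (.m (.m (.v 4) (.m (.v 2) (.m (.v 0) (.m (.v 1) (.v 3))))) (.v 5))
  (.cons true 1 (.m (.m (.v 4) (.m (.v 2) (.m (.v 1) (.m (.v 0) (.v 3))))) (.v 5))
  (.cons false 1 (.m (.v 4) (.m (.m (.m (.m (.v 0) (.v 1)) (.v 3)) (.v 2)) (.v 5)))
  (.cons false 1 (.m (.v 4) (.m (.m (.m (.m (.v 0) (.v 2)) (.v 3)) (.v 1)) (.v 5)))
  (.cons false 1 (.m (.v 4) (.m (.m (.m (.m (.v 1) (.v 0)) (.v 3)) (.v 2)) (.v 5)))
  (.cons false 1 (.m (.v 4) (.m (.m (.m (.m (.v 1) (.v 2)) (.v 3)) (.v 0)) (.v 5)))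
  (.cons false 1 (.m (.v 4) (.m (.m (.m (.m (.v 2) (.v 0)) (.v 3)) (.v 1)) (.v 5)))
  (.cons false 1 (.m (.v 4) (.m (.m (.m (.m (.v 2) (.v 1)) (.v 3)) (.v 0)) (.v 5)))
  (.cons true 1 (.m (.v 4) (.m (.m (.m (.v 0) (.m (.v 1) (.v 3))) (.v 2)) (.v 5)))
  (.cons true 1 (.m (.v 4) (.m (.m (.m (.v 0) (.m (.v 2) (.v 3))) (.v 1)) (.v 5)))
  (.cons true 1 (.m (.v 4) (.m (.m (.m (.v 1) (.m (.v 0) (.v 3))) (.v 2)) (.v 5)))
  (.cons true 1 (.m (.v 4) (.m (.m (.m (.v 1) (.m (.v 2) (.v 3))) (.v 0)) (.v 5)))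
  (.cons true 1 (.m (.v 4) (.m (.m (.m (.v 2) (.m (.v 0) (.v 3))) (.v 1)) (.v 5)))
  (.cons true 1 (.m (.v 4) (.m (.m (.m (.v 2) (.m (.v 1) (.v 3))) (.v 0)) (.v 5)))
  (.cons true 1 (.m (.v 4) (.m (.m (.v 0) (.m (.m (.v 1) (.v 2)) (.v 3))) (.v 5)))
  (.cons true 1 (.m (.v 4) (.m (.m (.v 0) (.m (.m (.v 2) (.v 1)) (.v 3))) (.v 5)))
  (.cons true 1 (.m (.v 4) (.m (.m (.v 1) (.m (.m (.v 0) (.v 2)) (.v 3))) (.v 5)))
  (.cons true 1 (.m (.v 4) (.m (.m (.v 1) (.m (.m (.v 2) (.v 0)) (.v 3))) (.v 5)))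
  (.cons true 1 (.m (.v 4) (.m (.m (.v 2) (.m (.m (.v 0) (.v 1)) (.v 3))) (.v 5)))
  (.cons true 1 (.m (.v 4) (.m (.m (.v 2) (.m (.m (.v 1) (.v 0)) (.v 3))) (.v 5)))
  (.cons false 1 (.m (.v 4) (.m (.m (.v 0) (.m (.v 1) (.m (.v 2) (.v 3)))) (.v 5)))
  (.cons false 1 (.m (.v 4) (.m (.m (.v 0) (.m (.v 2) (.m (.v 1) (.v 3)))) (.v 5)))
  (.cons false 1 (.m (.v 4) (.m (.m (.v 1) (.m (.v 0) (.m (.v 2) (.v 3)))) (.v 5)))
  (.cons false 1 (.m (.v 4) (.m (.m (.v 1) (.m (.v 2) (.m (.v 0) (.v 3)))) (.v 5)))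
  (.cons false 1 (.m (.v 4) (.m (.m (.v 2) (.m (.v 0) (.m (.v 1) (.v 3)))) (.v 5)))
  (.cons false 1 (.m (.v 4) (.m (.m (.v 2) (.m (.v 1) (.m (.v 0) (.v 3)))) (.v 5)))
  .nil))))))))))))))))))))))))))))))))))))))))))))))))

/-- `(a, b, t)` -/
def ta3T : Tm :=
  (.cons true 1 (.m (.m (.v 4) (.v 5)) (.m (.m (.m (.v 0) (.v 1)) (.v 3)) (.v 2)))
  (.cons true 1 (.m (.m (.v 4) (.v 5)) (.m (.m (.m (.v 0) (.v 2)) (.v 3)) (.v 1)))
  (.cons true 1 (.m (.m (.v 4) (.v 5)) (.m (.m (.m (.v 1) (.v 0)) (.v 3)) (.v 2)))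
  (.cons true 1 (.m (.m (.v 4) (.v 5)) (.m (.m (.m (.v 1) (.v 2)) (.v 3)) (.v 0)))
  (.cons true 1 (.m (.m (.v 4) (.v 5)) (.m (.m (.m (.v 2) (.v 0)) (.v 3)) (.v 1)))
  (.cons true 1 (.m (.m (.v 4) (.v 5)) (.m (.m (.m (.v 2) (.v 1)) (.v 3)) (.v 0)))
  (.cons false 1 (.m (.m (.v 4) (.v 5)) (.m (.m (.v 0) (.m (.v 1) (.v 3))) (.v 2)))
  (.cons false 1 (.m (.m (.v 4) (.v 5)) (.m (.m (.v 0) (.m (.v 2) (.v 3))) (.v 1)))
  (.cons false 1 (.m (.m (.v 4) (.v 5)) (.m (.m (.v 1) (.m (.v 0) (.v 3))) (.v 2)))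
  (.cons false 1 (.m (.m (.v 4) (.v 5)) (.m (.m (.v 1) (.m (.v 2) (.v 3))) (.v 0)))
  (.cons false 1 (.m (.m (.v 4) (.v 5)) (.m (.m (.v 2) (.m (.v 0) (.v 3))) (.v 1)))
  (.cons false 1 (.m (.m (.v 4) (.v 5)) (.m (.m (.v 2) (.m (.v 1) (.v 3))) (.v 0)))
  (.cons false 1 (.m (.m (.v 4) (.v 5)) (.m (.v 0) (.m (.m (.v 1) (.v 2)) (.v 3))))
  (.cons false 1 (.m (.m (.v 4) (.v 5)) (.m (.v 0) (.m (.m (.v 2) (.v 1)) (.v 3))))
  (.cons false 1 (.m (.m (.v 4) (.v 5)) (.m (.v 1) (.m (.m (.v 0) (.v 2)) (.v 3))))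
  (.cons false 1 (.m (.m (.v 4) (.v 5)) (.m (.v 1) (.m (.m (.v 2) (.v 0)) (.v 3))))
  (.cons false 1 (.m (.m (.v 4) (.v 5)) (.m (.v 2) (.m (.m (.v 0) (.v 1)) (.v 3))))
  (.cons false 1 (.m (.m (.v 4) (.v 5)) (.m (.v 2) (.m (.m (.v 1) (.v 0)) (.v 3))))
  (.cons true 1 (.m (.m (.v 4) (.v 5)) (.m (.v 0) (.m (.v 1) (.m (.v 2) (.v 3)))))
  (.cons true 1 (.m (.m (.v 4) (.v 5)) (.m (.v 0) (.m (.v 2) (.m (.v 1) (.v 3)))))
  (.cons true 1 (.m (.m (.v 4) (.v 5)) (.m (.v 1) (.m (.v 0) (.m (.v 2) (.v 3)))))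
  (.cons true 1 (.m (.m (.v 4) (.v 5)) (.m (.v 1) (.m (.v 2) (.m (.v 0) (.v 3)))))
  (.cons true 1 (.m (.m (.v 4) (.v 5)) (.m (.v 2) (.m (.v 0) (.m (.v 1) (.v 3)))))
  (.cons true 1 (.m (.m (.v 4) (.v 5)) (.m (.v 2) (.m (.v 1) (.m (.v 0) (.v 3)))))
  (.cons false 1 (.m (.v 4) (.m (.v 5) (.m (.m (.m (.v 0) (.v 1)) (.v 3)) (.v 2))))
  (.cons false 1 (.m (.v 4) (.m (.v 5) (.m (.m (.m (.v 0) (.v 2)) (.v 3)) (.v 1))))
  (.cons false 1 (.m (.v 4) (.m (.v 5) (.m (.m (.m (.v 1) (.v 0)) (.v 3)) (.v 2))))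
  (.cons false 1 (.m (.v 4) (.m (.v 5) (.m (.m (.m (.v 1) (.v 2)) (.v 3)) (.v 0))))
  (.cons false 1 (.m (.v 4) (.m (.v 5) (.m (.m (.m (.v 2) (.v 0)) (.v 3)) (.v 1))))
  (.cons false 1 (.m (.v 4) (.m (.v 5) (.m (.m (.m (.v 2) (.v 1)) (.v 3)) (.v 0))))
  (.cons true 1 (.m (.v 4) (.m (.v 5) (.m (.m (.v 0) (.m (.v 1) (.v 3))) (.v 2))))
  (.cons true 1 (.m (.v 4) (.m (.v 5) (.m (.m (.v 0) (.m (.v 2) (.v 3))) (.v 1))))
  (.cons true 1 (.m (.v 4) (.m (.v 5) (.m (.m (.v 1) (.m (.v 0) (.v 3))) (.v 2))))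
  (.cons true 1 (.m (.v 4) (.m (.v 5) (.m (.m (.v 1) (.m (.v 2) (.v 3))) (.v 0))))
  (.cons true 1 (.m (.v 4) (.m (.v 5) (.m (.m (.v 2) (.m (.v 0) (.v 3))) (.v 1))))
  (.cons true 1 (.m (.v 4) (.m (.v 5) (.m (.m (.v 2) (.m (.v 1) (.v 3))) (.v 0))))
  (.cons true 1 (.m (.v 4) (.m (.v 5) (.m (.v 0) (.m (.m (.v 1) (.v 2)) (.v 3)))))
  (.cons true 1 (.m (.v 4) (.m (.v 5) (.m (.v 0) (.m (.m (.v 2) (.v 1)) (.v 3)))))
  (.cons true 1 (.m (.v 4) (.m (.v 5) (.m (.v 1) (.m (.m (.v 0) (.v 2)) (.v 3)))))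
  (.cons true 1 (.m (.v 4) (.m (.v 5) (.m (.v 1) (.m (.m (.v 2) (.v 0)) (.v 3)))))
  (.cons true 1 (.m (.v 4) (.m (.v 5) (.m (.v 2) (.m (.m (.v 0) (.v 1)) (.v 3)))))
  (.cons true 1 (.m (.v 4) (.m (.v 5) (.m (.v 2) (.m (.m (.v 1) (.v 0)) (.v 3)))))
  (.cons false 1 (.m (.v 4) (.m (.v 5) (.m (.v 0) (.m (.v 1) (.m (.v 2) (.v 3))))))
  (.cons false 1 (.m (.v 4) (.m (.v 5) (.m (.v 0) (.m (.v 2) (.m (.v 1) (.v 3))))))
  (.cons false 1 (.m (.v 4) (.m (.v 5) (.m (.v 1) (.m (.v 0) (.m (.v 2) (.v 3))))))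
  (.cons false 1 (.m (.v 4) (.m (.v 5) (.m (.v 1) (.m (.v 2) (.m (.v 0) (.v 3))))))
  (.cons false 1 (.m (.v 4) (.m (.v 5) (.m (.v 2) (.m (.v 0) (.m (.v 1) (.v 3))))))
  (.cons false 1 (.m (.v 4) (.m (.v 5) (.m (.v 2) (.m (.v 1) (.m (.v 0) (.v 3))))))
  .nil))))))))))))))))))))))))))))))))))))))))))))))))

theorem g31T_holds (tor : NoTor A) (hg : ∀ x y : A, g31 x x x y = 0) (ρ : ℕ → A) :
    g31T.ev ρ = 0 := by
  refine Fast.ev_of_check tor (.cons 0 4 (ofP (E.sym3 (fun a b c => g31E a b c (.v 3))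
    (.v 0) (.v 1) (.v 2)).p) .nil) ⟨fun ρ' _ => ?_, trivial⟩ 0 g31T [16982272] (by decide +kernel)
  rw [ev_ofP, evP_p]
  refine polar3 (fun a b c => g31 a b c (ρ' 3)) ?_ ?_ ?_ (fun a => hg a _) (ρ' 0) (ρ' 1) (ρ' 2) <;>
  · intro a b c d
    simp only [g31, add_mul, mul_add, smul_add]
    abel

theorem f1T_holds (tor : NoTor A) (hf : ∀ x y : A, f1 x x x y = 0) (ρ : ℕ → A) :
    f1T.ev ρ = 0 := by
  refine Fast.ev_of_check tor (.cons 0 4 (ofP (E.sym3 (fun a b c => .cm (.cm (.cm (.v 3) a) b) c)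
    (.v 0) (.v 1) (.v 2)).p) .nil) ⟨fun ρ' _ => ?_, trivial⟩ 0 f1T [16982272] (by decide +kernel)
  rw [ev_ofP, evP_p]
  refine polar3 (fun a b c => f1 a b c (ρ' 3)) ?_ ?_ ?_ (fun a => hf a _) (ρ' 0) (ρ' 1) (ρ' 2) <;>
  · intro a b c d
    simp only [f1, cmm, add_mul, mul_add, sub_mul, mul_sub]
    abel

theorem tcT_holds (tor : NoTor A) (ht : ∀ x y a : A, cmm (tt x x x y) a = 0) (ρ : ℕ → A) :
    tcT.ev ρ = 0 := by
  refine Fast.ev_of_check tor (.cons 0 5 (ofP (E.sym3 (fun a b c => .cm (ttE a b c (.v 3)) (.v 4))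
    (.v 0) (.v 1) (.v 2)).p) .nil) ⟨fun ρ' _ => ?_, trivial⟩ 0 tcT [272834816] (by decide +kernel)
  rw [ev_ofP, evP_p]
  refine polar3 (fun a b c => cmm (tt a b c (ρ' 3)) (ρ' 4)) ?_ ?_ ?_ (fun a => ht a _ _)
    (ρ' 0) (ρ' 1) (ρ' 2) <;>
  · intro a b c d
    simp only [tt, ass, cmm, add_mul, mul_add, sub_mul, mul_sub]
    abel

theorem ta1T_holds (tor : NoTor A) (ht : ∀ x y a b : A, ass (tt x x x y) a b = 0) (ρ : ℕ → A) :
    ta1T.ev ρ = 0 := by
  refine Fast.ev_of_check tor (.cons 0 6 (ofP (E.sym3 (fun a b c => .as (ttE a b c (.v 3)) (.v 4)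
    (.v 5)) (.v 0) (.v 1) (.v 2)).p) .nil) ⟨fun ρ' _ => ?_, trivial⟩ 0 ta1T [4383252736]
    (by decide +kernel)
  rw [ev_ofP, evP_p]
  refine polar3 (fun a b c => ass (tt a b c (ρ' 3)) (ρ' 4) (ρ' 5)) ?_ ?_ ?_ (fun a => ht a _ _ _)
    (ρ' 0) (ρ' 1) (ρ' 2) <;>
  · intro a b c d
    simp only [tt, ass, cmm, add_mul, mul_add, sub_mul, mul_sub]
    abel

theorem ta2T_holds (tor : NoTor A) (ht : ∀ x y a b : A, ass a (tt x x x y) b = 0) (ρ : ℕ → A) :
    ta2T.ev ρ = 0 := by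
  refine Fast.ev_of_check tor (.cons 0 6 (ofP (E.sym3 (fun a b c => .as (.v 4) (ttE a b c (.v 3))
    (.v 5)) (.v 0) (.v 1) (.v 2)).p) .nil) ⟨fun ρ' _ => ?_, trivial⟩ 0 ta2T [4383252736]
    (by decide +kernel)
  rw [ev_ofP, evP_p]
  refine polar3 (fun a b c => ass (ρ' 4) (tt a b c (ρ' 3)) (ρ' 5)) ?_ ?_ ?_ (fun a => ht a _ _ _)
    (ρ' 0) (ρ' 1) (ρ' 2) <;>
  · intro a b c d
    simp only [tt, ass, cmm, add_mul, mul_add, sub_mul, mul_sub]
    abel

theorem ta3T_holds (tor : NoTor A) (ht : ∀ x y a b : A, ass a b (tt x x x y) = 0) (ρ : ℕ → A) :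
    ta3T.ev ρ = 0 := by
  refine Fast.ev_of_check tor (.cons 0 6 (ofP (E.sym3 (fun a b c => .as (.v 4) (.v 5)
    (ttE a b c (.v 3))) (.v 0) (.v 1) (.v 2)).p) .nil) ⟨fun ρ' _ => ?_, trivial⟩ 0 ta3T [4383252736]
    (by decide +kernel)
  rw [ev_ofP, evP_p]
  refine polar3 (fun a b c => ass (ρ' 4) (ρ' 5) (tt a b c (ρ' 3))) ?_ ?_ ?_ (fun a => ht a _ _ _)
    (ρ' 0) (ρ' 1) (ρ' 2) <;>
  · intro a b c d
    simp only [tt, ass, cmm, add_mul, mul_add, sub_mul, mul_sub]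
    abel

/-- known identities -/
def K5 : Kn := .cons 0 3 raT (.cons 0 4 malT (.cons 0 4 g31T (.cons 0 4 f1T
  (.cons 0 5 tcT (.cons 0 6 ta1T (.cons 0 6 ta2T (.cons 0 6 ta3T .nil)))))))

/-- `(a, a, b) t(x, y)` -/
def s5E : E := .mul (.as (.v 2) (.v 2) (.v 3)) (ttE (.v 0) (.v 0) (.v 0) (.v 1))

/-- certificate -/
def s5C : List ℕ :=
  [39397545550921474304, 39393041951313953008, 39397543558076498160, 39393039958429278464,
    26265047044361024016, 26260543440973525520, 21883010591611683056, 21887514191237018112,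
    21887514191269462256, 21883010591071809280, 21887548207393669360, 21883044607212789504,
    21887550199976427760, 21883046600347021824, 21883010591593852960, 21887514190699171616,
    21887550200243814640, 21883046600615457024, 17505511753807691776, 21883046600631124208,
    21883046600379465968, 21887550199704923904, 21887550199704985344, 21883044543358566640,
    17505545773957247216, 21887548142415654656, 21883044542788276000, 21887548142937698336,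
    21883044607484231920, 21887548207109566976, 19694261172169744896, 19698764771817029872,
    21887548207142011120, 21883044607212728064, 21883044607751749632, 21883044607734837264,
    17510051362439823360, 21887548206840155920, 21883046600077545248, 21887550199958597664,
    17510049377358581760, 17505547762559754240, 21883044607484362752, 17510051362187177984,
    17510049305151537152, 17510049377359556608, 17510051362187059200, 17505547762561773568,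
    17505545777731145728, 17505545777731203072, 17510015353432973312, 21883046600077610768,
    17505511753805656064, 17510015353434992640, 17505511753805537280, 21887550200227033104,
    17510049377358508288, 17505545777732124912, 19698798723513590272, 17510051362172436480,
    19694295123906134256, 17510049373599305712, 17505511753822433280, 17510015353449750528,
    17505511753822314496, 17505545705004986368, 17510015353451769856, 17510015352915881984,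
    17505511753838030848, 17510049305181876224, 21887548206840090400, 17505545773453025280,
    21883044607466401824, 17510049373080449024, 17510049373080330240, 17505547762811408384,
    17510049304631504896, 17505547762812383232, 17510051362438770688, 17505511753287659520,
    17510051362438713344, 17510015352898252800, 17505545704987357184, 17505547762293272576,
    17510051362454433792, 17505545769962237952, 17510051361920774144, 17510049369055817728,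
    17505547762276626432, 17505545769428578304, 17510049369039171584, 17505545773455044608,
    17510049369307541504, 17510049369305522176, 17505545769678086144, 17505545769678204928,
    17505547762542977024, 17505547762544996352, 17510051362170400768, 17510051362170281984,
    17505547762277543936, 17510051362202775552, 17510049369040089088, 17505545769710579712,
    17510049369591705600, 17505545769963294720, 17510049369590730752, 17505545769963352064,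
    17505547762829160448, 17510051362455490560, 17505547762828185600, 17505545769427595264,
    17510051362455547904, 17510051361919791104, 17505547762275643392, 17510049369038188544,
    45599161779814404, 13132550467347284208, 13128046867717878272, 2849939023593477,
    2848848302178310, 8750550086953533440, 2849947610316805, 8755017677843529728,
    8755017677287780896, 8750514077659373600, 8750550086666220048, 8755053686292553744,
    8755051693428764960, 8750548093800353824, 8750550086666219808, 8755053686292549664,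
    8750550086951379184, 8750548097844703744, 8755051697474109680, 8755051701751316480,
    8755051701750206704, 8750548102122962960, 8750548094102339584, 8755017677824598256,
    8750514078197350432, 8755017677304505072, 8750548029393609456, 8755017677841375472,
    8750514078182543344, 8755017677286809840, 8750514078196302064, 8750514077645861104,
    8755053686578872352, 8755017677808857600, 8755051628989706480, 8750550086682940144,
    8755051693445485296, 8750548094353997824, 8750548097844650224, 8755051697472143392,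
    8750550087203033328, 8750550086682943984, 13132550531787587584, 8755053686830530576,
    8750548093786779888, 8755053686278975728, 8755051693445489136, 10943801048475697152,
    22782099751763972, 8750550087220920320, 8750514078214127648, 8755051693699301376,
    8750550086665183472, 8755053686547288048, 8750550086665244912, 8755053686814674928,
    546909380415648274, 8755053686561046768, 8750550086918861312, 547190855393288450,
    8750550087187296512, 8755053686829416688, 8755051629526388720, 8750548029375914224,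
    8750548029897961984, 8755051629540147440, 8755051629003218976, 8755051693697147120,
    8750548029376885280, 8750548094069899296, 8755051693949841664, 8750548094337220848,
    8750550086934601968, 8755051693428765200, 8755053686562095136, 8750548093800357904,
    547190730838307346, 546909255862526210, 8750548094055092208, 8755051693427728624,
    8750548094322479088, 8755051693427790064, 8750548094068850928, 8755051693716078592,
    8755051693681406464, 8750548093785796848, 8755053686277992688, 8755053686580838640,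
    8750514078216093936, 8755017677841428992, 8750550086951432704, 10943803105496596480,
    10943803105748254720, 10939299506106204160, 8750547964668146192, 8750547956111766032,
    1424980745191431, 1423881233563653, 8755051555753882128, 8755051693982355696,
    8750550087219810544, 8755051560284713488, 10939299505838817280, 4377554848488369936,
    4373049192128512000, 4373015239855189792, 1424980259569670, 8750548094355111952,
    4373049255996170016, 1423881015328773, 10943767096743432176, 10939263497116119280,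
    8755053686847307792, 4377554848488365856, 1424980257669125, 22781959061241860,
    4373049260042682368, 4373051248861179920, 22782099720372228, 22799684136468484,
    22782091936727044, 1423880999600133, 8755053686848225520, 4377518839482740768,
    8750550087219867904, 273594927466738210, 273313452490957314, 4377518839482687520,
    4373015239873065504, 4377552855623659552, 4373051248864198896, 4377554848506245408,
    4377554848488431872, 4373051248861122592, 22782027811061764, 4373051248861126672,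
    4377552791199154928, 4377554848506245648, 4373049192092857072, 273315574472307234,
    4377552791199035168, 273597049449947650, 4373049191571791904, 4373049256014049808,
    4377552791216910880, 4373049256535130352, 4377552855623671824, 4373049191571845152,
    4377552856161513728, 1424980258652165, 4377552855626744048, 4373049255996174096,
    4377552855623667744, 4373049256014049568, 273315578499760657, 273597053475549713,
    4373049255996236032, 4377552855623725072, 4377552855912022016, 4373049255996293616,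
    4377552856144736752, 273597178030522897, 273315703052890641, 8750548094356029680,
    8755053686277796128, 8750550086665171232, 8750514077644616224, 4377552856161456112,
    8755017677286732320, 4373049256534143216, 8755051693982413056, 4373051248861114400,
    8750548029375836704, 6561798611013795840, 8755051628988461600, 1423881233563654,
    4377518840003752688, 4373015239855309552, 4377552856179408896, 4373051249113756400,
    4377554848488424176, 8755053686277796368, 8750550086665171472, 4373049256549941248,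
    2188769420583764208, 2184265820953190912, 136798088785359393, 136516613809570337,
    2184299772672868592, 2188803372297036288, 136518735790928417, 136800210768560673,
    4377552855876301552, 4373049256298283008, 4373051249382191600, 4373049255996228336,
    4377554848488489456]

/-- if the elements `t(x, y)` are central then `(a, a, b) t(x, y) = 0` -/
theorem RAM.alt_mul_tt (h : RAM A) (hg : ∀ x y : A, g31 x x x y = 0)
    (hf : ∀ x y : A, f1 x x x y = 0)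
    (t0 : ∀ x y a : A, cmm (tt x x x y) a = 0)
    (t1 : ∀ x y a b : A, ass (tt x x x y) a b = 0)
    (t2 : ∀ x y a b : A, ass a (tt x x x y) b = 0)
    (t3 : ∀ x y a b : A, ass a b (tt x x x y) = 0) (x y a b : A) :
    ass a a b * tt x x x y = 0 := by
  have hK : K5.Holds (fun i => if i = 0 then x else if i = 1 then y else if i = 2 then a else b) :=
    ⟨fun ρ' _ => raT_holds h ρ', fun ρ' _ => malT_holds h ρ', fun ρ' _ => g31T_holds h.tor hg ρ',
      fun ρ' _ => f1T_holds h.tor hf ρ', fun ρ' _ => tcT_holds h.tor t0 ρ',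
      fun ρ' _ => ta1T_holds h.tor t1 ρ', fun ρ' _ => ta2T_holds h.tor t2 ρ',
      fun ρ' _ => ta3T_holds h.tor t3 ρ', trivial⟩
  exact ev_of_checkE h.tor K5 hK 5 s5E s5C (by decide +kernel)

end ring

section alg

variable {F A : Type*} [Field F] [NonUnitalNonAssocRing A] [Module F A]
  [IsScalarTower F A A] [SMulCommClass F A A]

/-- in a simple algebra: if the elements `t(x, y)` are central then they vanish -/
theorem SR.tt_eq_zero (h : SR F A) (hg : ∀ x y : A, g31 x x x y = 0)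
    (hf : ∀ x y : A, f1 x x x y = 0)
    (t0 : ∀ x y a : A, cmm (tt x x x y) a = 0)
    (t1 : ∀ x y a b : A, ass (tt x x x y) a b = 0)
    (t2 : ∀ x y a b : A, ass a (tt x x x y) b = 0)
    (t3 : ∀ x y a b : A, ass a b (tt x x x y) = 0) (x y : A) : tt x x x y = 0 :=
  h.eq_zero_of_mul_alt fun a b => h.ram.alt_mul_tt hg hf t0 t1 t2 t3 x y a b

end alg

end Pool.Agent.NACert
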