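import Pool.Agent.NACert.S1e

/-!
# The identity `g31` in simple algebras

`p1`, `q1` and `q2` have central values; a multiple of a value by `x` is again a combination of
values, so all of them vanish, and `g31` vanishes on alternators.
-/

namespace Pool.Agent.NACert

open Fast

/-- `(x, v, w)` for a fixed `x` -/
def n1T : Tm :=
  (.cons true 1 (.m (.m (.v 0) (.v 1)) (.v 2))
  (.cons false 1 (.m (.v 0) (.m (.v 1) (.v 2)))
  .nil))

/-- `(v, x, w)` for a fixed `x` -/
def n2T : Tm :=
  (.cons true 1 (.m (.m (.v 1) (.v 0)) (.v 2))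
  (.cons false 1 (.m (.v 1) (.m (.v 0) (.v 2)))
  .nil))

/-- known identities for a central element -/
def KZ : Kn := .cons 1 1 czT (.cons 1 2 n1T (.cons 1 2 n2T .nil))

section ring

variable {A : Type*} [NonUnitalNonAssocRing A]

theorem ZC.kz {x : A} (hx : ZC x) (ρ : ℕ → A) (h0 : ρ 0 = x) : KZ.Holds ρ := by
  subst h0
  refine ⟨fun ρ' h => ?_, fun ρ' h => ?_, fun ρ' h => ?_, trivial⟩
  · have e := hx.cmm (ρ' 1)
    rw [← h 0 (by norm_num)] at e
    simp only [czT, Tm.ev, T.ev, one_smul, bc_true, bc_false, add_zero]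
    rw [← sub_eq_add_neg]
    exact e
  · have e := hx.n1 (ρ' 1) (ρ' 2)
    rw [← h 0 (by norm_num)] at e
    simp only [n1T, Tm.ev, T.ev, one_smul, bc_true, bc_false, add_zero]
    rw [← sub_eq_add_neg]
    exact e
  · have e := hx.n2 (ρ' 1) (ρ' 2)
    rw [← h 0 (by norm_num)] at e
    simp only [n2T, Tm.ev, T.ev, one_smul, bc_true, bc_false, add_zero]
    rw [← sub_eq_add_neg]
    exact e

theorem ZC.q1 (h : RAM A) {x : A} (hx : ZC x) (y : A) : NACert.q1 x y = 0 :=
  ev_of_checkE h.tor KZ (hx.kz (rh3 x y y) rfl) 0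
    (q1mE (.v 0) (.v 0) (.v 0) (.v 1) (.v 1)) [128851123986, 73016545778, 60131713041, 824666296560, 51541643506, 824668455408,
    47246676209, 755947872240, 47246745361, 51541778450, 47245631250, 51557376018,
    824918016496, 51540598545, 21476871954, 21475824113, 343899443184, 412332659184,
    25770917650, 343899439600, 21476868594, 25770791410, 21493711346, 343629955568,
    21493714961, 21493714706, 25771835889, 25771970322, 412351598832, 343631008240,
    343632113904, 25771966962, 412351529456, 21476942097, 21477003505, 25771970577,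
    412351533296, 4313849873] (by decide +kernel)

theorem ZC.q2 (h : RAM A) {x : A} (hx : ZC x) (y : A) : NACert.q2 x y = 0 :=
  ev_of_checkE h.tor KZ (hx.kz (rh3 x y y) rfl) 0
    (q2mE (.v 0) (.v 0) (.v 0) (.v 1) (.v 1)) [60147310610, 60130533137, 962356969968, 51541778449, 38656810769, 38656741617,
    687227343088, 42951708914, 30066872818, 481069965296, 34361843474, 21493714706,
    21493714961, 21493711346, 343899443184, 343899439600, 25770791410, 412332659184,
    21476871954, 21475824113, 12903780113, 12885892882, 206191002096, 17181901297, 12886934002,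
    12887068433, 4313849873, 69003710704, 8607699185, 4312728050, 4312731665, 69003706864,
    68752118000, 137472643568, 4297007121, 8592040209, 8592101617, 4297134322, 68754149616] (by decide +kernel)

end ring

section alg

variable {F A : Type*} [Field F] [NonUnitalNonAssocRing A] [Module F A] [IsScalarTower F A A]
  [SMulCommClass F A A]

theorem SR.p1_eq_zero (h : SR F A) (x y : A) : p1 x y = 0 := by
  have hz : ∀ y, ZC (p1 x y) := fun y =>
    h.cm_zc h.omH (cm_of_cmm fun c => h.ram.p1_cm x y c)
  have hx : ZC (p1 x y * x) := by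
    have e : p1 x y * x = p1 x (y * x) - p1 x (cmm y x) := by
      rw [eq_sub_iff_add_eq, ← sub_eq_zero, ← neg_eq_zero, ← h.ram.p1_rt x y]
      abel
    rw [e]
    exact (hz _).sub (hz _)
  rcases h.rtrick h.omH (hz y) hx with h0 | hc
  · exact h0
  · rw [p1, hc.n1, hc.n1, smul_zero, sub_zero]

theorem SR.q1_eq_zero (h : SR F A) (x y : A) : q1 x y = 0 := by
  have hz : ∀ y, ZC (q1 x y) := fun y =>
    h.cm_zc h.omH (cm_of_cmm fun c => h.ram.q1_cm x y c)
  have hx : ZC (((2 : ℤ) • q1 x y) * x) := by
    have e : ((2 : ℤ) • q1 x y) * x = q1 x (y + y * x) - q1 x y - q1 x (y * x) := by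
      have e1 := h.ram.q1_rt h.p1_eq_zero x y
      rw [sub_eq_zero] at e1
      rw [smul_mul_assoc, e1]
      simp only [NACert.q1, q1m_a4, q1m_a5]
      abel
    rw [e]
    exact ((hz _).sub (hz _)).sub (hz _)
  rcases h.rtrick h.omH ((hz y).zsmul 2) hx with h0 | hc
  · exact h.ram.tor.two h0
  · exact hc.q1 h.ram y

theorem SR.q2_eq_zero (h : SR F A) (x y : A) : q2 x y = 0 := by
  have hz : ∀ y, ZC (q2 x y) := fun y =>
    h.cm_zc h.omH (cm_of_cmm fun c => h.ram.q2_cm x y c)
  have hx : ZC (((2 : ℤ) • q2 x y) * x) := by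
    have e : ((2 : ℤ) • q2 x y) * x = q2 x (y + x * y) - q2 x y - q2 x (x * y) := by
      have e1 := h.ram.q2_rt h.p1_eq_zero x y
      rw [sub_eq_zero] at e1
      rw [smul_mul_assoc, e1]
      simp only [NACert.q2, q2m_a4, q2m_a5]
      abel
    rw [e]
    exact ((hz _).sub (hz _)).sub (hz _)
  rcases h.rtrick h.omH ((hz y).zsmul 2) hx with h0 | hc
  · exact h.ram.tor.two h0
  · exact hc.q2 h.ram y

theorem SR.g31_eq_zero (h : SR F A) (x y : A) : g31 x x x y = 0 := by
  refine h.induction (p := fun y => g31 x x x y = 0)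
    (fun a b => h.ram.g31_alt h.p1_eq_zero h.q1_eq_zero h.q2_eq_zero x a b) ?_ ?_ y
  · intro a b ha hb
    have e : g31 x x x (a + b) = g31 x x x a + g31 x x x b := by
      simp only [g31, mul_add, add_mul, smul_add]
      abel
    rw [e, ha, hb, add_zero]
  · intro c a ha
    have e : g31 x x x (c • a) = c • g31 x x x a := by
      simp only [g31, mul_smul_comm, smul_mul_assoc, smul_add, smul_sub, smul_comm c (3 : ℤ),
        smul_comm c (4 : ℤ)]
    rw [e, ha, smul_zero]

end alg

end Pool.Agent.NACert
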