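import Pool.Agent.NACert.LieTwo

/-!
# Killing a space of values in a simple algebra

If `V` is a subspace with `[V, A] ⊆ V`, `3 (c, t, z) = - t [c, z]` and `3 (t, c, z) = - 2 t [c, z]`
for `t` in `V`, then `V = 0` (proof of helper6).
-/

namespace Pool.Agent.NACert

section alg

variable {F A : Type*} [Field F] [NonUnitalNonAssocRing A] [Module F A] [IsScalarTower F A A]
  [SMulCommClass F A A]

theorem SR.kill_space (h : SR F A) (V : Submodule F A)
    (f3 : ∀ t ∈ V, ∀ c z : A, (3 : ℤ) • ass c t z = - (t * cmm c z))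
    (f4 : ∀ t ∈ V, ∀ c z : A, (3 : ℤ) • ass t c z = - ((2 : ℤ) • (t * cmm c z)))
    (f6 : ∀ t ∈ V, ∀ a : A, cmm t a ∈ V) : ∀ t ∈ V, t = 0 := by
  have h3' : ((3 : ℤ) : F) ≠ 0 := by simpa using h.three
  have tor := h.ram.tor
  -- `V [V, A] = 0`
  have s1 : ∀ t ∈ V, ∀ u ∈ V, ∀ z : A, t * cmm u z = 0 := by
    intro t ht u hu z
    have e1 := f4 t ht u z
    have e2 := f3 u hu t z
    have e3 := f4 u hu t z
    have e4 := f3 t ht u z
    rw [e2] at e1
    rw [e4] at e3
    have e5 : (3 : ℤ) • (t * cmm u z) = 0 := by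
      linear_combination (norm := module) (2 : ℤ) • e1 + e3
    exact tor.three e5
  set V1 : Submodule F A := Submodule.span F {x | ∃ t ∈ V, ∃ a : A, x = cmm t a} with hV1
  have hV1V : V1 ≤ V := by
    apply Submodule.span_le.mpr
    rintro _ ⟨t, ht, a, rfl⟩
    exact f6 t ht a
  have hV1m : ∀ t ∈ V, ∀ a : A, cmm t a ∈ V1 := fun t ht a =>
    Submodule.subset_span ⟨t, ht, a, rfl⟩
  have s2 : ∀ t ∈ V, ∀ u ∈ V1, t * u = 0 := by
    intro t ht
    have : V1 ≤ (LinearMap.mulLeft F t).ker := by
      apply Submodule.span_le.mpr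
      rintro _ ⟨u, hu, z, rfl⟩
      exact s1 t ht u hu z
    intro u hu
    exact this hu
  have hR : ∀ b : A, idI V1 ≤ (idI V1).comap (LinearMap.mulRight F b) := by
    intro b
    apply idI_le
    · intro t ht
      exact mul_mem_idI ht b
    · intro t ht a
      have e : (t * a) * b = t * (a * b) + ass t a b := by simp only [ass]; abel
      show (t * a) * b ∈ idI V1
      rw [e]
      apply Submodule.add_mem _ (mul_mem_idI ht _)
      apply mem_of_zsmul h3'
      rw [f4 t (hV1V ht)]
      exact Submodule.neg_mem _ (zsmul_mem' _ (mul_mem_idI ht _))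
  have hRm : ∀ x ∈ idI V1, ∀ b : A, x * b ∈ idI V1 := fun x hx b => hR b hx
  have hL : ∀ b : A, idI V1 ≤ (idI V1).comap (LinearMap.mulLeft F b) := by
    intro b
    have k1 : ∀ t ∈ V1, b * t ∈ idI V1 := by
      intro t ht
      have e : b * t = t * b - cmm t b := by simp only [cmm]; abel
      rw [e]
      exact Submodule.sub_mem _ (mul_mem_idI ht b) (mem_idI (hV1m t (hV1V ht) b))
    apply idI_le
    · intro t ht
      exact k1 t ht
    · intro t ht a
      have e : b * (t * a) = (b * t) * a - ass b t a := by simp only [ass]; abel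
      show b * (t * a) ∈ idI V1
      rw [e]
      apply Submodule.sub_mem _ (hRm _ (k1 t ht) a)
      apply mem_of_zsmul h3'
      rw [f3 t (hV1V ht)]
      exact Submodule.neg_mem _ (mul_mem_idI ht _)
  have hid : IsId F (idI V1) := fun x hx a => ⟨hL a hx, hR a hx⟩
  -- `V1 = 0`
  have hV10 : V1 = ⊥ := by
    rcases h.simp.2 _ hid with h1 | h1
    · rw [eq_bot_iff, ← h1]
      exact fun t ht => mem_idI ht
    · exfalso
      have s3 : ∀ t ∈ V1, ∀ x : A, t * x = 0 := by
        intro t ht
        have : idI V1 ≤ (LinearMap.mulLeft F t).ker := by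
          apply idI_le
          · intro u hu
            exact s2 t (hV1V ht) u hu
          · intro u hu a
            show t * (u * a) = 0
            have e : t * (u * a) = (t * u) * a - ass t u a := by simp only [ass]; abel
            rw [e, s2 t (hV1V ht) u hu, zero_mul, zero_sub, neg_eq_zero]
            apply tor.three
            rw [f4 t (hV1V ht), s1 t (hV1V ht) u (hV1V hu), smul_zero, neg_zero]
        intro x
        have hx : x ∈ idI V1 := by rw [h1]; trivial
        exact this hx
      have h2 : idI V1 ≤ V1 := by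
        apply idI_le
        · intro t ht
          exact ht
        · intro t ht a
          rw [s3 t ht a]
          exact V1.zero_mem
      obtain ⟨x, y, hxy⟩ := h.simp.1
      apply hxy
      apply s3 x
      apply h2
      rw [h1]; trivial
  intro t ht
  apply h.inU
  have hc : Cm t := by
    apply cm_of_cmm
    intro x
    have := hV1m t ht x
    rw [hV10, Submodule.mem_bot] at this
    exact this
  refine ⟨hc, fun x y => ?_⟩
  rw [← sub_eq_zero]
  show cmm (t * x) y = 0
  apply tor.two
  rw [h.ram.ral.l2 hc, f4 t ht]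
  abel

end alg

end Pool.Agent.NACert
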