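import Mathlib

/-!
# Certificates for identities in nonassociative rings

`T` is the type of nonassociative words, `P` the type of integral combinations of words.
`Holds A p` says that `p` is an identity of the nonassociative ring `A`.
A certificate is a list of natural numbers; each one codes an instance of a known identity,
multiplied by a context and a coefficient.  `check` verifies that a multiple of the target is the
sum of the instances; it is meant to be evaluated by the kernel.
-/

namespace Pool.Agent.NACert

/-- nonassociative words -/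
inductive T : Type
  | v : ℕ → T
  | m : T → T → T

/-- polynomials -/
abbrev P : Type := List (ℤ × T)

/-- value of a word -/
def T.ev {A : Type*} [Mul A] (ρ : ℕ → A) : T → A
  | .v n => ρ n
  | .m a b => a.ev ρ * b.ev ρ

/-- value of a polynomial -/
def evP {A : Type*} [NonUnitalNonAssocRing A] (ρ : ℕ → A) : P → A
  | [] => 0
  | (c, t) :: p => c • t.ev ρ + evP ρ p

/-- `p` is an identity of `A` -/
def Holds (A : Type*) [NonUnitalNonAssocRing A] (p : P) : Prop := ∀ ρ : ℕ → A, evP ρ p = 0

/-! ### codes of words -/

/-- code of a product -/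
def cb (a b : ℕ) : ℕ := 2 * Nat.pair a b + 1

/-- the value of a code -/
def gv {A : Type*} [Mul A] (ρ : ℕ → A) (n : ℕ) : A :=
  if h : n % 2 = 0 then ρ (n / 2)
  else
    have h1 : (Nat.unpair (n / 2)).1 < n := by
      have := Nat.unpair_left_le (n / 2); omega
    have h2 : (Nat.unpair (n / 2)).2 < n := by
      have := Nat.unpair_right_le (n / 2); omega
    gv ρ (Nat.unpair (n / 2)).1 * gv ρ (Nat.unpair (n / 2)).2
termination_by n

theorem gv_even {A : Type*} [Mul A] (ρ : ℕ → A) (n : ℕ) : gv ρ (2 * n) = ρ n := by
  rw [gv]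
  rw [dif_pos (by omega)]
  congr 1
  omega

theorem gv_cb {A : Type*} [Mul A] (ρ : ℕ → A) (a b : ℕ) : gv ρ (cb a b) = gv ρ a * gv ρ b := by
  have h1 : (cb a b) / 2 = Nat.pair a b := by unfold cb; omega
  have h2 : ¬ (cb a b) % 2 = 0 := by unfold cb; omega
  rw [gv, dif_neg h2]
  simp only [h1, Nat.unpair_pair]

/-- code of a word under a substitution given by a list of codes -/
def T.cd (σ : List ℕ) : T → ℕ
  | .v n => σ.getD n 0
  | .m a b => cb (a.cd σ) (b.cd σ)

theorem gv_cd {A : Type*} [Mul A] (ρ : ℕ → A) (σ : List ℕ) (t : T) :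
    gv ρ (t.cd σ) = t.ev (fun n => gv ρ (σ.getD n 0)) := by
  induction t with
  | v n => rfl
  | m a b iha ihb => rw [T.cd, gv_cb, T.ev, iha, ihb]

/-- code of a word -/
def T.c0 : T → ℕ
  | .v n => 2 * n
  | .m a b => cb a.c0 b.c0

theorem gv_c0 {A : Type*} [Mul A] (ρ : ℕ → A) (t : T) : gv ρ t.c0 = t.ev ρ := by
  induction t with
  | v n => exact gv_even ρ n
  | m a b iha ihb => rw [T.c0, gv_cb, T.ev, iha, ihb]

/-! ### combinations of codes -/

/-- a combination of codes -/
abbrev Q : Type := List (ℕ × ℤ)

/-- value of a combination of codes -/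
def evQ {A : Type*} [NonUnitalNonAssocRing A] (ρ : ℕ → A) : Q → A
  | [] => 0
  | (t, c) :: p => c • gv ρ t + evQ ρ p

/-- auxiliary function of `mg` -/
def mgo (s : ℕ) (c : ℤ) (p : Q) (f : Q → Q) : Q → Q
  | [] => (s, c) :: p
  | (t, d) :: q =>
    bif Nat.blt s t then (s, c) :: f ((t, d) :: q)
    else bif Nat.blt t s then (t, d) :: mgo s c p f q
    else bif (c + d == 0) then f q else (s, c + d) :: f q

/-- merging of two combinations (sorted by codes) -/
def mg : Q → Q → Q
  | [] => fun q => q
  | (s, c) :: p => mgo s c p (mg p)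

theorem evQ_mg {A : Type*} [NonUnitalNonAssocRing A] (ρ : ℕ → A) (p : Q) : ∀ q : Q,
    evQ ρ (mg p q) = evQ ρ p + evQ ρ q := by
  induction p with
  | nil => intro q; simp [mg, evQ]
  | cons a p ih =>
    obtain ⟨s, c⟩ := a
    intro q
    rw [mg]
    induction q with
    | nil => simp [mgo, evQ]
    | cons b q ihq =>
      obtain ⟨t, d⟩ := b
      rw [mgo]
      cases h1 : Nat.blt s t with
      | true => 
        simp only [cond_true, evQ, ih]
        abel
      | false =>
        cases h2 : Nat.blt t s with
        | true =>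
          simp only [cond_true, cond_false, evQ, ihq]
          abel
        | false =>
          have hst : s = t := by
            rw [← Bool.not_eq_true, Nat.blt_eq] at h1 h2
            omega
          subst hst
          cases h3 : (c + d == 0) with
          | true =>
            have h4 : c + d = 0 := by simpa using h3
            simp only [cond_true, cond_false, evQ, ih]
            have : c • gv ρ s + d • gv ρ s = 0 := by rw [← add_smul, h4, zero_smul]
            calc evQ ρ p + evQ ρ q = (c • gv ρ s + d • gv ρ s) + (evQ ρ p + evQ ρ q) := by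
                  rw [this, zero_add]
              _ = _ := by abel
          | false =>
            simp only [cond_false, evQ, ih, add_smul]
            abel

/-- merging of adjacent pairs -/
def mp : List Q → List Q
  | [] => []
  | [a] => [a]
  | a :: b :: l => mg a b :: mp l

/-- value of a list of combinations -/
def evL {A : Type*} [NonUnitalNonAssocRing A] (ρ : ℕ → A) : List Q → A
  | [] => 0
  | p :: l => evQ ρ p + evL ρ l

theorem evL_mp {A : Type*} [NonUnitalNonAssocRing A] (ρ : ℕ → A) (l : List Q) :
    evL ρ (mp l) = evL ρ l := by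
  induction l using mp.induct with
  | case1 => rfl
  | case2 a => rfl
  | case3 a b l ih => simp only [mp, evL, evQ_mg, ih]; abel

/-- repeated merging of adjacent pairs -/
def ms : ℕ → List Q → List Q
  | 0, l => l
  | k + 1, l => ms k (mp l)

theorem evL_ms {A : Type*} [NonUnitalNonAssocRing A] (ρ : ℕ → A) (k : ℕ) : ∀ (l : List Q),
    evL ρ (ms k l) = evL ρ l := by
  induction k with
  | zero => intro l; rfl
  | succ k ih => intro l; rw [ms, ih, evL_mp]

/-! ### instances of identities -/

/-- a context: multiplications on the right (`true`) or on the left (`false`) -/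
abbrev Cx : Type := List (Bool × ℕ)

/-- apply a context to a code -/
def wr : Cx → ℕ → ℕ
  | [], t => t
  | (s, u) :: l, t => wr l (bif s then cb t u else cb u t)

/-- apply a context to an element -/
def wrA {A : Type*} [NonUnitalNonAssocRing A] (ρ : ℕ → A) : Cx → A → A
  | [], t => t
  | (s, u) :: l, t => wrA ρ l (bif s then t * gv ρ u else gv ρ u * t)

theorem gv_wr {A : Type*} [NonUnitalNonAssocRing A] (ρ : ℕ → A) (l : Cx) : ∀ (t : ℕ),
    gv ρ (wr l t) = wrA ρ l (gv ρ t) := by
  induction l with
  | nil => intro t; rfl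
  | cons a l ih =>
    intro t
    obtain ⟨s, u⟩ := a
    cases s
    · simp only [wr, wrA, cond_false, ih, gv_cb]
    · simp only [wr, wrA, cond_true, ih, gv_cb]

theorem wrA_add {A : Type*} [NonUnitalNonAssocRing A] (ρ : ℕ → A) (l : Cx) : ∀ (a b : A),
    wrA ρ l (a + b) = wrA ρ l a + wrA ρ l b := by
  induction l with
  | nil => intro a b; rfl
  | cons x l ih =>
    intro a b
    obtain ⟨s, u⟩ := x
    cases s
    · simp only [wrA, cond_false, mul_add, ih]
    · simp only [wrA, cond_true, add_mul, ih]

theorem wrA_smul {A : Type*} [NonUnitalNonAssocRing A] (ρ : ℕ → A) (l : Cx) : ∀ (c : ℤ) (a : A),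
    wrA ρ l (c • a) = c • wrA ρ l a := by
  induction l with
  | nil => intro a b; rfl
  | cons x l ih =>
    intro c a
    obtain ⟨s, u⟩ := x
    cases s
    · simp only [wrA, cond_false, mul_smul_comm, ih]
    · simp only [wrA, cond_true, smul_mul_assoc, ih]

theorem wrA_zero {A : Type*} [NonUnitalNonAssocRing A] (ρ : ℕ → A) (l : Cx) :
    wrA ρ l (0 : A) = 0 := by
  have := wrA_smul ρ l 0 (0 : A)
  simpa using this

/-- instance of a polynomial -/
def ins (c : ℤ) (σ : List ℕ) (l : Cx) : P → List Q
  | [] => []
  | (d, t) :: p => [(wr l (t.cd σ), c * d)] :: ins c σ l p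

theorem evL_ins {A : Type*} [NonUnitalNonAssocRing A] (ρ : ℕ → A) (c : ℤ) (σ : List ℕ) (l : Cx)
    (p : P) : evL ρ (ins c σ l p) = c • wrA ρ l (evP (fun n => gv ρ (σ.getD n 0)) p) := by
  induction p with
  | nil => simp [ins, evL, evP, wrA_zero]
  | cons a p ih =>
    obtain ⟨d, t⟩ := a
    simp only [ins, evL, evQ, evP, ih, wrA_add, wrA_smul, smul_add, add_zero, gv_wr, gv_cd,
      mul_smul]

/-- target -/
def tgt (D : ℤ) : P → List Q
  | [] => []
  | (d, t) :: p => [(t.c0, D * d)] :: tgt D p

theorem evL_tgt {A : Type*} [NonUnitalNonAssocRing A] (ρ : ℕ → A) (D : ℤ) (p : P) :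
    evL ρ (tgt D p) = D • evP ρ p := by
  induction p with
  | nil => simp [tgt, evL, evP]
  | cons a p ih =>
    obtain ⟨d, t⟩ := a
    simp only [tgt, evL, evQ, evP, ih, smul_add, add_zero, gv_c0, mul_smul]

/-! ### parsing -/

/-- parse a word: base 16, digit 15 is the product, other digits are variables -/
def pT : ℕ → ℕ → ℕ × ℕ
  | 0, n => (0, n)
  | f + 1, n =>
    bif Nat.beq (n % 16) 15 then
      match pT f (n / 16) with
      | (a, r) => match pT f r with
        | (b, r') => (cb a b, r')
    else (2 * (n % 16), n / 16)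

/-- parse `k` words -/
def pL : ℕ → ℕ → List ℕ × ℕ
  | 0, n => ([], n)
  | k + 1, n => match pT 12 n with
    | (a, r) => match pL k r with
      | (l, r') => (a :: l, r')

/-- parse a context: digit 0 ends, digit 1 multiplies on the right, digit 2 on the left -/
def pC : ℕ → ℕ → Cx × ℕ
  | 0, n => ([], n)
  | f + 1, n =>
    bif Nat.beq (n % 16) 0 then ([], n / 16)
    else match pT 12 (n / 16) with
      | (a, r) => match pC f r with
        | (l, r') => ((Nat.beq (n % 16) 1, a) :: l, r')

/-- integers coded by naturals: even numbers `2 k` are `k`, odd numbers `2 k + 1` are `- (k + 1)` -/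
def pZ (n : ℕ) : ℤ := bif Nat.beq (n % 2) 0 then Int.ofNat (n / 2) else Int.negSucc (n / 2)

/-- known identities: number of variables which are constants, number of the other variables, and
polynomial (the first variables are the constants) -/
abbrev Known : Type := List (ℕ × ℕ × P)

/-- the known identities hold, the constants having their values under `ρ` -/
def KHolds {A : Type*} [NonUnitalNonAssocRing A] (ρ : ℕ → A) (K : Known) : Prop :=
  ∀ p ∈ K, ∀ ρ' : ℕ → A, (∀ i < p.1, ρ' i = ρ i) → evP ρ' p.2.2 = 0

/-- the substitution for the constants -/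
def cst : ℕ → ℕ → List ℕ → List ℕ
  | 0, _, l => l
  | k + 1, n, l => (2 * n) :: cst k (n + 1) l

theorem gv_cst {A : Type*} [Mul A] (ρ : ℕ → A) (k : ℕ) : ∀ (n : ℕ) (l : List ℕ) (i : ℕ), i < k →
    gv ρ ((cst k n l).getD i 0) = ρ (n + i) := by
  induction k with
  | zero => intro n l i hi; omega
  | succ k ih =>
    intro n l i hi
    rw [cst]
    cases i with
    | zero => simpa using gv_even ρ n
    | succ i =>
      have := ih (n + 1) l i (by omega)
      simp only [List.getD_cons_succ]
      rw [this]
      congr 1
      omega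

/-- expansion of an item of the certificate: index of the identity (base 16), words, context,
coefficient -/
def item (K : Known) (n : ℕ) : List Q :=
  match K.getD (n % 16) (0, 0, []) with
  | (k0, k, p) => match pL k (n / 16) with
    | (σ, r) => match pC 12 r with
      | (l, r') => ins (pZ r') (cst k0 0 σ) l p

theorem evL_item {A : Type*} [NonUnitalNonAssocRing A] (ρ : ℕ → A) (K : Known)
    (hK : KHolds ρ K) (n : ℕ) : evL ρ (item K n) = 0 := by
  unfold item
  have h : ∀ ρ' : ℕ → A, (∀ i < (K.getD (n % 16) (0, 0, [])).1, ρ' i = ρ i) →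
      evP ρ' (K.getD (n % 16) (0, 0, [])).2.2 = 0 := by
    rw [List.getD_eq_getElem?_getD]
    cases h : K[n % 16]? with
    | none => intro ρ' _; rfl
    | some a =>
      exact hK _ (List.mem_of_getElem? h)
  rcases hkp : K.getD (n % 16) (0, 0, []) with ⟨k0, k, p⟩
  rw [hkp] at h
  simp only
  rw [evL_ins, h, wrA_zero, smul_zero]
  intro i hi
  simp only at hi
  rw [gv_cst ρ k0 0 _ i hi, zero_add]

/-- expansion of a certificate -/
def items (K : Known) : List ℕ → List Q
  | [] => []
  | n :: l => item K n ++ items K l

theorem evL_append {A : Type*} [NonUnitalNonAssocRing A] (ρ : ℕ → A) (l l' : List Q) :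
    evL ρ (l ++ l') = evL ρ l + evL ρ l' := by
  induction l with
  | nil => simp [evL]
  | cons a l ih => simp [evL, ih, add_assoc]

theorem evL_items {A : Type*} [NonUnitalNonAssocRing A] (ρ : ℕ → A) (K : Known)
    (hK : KHolds ρ K) (l : List ℕ) : evL ρ (items K l) = 0 := by
  induction l with
  | nil => rfl
  | cons n l ih => rw [items, evL_append, evL_item ρ K hK, ih, add_zero]

/-- all the combinations are zero -/
def allNil : List Q → Bool
  | [] => true
  | [] :: l => allNil l
  | _ :: _ => false

theorem evL_allNil {A : Type*} [NonUnitalNonAssocRing A] (ρ : ℕ → A) (l : List Q)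
    (h : allNil l = true) : evL ρ l = 0 := by
  induction l using allNil.induct with
  | case1 => rfl
  | case2 l ih => rw [allNil] at h; simp [evL, evQ, ih h]
  | case3 l hl x => simp [allNil] at h

/-- the check of a certificate -/
def check (K : Known) (D : ℤ) (target : P) (cert : List ℕ) : Bool :=
  allNil (ms 32 (tgt D target ++ items K cert))

theorem check_sound {A : Type*} [NonUnitalNonAssocRing A] (ρ : ℕ → A) (K : Known)
    (hK : KHolds ρ K) (D : ℤ) (target : P) (cert : List ℕ)
    (h : check K D target cert = true) : D • evP ρ target = 0 := by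
  have h1 := evL_allNil ρ _ h
  rw [evL_ms, evL_append, evL_items ρ K hK, add_zero, evL_tgt] at h1
  exact h1

/-- the ring has no `6`-torsion -/
def NoTor (A : Type*) [NonUnitalNonAssocRing A] : Prop := ∀ a : A, (6 : ℤ) • a = 0 → a = 0

theorem NoTor.pow {A : Type*} [NonUnitalNonAssocRing A] (hA : NoTor A) (k : ℕ) (a : A)
    (h : (6 : ℤ) ^ k • a = 0) : a = 0 := by
  induction k with
  | zero => simpa using h
  | succ k ih =>
    apply ih
    apply hA
    rw [pow_succ', mul_smul] at h
    exact h

/-- a certificate with denominator a power of `6` proves an identity in rings without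
`6`-torsion -/
theorem ev_of_check {A : Type*} [NonUnitalNonAssocRing A] (hA : NoTor A) {ρ : ℕ → A} (K : Known)
    (hK : KHolds ρ K) (k : ℕ) (target : P) (cert : List ℕ)
    (h : check K (6 ^ k) target cert = true) : evP ρ target = 0 :=
  hA.pow k _ (check_sound ρ K hK _ _ _ h)

/-! ### expressions -/

/-- expressions -/
inductive E : Type
  | v : ℕ → E
  | mul : E → E → E
  | add : E → E → E
  | sub : E → E → E
  | sm : ℤ → E → E

/-- value of an expression -/
def E.ev {A : Type*} [NonUnitalNonAssocRing A] (ρ : ℕ → A) : E → A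
  | .v n => ρ n
  | .mul a b => a.ev ρ * b.ev ρ
  | .add a b => a.ev ρ + b.ev ρ
  | .sub a b => a.ev ρ - b.ev ρ
  | .sm c a => c • a.ev ρ

/-- multiple of a polynomial -/
def psm (c : ℤ) : P → P
  | [] => []
  | (d, t) :: p => (c * d, t) :: psm c p

/-- product of a word and a polynomial -/
def pw (c : ℤ) (t : T) : P → P → P
  | [], r => r
  | (d, u) :: q, r => (c * d, .m t u) :: pw c t q r

/-- product of polynomials -/
def pmul : P → P → P
  | [], _ => []
  | (c, t) :: p, q => pw c t q (pmul p q)

/-- expansion of an expression -/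
def E.p : E → P
  | .v n => [(1, .v n)]
  | .mul a b => pmul a.p b.p
  | .add a b => a.p ++ b.p
  | .sub a b => a.p ++ psm (-1) b.p
  | .sm c a => psm c a.p

theorem evP_append {A : Type*} [NonUnitalNonAssocRing A] (ρ : ℕ → A) (p q : P) :
    evP ρ (p ++ q) = evP ρ p + evP ρ q := by
  induction p with
  | nil => simp [evP]
  | cons a p ih =>
    obtain ⟨c, t⟩ := a
    simp [evP, ih, add_assoc]

theorem evP_psm {A : Type*} [NonUnitalNonAssocRing A] (ρ : ℕ → A) (c : ℤ) (p : P) :
    evP ρ (psm c p) = c • evP ρ p := by
  induction p with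
  | nil => simp [psm, evP]
  | cons a p ih =>
    obtain ⟨d, t⟩ := a
    simp [psm, evP, ih, mul_smul]

theorem evP_pw {A : Type*} [NonUnitalNonAssocRing A] (ρ : ℕ → A) (c : ℤ) (t : T) (q r : P) :
    evP ρ (pw c t q r) = c • (t.ev ρ * evP ρ q) + evP ρ r := by
  induction q with
  | nil => simp [pw, evP]
  | cons a p ih =>
    obtain ⟨d, u⟩ := a
    simp only [pw, evP, ih, mul_smul, T.ev, mul_add, smul_add, mul_smul_comm]
    abel

theorem evP_pmul {A : Type*} [NonUnitalNonAssocRing A] (ρ : ℕ → A) (p q : P) :
    evP ρ (pmul p q) = evP ρ p * evP ρ q := by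
  induction p with
  | nil => simp [pmul, evP]
  | cons a p ih =>
    obtain ⟨c, t⟩ := a
    simp only [pmul, evP_pw, evP, ih, add_mul, smul_mul_assoc]

theorem evP_p {A : Type*} [NonUnitalNonAssocRing A] (ρ : ℕ → A) (e : E) :
    evP ρ e.p = e.ev ρ := by
  induction e with
  | v n => simp [E.p, evP, E.ev, T.ev]
  | mul a b iha ihb => simp [E.p, evP_pmul, E.ev, iha, ihb]
  | add a b iha ihb => simp [E.p, evP_append, E.ev, iha, ihb]
  | sub a b iha ihb => simp [E.p, evP_append, evP_psm, E.ev, iha, ihb, sub_eq_add_neg]
  | sm c a iha => simp [E.p, evP_psm, E.ev, iha]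

/-- associator of expressions -/
@[reducible] def E.as (a b c : E) : E := .sub (.mul (.mul a b) c) (.mul a (.mul b c))
/-- commutator of expressions -/
@[reducible] def E.cm (a b : E) : E := .sub (.mul a b) (.mul b a)

/-- a certificate with denominator a power of `6` proves an identity in rings without
`6`-torsion -/
theorem ev_of_check' {A : Type*} [NonUnitalNonAssocRing A] (hA : NoTor A) {ρ : ℕ → A} (K : Known)
    (hK : KHolds ρ K) (k : ℕ) (target : E) (cert : List ℕ)
    (h : check K (6 ^ k) target.p cert = true) : target.ev ρ = 0 := by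
  rw [← evP_p]
  exact ev_of_check hA K hK k _ cert h

end Pool.Agent.NACert
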